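import Mathlib

set_option autoImplicit false
set_option linter.dupNamespace false

namespace Pool.Agent.P.MP_2ab770_pr

open Finset Filter Topology

theorem renewal (r a : ℕ → ℝ) (ε : ℝ) (hε : ε < 1) (hr0 : r 0 = 0) (ha0 : a 0 = 1)
    (hrec : ∀ n, a (n + 1) = ∑ i ∈ range (n + 2), r i * a (n + 1 - i))
    (hsum : HasSum r 1)
    (hw : ∀ K, ∑ m ∈ range K, ((m : ℝ) + 1) * |r (m + 2)| ≤ ε) :
    ∃ A, Tendsto a atTop (𝓝 A) := by
  have hε0 : 0 ≤ ε := by simpa using hw 0
  set t : ℕ → ℝ := fun j => 1 - ∑ i ∈ range (j + 1), r i with ht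
  have ht0 : t 0 = 1 := by simp [ht, hr0]
  have hts : ∀ j, t (j + 1) = t j - r (j + 1) := by
    intro j; simp only [ht]; rw [sum_range_succ _ (j + 1)]; ring
  have htail : ∀ j, HasSum (fun i => r (i + (j + 1))) (t j) := fun j =>
    (hasSum_nat_add_iff' (j + 1)).2 hsum
  have hT : ∀ K, ∑ j ∈ range K, |t (j + 1)| ≤ ε := by
    intro K
    have hlim : Tendsto (fun N => ∑ j ∈ range K, |∑ i ∈ range N, r (i + (j + 1 + 1))|) atTop
        (𝓝 (∑ j ∈ range K, |t (j + 1)|)) :=
      tendsto_finsetSum _ fun j _ => ((htail (j + 1)).tendsto_sum_nat).abs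
    refine le_of_tendsto' hlim fun N => ?_
    have h1 := sum_range_diag_flip (K + N) (fun j i => |r (j + i + 2)|)
    have h2 : ∑ m ∈ range (K + N), ∑ k ∈ range (m + 1), |r (k + (m - k) + 2)| =
        ∑ m ∈ range (K + N), ((m : ℝ) + 1) * |r (m + 2)| := by
      refine sum_congr rfl fun m _ => ?_
      rw [sum_congr rfl (g := fun _ => |r (m + 2)|)]
      · simp
      · intro k hk
        have := mem_range.1 hk
        rw [show k + (m - k) = m by omega]
    calc _ ≤ ∑ j ∈ range K, ∑ i ∈ range (K + N - j), |r (j + i + 2)| := by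
          refine sum_le_sum fun j hj => (abs_sum_le_sum_abs _ _).trans ?_
          have := mem_range.1 hj
          calc _ = ∑ i ∈ range N, |r (j + i + 2)| :=
                sum_congr rfl fun i _ => by rw [show i + (j + 1 + 1) = j + i + 2 by ring]
            _ ≤ _ := sum_le_sum_of_subset_of_nonneg (range_subset_range.2 (by omega))
                (fun _ _ _ => abs_nonneg _)
      _ ≤ ∑ j ∈ range (K + N), ∑ i ∈ range (K + N - j), |r (j + i + 2)| :=
          sum_le_sum_of_subset_of_nonneg (range_subset_range.2 (by omega))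
            (fun _ _ _ => sum_nonneg fun _ _ => abs_nonneg _)
      _ ≤ ε := by rw [← h1, h2]; exact hw _
  set d : ℕ → ℝ := fun n => Nat.casesOn n 1 (fun m => a (m + 1) - a m) with hd
  have hd0 : d 0 = 1 := rfl
  have hds : ∀ n, d (n + 1) = a (n + 1) - a n := fun n => rfl
  have had : ∀ n, a n = ∑ i ∈ range (n + 1), d i := by
    intro n
    induction n with
    | zero => simp [hd0, ha0]
    | succ n ih => rw [sum_range_succ, ← ih, hds]; ring
  have hid : ∀ n, d (n + 1) = - ∑ j ∈ range (n + 1), t (j + 1) * d (n - j) := by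
    intro n
    have e1 : ∑ j ∈ range (n + 1), t (j + 1) * d (n - j) =
        ∑ j ∈ range (n + 1), t (j + 1) * a (n - j) - ∑ j ∈ range n, t (j + 1) * a (n - 1 - j) := by
      rw [sum_range_succ, sum_range_succ (fun j => t (j + 1) * a (n - j)), Nat.sub_self, hd0, ha0]
      have : ∑ j ∈ range n, t (j + 1) * d (n - j) =
          ∑ j ∈ range n, (t (j + 1) * a (n - j) - t (j + 1) * a (n - 1 - j)) := by
        refine sum_congr rfl fun j hj => ?_
        have := mem_range.1 hj
        rw [show n - j = (n - 1 - j) + 1 by omega, hds]; ring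
      rw [this, sum_sub_distrib]; ring
    have e2 : ∑ j ∈ range (n + 1), t (j + 1) * a (n - j) =
        ∑ j ∈ range (n + 1), t j * a (n - j) - ∑ j ∈ range (n + 1), r (j + 1) * a (n - j) := by
      rw [← sum_sub_distrib]
      refine sum_congr rfl fun j _ => ?_
      rw [hts]; ring
    have e3 : ∑ j ∈ range (n + 1), t j * a (n - j) =
        a n + ∑ j ∈ range n, t (j + 1) * a (n - 1 - j) := by
      rw [sum_range_succ', ht0, Nat.sub_zero, one_mul, add_comm]
      congr 1
      refine sum_congr rfl fun j _ => ?_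
      rw [show n - (j + 1) = n - 1 - j by omega]
    have e4 : a (n + 1) = ∑ j ∈ range (n + 1), r (j + 1) * a (n - j) := by
      rw [hrec, sum_range_succ', hr0, zero_mul, add_zero]
      refine sum_congr rfl fun j _ => ?_
      rw [show n + 1 - (j + 1) = n - j by omega]
    rw [e1, e2, e3, hds, e4]; ring
  have hS : ∀ K, ∑ n ∈ range K, |d n| ≤ 1 / (1 - ε) := by
    have hpos : 0 < 1 - ε := by linarith
    intro K
    induction K with
    | zero => simp; linarith
    | succ K ih =>
      rw [sum_range_succ', hd0, abs_one]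
      have h1 : ∑ n ∈ range K, |d (n + 1)| ≤
          ∑ n ∈ range K, ∑ j ∈ range (n + 1), |t (j + 1)| * |d (n - j)| := by
        refine sum_le_sum fun n _ => ?_
        rw [hid, abs_neg]
        refine (abs_sum_le_sum_abs _ _).trans (le_of_eq ?_)
        exact sum_congr rfl fun j _ => abs_mul _ _
      rw [sum_range_diag_flip K (fun j i => |t (j + 1)| * |d i|)] at h1
      have h2 : ∑ j ∈ range K, ∑ i ∈ range (K - j), |t (j + 1)| * |d i| ≤
          ∑ j ∈ range K, |t (j + 1)| * (1 / (1 - ε)) := by
        refine sum_le_sum fun j _ => ?_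
        rw [← mul_sum]
        refine mul_le_mul_of_nonneg_left (le_trans ?_ ih) (abs_nonneg _)
        exact sum_le_sum_of_subset_of_nonneg (range_subset_range.2 (by omega))
            (fun _ _ _ => abs_nonneg _)
      rw [← sum_mul] at h2
      have h3 : (∑ j ∈ range K, |t (j + 1)|) * (1 / (1 - ε)) ≤ ε * (1 / (1 - ε)) :=
        mul_le_mul_of_nonneg_right (hT K) (by positivity)
      have h4 : ε * (1 / (1 - ε)) + 1 = 1 / (1 - ε) := by field_simp; ring
      linarith
  have hsd : Summable d := (summable_of_sum_range_le (fun _ => abs_nonneg _) hS).of_abs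
  refine ⟨∑' n, d n, ?_⟩
  have := (tendsto_add_atTop_iff_nat 1).2 hsd.hasSum.tendsto_sum_nat
  exact this.congr fun n => (had n).symm

end Pool.Agent.P.MP_2ab770_pr
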