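import Pool.Agent.P.MP_2ab770_pr.Improve
import Pool.Agent.P.MP_2ab770_pr.Renewal

set_option autoImplicit false
set_option linter.dupNamespace false
set_option linter.unusedVariables false

namespace Pool.Agent.P.MP_2ab770_pr

open Finset Filter Topology MeasureTheory Real

variable {d : ℕ} {M : Model (Lt d)}

lemma tot_ind_le (n : ℕ) : tot M.ind n ≤ (2 * d) ^ n := by
  calc _ ≤ ∑ _w ∈ words (Lt d) n, (1 : ℝ) := sum_le_sum fun w _ => M.ind_le_one w
    _ = _ := by simp [card_words, mul_comm]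

open Classical in
lemma tot_ind_ge (hM : Nice M) (n : ℕ) : (d : ℝ) ^ n ≤ tot M.ind n := by
  have h1 : ∀ n : ℕ, ∑ w ∈ words (Lt d) n, (if ∀ a ∈ w, a.2 = true then (1 : ℝ) else 0) =
      (d : ℝ) ^ n := by
    intro n
    induction n with
    | zero => rw [sum_words_zero]; simp
    | succ n ih =>
      rw [sum_words_succ]
      have : ∀ a : Lt d, ∑ w ∈ words (Lt d) n,
          (if ∀ b ∈ a :: w, b.2 = true then (1 : ℝ) else 0) = if a.2 = true then (d : ℝ) ^ n else 0 := by
        intro a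
        by_cases ha : a.2 = true
        · rw [if_pos ha, ← ih]
          refine sum_congr rfl fun w _ => ?_
          simp only [List.forall_mem_cons, ha, true_and]
        · rw [if_neg ha]
          refine sum_eq_zero fun w _ => if_neg fun h => ha (h a List.mem_cons_self)
      simp_rw [this]
      simp [Fintype.sum_prod_type, pow_succ, mul_comm]
  rw [← h1]
  refine sum_le_sum fun w _ => ?_
  split_ifs with h
  · rw [M.ind_good (hM.pos w h)]
  · exact M.ind_nonneg w

lemma tot_ind_add (m n : ℕ) : tot M.ind (m + n) ≤ tot M.ind m * tot M.ind n := by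
  rw [tot, sum_words_add, tot, tot, sum_mul_sum]
  exact sum_le_sum fun u _ => sum_le_sum fun v _ => M.ind_append_le u v

lemma loc_le_tot (n : ℕ) (x : Fin d → ℤ) : loc M.ind n x ≤ tot M.ind n :=
  sum_le_sum fun w _ => by split_ifs; exacts [le_rfl, M.ind_nonneg w]

lemma summ_iff {z : ℝ} : Summ M.ind z ↔ Summable fun n => tot M.ind n * z ^ n := by
  simp only [Summ, nrm_ind]

lemma summ_of_lt_one {z : ℝ} (hz : 0 ≤ z) {N : ℕ} (h : tot M.ind N * z ^ N < 1) :
    Summ M.ind z := by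
  rw [summ_iff]
  have hnn : ∀ n, 0 ≤ tot M.ind n * z ^ n := fun n => mul_nonneg (tot_ind_nonneg n) (by positivity)
  set q := tot M.ind N * z ^ N with hq
  set B := ∑ n ∈ range N, tot M.ind n * z ^ n
  refine summable_of_sum_range_le hnn (c := B / (1 - q)) fun K => ?_
  have h1 : ∑ n ∈ range K, tot M.ind n * z ^ n ≤ ∑ n ∈ range (N + K), tot M.ind n * z ^ n :=
    sum_le_sum_of_subset_of_nonneg (range_subset_range.2 (by omega)) fun n _ _ => hnn n
  rw [sum_range_add] at h1
  have h2 : ∑ n ∈ range K, tot M.ind (N + n) * z ^ (N + n) ≤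
      q * ∑ n ∈ range K, tot M.ind n * z ^ n := by
    rw [mul_sum]
    refine sum_le_sum fun n _ => ?_
    calc _ ≤ tot M.ind N * tot M.ind n * z ^ (N + n) :=
          mul_le_mul_of_nonneg_right (tot_ind_add N n) (by positivity)
      _ = _ := by rw [hq, pow_add]; ring
  rw [le_div_iff₀ (by linarith)]
  linarith

lemma crit (hd : 0 < d) (hM : Nice M) : ∃ zc : ℝ, 0 < zc ∧ d * zc ≤ 1 ∧
    (∀ z, 0 ≤ z → z < zc → Summable fun n : ℕ => ((n : ℝ) + 1) ^ 3 * (tot M.ind n * z ^ n)) ∧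
    (∀ z, 0 ≤ z → z < zc → Summ M.ind z) ∧ ∀ N, 1 ≤ tot M.ind N * zc ^ N := by
  have hd0 : (0 : ℝ) < d := by exact_mod_cast hd
  set Z : Set ℝ := {z | 0 ≤ z ∧ Summ M.ind z} with hZ
  have hZb : ∀ z ∈ Z, z ≤ 1 / d := by
    intro z hz
    by_contra hc
    push Not at hc
    rw [div_lt_iff₀ hd0] at hc
    have h1 := (summ_iff.1 hz.2).tendsto_atTop_zero
    have h2 : ∀ n, (1 : ℝ) ≤ tot M.ind n * z ^ n := by
      intro n
      calc (1 : ℝ) ≤ (d * z) ^ n := one_le_pow₀ (by linarith)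
        _ = d ^ n * z ^ n := mul_pow _ _ _
        _ ≤ _ := mul_le_mul_of_nonneg_right (tot_ind_ge hM n) (pow_nonneg hz.1 n)
    have := ge_of_tendsto' h1 h2
    linarith
  have hbdd : BddAbove Z := ⟨1 / d, hZb⟩
  have hmem : 1 / (4 * (d : ℝ)) ∈ Z := by
    refine ⟨by positivity, summ_of_lt_one (by positivity) (N := 1) ?_⟩
    calc _ ≤ (2 * d) ^ 1 * (1 / (4 * (d : ℝ))) ^ 1 := by gcongr; exact tot_ind_le 1
      _ = 1 / 2 := by field_simp; ring
      _ < 1 := by norm_num
  set zc := sSup Z with hzc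
  have hzc0 : 0 < zc := lt_of_lt_of_le (by positivity) (le_csSup hbdd hmem)
  have hzc1 : d * zc ≤ 1 := by
    have := csSup_le ⟨_, hmem⟩ hZb
    rw [le_div_iff₀ hd0] at this; linarith
  have hsub : ∀ z, 0 ≤ z → z < zc →
      Summable fun n : ℕ => ((n : ℝ) + 1) ^ 3 * (tot M.ind n * z ^ n) := by
    intro z hz hlt
    obtain ⟨z1, hz1, hlt1⟩ := exists_lt_of_lt_csSup ⟨_, hmem⟩ hlt
    have hz10 : 0 < z1 := lt_of_le_of_lt hz hlt1
    have hs1 := summ_iff.1 hz1.2
    have hnn : ∀ n, 0 ≤ tot M.ind n * z1 ^ n :=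
      fun n => mul_nonneg (tot_ind_nonneg n) (by positivity)
    set B := ∑' n, tot M.ind n * z1 ^ n
    have hB : ∀ n, tot M.ind n * z1 ^ n ≤ B := fun n => hs1.le_tsum n fun m _ => hnn m
    have hr : ‖z / z1‖ < 1 := by
      rw [Real.norm_of_nonneg (by positivity), div_lt_one hz10]; exact hlt1
    have g3 := summable_pow_mul_geometric_of_norm_lt_one 3 hr
    have g2 := summable_pow_mul_geometric_of_norm_lt_one 2 hr
    have g1 := summable_pow_mul_geometric_of_norm_lt_one 1 hr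
    have g0 := summable_pow_mul_geometric_of_norm_lt_one 0 hr
    have g := (((g3.add (g2.mul_left 3)).add (g1.mul_left 3)).add g0).mul_right B
    refine Summable.of_nonneg_of_le (fun n => by
      have := tot_ind_nonneg (M := M) n; positivity) (fun n => ?_) g
    have e : tot M.ind n * z ^ n = (z / z1) ^ n * (tot M.ind n * z1 ^ n) := by
      rw [div_pow]; field_simp
    rw [e]
    calc _ ≤ ((n : ℝ) + 1) ^ 3 * ((z / z1) ^ n * B) := by gcongr; exact hB n
      _ = _ := by ring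
  have hsum : ∀ z, 0 ≤ z → z < zc → Summ M.ind z := by
    intro z hz hlt
    rw [summ_iff]
    have hnn : ∀ n, 0 ≤ tot M.ind n * z ^ n :=
      fun n => mul_nonneg (tot_ind_nonneg n) (by positivity)
    refine Summable.of_nonneg_of_le hnn (fun n => ?_) (hsub z hz hlt)
    have : (1 : ℝ) ≤ ((n : ℝ) + 1) ^ 3 := one_le_pow₀ (by simp)
    nlinarith [hnn n]
  have hge : ∀ N, 1 ≤ tot M.ind N * zc ^ N := by
    intro N
    by_contra hc
    push Not at hc
    have hcont : ContinuousAt (fun z : ℝ => tot M.ind N * z ^ N) zc := by fun_prop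
    have hev := (hcont.eventually (gt_mem_nhds hc)).filter_mono
      (nhdsWithin_le_nhds (s := Set.Ioi zc))
    obtain ⟨z, hz1, hz2⟩ := (hev.and self_mem_nhdsWithin).exists
    have hz2' : zc < z := hz2
    have : z ∈ Z := ⟨by linarith, summ_of_lt_one (by linarith) hz1⟩
    exact absurd (le_csSup hbdd this) (not_le.2 hz2')
  exact ⟨zc, hzc0, hzc1, hsub, hsum, hge⟩

lemma finish {zc ε : ℝ} (hzc0 : 0 < zc) (hε : ε < 1) (hsum : ∀ z, 0 ≤ z → z < zc → Summ M.ind z)
    (hge : ∀ N, 1 ≤ tot M.ind N * zc ^ N)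
    (hrho : ∀ K, ∑ n ∈ range K, ((n : ℝ) + 1) * (nrm M.rho (n + 2) * zc ^ (n + 2)) ≤ ε) :
    ∃ μ A : ℝ, 0 < μ ∧ 1 ≤ A ∧ Tendsto (fun n => tot M.ind n / μ ^ n) atTop (𝓝 A) := by
  have hsc : Summ M.rho zc := by
    have hnn : ∀ n, 0 ≤ nrm M.rho n * zc ^ n := fun n =>
      mul_nonneg (nrm_nonneg _ _) (pow_nonneg hzc0.le _)
    refine (summable_nat_add_iff 2).1 (summable_of_sum_range_le (fun n => hnn _) fun K =>
      le_trans (sum_le_sum fun n _ => le_mul_of_one_le_left (hnn _) (by simp)) (hrho K))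
  set R : ℝ → ℝ := fun s => ∑' n : ℕ, tot M.rho n * s ^ n with hR
  have hbn : ∀ n s, s ∈ Set.Icc 0 zc → ‖tot M.rho n * s ^ n‖ ≤ nrm M.rho n * zc ^ n := by
    intro n s hs
    have h0 := hs.1
    have := nrm_nonneg M.rho n
    rw [norm_mul, norm_pow, Real.norm_of_nonneg h0]
    gcongr
    · exact abs_tot_le _ _
    · exact hs.2
  have hRc : ContinuousOn R (Set.Icc 0 zc) :=
    continuousOn_tsum (fun n => by fun_prop) hsc hbn
  have hR1 : R zc = 1 := by
    have hw : ContinuousWithinAt R (Set.Ico 0 zc) zc :=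
      (hRc zc ⟨hzc0.le, le_rfl⟩).mono Set.Ico_subset_Icc_self
    have ht : Tendsto R (𝓝[<] zc) (𝓝 (R zc)) := by
      rw [← nhdsWithin_Ico_eq_nhdsLT hzc0]; exact hw
    have hev : ∀ᶠ s in 𝓝[<] zc, s / zc ≤ R s ∧ R s ≤ 1 := by
      filter_upwards [Ico_mem_nhdsLT hzc0] with s hs
      have hs1 : Summ M.rho s := Summable.of_nonneg_of_le
        (fun n => mul_nonneg (nrm_nonneg _ _) (pow_nonneg hs.1 _))
        (fun n => mul_le_mul_of_nonneg_left (pow_le_pow_left₀ hs.1 hs.2.le _) (nrm_nonneg _ _)) hsc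
      have hid := real_identity hs.1 hs1 (hsum s hs.1 hs.2)
      have hr0 : 0 ≤ s / zc := div_nonneg hs.1 hzc0.le
      have hr1 : s / zc < 1 := (div_lt_one hzc0).2 hs.2
      have hgeo : (1 - s / zc)⁻¹ ≤ ∑' n, tot M.ind n * s ^ n := by
        rw [← tsum_geometric_of_lt_one hr0 hr1]
        refine (summable_geometric_of_lt_one hr0 hr1).tsum_le_tsum (fun n => ?_)
          (summ_iff.1 (hsum s hs.1 hs.2))
        have e : tot M.ind n * s ^ n = (s / zc) ^ n * (tot M.ind n * zc ^ n) := by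
          rw [div_pow]; field_simp
        rw [e]
        exact le_mul_of_one_le_right (by positivity) (hge n)
      set χ := ∑' n, tot M.ind n * s ^ n
      have hp : 0 < 1 - s / zc := by linarith
      have hχ0 : 0 < χ := lt_of_lt_of_le (by positivity) hgeo
      have h1 : 1 ≤ χ * (1 - s / zc) := by
        rw [inv_le_iff_one_le_mul₀ hp] at hgeo; exact hgeo
      change χ * (1 - R s) = 1 at hid
      constructor
      · by_contra hc
        push Not at hc
        nlinarith
      · by_contra hc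
        push Not at hc
        nlinarith
    have ht2 : Tendsto (fun s => s / zc) (𝓝[<] zc) (𝓝 1) := by
      have : Tendsto (fun s => s / zc) (𝓝 zc) (𝓝 (zc / zc)) := tendsto_id.div_const zc
      rw [div_self hzc0.ne'] at this
      exact this.mono_left nhdsWithin_le_nhds
    exact le_antisymm (le_of_tendsto ht (hev.mono fun s h => h.2))
      (le_of_tendsto_of_tendsto ht2 ht (hev.mono fun s h => h.1))
  have hsR : HasSum (fun n => tot M.rho n * zc ^ n) 1 := by
    rw [← hR1]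
    exact (Summable.of_norm_bounded hsc fun n => hbn n zc ⟨hzc0.le, le_rfl⟩).hasSum
  suffices h : ∃ A, Tendsto (fun n => tot M.ind n * zc ^ n) atTop (𝓝 A) by
    obtain ⟨A, hA⟩ := h
    refine ⟨1 / zc, A, by positivity, ge_of_tendsto' hA hge, hA.congr fun n => ?_⟩
    simp
  refine renewal (fun n => tot M.rho n * zc ^ n) (fun n => tot M.ind n * zc ^ n)
    ε hε (by simp [tot_rho_zero]) (by simp [tot_ind_zero]) ?_ hsR ?_
  · intro n
    have e : tot M.ind (n + 1) = tot (cat M.rho M.ind) (n + 1) := by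
      refine sum_congr rfl fun w hw => ?_
      have : w ≠ [] := by rintro rfl; simpa using mem_words.1 hw
      rw [M.ind_eq w, if_neg this, zero_add, cat]
    rw [e, tot_cat, sum_mul]
    refine sum_congr rfl fun i hi => ?_
    have := mem_range.1 hi
    conv_lhs => rw [show n + 1 = i + (n + 1 - i) by omega, pow_add]
    rw [show i + (n + 1 - i) - i = n + 1 - i by omega]; ring
  · intro K
    exact le_trans (sum_le_sum fun m _ => mul_le_mul_of_nonneg_left
      (hbn (m + 2) zc ⟨hzc0.le, le_rfl⟩) (by positivity)) (hrho K)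

theorem general : ∃ d0 : ℕ, ∀ d : ℕ, d0 ≤ d → ∀ M : Model (Lt d), Nice M →
    ∃ μ A : ℝ, 0 < μ ∧ 1 ≤ A ∧ Tendsto (fun n => tot M.ind n / μ ^ n) atTop (𝓝 A) := by
  obtain ⟨d0, hd01, himp⟩ := improve
  refine ⟨d0, fun d hd M hM => ?_⟩
  obtain ⟨zc, hzc0, hzc1, hsub, hsum, hge⟩ := crit (by omega) hM
  -- bootstrap
  have hboot : Set.Icc 0 zc ⊆ {z | Bd M z (1 / 160)} := by
    refine IsClosed.Icc_subset_of_forall_exists_gt ?_ ?_ ?_
    · refine IsClosed.inter ?_ isClosed_Icc
      simp only [Bd, Set.ofPred_forall]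
      exact isClosed_iInter fun x => isClosed_iInter fun K =>
        isClosed_le (by fun_prop) continuous_const
    · intro x K; simp
    · rintro z ⟨hB, hz0, hz1⟩ y hy
      set z1 := (z + zc) / 2 with hz1d
      have hz1a : z < z1 := by rw [hz1d]; linarith
      have hz1b : z1 < zc := by rw [hz1d]; linarith
      set φ : ℝ → ℝ := fun s => ∑' n : ℕ, ((n : ℝ) + 1) ^ 3 * (tot M.ind n * s ^ n) with hφ
      have hφc : ContinuousOn φ (Set.Icc 0 z1) := by
        refine continuousOn_tsum (fun n => by fun_prop) (hsub z1 (by linarith) hz1b) ?_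
        intro n s hs
        have := tot_ind_nonneg (M := M) n
        have h0 := hs.1
        rw [Real.norm_of_nonneg (by positivity)]
        gcongr; exact hs.2
      have hw : ContinuousWithinAt φ (Set.Ioc z z1) z :=
        (hφc z ⟨hz0, hz1a.le⟩).mono fun s hs => ⟨hz0.trans hs.1.le, hs.2⟩
      have hev := hw.eventually (gt_mem_nhds (show φ z < φ z + 1 / 160 by linarith))
      rw [nhdsWithin_Ioc_eq_nhdsGT hz1a] at hev
      have ev1 : ∀ᶠ s in 𝓝[>] z, s ∈ Set.Ioc z z1 := Ioc_mem_nhdsGT hz1a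
      have ev2 : ∀ᶠ s in 𝓝[>] z, s ∈ Set.Ioc z y := Ioc_mem_nhdsGT (show z < y from hy)
      obtain ⟨s, hs1, hs2, hs3⟩ := (hev.and (ev1.and ev2)).exists
      have hs0 : 0 ≤ s := hz0.trans hs2.1.le
      have hsc : s < zc := lt_of_le_of_lt hs2.2 hz1b
      refine ⟨s, ?_, hs3⟩
      refine himp d hd M hM s hs0 (le_trans (by gcongr) hzc1) (hsum s hs0 hsc) ?_
      intro x K
      have h1 := hB x K
      have hsd := (hsub s hs0 hsc).hasSum.sub (hsub z hz0 hz1).hasSum
      have hnn : ∀ n : ℕ, 0 ≤ ((n : ℝ) + 1) ^ 3 * (tot M.ind n * s ^ n) -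
          ((n : ℝ) + 1) ^ 3 * (tot M.ind n * z ^ n) := by
        intro n
        have := tot_ind_nonneg (M := M) n
        have h3 := hs2.1.le
        rw [sub_nonneg]; gcongr
      have h2 := sum_le_hasSum (range (K + 1)) (fun n _ => hnn n) hsd
      rw [sum_range_succ'] at h2
      have h3 : ∑ n ∈ range K, ((n : ℝ) + 2) ^ 3 * loc M.ind (n + 1) x * s ^ (n + 1) ≤
          ∑ n ∈ range K, (((n : ℝ) + 2) ^ 3 * loc M.ind (n + 1) x * z ^ (n + 1) +
            ((((n + 1 : ℕ) : ℝ) + 1) ^ 3 * (tot M.ind (n + 1) * s ^ (n + 1)) -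
              (((n + 1 : ℕ) : ℝ) + 1) ^ 3 * (tot M.ind (n + 1) * z ^ (n + 1)))) := by
        refine sum_le_sum fun n _ => ?_
        have a1 : z ^ (n + 1) ≤ s ^ (n + 1) := pow_le_pow_left₀ hz0 hs2.1.le _
        have a2 := loc_le_tot (M := M) (n + 1) x
        have a3 : 0 ≤ ((n : ℝ) + 2) ^ 3 * ((tot M.ind (n + 1) - loc M.ind (n + 1) x) *
            (s ^ (n + 1) - z ^ (n + 1))) :=
          mul_nonneg (by positivity) (mul_nonneg (by linarith) (by linarith))
        push_cast
        rw [show (n : ℝ) + 1 + 1 = n + 2 by ring]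
        nlinarith
      rw [sum_add_distrib] at h3
      have h4 := hnn 0
      simp only [hφ] at hs1
      linarith
  refine finish (ε := 8 * (1 / 160)) hzc0 (by norm_num) hsum hge fun K => ?_
  refine le_trans (sum_le_sum fun m _ => ?_)
    (Bd.rho hM hzc0.le hzc1 (by norm_num) (hboot ⟨hzc0.le, le_rfl⟩) K)
  have h2 : (m : ℝ) + 1 ≤ ((m : ℝ) + 2) ^ 2 := by nlinarith [(Nat.cast_nonneg m : (0 : ℝ) ≤ m)]
  rw [mul_assoc]
  exact mul_le_mul_of_nonneg_right h2 (mul_nonneg (nrm_nonneg _ _) (by positivity))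

end Pool.Agent.P.MP_2ab770_pr
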