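import Pool.Agent.P.MP_2ab770_pr.XB

set_option autoImplicit false
set_option linter.dupNamespace false
set_option linter.unusedVariables false
set_option linter.unusedSectionVars false

namespace Pool.Agent.P.MP_2ab770_pr

open Finset Filter Topology MeasureTheory
open scoped ENNReal NNReal

variable {d : ℕ}

/-- constants for one interval of the bootstrap -/
structure Ct (R : Type) where
  (lo hi K W G0 g3 G1 GG0 GGe GG1 b nu U AU BU l lp Ga Gb Mo Me A1 B1 A2 B2 A3 B3 : R)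
  (sm sp pm pq Kn Ke lam al g h h0 Wn L : R)

/-- change of scalars -/
def Ct.map {R S : Type} (f : R → S) (C : Ct R) : Ct S :=
  ⟨f C.lo, f C.hi, f C.K, f C.W, f C.G0, f C.g3, f C.G1, f C.GG0, f C.GGe, f C.GG1, f C.b,
    f C.nu, f C.U, f C.AU, f C.BU, f C.l, f C.lp, f C.Ga, f C.Gb, f C.Mo, f C.Me, f C.A1,
    f C.B1, f C.A2, f C.B2, f C.A3, f C.B3, f C.sm, f C.sp, f C.pm, f C.pq, f C.Kn, f C.Ke,
    f C.lam, f C.al, f C.g, f C.h, f C.h0, f C.Wn, f C.L⟩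

section
variable {R S : Type} [Semifield R] [LinearOrder R] [Semifield S] [LinearOrder S]

/-- admissible pair -/
def adm (A B : R) : Prop := ¬ A ≤ 1 ∧ A + B ≤ A * B

/-- infrared condition -/
def kap (K sm pq t z : R) : Prop :=
  ¬ K ≤ 0 ∧ (K⁻¹ + sm ≤ t * (1 + z * z) ∨ 2 * (K⁻¹ + sm) + pq ≤ 1 + t * (1 + z * z) + t * z)

/-- position space conditions -/
def Ct.ok1 (C : Ct R) (zl zh J1 J2 J : R) : Prop :=
  1 + C.hi ^ 2 * (C.K * J1) ≤ C.G0 + C.lo * zl ∧ C.hi ^ 3 * (C.K * J2) ≤ C.g3 + C.lo * zl * zl ∧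
  zh + C.g3 ≤ C.G1 ∧ C.hi ^ 2 * (C.K * J1) ≤ C.G1 ∧ C.K ^ 2 * (1 + 2 * J1 + J) ≤ C.GG0 ∧
  zh + C.g3 + C.hi * (C.K ^ 2 * J) ≤ C.GGe ∧ 2 * C.G1 + C.GG0 ≤ C.GG1 + 1 ∧
  zh * (C.K ^ 2 * (1 + 3 * J1 + 2 * J)) ≤ C.b ∧ zh * (C.GG1 + C.GG1) ≤ C.b ∧
  zh * (C.G0 + C.g3) ≤ C.nu ∧ zh * (C.G1 + C.G1) ≤ C.nu ∧ C.G0 ≤ C.U ∧
  C.AU * C.W + C.BU * C.G1 ≤ C.U ∧ adm C.AU C.BU ∧ C.W ≤ C.U ∧ C.GG0 ≤ 1 + C.l + C.lo * zl ∧
  C.hi * (C.K ^ 2 * J) ≤ C.lp + zl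

/-- diagram conditions -/
def Ct.ok2 (C : Ct R) (zh : R) : Prop :=
  1 + C.b ^ 2 * C.Ga ≤ C.Ga ∧ 1 + C.b * C.Gb ≤ C.Gb ∧
  2 * (zh * zh * (C.U * C.GGe + C.W * C.GG0)) + 4 * zh * C.U * C.b ^ 3 * C.Ga +
    2 * C.b ^ 2 * C.Mo ≤ C.Mo ∧
  4 * zh * C.U * C.b ^ 2 * C.Ga + 2 * C.b ^ 2 * (zh * (C.W + C.U) + C.Me) ≤ C.Me ∧
  adm C.A1 C.B1 ∧ adm C.A2 C.B2 ∧ adm C.A3 C.B3 ∧
  C.b + 2 * zh * C.GG0 * (1 + C.hi) * C.b * C.Gb + C.b * C.L ≤ C.L

/-- conditions on the kernel -/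
def Ct.ok3 (C : Ct R) (zl zh ze J1 J : R) : Prop :=
  C.hi * (zh * (C.G0 + C.g3) + (zh * (1 + C.l) + zh * (C.g3 + C.lp)) * C.nu * C.b * C.Ga) ≤ C.pm ∧
  C.hi * ((zh * (1 + C.l) + zh * (C.g3 + C.lp)) * C.nu * C.Ga) ≤ C.pq + C.lo * (zl * zl) ∧
  C.hi * (zh * C.g3 + zh * (1 + C.l) * C.Mo +
    zh * (C.g3 + C.lp) * (C.A1 * C.nu * C.b * C.Ga + C.B1 * C.Mo)) ≤ C.sm ∧
  C.hi * (zh * zh * C.G0 * C.G0 + zh * C.l * (zh * (C.W + C.U)) + zh * zh * C.g3 * C.g3 +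
    zh * C.lp * (C.A2 * C.nu + C.B2 * (zh * (C.W + C.U))) + (zh * (1 + C.l) * C.Me +
      zh * (C.g3 + C.lp) * (C.A3 * C.nu * C.b ^ 2 * C.Ga + C.B3 * C.Me))) ≤
        C.sp + C.lo * (zl * zl) ∧
  kap C.Kn C.sm C.pq C.lo zl ∧ kap C.Ke C.sm C.pq C.hi ze ∧
  C.Kn * (C.hi * (1 + zh * zh) + C.sm) ^ 2 ≤ C.lam ∧
  C.sp * C.GG0 + C.sm * C.GG1 + C.al + 2 * C.g * J1 + C.h * (J1 + J) +
    2 * C.h0 * (1 + 2 * J1 + J) ≤ C.Wn ∧
  100 * (C.hi * C.L) ≤ 99 ∧ ¬ C.K ≤ C.Kn ∧ ¬ C.W ≤ C.Wn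

/-- all semiring conditions -/
def Ct.ok (C : Ct R) (xl xh : R) : Prop :=
  C.ok1 (xl * C.lo) (xh * C.hi) (1564 / 10000) (564 / 10000) (624 / 1000) ∧ C.ok2 (xh * C.hi) ∧
    C.ok3 (xl * C.lo) (xh * C.hi) (xl * C.hi) (1564 / 10000) (624 / 1000)

lemma Ct.ok_map (φ : R →+* S) (hφ : ∀ a b, a ≤ b ↔ φ a ≤ φ b) (C : Ct R) (xl xh : R) :
    C.ok xl xh ↔ (C.map φ).ok (φ xl) (φ xh) := by
  simp only [Ct.ok, Ct.ok1, Ct.ok2, Ct.ok3, adm, kap, Ct.map, hφ, map_add, map_mul, map_pow,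
    map_ofNat, map_one, map_zero, map_inv₀, map_div₀]

end

/-- majorant conditions -/
def Ct.okM {R : Type} [Field R] [LinearOrder R] (C : Ct R) (xl xh : R) : Prop :=
  Maj (C.Kn * C.Kn) C.lam (4 * C.sp * (2 * xh)) (C.lo * (1 + xl * C.lo * (xl * C.lo))) (2 * xh)
    C.al C.g C.h C.h0 ∧
  Maj (C.Kn * C.Kn) C.lam (4 * C.sp * (2 * xh)) (C.hi * (1 + xh * C.hi * (xh * C.hi))) (2 * xh)
    C.al C.g C.h C.h0

lemma Ct.okM_map (C : Ct ℚ) (xl xh : ℚ) (h : C.okM xl xh) :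
    (C.map (Rat.castHom ℝ)).okM xl xh := by
  simp only [Ct.okM, Maj, quad, Ct.map, eq_ratCast] at h ⊢
  exact_mod_cast h

lemma adm.le {A B : ℝ≥0} (h : adm A B) : Adm A B :=
  adm_of (by exact_mod_cast not_le.1 h.1) (by exact_mod_cast h.2)

lemma Sy_nn : Sy (nn (d := d)) := fun S x => by
  rw [nn, nn, ← S.σ.sum_comp]
  exact sum_congr rfl fun a _ => by simp [dl, S.hs]

lemma nn_le {f : X d → ℝ} {ζ : ℝ} (h0 : ∀ x, 0 ≤ f x) (h : ∀ a, ζ ≤ f (step a)) (x : X d) :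
    ζ * nn x ≤ f x := by
  by_cases hx : ∃ a, x = step a
  · obtain ⟨a, rfl⟩ := hx
    simpa [nn, dl, step_injective.eq_iff] using h a
  · have : nn x = 0 := sum_eq_zero fun a _ => if_neg fun h' => hx ⟨a, h'⟩
    rw [this, mul_zero]; exact h0 x

lemma kap.mono {K sm pq t z t' z' : ℝ≥0} (h : kap K sm pq t z) (h1 : t ≤ t') (h2 : z ≤ z') :
    (K⁻¹ + sm : ℝ) ≤ t' * (1 + z' * z') ∨
      2 * (K⁻¹ + sm : ℝ) + pq ≤ 1 + t' * (1 + z' * z') + t' * z' := by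
  norm_cast
  exact h.2.imp (fun h => h.trans (by gcongr)) fun h => h.trans (by gcongr)

theorem Ct.step (hd : 0 < d) (H : Ints d 0.1564 0.0564 0.624) (C : Ct ℝ≥0) {xl xh z : ℝ≥0}
    (h1 : C.ok xl xh) (h2 : (C.map NNReal.toReal).okM xl xh) (hxl : xl * (2 * d) ≤ 1)
    (hxh : 1 ≤ xh * (2 * d)) (lo : C.lo ≤ 2 * d * z) (hi : 2 * d * z ≤ C.hi)
    (f1 : ∑' x : X d, G z x ≠ ⊤) (f2 : ∑' x : X d, G z x * nsq x ≠ ⊤)
    (hK : ∀ k : Fin d → ℝ, YY k * |CT (Gr z) k| ≤ C.K) (hW : ∀ x : X d, nsq x * Gr z x ≤ C.W) :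
    (∀ k : Fin d → ℝ, YY k * |CT (Gr z) k| ≤ C.Kn) ∧ (∀ x : X d, nsq x * Gr z x ≤ C.Wn) ∧
      (2 * d * z = C.hi → ∀ k : Fin d → ℝ, YY k * |CT (Gr z) k| ≤ C.Ke) ∧
      2 * d * z < 1 + C.pm ∧
      100 * ∑' w : List (Lt d), (z : ℝ≥0∞) ^ w.length * (rh 0 w + rh 1 w) * (w.length - 1 : ℕ) ≤
        99 := by
  obtain ⟨⟨c1, c2, c3, c4, c5, c6, c7, c8, c9, c10, c11, c12, c13, c14, c15, c16, c17⟩,
    ⟨e1, e2, e3, e4, e5, e6, e7, e8⟩, k1, k2, k3, k4, k5, k6, k7, k8, k9, -⟩ := h1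
  obtain ⟨c, hc⟩ : ∃ c, c = 2 * d * z := ⟨_, rfl⟩
  rw [← hc] at lo hi ⊢
  have zl' : xl * c ≤ z := by rw [hc, ← mul_assoc]; exact mul_le_of_le_one_left' hxl
  have zl : xl * C.lo ≤ z := le_trans (by gcongr) zl'
  have zh : z ≤ xh * C.hi :=
    le_trans (by rw [hc, ← mul_assoc]; exact le_mul_of_one_le_left' hxh) (by gcongr : xh * c ≤ _)
  obtain ⟨m1, m2⟩ := h2
  simp only [Ct.map] at m1 m2
  norm_cast at m1 m2
  generalize xl * C.lo = zl at *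
  generalize xh * C.hi = zh at *
  obtain ⟨X1, X2, X3⟩ := hx_of hd (J1 := 1564 / 10000) (J2 := 564 / 10000) (J := 624 / 1000)
    (G0 := C.G0) (g3 := C.g3) (G1 := C.G1) (GGe := C.GGe) (b := C.b) (nu := C.nu) (l := C.l)
    (lp := C.lp) (by convert H <;> norm_num) hc f1 f2 hK hW
    (le_trans (by gcongr) (c1.trans (by gcongr))) (le_trans (by gcongr) (c2.trans (by gcongr)))
    (le_trans (by gcongr) c3) (le_trans (by gcongr) c4) c5 (le_trans (by gcongr) c6) c7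
    (le_trans (by gcongr) c8) (le_trans (by gcongr) c9) (le_trans (by gcongr) c10)
    (le_trans (by gcongr) c11) c12 c13 c14.le c15 (c16.trans (by gcongr))
    (le_trans (by gcongr) (c17.trans (by gcongr)))
  have hc' : 2 * d * (z : ℝ≥0∞) = c := by rw [hc]; norm_cast
  have D : Hd d ⟨z, C.G0, C.g3, C.G1, C.GG0, C.GGe, C.b, C.nu, C.U, C.W, C.l, C.lp⟩
      ⟨C.Ga, C.Gb, C.Mo, C.Me, C.A1, C.B1, C.A2, C.B2, C.A3, C.B3, C.L⟩ := by
    refine ⟨?_, ?_, ?_, ?_, e5.le, e6.le, e7.le, ?_⟩ <;> dsimp only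
    · exact_mod_cast e1
    · exact_mod_cast e2
    · exact_mod_cast le_trans (by gcongr) e3
    · exact_mod_cast le_trans (by gcongr) e4
    · rw [hc']; exact_mod_cast le_trans (by gcongr) e8
  have p1 := X1.mass_odd D
  have p2 := X1.mass_even D
  have p3 := X1.sq_odd D
  have p4 := X1.sq_even D
  have p5 := X1.len_sum D
  dsimp only at p1 p2 p3 p4 p5
  rw [hc'] at p1 p2 p3 p4 p5
  replace p1 : ∑' x : X d, Pi z 1 x ≤ C.pm := p1.trans (by exact_mod_cast le_trans (by gcongr) k1)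
  replace p2 : ∑' x : X d, Pi z 0 x ≤ (c + (C.pq + c * (z * z)) : ℝ≥0) := p2.trans (by
    rw [mul_add, mul_one]
    exact_mod_cast add_le_add_right (le_trans (by gcongr) (k2.trans (by gcongr))) c)
  replace p3 : ∑' x : X d, Pi z 1 x * nsq x ≤ C.sm :=
    p3.trans (by exact_mod_cast le_trans (by gcongr) k3)
  replace p4 : ∑' x : X d, Pi z 0 x * nsq x ≤ (c + (C.sp + c * (z * z)) : ℝ≥0) := p4.trans (by
    rw [mul_add, mul_one]
    exact_mod_cast add_le_add_right (le_trans (by gcongr) (k4.trans (by gcongr))) c)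
  have t1 := ne_top_of_le_ne_top ENNReal.coe_ne_top p1
  have t2 := ne_top_of_le_ne_top ENNReal.coe_ne_top p2
  have t3 := ne_top_of_le_ne_top ENNReal.coe_ne_top p3
  have t4 := ne_top_of_le_ne_top ENNReal.coe_ne_top p4
  have n0 := nc_of f1 f2 fun S => G_sym S z
  have n1 := nc_of t1 t3 fun S => Pi_sym S z 1
  have n2 := nc_of t2 t4 fun S => Pi_sym S z 0
  have tr : ∀ {F : X d → ℝ≥0∞} {B : ℝ≥0}, ∑' x, F x ≤ B → ∑' x, (F x).toReal ≤ B := fun h => by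
    rw [← ENNReal.tsum_toReal_eq
      (ENNReal.ne_top_of_tsum_ne_top (ne_top_of_le_ne_top ENNReal.coe_ne_top h))]
    exact ENNReal.toReal_le_coe_of_le_coe h
  have q1 := tr p1
  have q2 := tr p2
  have q3 := tr p3
  have q4 := tr p4
  simp only [ENNReal.toReal_mul, ENNReal.toReal_natCast, mul_comm _ (nsq _ : ℝ)] at q3 q4
  set ζ : ℝ := z + z ^ 3 with hζ
  have cζ : 2 * d * ζ = c * (1 + z * z) := by rw [hζ, hc]; push_cast; ring
  have sn : HasSum (fun x : X d => ζ * nn x) (2 * d * ζ) := by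
    convert (summ_nn_mul (d := d) fun _ => ζ) using 1
    · funext x; ring
    · simp [mul_comm]
  have sq : HasSum (fun x : X d => nsq x * ((Pi z 0 x).toReal - ζ * nn x))
      (∑' x : X d, nsq x * (Pi z 0 x).toReal - 2 * d * ζ) :=
    hasSum_cg (n2.q.hasSum.sub sn) fun x => by
      linear_combination (-ζ) * congrFun (nsq_nn (d := d)) x
  have R : RP ζ (Gr (d := d) z) (fun x => (Pi z 0 x).toReal - ζ * nn x)
      fun x => (Pi z 1 x).toReal := by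
    refine ⟨hd, by positivity, n0, ⟨fun x => sub_nonneg.2 (nn_le n2.n0 (fun a => ?_) x),
      n2.s.sub sn.summable, sq.summable, fun S x => by simp only [Pi_sym, Sy_nn S x]⟩, n1, funext fun x => ?_⟩
    · have := ENNReal.toReal_mono (ENNReal.ne_top_of_tsum_ne_top t2 _) (Pi_zero_ge z a)
      rw [ENNReal.toReal_add (by finiteness) (by finiteness)] at this
      simpa using this
    · have := congrArg ENNReal.toReal (G_identity z x)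
      rw [ENNReal.toReal_add (ENNReal.ne_top_of_tsum_ne_top f1 _) (ec_real t1 f1 x).1,
        ENNReal.toReal_add (by split_ifs <;> simp) (ec_real t2 f1 x).1, (ec_real t1 f1 x).2,
        (ec_real t2 f1 x).2, apply_ite ENNReal.toReal] at this
      have e := (rc_pt n2.s n0.s x).tsum_sub (rc_pt n1.s n0.s x)
      simp only [rc, dl, Gr, add_sub_cancel, sub_mul, ENNReal.toReal_one, ENNReal.toReal_zero]
        at this ⊢
      linarith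
  have r1 : ∑' x : X d, ((Pi z 0 x).toReal - ζ * nn x) ≤ C.pq := by
    rw [(n2.s.hasSum.sub sn).tsum_eq, cζ]
    push_cast at q2; linarith
  have r2 : ∑' x : X d, nsq x * ((Pi z 0 x).toReal - ζ * nn x) ≤ C.sp := by
    rw [sq.tsum_eq, cζ]
    push_cast at q4; linarith
  have r3 : (c : ℝ) * z ≤ ∑' x : X d, (Pi z 1 x).toReal := by
    refine le_trans ?_ (n1.s.le_tsum 0 fun x _ => n1.n0 x)
    have := ENNReal.toReal_mono (ENNReal.ne_top_of_tsum_ne_top t1 _) (Pi_one_ge z)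
    rw [pow_two, ← mul_assoc, hc'] at this
    simpa using this
  have inv : ∀ {K : ℝ≥0}, ¬ K ≤ 0 → (1 : ℝ) ≤ (K : ℝ)⁻¹ * K := fun h =>
    (inv_mul_cancel₀ (by exact_mod_cast (not_le.1 h).ne')).ge
  have ir : ∀ {K t y : ℝ≥0}, kap K C.sm C.pq t y → t ≤ c → y ≤ z →
      ∀ k : Fin d → ℝ, YY k * |CT (Gr z) k| ≤ K := fun h a1 a2 k => by
    obtain ⟨u, v⟩ := R.infrared q3 r1 r3 (cζ ▸ h.mono a1 a2) (inv h.1) NNReal.zero_le_coe k
    rwa [abs_of_pos u]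
  refine ⟨ir k5 lo zl, fun x => ?_, fun h => ir k6 h.ge (h ▸ zl'), ?_, ?_⟩
  · by_cases hx : x = 0
    · simp [hx, nsq_zero]
    have hd0 : (0 : ℝ) < d := by exact_mod_cast hd
    push_cast at m1 m2
    refine (R.W_le q3 r1 r3 (cζ ▸ k5.mono lo zl) (inv k5.1) NNReal.zero_le_coe H r2 X2 X3
      NNReal.zero_le_coe NNReal.zero_le_coe ?_ ?_ ?_ ?_ m1 m2 NNReal.zero_le_coe NNReal.zero_le_coe
      NNReal.zero_le_coe NNReal.zero_le_coe x hx).trans ?_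
    · rw [cζ]; exact_mod_cast le_trans (by gcongr) k7
    · rw [cζ]; norm_cast; gcongr
    · rw [cζ]; norm_cast; gcongr
    · rw [div_le_iff₀ hd0, mul_right_comm, mul_comm]; exact_mod_cast hxh
    · rw [← NNReal.coe_le_coe] at k8
      push_cast at k8
      norm_num at k8 ⊢
      exact k8
  · have := R.F0
    have a1 : 0 ≤ ∑' x : X d, ((Pi z 0 x).toReal - ζ * nn x) := tsum_nonneg R.p.n0
    have a2 : 0 ≤ (c : ℝ) * (z * z) := by positivity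
    rw [← NNReal.coe_lt_coe]
    push_cast
    linarith
  · exact (mul_le_mul_right p5 _).trans (by exact_mod_cast le_trans (by gcongr) k9)

end Pool.Agent.P.MP_2ab770_pr
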