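import Pool.Agent.P.MP_2ab770_pr.Geo

set_option autoImplicit false
set_option linter.dupNamespace false
set_option linter.unusedVariables false
set_option linter.unusedSectionVars false

namespace Pool.Agent.P.MP_2ab770_pr

open Finset
open scoped ENNReal NNReal

variable {d : ℕ}

open Classical in
/-- sum over trails with given last edge -/
noncomputable def hs (z : ℝ≥0∞) (h : X d) (c : Lt d) (ω : List (Lt d) → ℝ≥0∞) : ℝ≥0∞ :=
  ∑' v, if Hit h c v then z ^ v.length * ω v else 0

lemma hs_mono (z : ℝ≥0∞) (h : X d) (c : Lt d) {ω ω' : List (Lt d) → ℝ≥0∞}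
    (hω : ∀ v, Hit h c v → ω v ≤ ω' v) : hs z h c ω ≤ hs z h c ω' :=
  ENNReal.tsum_le_tsum fun v => by
    split_ifs with hv
    · exact mul_le_mul_right (hω v hv) _
    · exact le_rfl

lemma hs_add (z : ℝ≥0∞) (h : X d) (c : Lt d) (ω ω' : List (Lt d) → ℝ≥0∞) :
    hs z h c (fun v => ω v + ω' v) = hs z h c ω + hs z h c ω' := by
  simp only [hs, ← ENNReal.tsum_add]
  exact tsum_congr fun w => by split_ifs <;> simp [mul_add]

lemma hs_mul (z : ℝ≥0∞) (h : X d) (c : Lt d) (B : ℝ≥0∞) (ω : List (Lt d) → ℝ≥0∞) :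
    hs z h c (fun v => B * ω v) = B * hs z h c ω := by
  simp only [hs, ← ENNReal.tsum_mul_left]
  exact tsum_congr fun w => by split_ifs <;> simp [mul_left_comm]

lemma hs_snoc (z : ℝ≥0∞) (h : X d) (c : Lt d) (ω : List (Lt d) → ℝ≥0∞) :
    hs z h c ω = z * pf z (fun v => I (v ++ [c]) * ω (v ++ [c])) (h - step c) := by
  classical
  have : ∀ v : List (Lt d), (if Hit h c v then z ^ v.length * ω v else 0) =
      if v.getLast? = some c then (if disp v = h then z ^ v.length * (I v * ω v) else 0) else 0 := by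
    intro v
    by_cases h1 : goodT v <;> by_cases h2 : v.getLast? = some c <;> by_cases h3 : disp v = h <;>
      simp [Hit, I, h1, h2, h3]
  rw [hs, tsum_congr this, tsum_snoc, pf, ← ENNReal.tsum_mul_left]
  refine tsum_congr fun v => ?_
  rw [disp_append, disp_single]
  by_cases h1 : disp v + step c = h
  · rw [if_pos h1, if_pos (by rw [← h1]; abel), List.length_append, List.length_singleton]; ring
  · rw [if_neg h1, if_neg (fun h' => h1 (by rw [h']; abel)), mul_zero]

lemma I_append_le (u v : List (Lt d)) : I (u ++ v) ≤ I u := by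
  by_cases h : goodT (u ++ v)
  · rw [I_good h, I_good (good_left h)]
  · rw [I_not h]; exact zero_le

lemma hs_one (z : ℝ≥0∞) (h : X d) (c : Lt d) : hs z h c (fun _ => 1) ≤ z * G z (h - step c) := by
  rw [hs_snoc]
  exact mul_le_mul_right (pf_mono z (fun w => by simpa using I_append_le w [c]) _) _

lemma hs_len (z : ℝ≥0∞) (h : X d) (c : Lt d) :
    hs z h c (fun v => v.length) ≤ z * GG z (h - step c) := by
  rw [hs_snoc]
  refine mul_le_mul_right (le_trans (pf_mono z (fun w => ?_) _) (B_le_GG z _)) _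
  rw [mul_comm]
  simpa using mul_le_mul_right (I_append_le w [c]) _

open Classical in
lemma hs_esum (z : ℝ≥0∞) (h : X d) (c : Lt d) (g : List (Lt d) → Lt d → List (Lt d) → ℝ≥0∞) :
    hs z h c (fun v => esum v g) = ∑' x, ∑ a, ∑' y,
      if Hit h c (x ++ a :: y) then z ^ (x.length + 1 + y.length) * g x a y else 0 := by
  rw [← tsum_esum, hs]
  refine tsum_congr fun v => ?_
  refine le_antisymm ?_ ?_
  · split_ifs with hv
    · rw [mul_esum]
      refine esum_le fun x a y e => ?_
      subst e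
      rw [if_pos hv, List.length_append, List.length_cons, add_assoc, add_comm 1]
    · exact zero_le
  · split_ifs with hv
    · rw [mul_esum]
      refine esum_le fun x a y e => ?_
      subst e
      rw [if_pos hv, List.length_append, List.length_cons, add_assoc, add_comm 1]
    · refine le_trans (esum_le (g' := fun _ _ _ => 0) fun x a y e => ?_) ?_
      · subst e; rw [if_neg hv]
      · rw [esum_const]; simp

/-- a trail with given last letter -/
def End (c : Lt d) (r : List (Lt d)) : Prop := goodT r ∧ r.getLast? = some c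

open Classical in
/-- sum over the second part of a loop -/
noncomputable def Lam (z : ℝ≥0∞) (Ψ : X d → Lt d → ℝ≥0∞) (c : Lt d) : ℝ≥0∞ :=
  ∑ a, ∑' y, if End c (a :: y) then z ^ y.length * Ψ (-disp y) a else 0

lemma Lam_add (z : ℝ≥0∞) (Ψ Ψ' : X d → Lt d → ℝ≥0∞) (c : Lt d) :
    Lam z (fun h a => Ψ h a + Ψ' h a) c = Lam z Ψ c + Lam z Ψ' c := by
  simp only [Lam, ← sum_add_distrib, ← ENNReal.tsum_add]
  refine sum_congr rfl fun a _ => tsum_congr fun y => ?_
  split_ifs <;> simp [mul_add]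

lemma esum_add (u : List (Lt d)) (g g' : List (Lt d) → Lt d → List (Lt d) → ℝ≥0∞) :
    esum u (fun x c y => g x c y + g' x c y) = esum u g + esum u g' := by
  induction u generalizing g g' with
  | nil => simp [esum_nil]
  | cons a u ih => rw [esum_cons, esum_cons, esum_cons, ih]; ring

open Classical in
lemma first_line (z : ℝ≥0∞) (h : X d) (c : Lt d) (ω : List (Lt d) → Lt d → ℝ≥0∞)
    (Ψ : X d → Lt d → ℝ≥0∞) :
    hs z h c (fun v => esum v (fun x a y => ω x a * Ψ (-disp y) a)) ≤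
      ∑ a, ∑' y, (if End c (a :: y) then z ^ y.length * Ψ (-disp y) a else 0) *
        (z * pf z (fun x => I x * ω x a) (h - step a - disp y)) := by
  rw [hs_esum, Summable.tsum_finsetSum (fun _ _ => ENNReal.summable)]
  refine sum_le_sum fun a _ => ?_
  rw [ENNReal.tsum_comm]
  refine ENNReal.tsum_le_tsum fun y => ?_
  rw [pf, ← ENNReal.tsum_mul_left, ← ENNReal.tsum_mul_left]
  refine ENNReal.tsum_le_tsum fun x => ?_
  split_ifs with h1 h2 h3 h4
  · rw [I_good (good_left h1.1), pow_add, pow_add]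
    exact le_of_eq (by ring)
  · exact absurd (by rw [← h1.2.2, disp_append, disp_cons]; abel) h3
  · exact absurd ⟨good_right h1.1, by simpa using h1.2.1⟩ h2
  · exact absurd ⟨good_right h1.1, by simpa using h1.2.1⟩ h2
  all_goals exact zero_le

lemma first_line' (z : ℝ≥0∞) (h : X d) (c : Lt d) (ω : List (Lt d) → Lt d → ℝ≥0∞)
    (Ψ : X d → Lt d → ℝ≥0∞) {B : ℝ≥0∞} (hB : ∀ a y, pf z (fun x => I x * ω x a) y ≤ B) :
    hs z h c (fun v => esum v (fun x a y => ω x a * Ψ (-disp y) a)) ≤ z * B * Lam z Ψ c := by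
  refine (first_line z h c ω Ψ).trans ?_
  rw [Lam, mul_sum]
  refine sum_le_sum fun a _ => ?_
  rw [← ENNReal.tsum_mul_left]
  refine ENNReal.tsum_le_tsum fun y => ?_
  rw [mul_comm]
  gcongr
  exact hB _ _

lemma second_line (z : ℝ≥0∞) (h : X d) (c : Lt d) (Ψ : X d → Lt d → ℝ≥0∞) {B : ℝ≥0∞}
    (hB : ∀ y : X d, GG z y ≤ B) :
    hs z h c (fun v => esum v (fun x a y => y.length * Ψ (-disp y) a)) ≤
      z * B * (z * ∑ a, ∑' p, G z p * Ψ (p + step a - h) a) := by
  classical
  rw [hs_esum, Summable.tsum_finsetSum (fun _ _ => ENNReal.summable), mul_sum, mul_sum]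
  refine sum_le_sum fun a _ => ?_
  rw [G, tsum_pf z I (fun p => Ψ (p + step a - h) a), ← ENNReal.tsum_mul_left,
    ← ENNReal.tsum_mul_left]
  refine ENNReal.tsum_le_tsum fun x => ?_
  have h1 := (hs_len z (h - step a - disp x) c).trans (mul_le_mul_right (hB _) z)
  calc _ ≤ (z * (z ^ x.length * I x * Ψ (disp x + step a - h) a)) *
        hs z (h - step a - disp x) c (fun v => v.length) := by
        rw [hs, ← ENNReal.tsum_mul_left]
        refine ENNReal.tsum_le_tsum fun y => ?_
        cases y with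
        | nil => simp
        | cons b y =>
          split_ifs with h2 h3
          · have e : -disp (b :: y) = disp x + step a - h := by
              rw [← h2.2.2, disp_append, disp_cons a]; abel
            rw [I_good (good_left h2.1), pow_add, pow_add, e]
            exact le_of_eq (by ring)
          · refine absurd ⟨good_right (u := x ++ [a]) (by simpa using h2.1),
              by simpa using h2.2.1, ?_⟩ h3
            rw [← h2.2.2, disp_append, disp_cons a]; abel
          all_goals exact zero_le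
    _ ≤ _ := by rw [mul_comm (z * B)]; gcongr

lemma sum_Lam (z : ℝ≥0∞) (Ψ : X d → Lt d → ℝ≥0∞) :
    ∑ c, Lam z Ψ c ≤ ∑ a, ∑' h, G z h * Ψ h a := by
  classical
  simp only [Lam]
  rw [sum_comm]
  refine sum_le_sum fun a _ => ?_
  rw [← (Equiv.neg (X d)).tsum_eq]
  simp only [Equiv.neg_apply, G_neg]
  rw [G, tsum_pf z I (fun p => Ψ (-p) a), ← Summable.tsum_finsetSum (fun _ _ => ENNReal.summable)]
  refine ENNReal.tsum_le_tsum fun y => ?_
  by_cases hg : goodT (a :: y)
  · rw [sum_eq_single ((a :: y).getLast (by simp))]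
    · rw [I_good (good_right (u := [a]) hg), mul_one]
      split_ifs <;> simp
    · intro b _ hb
      refine if_neg fun h => hb ?_
      have := h.2
      rw [List.getLast?_eq_some_getLast (by simp)] at this
      exact (Option.some.inj this).symm
    · simp
  · rw [sum_eq_zero fun c _ => if_neg fun h => hg h.1]; exact zero_le

lemma Lam_sym (S : Sym d) (z : ℝ≥0∞) {Ψ : X d → Lt d → ℝ≥0∞}
    (hΨ : ∀ h a, Ψ (S.T h) (S.σ a) = Ψ h a) (c : Lt d) : Lam z Ψ (S.σ c) = Lam z Ψ c := by
  classical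
  rw [Lam, Lam, ← Equiv.sum_comp S.σ]
  refine sum_congr rfl fun a _ => ?_
  rw [← tsum_map S.σ]
  refine tsum_congr fun y => ?_
  have : End (S.σ c) (S.σ a :: y.map S.σ) ↔ End c (a :: y) := by
    rw [← List.map_cons, End, End, S.good_map, List.getLast?_map]
    cases (a :: y).getLast? <;> simp
  rw [S.disp_map, ← map_neg, hΨ, List.length_map, propext this]

lemma Lam_le (z : ℝ≥0∞) {Ψ : X d → Lt d → ℝ≥0∞}
    (hΨ : ∀ (S : Sym d) h a, Ψ (S.T h) (S.σ a) = Ψ h a) {B : ℝ≥0∞}
    (hB : ∑ a, ∑' h, G z h * Ψ h a ≤ 2 * d * B) (c : Lt d) : Lam z Ψ c ≤ B :=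
  le_of_sum_le (fun S a => Lam_sym S z (hΨ S) a) ((sum_Lam z Ψ).trans hB) c

/-- diagrams whose first loop closes on a given oriented edge -/
noncomputable def phi (z : ℝ≥0∞) (N : ℕ) (h : X d) (c : Lt d) (f : List (Lt d) → ℝ≥0∞) : ℝ≥0∞ :=
  hs z h c (fun v => (modelT d).q z N v (fun r => f (v ++ r)))

/-- both orientations -/
noncomputable def phi2 (z : ℝ≥0∞) (N : ℕ) (h : X d) (c : Lt d) (f : List (Lt d) → ℝ≥0∞) : ℝ≥0∞ :=
  phi z N h c f + phi z N (h - step c) (iv c) f

lemma phi2_rev (z : ℝ≥0∞) (N : ℕ) (h : X d) (c : Lt d) (f : List (Lt d) → ℝ≥0∞) :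
    phi2 z N (h - step c) (iv c) f = phi2 z N h c f := by
  rw [phi2, phi2, iv_iv, step_iv, add_comm]; congr 2; abel

lemma q_le_esum (z : ℝ≥0∞) (N : ℕ) (u : List (Lt d)) (f : List (Lt d) → ℝ≥0∞) :
    (modelT d).q z (N + 1) u f ≤ esum u (fun x c y => phi2 z N (-disp y) c f) := by
  classical
  simp only [phi2, phi, hs, ← ENNReal.tsum_add]
  rw [← tsum_esum_comm, Model.q_succ]
  refine ENNReal.tsum_le_tsum fun v => ?_
  split_ifs with hF
  · obtain ⟨x, c, y, rfl, h⟩ := F_hit hF
    refine le_trans ?_ (le_esum x c y _)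
    rcases h with h | h
    · rw [if_pos h]; exact le_self_add
    · rw [if_pos h]; exact le_add_self
  · exact zero_le

lemma q_le_len (z : ℝ≥0∞) (N : ℕ) (u : List (Lt d)) (f : List (Lt d) → ℝ≥0∞) {B : ℝ≥0∞}
    (hB : ∀ h c, phi2 z N h c f ≤ B) : (modelT d).q z (N + 1) u f ≤ B * u.length := by
  refine (q_le_esum z N u f).trans ((esum_le fun x c y _ => hB _ _).trans ?_)
  rw [esum_const, mul_comm]

lemma q_single (z : ℝ≥0∞) (N : ℕ) (a : Lt d) (f : List (Lt d) → ℝ≥0∞) :
    (modelT d).q z (N + 1) [a] f ≤ phi2 z N 0 a f := by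
  simpa [esum_cons, esum_nil, disp_nil] using q_le_esum z N [a] f

lemma q_snoc (z : ℝ≥0∞) (N : ℕ) (u : List (Lt d)) (c : Lt d) (f : List (Lt d) → ℝ≥0∞) {B : ℝ≥0∞}
    (hB : ∀ h c, phi2 z N h c f ≤ B) :
    (modelT d).q z (N + 1) (u ++ [c]) f ≤ phi2 z N 0 c f + B * u.length := by
  refine (q_le_esum z N _ f).trans ?_
  rw [esum_snoc, disp_nil, neg_zero]
  refine add_le_add_right ((esum_le fun x c y _ => hB _ _).trans ?_) _
  rw [esum_const, mul_comm]

lemma phi_sym (S : Sym d) (z : ℝ≥0∞) (N : ℕ) (h : X d) (c : Lt d) :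
    phi z N (S.T h) (S.σ c) (fun _ => 1) = phi z N h c (fun _ => 1) := by
  classical
  rw [phi, hs, ← tsum_map S.σ]
  refine tsum_congr fun v => ?_
  rw [propext (S.hit_map h c v), List.length_map, (modelT d).q_map S.σ S.good_map]

lemma phi2_sym (S : Sym d) (z : ℝ≥0∞) (N : ℕ) (h : X d) (c : Lt d) :
    phi2 z N (S.T h) (S.σ c) (fun _ => 1) = phi2 z N h c (fun _ => 1) := by
  rw [phi2, phi2, phi_sym, S.hs, ← map_sub, ← S.iv_map, phi_sym]

lemma phi_zero (z : ℝ≥0∞) (h : X d) (c : Lt d) (f : List (Lt d) → ℝ≥0∞) :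
    phi z 0 h c f = hs z h c f := by
  simp only [phi, Model.q_zero, List.append_nil]

lemma phi_zero_disp (z : ℝ≥0∞) (h : X d) (c : Lt d) (f : X d → ℝ≥0∞) :
    phi z 0 h c (fun r => f (disp r)) ≤ f h * hs z h c (fun _ => 1) := by
  rw [phi_zero, ← hs_mul]
  exact hs_mono z h c fun v hv => by rw [hv.2.2, mul_one]

/-- the open diagram -/
noncomputable def Th (z : ℝ≥0∞) (N : ℕ) (k : X d) : ℝ≥0∞ :=
  ∑ a, ∑' h, G z (h + k) * phi2 z N h a (fun _ => 1)

lemma Th_eq (z : ℝ≥0∞) (N : ℕ) (k : X d) : Th z N k =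
    ∑ a, ∑' h, (G z (h + k) + G z (h - step a + k)) * phi z N h a (fun _ => 1) := by
  simp only [Th, phi2, mul_add, add_mul, ENNReal.tsum_add, sum_add_distrib]
  congr 1
  rw [← sum_iv]
  refine sum_congr rfl fun a _ => ?_
  rw [← (Equiv.subRight (step a)).tsum_eq]
  simp [iv_iv, step_iv]

lemma Th_eq' (z : ℝ≥0∞) (N : ℕ) (k : X d) :
    ∑ a, ∑' p, G z p * phi2 z N (p + step a - k) a (fun _ => 1) = Th z N k := by
  rw [Th, ← sum_iv]
  refine sum_congr rfl fun a _ => ?_
  rw [← (Equiv.addRight k).tsum_eq]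
  refine tsum_congr fun h => ?_
  rw [← phi2_rev z N h a, step_iv]
  simp only [Equiv.coe_addRight]
  congr 2; abel

end Pool.Agent.P.MP_2ab770_pr
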