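import Pool.Agent.P.MP_2ab770_pr.Diag

set_option autoImplicit false
set_option linter.dupNamespace false
set_option linter.unusedVariables false
set_option linter.unusedSectionVars false

namespace Pool.Agent.P.MP_2ab770_pr

open Finset
open scoped ENNReal NNReal

variable {d : ℕ}

/-- constants bounding the basic lines -/
structure Cs where
  z : ℝ≥0∞
  G0 : ℝ≥0∞
  g3 : ℝ≥0∞
  G1 : ℝ≥0∞
  GG0 : ℝ≥0∞
  GGe : ℝ≥0∞
  β : ℝ≥0∞
  ν : ℝ≥0∞
  U : ℝ≥0∞
  W : ℝ≥0∞
  l : ℝ≥0∞
  lp : ℝ≥0∞

/-- position space hypotheses -/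
structure Hx (d : ℕ) (C : Cs) : Prop where
  G0 : G C.z (0 : X d) ≤ C.G0
  g3 : ∀ a : Lt d, pf C.z (fun w => I (w ++ [a])) (-step a) ≤ C.g3
  G1 : ∀ y : X d, y ≠ 0 → G C.z y ≤ C.G1
  GG0 : ∀ y : X d, GG C.z y ≤ C.GG0
  GGe : ∀ a : Lt d, GG C.z (step a) ≤ C.GGe
  β : ∀ (y : X d) (a : Lt d), C.z * (GG C.z y + GG C.z (y + step a)) ≤ C.β
  ν1 : C.z * (C.G0 + C.g3) ≤ C.ν
  ν2 : C.z * (C.G1 + C.G1) ≤ C.ν
  W : ∀ y : X d, nsq y * G C.z y ≤ C.W
  U : ∀ (y : X d) (a : Lt d), nsq (y + step a) * G C.z y ≤ C.U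
  WU : C.W ≤ C.U
  l : pf C.z (fun w => w.length * I w) (0 : X d) ≤ C.l
  lB : pf C.z (fun w => (w.length + 1) * I w) (0 : X d) ≤ 1 + C.l
  lp : ∀ a : Lt d, pf C.z (fun w => w.length * I (w ++ [a])) (-step a) ≤ C.lp

/-- bounds for diagrams weighted with the squared displacement -/
noncomputable def Cs.mu (C : Cs) : ℕ → ℝ≥0∞
  | 0 => C.z * (C.W + C.U)
  | 1 => 2 * (C.z * C.z * (C.U * C.GGe + C.W * C.GG0))
  | N + 2 => 4 * C.z * C.U * C.β ^ (N + 2) + 2 * C.β ^ 2 * Cs.mu C N

/-- bounds for diagrams weighted with the length -/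
noncomputable def Cs.lam (C : Cs) (d : ℕ) : ℕ → ℝ≥0∞
  | 0 => C.β
  | N + 1 => 2 * C.z * C.GG0 * (1 + 2 * d * C.z) * C.β ^ (N + 1) + C.β * Cs.lam C d N

/-- squared displacement -/
def sq (r : List (Lt d)) : ℝ≥0∞ := nsq (disp r)

namespace Hx
variable {C : Cs} (H : Hx d C)
include H

lemma len2 (h : X d) (c : Lt d) : hs C.z h c (fun v => v.length) +
    hs C.z (h - step c) (iv c) (fun v => v.length) ≤ C.β := by
  refine le_trans ?_ (H.β (h - step c) c)
  rw [mul_add]
  refine add_le_add (hs_len _ _ _) ((hs_len _ _ _).trans (le_of_eq ?_))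
  rw [step_iv]; congr 2; abel

lemma one_same (a : Lt d) : hs C.z 0 a (fun _ => 1) ≤ C.z * C.g3 := by
  rw [hs_snoc, zero_sub]
  simpa using mul_le_mul_right (H.g3 a) C.z

lemma one_opp (a : Lt d) : hs C.z (step a) a (fun _ => 1) ≤ C.z * C.G0 :=
  (hs_one _ _ _).trans (by rw [sub_self]; exact mul_le_mul_right H.G0 _)

lemma one_opp' (a : Lt d) : hs C.z (0 - step a) (iv a) (fun _ => 1) ≤ C.z * C.G0 := by
  rw [zero_sub, ← step_iv]; exact H.one_opp _

lemma nu_T (a : Lt d) : phi2 C.z 0 0 a (fun _ => 1) ≤ C.z * (C.G0 + C.g3) := by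
  rw [phi2, phi_zero, phi_zero, mul_add, add_comm]
  exact add_le_add (H.one_opp' a) (H.one_same a)

lemma nu : ∀ (N : ℕ) (h : X d) (c : Lt d), phi2 C.z N h c (fun _ => 1) ≤ C.ν * C.β ^ N
  | 0, h, c => by
    rw [pow_zero, mul_one]
    by_cases h1 : h = 0
    · subst h1; exact (H.nu_T c).trans H.ν1
    by_cases h2 : h - step c = 0
    · rw [← phi2_rev, h2]; exact (H.nu_T _).trans H.ν1
    refine le_trans ?_ H.ν2
    rw [phi2, phi_zero, phi_zero, mul_add]
    refine add_le_add ((hs_one _ _ _).trans (mul_le_mul_right (H.G1 _ h2) _))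
      ((hs_one _ _ _).trans (mul_le_mul_right (H.G1 _ ?_) _))
    rw [step_iv]; simpa using h1
  | N + 1, h, c => by
    have : ∀ (h : X d) c, phi C.z (N + 1) h c (fun _ => 1) ≤
        C.ν * C.β ^ N * hs C.z h c (fun v => v.length) := by
      intro h c
      rw [← hs_mul]
      exact hs_mono _ _ _ fun v _ => q_le_len _ _ _ _ (nu N)
    refine (add_le_add (this _ _) (this _ _)).trans ?_
    rw [← mul_add, pow_succ, ← mul_assoc]
    exact mul_le_mul_right (H.len2 h c) _

lemma Th_le : ∀ (N : ℕ) (k : X d), Th C.z N k ≤ 2 * d * C.β ^ (N + 1)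
  | 0, k => by
    rw [Th_eq, ← sum_const_Lt]
    refine sum_le_sum fun a _ => ?_
    calc _ ≤ ∑' h, (G C.z (h + k) + G C.z (h - step a + k)) * (C.z * G C.z (h - step a)) := by
          refine ENNReal.tsum_le_tsum fun h => ?_
          rw [phi_zero]; exact mul_le_mul_right (hs_one _ _ _) _
      _ = C.z * (∑' h, G C.z (h + (k - step a)) * G C.z (h - step a) +
            ∑' h, G C.z (h + k) * G C.z (h - step a)) := by
          rw [← ENNReal.tsum_add, ← ENNReal.tsum_mul_left]
          refine tsum_congr fun h => ?_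
          rw [show h + (k - step a) = h - step a + k by abel]; ring
      _ ≤ _ := by
          rw [tsum_GG, tsum_GG, sub_add_cancel, zero_add, pow_one]; exact H.β k a
  | N + 1, k => by
    classical
    have h1 := (sum_Lam C.z (fun (h : X d) a => phi2 C.z N h a (fun _ => 1))).trans
      (le_of_eq_of_le (by simp [Th]) (Th_le N 0))
    rw [pow_succ', mul_left_comm]
    refine le_trans ?_ (mul_le_mul_right h1 C.β)
    rw [Th_eq, mul_sum]
    refine sum_le_sum fun c _ => ?_
    have h2 : ∀ h, phi C.z (N + 1) h c (fun _ => 1) ≤ ∑ a, ∑' y,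
        (if End c (a :: y) then C.z ^ y.length * phi2 C.z N (-disp y) a (fun _ => 1) else 0) *
        (C.z * G C.z (h - step a - disp y)) := by
      intro h
      have := first_line C.z h c (fun _ _ => 1) (fun h a => phi2 C.z N h a (fun _ => 1))
      simp only [one_mul, mul_one] at this
      exact le_trans (hs_mono _ _ _ fun v _ => q_le_esum _ _ _ _) this
    refine le_trans (ENNReal.tsum_le_tsum fun h => mul_le_mul_right (h2 h) _) ?_
    simp only [mul_sum, ← ENNReal.tsum_mul_left, Lam]
    rw [Summable.tsum_finsetSum (fun _ _ => ENNReal.summable)]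
    refine sum_le_sum fun a _ => ?_
    rw [ENNReal.tsum_comm]
    refine ENNReal.tsum_le_tsum fun y => ?_
    set T := (if End c (a :: y) then C.z ^ y.length * phi2 C.z N (-disp y) a (fun _ => 1) else 0)
    calc _ = T * (C.z * (∑' h, G C.z (h + (k - step c)) * G C.z (h - (step a + disp y)) +
            ∑' h, G C.z (h + k) * G C.z (h - (step a + disp y)))) := by
          rw [← ENNReal.tsum_add, ← ENNReal.tsum_mul_left, ← ENNReal.tsum_mul_left]
          refine tsum_congr fun h => ?_
          rw [show h + (k - step c) = h - step c + k by abel, sub_sub h (step a)]; ring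
      _ ≤ _ := by
          rw [tsum_GG, tsum_GG, mul_comm C.β,
            show k + (step a + disp y) = k - step c + (step a + disp y) + step c by abel]
          exact mul_le_mul_right (H.β _ c) _

lemma Lam2 (N : ℕ) (c : Lt d) :
    Lam C.z (fun h a => phi2 C.z N h a (fun _ => 1)) c ≤ C.β ^ (N + 1) :=
  Lam_le _ (fun S h a => phi2_sym S _ N h a) (le_of_eq_of_le (by simp [Th]) (H.Th_le N 0)) c

lemma Lam_same (c : Lt d) :
    Lam C.z (fun h a => phi C.z 0 h a (fun _ => 1)) c ≤ C.z * C.GGe := by
  refine Lam_le _ (fun S h a => phi_sym S _ 0 h a) ?_ c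
  rw [← sum_const_Lt]
  refine sum_le_sum fun a _ => ?_
  calc _ ≤ ∑' h, C.z * (G C.z (h + 0) * G C.z (h - step a)) := by
        refine ENNReal.tsum_le_tsum fun h => ?_
        rw [phi_zero, add_zero, mul_left_comm]; exact mul_le_mul_right (hs_one _ _ _) _
    _ ≤ _ := by
        rw [ENNReal.tsum_mul_left, tsum_GG, zero_add]; exact mul_le_mul_right (H.GGe a) _

lemma Lam_opp (c : Lt d) :
    Lam C.z (fun h a => phi C.z 0 (h - step a) (iv a) (fun _ => 1)) c ≤ C.z * C.GG0 := by
  refine Lam_le _ (fun S h a => by rw [S.hs, ← map_sub, ← S.iv_map, phi_sym]) ?_ c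
  rw [← sum_const_Lt]
  refine sum_le_sum fun a _ => ?_
  calc _ ≤ ∑' h, C.z * (G C.z (h + 0) * G C.z (h - 0)) := by
        refine ENNReal.tsum_le_tsum fun h => ?_
        rw [phi_zero, add_zero, mul_left_comm]
        refine mul_le_mul_right ((hs_one _ _ _).trans (le_of_eq ?_)) _
        rw [step_iv]; congr 2; abel
    _ ≤ _ := by
        rw [ENNReal.tsum_mul_left, tsum_GG]; exact mul_le_mul_right (H.GG0 _) _

omit H in
lemma pf_disp (z : ℝ≥0∞) (f : X d → ℝ≥0∞) (y : X d) :
    pf z (fun x => I x * f (disp x)) y = f y * G z y := by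
  rw [G, pf, pf, ← ENNReal.tsum_mul_left]
  refine tsum_congr fun w => ?_
  split_ifs with h
  · rw [h]; ring
  · simp

omit H in
lemma phi_shift {A B : ℝ≥0∞} (hAB : Adm A B) (z : ℝ≥0∞) (N : ℕ) (h : X d) (c : Lt d) (k : X d)
    {M : ℝ≥0∞} (hM : ∀ h c, phi2 z N h c (sq (d := d)) ≤ M) :
    phi z (N + 1) h c (fun r => nsq (k + disp r)) ≤
      A * nsq (k + h) * phi z (N + 1) h c (fun _ => 1) + B * M * hs z h c (fun v => v.length) := by
  rw [phi, phi, ← hs_mul, ← hs_mul, ← hs_add]
  refine hs_mono _ _ _ fun v hv => ?_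
  refine le_trans (Model.q_mono _ _ _ _ (g := fun r => A * nsq (k + h) + B * sq r) fun r => ?_) ?_
  · rw [disp_append, hv.2.2, ← add_assoc]; exact hAB _ _ _
  · rw [Model.q_lin, mul_assoc B]
    gcongr
    exact q_le_len _ _ _ _ hM

lemma mu_le : ∀ (N : ℕ) (h : X d) (c : Lt d), phi2 C.z N h c sq ≤ C.mu N
  | 0, h, c => by
    have h1 : ∀ (h : X d) c, phi C.z 0 h c sq ≤ C.z * (nsq h * G C.z (h - step c)) := by
      intro h c
      refine (phi_zero_disp C.z h c (fun x => nsq x)).trans ?_
      rw [mul_left_comm]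
      exact mul_le_mul_right (hs_one _ _ _) _
    refine (add_le_add (h1 _ _) (h1 _ _)).trans ?_
    rw [← mul_add, Cs.mu, step_iv, sub_neg_eq_add, sub_add_cancel]
    refine mul_le_mul_right ?_ _
    rcases le_total (nsq h) (nsq (h - step c)) with h2 | h2
    · refine add_le_add (le_trans (by gcongr) (H.W (h - step c))) ?_
      have := H.U h (iv c)
      rwa [step_iv, ← sub_eq_add_neg] at this
    · rw [add_comm]
      refine add_le_add (le_trans (by gcongr) (H.W h)) ?_
      have := H.U (h - step c) c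
      rwa [sub_add_cancel] at this
  | 1, h, c => by
    have h1 : ∀ (h : X d) c, phi C.z 1 h c sq ≤ C.z * C.z * (C.U * C.GGe + C.W * C.GG0) := by
      intro h c
      have a1 := first_line' C.z h c (fun x a => nsq (disp x + step a))
        (fun h a => phi C.z 0 h a (fun _ => 1)) (B := C.U) fun a y => by
          rw [pf_disp C.z (fun p => nsq (p + step a))]; exact H.U y a
      have a2 := first_line' C.z h c (fun x a => nsq (disp x))
        (fun h a => phi C.z 0 (h - step a) (iv a) (fun _ => 1)) (B := C.W) fun a y => by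
          rw [pf_disp C.z (fun p => nsq p)]; exact H.W y
      have a3 := add_le_add (a1.trans (mul_le_mul_right (H.Lam_same c) _))
        (a2.trans (mul_le_mul_right (H.Lam_opp c) _))
      rw [← hs_add] at a3
      refine le_trans (hs_mono _ _ _ fun v hv => ?_) (a3.trans (le_of_eq (by ring)))
      rw [← esum_add]
      refine (q_le_esum _ _ _ _).trans (esum_le fun x a y e => ?_)
      subst e
      simp only [sq, disp_append, phi2]
      refine add_le_add ((phi_zero_disp C.z _ _ (fun p => nsq (disp x + disp (a :: y) + p))).trans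
        (le_of_eq ?_)) ((phi_zero_disp C.z _ _
          (fun p => nsq (disp x + disp (a :: y) + p))).trans (le_of_eq ?_))
      · rw [phi_zero, disp_cons]; congr 3; abel
      · rw [phi_zero, disp_cons]; congr 3; abel
    rw [Cs.mu, two_mul]
    exact add_le_add (h1 _ _) (h1 _ _)
  | N + 2, h, c => by
    have h1 : ∀ (h : X d) c, phi C.z (N + 2) h c sq ≤ 2 * C.z * C.U * C.β ^ (N + 2) +
        2 * C.mu N * C.β * hs C.z h c (fun v => v.length) := by
      intro h c
      have a1 := first_line' C.z h c (fun x a => nsq (disp x + step a))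
        (fun h a => phi C.z (N + 1) h a (fun _ => 1)) (B := C.U) fun a y => by
          rw [pf_disp C.z (fun p => nsq (p + step a))]; exact H.U y a
      have a2 := first_line' C.z h c (fun x a => nsq (disp x))
        (fun h a => phi C.z (N + 1) (h - step a) (iv a) (fun _ => 1)) (B := C.U) fun a y => by
          rw [pf_disp C.z (fun p => nsq p)]; exact (H.W y).trans H.WU
      have a3 := add_le_add a1 a2
      rw [← hs_add, ← mul_add, ← Lam_add] at a3
      have a4 := mul_le_mul_right (a3.trans (mul_le_mul_right (H.Lam2 (N + 1) c) _)) 2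
      rw [← hs_mul, ← mul_assoc, ← mul_assoc] at a4
      refine le_trans ?_ (add_le_add_left a4 _)
      rw [← hs_mul, ← hs_add]
      refine hs_mono _ _ _ fun v hv => ?_
      rw [← esum_add, mul_esum, mul_comm _ (v.length : ℝ≥0∞), ← esum_const, ← esum_add]
      refine (q_le_esum _ _ _ _).trans (esum_le fun x a y e => ?_)
      subst e
      simp only [sq, disp_append, phi2]
      refine (add_le_add (phi_shift adm_two _ _ _ _ _ (mu_le N))
        (phi_shift adm_two _ _ _ _ _ (mu_le N))).trans ?_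
      rw [add_add_add_comm, ← mul_add, disp_cons,
        show disp x + (step a + disp y) + -disp y = disp x + step a by abel,
        show disp x + (step a + disp y) + (-disp y - step a) = disp x by abel]
      refine add_le_add (le_of_eq (by ring)) (mul_le_mul_right (H.len2 _ _) _)
    refine (add_le_add (h1 _ _) (h1 _ _)).trans ?_
    rw [add_add_add_comm, ← mul_add (2 * C.mu N * C.β), Cs.mu]
    refine le_trans (add_le_add le_rfl (mul_le_mul_right (H.len2 h c) _)) (le_of_eq ?_)
    ring

lemma lam_le : ∀ (N : ℕ) (h : X d) (c : Lt d), phi2 C.z N h c (fun r => r.length) ≤ C.lam d N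
  | 0, h, c => by
    rw [phi2, phi_zero, phi_zero]; exact H.len2 h c
  | N + 1, h, c => by
    have h1 : ∀ (h : X d) c, phi C.z (N + 1) h c (fun r => r.length) ≤
        C.z * C.GG0 * (1 + 2 * d * C.z) * C.β ^ (N + 1) +
        C.lam d N * hs C.z h c (fun v => v.length) := by
      intro h c
      have a1 := first_line' C.z h c (fun x a => x.length + 1)
        (fun h a => phi2 C.z N h a (fun _ => 1)) (B := C.GG0) fun a y => by
          simp_rw [mul_comm (I _)]; exact (B_le_GG _ _).trans (H.GG0 y)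
      have a2 := second_line C.z h c (fun h a => phi2 C.z N h a (fun _ => 1)) H.GG0
      rw [Th_eq'] at a2
      have a3 := add_le_add (a1.trans (mul_le_mul_right (H.Lam2 N c) _))
        (a2.trans (mul_le_mul_right (mul_le_mul_right (H.Th_le N h) _) _))
      rw [← hs_add] at a3
      refine le_trans ?_ (add_le_add_left (a3.trans (le_of_eq (by ring))) _)
      rw [← hs_mul, ← hs_add]
      refine hs_mono _ _ _ fun v hv => ?_
      refine le_trans (Model.q_mono _ _ _ _ (g := fun r => v.length + 1 * r.length)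
        fun r => by simp) ?_
      rw [Model.q_lin, one_mul]
      refine add_le_add ?_ (q_le_len _ _ _ _ (lam_le N))
      refine (mul_le_mul_right (q_le_esum _ _ _ _) _).trans ?_
      rw [← esum_add, mul_esum]
      refine esum_le fun x a y e => le_of_eq ?_
      subst e
      simp only [List.length_append, List.length_cons]
      push_cast; ring
    refine (add_le_add (h1 _ _) (h1 _ _)).trans ?_
    rw [add_add_add_comm, ← mul_add (C.lam d N), Cs.lam]
    refine le_trans (add_le_add le_rfl (mul_le_mul_right (H.len2 h c) _)) (le_of_eq ?_)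
    ring

end Hx

end Pool.Agent.P.MP_2ab770_pr
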