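import Pool.Agent.P.MP_2ab770_pr.Diag2

set_option autoImplicit false
set_option linter.dupNamespace false
set_option linter.unusedVariables false
set_option linter.unusedSectionVars false

namespace Pool.Agent.P.MP_2ab770_pr

open Finset
open scoped ENNReal NNReal

variable {d : ℕ}

/-- diagrams whose number of loops lies in a progression -/
noncomputable def rh (e : ℕ) : List (Lt d) → ℝ≥0∞
  | [] => 0
  | a :: w => ∑' j, (modelT d).Qn (2 * j + e) [a] w

lemma rh_sym (S : Sym d) (e : ℕ) (w : List (Lt d)) : rh e (w.map S.σ) = rh e w := by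
  cases w with
  | nil => rfl
  | cons a w =>
    simp only [List.map_cons, rh]
    refine tsum_congr fun j => ?_
    rw [← (modelT d).Qn_map S.σ S.good_map _ [a] w]; rfl

lemma tsum_rh (z : ℝ≥0∞) (e : ℕ) (f : List (Lt d) → ℝ≥0∞) :
    ∑' w, z ^ w.length * rh e w * f w =
      z * ∑ a, ∑' j, (modelT d).q z (2 * j + e) [a] (fun r => f (a :: r)) := by
  rw [tsum_cons, mul_sum]
  simp only [rh, mul_zero, zero_mul, zero_add]
  refine sum_congr rfl fun a _ => ?_
  simp only [Model.q]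
  rw [ENNReal.tsum_comm, ← ENNReal.tsum_mul_left]
  refine tsum_congr fun w => ?_
  rw [ENNReal.tsum_mul_right, ENNReal.tsum_mul_left, List.length_cons]; ring

lemma rh_eq (e : ℕ) (a : Lt d) (w : List (Lt d)) : rh e (a :: w) =
    ((∑ j ∈ range (w.length + 1), (modelT d).Qn (2 * j + e) [a] w : ℕ) : ℝ≥0∞) := by
  rw [rh, tsum_eq_sum (s := range (w.length + 1)), Nat.cast_sum]
  intro j hj
  rw [Model.Qn_zero, Nat.cast_zero]
  have := mem_range.not.1 hj
  omega

lemma rh_ne_top (e : ℕ) (w : List (Lt d)) : rh e w ≠ ⊤ := by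
  cases w with
  | nil => simp [rh]
  | cons a w => rw [rh_eq]; finiteness

lemma rho_eq (w : List (Lt d)) : (modelT d).rho w = (rh 0 w).toReal - (rh 1 w).toReal := by
  cases w with
  | nil => simp [rh, Model.rho]
  | cons a w =>
    rw [Model.rho, rh_eq, rh_eq, Model.P_eq_sum _ (2 * (w.length + 1)) _ _ (by omega)]
    simp only [ENNReal.toReal_natCast]
    simp only [Nat.cast_sum, ← sum_sub_distrib]
    generalize w.length + 1 = L
    induction L with
    | zero => simp
    | succ L ih =>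
      rw [show 2 * (L + 1) = 2 * L + 1 + 1 by ring, sum_range_succ, sum_range_succ, ih,
        sum_range_succ, pow_succ, pow_mul]
      simp; ring

lemma I_toReal (w : List (Lt d)) : (I w).toReal = (modelT d).ind w := by
  by_cases h : goodT w
  · rw [I_good h, (modelT d).ind_good h]; simp
  · rw [I_not h, (modelT d).ind_not h]; simp

lemma I_ne_top (w : List (Lt d)) : I w ≠ ⊤ := ne_top_of_le_ne_top (by simp) (I_le_one w)

lemma word_identity (w : List (Lt d)) :
    I w + ssum w (fun x y => rh 1 x * I y) =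
      (if w = [] then 1 else 0) + ssum w (fun x y => rh 0 x * I y) := by
  have h := (modelT d).ind_eq w
  have fin : ∀ e, ∀ i ∈ range (w.length + 1), rh e (w.take i) * I (w.drop i) ≠ ⊤ :=
    fun e i _ => ENNReal.mul_ne_top (rh_ne_top _ _) (I_ne_top _)
  have fin2 : ∀ e, ssum w (fun x y => rh e x * I y) ≠ ⊤ := fun e => ENNReal.sum_ne_top.2 (fin e)
  have fin3 : (if w = [] then (1 : ℝ≥0∞) else 0) ≠ ⊤ := by split_ifs <;> simp
  rw [← ENNReal.toReal_eq_toReal_iff' (ENNReal.add_ne_top.2 ⟨I_ne_top _, fin2 _⟩)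
    (ENNReal.add_ne_top.2 ⟨fin3, fin2 _⟩), ENNReal.toReal_add (I_ne_top _) (fin2 _),
    ENNReal.toReal_add fin3 (fin2 _), ssum, ssum, ENNReal.toReal_sum (fin _),
    ENNReal.toReal_sum (fin _), I_toReal, h]
  simp only [ssum, rho_eq, ENNReal.toReal_mul, I_toReal, sub_mul, sum_sub_distrib]
  split_ifs <;> simp [add_assoc]

/-- position space coefficients -/
noncomputable def Pi (z : ℝ≥0∞) (e : ℕ) : X d → ℝ≥0∞ := pf z (rh e)

lemma Pi_sym (S : Sym d) (z : ℝ≥0∞) (e : ℕ) (x : X d) : Pi z e (S.T x) = Pi z e x :=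
  pf_sym S z (rh_sym S e) x

lemma G_identity (z : ℝ≥0∞) (x : X d) :
    G z x + ec (Pi z 1) (G z) x = (if x = 0 then 1 else 0) + ec (Pi z 0) (G z) x := by
  have := congrArg (fun φ => pf z φ x) (funext (word_identity (d := d)))
  simp only [pf_add, pf_cat, pf_one, disp_nil, List.length_nil, pow_zero] at this
  simpa only [G, Pi, eq_comm] using this

lemma Qn_one_rev (a : Lt d) : 1 ≤ (modelT d).Qn 1 [a] [iv a] := by
  simp [Model.Qn, ssum_cons, ssum_nil, F_rev]

lemma Qn_two_rev (a : Lt d) : 1 ≤ (modelT d).Qn 2 [a] [iv a, a] := by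
  have := Qn_one_rev (iv a)
  rw [iv_iv] at this
  rw [Model.Qn, ssum_cons, ssum_cons, if_pos (F_rev a)]
  omega

lemma Pi_one_ge (z : ℝ≥0∞) : 2 * d * z ^ 2 ≤ Pi z 1 (0 : X d) := by
  classical
  have h1 : ∀ w : List (Lt d), ∑ a : Lt d, (if w = [a, iv a] then 1 else 0) ≤ rh 1 w := by
    intro w
    by_cases h : ∃ a, w = [a, iv a]
    · obtain ⟨a, rfl⟩ := h
      rw [sum_eq_single a (fun b _ hb => if_neg (by simp [hb.symm])) (by simp), if_pos rfl, rh]
      refine le_trans ?_ (ENNReal.le_tsum 0)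
      exact_mod_cast Qn_one_rev a
    · rw [sum_eq_zero fun a _ => if_neg fun h' => h ⟨a, h'⟩]; exact zero_le
  refine le_trans (le_of_eq ?_) (pf_mono z h1 0)
  rw [pf_sum, ← sum_const_Lt]
  refine sum_congr rfl fun a _ => ?_
  rw [pf_one, if_pos (by simp [disp, step_iv])]; rfl

lemma Pi_zero_ge (z : ℝ≥0∞) (a : Lt d) : z + z ^ 3 ≤ Pi z 0 (step a) := by
  classical
  have h1 : ∀ w : List (Lt d), (if w = [a] then 1 else 0) + (if w = [a, iv a, a] then 1 else 0)
      ≤ rh 0 w := by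
    intro w
    by_cases h : w = [a]
    · subst h
      rw [if_pos rfl, if_neg (by simp), add_zero, rh]
      refine le_trans ?_ (ENNReal.le_tsum 0)
      simp [Model.Qn]
    · rw [if_neg h, zero_add]
      split_ifs with h2
      · subst h2
        refine le_trans ?_ (ENNReal.le_tsum 1)
        exact_mod_cast Qn_two_rev a
      · exact zero_le
  refine le_trans (le_of_eq ?_) (pf_mono z h1 _)
  rw [pf_add, pf_one, pf_one, if_pos (by simp [disp]), if_pos (by simp [disp, step_iv])]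
  simp

/-- constants for the geometric sums -/
structure Ds where
  Γ : ℝ≥0∞
  Γ1 : ℝ≥0∞
  Mo : ℝ≥0∞
  Me : ℝ≥0∞
  A1 : ℝ≥0∞
  B1 : ℝ≥0∞
  A2 : ℝ≥0∞
  B2 : ℝ≥0∞
  A3 : ℝ≥0∞
  B3 : ℝ≥0∞
  L : ℝ≥0∞

/-- numerical hypotheses -/
structure Hd (d : ℕ) (C : Cs) (D : Ds) : Prop where
  Γ : 1 + C.β ^ 2 * D.Γ ≤ D.Γ
  Γ1 : 1 + C.β * D.Γ1 ≤ D.Γ1
  Mo : 2 * (C.z * C.z * (C.U * C.GGe + C.W * C.GG0)) + 4 * C.z * C.U * C.β ^ 3 * D.Γ +
    2 * C.β ^ 2 * D.Mo ≤ D.Mo
  Me : 4 * C.z * C.U * C.β ^ 2 * D.Γ + 2 * C.β ^ 2 * (C.z * (C.W + C.U) + D.Me) ≤ D.Me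
  a1 : Adm D.A1 D.B1
  a2 : Adm D.A2 D.B2
  a3 : Adm D.A3 D.B3
  L : C.β + 2 * C.z * C.GG0 * (1 + 2 * d * C.z) * C.β * D.Γ1 + C.β * D.L ≤ D.L

namespace Hd
variable {C : Cs} {D : Ds} (K : Hd d C D)
include K

lemma geo (B : ℝ≥0∞) (e : ℕ) : ∑' j, B * C.β ^ (2 * j + e) ≤ B * C.β ^ e * D.Γ := by
  simp_rw [pow_add, pow_mul, mul_comm (_ ^ _) (C.β ^ e), ← mul_assoc]
  rw [ENNReal.tsum_mul_left]
  exact mul_le_mul_right (geo_pow K.Γ) _

lemma mu_odd : ∑' j, C.mu (2 * j + 1) ≤ D.Mo := by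
  refine geo_sum (v := fun j => 4 * C.z * C.U * C.β ^ (2 * j + 3)) (r := 2 * C.β ^ 2)
    (fun j => le_of_eq rfl) (le_trans ?_ K.Mo)
  gcongr
  · exact le_of_eq rfl
  · exact K.geo _ 3

lemma mu_even : ∑' j, C.mu (2 * j + 2) ≤ D.Me := by
  refine geo_sum (v := fun j => 4 * C.z * C.U * C.β ^ (2 * (j + 1) + 2)) (r := 2 * C.β ^ 2)
    (fun j => le_of_eq rfl) (le_trans ?_ K.Me)
  have := K.geo (4 * C.z * C.U) 2
  rw [tsum_eq_zero_add' ENNReal.summable] at this
  calc _ = (4 * C.z * C.U * C.β ^ (2 * 0 + 2) + ∑' j, 4 * C.z * C.U * C.β ^ (2 * (j + 1) + 2)) +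
        2 * C.β ^ 2 * (C.z * (C.W + C.U) + D.Me) := by
        simp only [Cs.mu]; ring
    _ ≤ _ := add_le_add_left this _

lemma lam_sum : ∑' N, C.lam d N ≤ D.L := by
  refine geo_sum (v := fun N => 2 * C.z * C.GG0 * (1 + 2 * d * C.z) * C.β ^ (N + 1)) (r := C.β)
    (fun j => le_of_eq rfl) (le_trans ?_ K.L)
  gcongr
  · exact le_of_eq rfl
  · simp_rw [pow_succ', ← mul_assoc]
    rw [ENNReal.tsum_mul_left]
    exact mul_le_mul_right (geo_pow K.Γ1) _

end Hd

namespace Hx
variable {C : Cs} (H : Hx d C)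
include H

lemma Ao (a : Lt d) : hs C.z (0 - step a) (iv a) (fun v => v.length) ≤ C.z * (1 + C.l) := by
  rw [hs_snoc, step_iv, zero_sub, sub_self]
  refine mul_le_mul_right (le_trans (pf_mono _ (fun w => ?_) _) H.lB) _
  rw [mul_comm]
  simpa using mul_le_mul_right (I_append_le w [iv a]) _

lemma As (a : Lt d) : hs C.z 0 a (fun v => v.length) ≤ C.z * (C.g3 + C.lp) := by
  rw [hs_snoc, zero_sub]
  refine mul_le_mul_right (le_trans (le_of_eq ?_) (add_le_add (H.g3 a) (H.lp a))) _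
  rw [← pf_add]
  congr 1; funext w; simp only [List.length_append, List.length_singleton]; push_cast; ring

lemma mass (N : ℕ) (a : Lt d) : (modelT d).q C.z (N + 2) [a] (fun _ => 1) ≤
    (C.z * (1 + C.l) + C.z * (C.g3 + C.lp)) * C.ν * C.β ^ N := by
  have : ∀ (h : X d) c, phi C.z (N + 1) h c (fun _ => 1) ≤
      C.ν * C.β ^ N * hs C.z h c (fun v => v.length) := by
    intro h c
    rw [← hs_mul]
    exact hs_mono _ _ _ fun v _ => q_le_len _ _ _ _ (H.nu N)
  refine (q_single _ _ _ _).trans ((add_le_add (this _ _) (this _ _)).trans ?_)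
  rw [← mul_add, mul_assoc _ C.ν, mul_comm, add_comm]
  exact mul_le_mul_left (add_le_add (H.Ao a) (H.As a)) _

lemma sq_one (a : Lt d) : phi2 C.z 0 0 a (fun r => nsq (step a + disp r)) ≤ C.z * C.g3 := by
  rw [phi2]
  refine (add_le_add (phi_zero_disp _ _ _ (fun p => nsq (step a + p)))
    (phi_zero_disp _ _ _ (fun p => nsq (step a + p)))).trans ?_
  simpa [nsq_step, nsq_zero] using H.one_same a

lemma sq_gen {A B : ℝ≥0∞} (hAB : Adm A B) (N : ℕ) (a : Lt d) :
    (modelT d).q C.z (N + 2) [a] (fun r => nsq (step a + disp r)) ≤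
      C.z * (1 + C.l) * C.mu N + C.z * (C.g3 + C.lp) * (A * (C.ν * C.β ^ N) + B * C.mu N) := by
  refine (q_single _ _ _ _).trans ?_
  rw [phi2, add_comm]
  refine add_le_add ?_ ?_
  · refine le_trans ?_ (mul_le_mul_left (H.Ao a) _)
    rw [mul_comm, ← hs_mul]
    refine hs_mono _ _ _ fun v hv => le_trans (le_of_eq ?_) (q_le_len _ _ _ _ (H.mu_le N))
    congr 1; funext r
    beta_reduce
    rw [disp_append, hv.2.2, sq]; congr 2; abel
  · refine (phi_shift hAB _ _ _ _ _ (H.mu_le N)).trans ?_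
    have : phi C.z (N + 1) 0 a (fun _ => 1) ≤ C.ν * C.β ^ N * hs C.z 0 a (fun v => v.length) := by
      rw [← hs_mul]
      exact hs_mono _ _ _ fun v _ => q_le_len _ _ _ _ (H.nu N)
    have h2 := H.As a
    rw [add_zero, nsq_step, Nat.cast_one, mul_one]
    calc _ ≤ A * (C.ν * C.β ^ N * (C.z * (C.g3 + C.lp))) +
          B * C.mu N * (C.z * (C.g3 + C.lp)) := by
          gcongr
          exact this.trans (by gcongr)
      _ = _ := by ring

lemma sq_two {A B : ℝ≥0∞} (hAB : Adm A B) (a : Lt d) :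
    (modelT d).q C.z 2 [a] (fun r => nsq (step a + disp r)) ≤
      C.z * C.z * C.G0 * C.G0 + C.z * C.l * C.mu 0 + C.z * C.z * C.g3 * C.g3 +
        C.z * C.lp * (A * C.ν + B * C.mu 0) := by
  refine (q_single _ _ _ _).trans ?_
  rw [phi2, add_comm, add_assoc]
  refine add_le_add ?_ ?_
  · rw [phi, hs_snoc, step_iv, zero_sub, sub_self, mul_assoc, mul_assoc, mul_assoc, ← mul_add]
    refine mul_le_mul_right ?_ _
    have h1 : phi2 C.z 0 0 (iv a) sq ≤ C.z * C.G0 := by
      rw [phi2]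
      refine (add_le_add (phi_zero_disp _ _ _ (fun p => nsq p))
        (phi_zero_disp _ _ _ (fun p => nsq p))).trans ?_
      simpa [nsq_step, nsq_zero, nsq_neg] using H.one_opp' (iv a)
    calc _ ≤ pf C.z (fun w => C.z * C.G0 * I w + C.mu 0 * (w.length * I w)) 0 := by
          refine ENNReal.tsum_le_tsum fun w => ?_
          split_ifs with hw
          · refine mul_le_mul_right ?_ _
            have e : (fun r => (nsq (step a + disp (w ++ [iv a] ++ r)) : ℝ≥0∞)) = sq := by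
              funext r
              rw [disp_append, disp_append, hw, disp_single, step_iv, sq]; congr 2; abel
            beta_reduce
            rw [e]
            refine (mul_le_mul' (I_append_le _ _) ((q_snoc _ _ _ _ _ (H.mu_le 0)).trans
              (add_le_add_left h1 _))).trans (le_of_eq (by ring))
          · exact le_rfl
      _ ≤ _ := by
          rw [pf_add, pf_mul, pf_mul, mul_comm C.l, ← mul_assoc]
          exact add_le_add (mul_le_mul_right H.G0 _) (mul_le_mul_right H.l _)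
  · rw [phi, hs_snoc, zero_sub, mul_assoc, mul_assoc, mul_assoc, ← mul_add]
    refine mul_le_mul_right ?_ _
    have h1 : ∀ (h : X d) c, phi2 C.z 0 h c (fun r => nsq (step a + disp r)) ≤
        A * C.ν + B * C.mu 0 := by
      intro h c
      have a1 := H.nu 0 h c
      have a2 := H.mu_le 0 h c
      rw [pow_zero, mul_one] at a1
      refine le_trans ?_ (add_le_add (mul_le_mul_right a1 A) (mul_le_mul_right a2 B))
      simp only [phi2, phi_zero, mul_add, ← hs_mul]
      rw [add_add_add_comm, ← hs_add, ← hs_add]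
      refine add_le_add (hs_mono _ _ _ fun v _ => ?_) (hs_mono _ _ _ fun v _ => ?_) <;>
        simpa [nsq_step, sq] using hAB _ (step a) (disp v)
    calc _ ≤ pf C.z (fun w => C.z * C.g3 * I (w ++ [a]) +
            (A * C.ν + B * C.mu 0) * (w.length * I (w ++ [a]))) (-step a) := by
          refine ENNReal.tsum_le_tsum fun w => ?_
          split_ifs with hw
          · refine mul_le_mul_right ?_ _
            have e : (fun r => (nsq (step a + disp (w ++ [a] ++ r)) : ℝ≥0∞)) =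
                fun r => (nsq (step a + disp r) : ℝ≥0∞) := by
              funext r
              rw [disp_append, disp_append, hw, disp_single]; congr 2; abel
            beta_reduce
            rw [e]
            refine (mul_le_mul_right ((q_snoc _ _ _ _ _ h1).trans
              (add_le_add_left (H.sq_one a) _)) _).trans (le_of_eq (by ring))
          · exact le_rfl
      _ ≤ _ := by
          rw [pf_add, pf_mul, pf_mul, mul_comm C.lp, ← mul_assoc]
          exact add_le_add (mul_le_mul_right (H.g3 a) _) (mul_le_mul_right (H.lp a) _)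

variable {D : Ds} (K : Hd d C D)
include K

omit H K in
lemma top_le {z B : ℝ≥0∞} {f : Lt d → ℝ≥0∞} (h : ∀ a, f a ≤ B) : z * ∑ a, f a ≤ 2 * d * z * B := by
  refine (mul_le_mul_right (sum_le_sum fun a _ => h a) z).trans (le_of_eq ?_)
  rw [sum_const_Lt]; ring

lemma mass_odd : ∑' x : X d, Pi C.z 1 x ≤ 2 * d * C.z * (C.z * (C.G0 + C.g3) +
    (C.z * (1 + C.l) + C.z * (C.g3 + C.lp)) * C.ν * C.β * D.Γ) := by
  have := tsum_pf C.z (rh (d := d) 1) (fun _ => 1)
  simp only [mul_one] at this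
  rw [Pi, this]
  have h2 := tsum_rh C.z 1 (fun _ : List (Lt d) => 1)
  simp only [mul_one] at h2
  rw [h2]
  refine top_le fun a => ?_
  rw [tsum_eq_zero_add' ENNReal.summable]
  refine add_le_add ((q_single _ _ _ _).trans (H.nu_T a)) ?_
  refine le_trans (ENNReal.tsum_le_tsum fun j => H.mass (2 * j + 1) a) ?_
  simpa using K.geo _ 1

lemma mass_even : ∑' x : X d, Pi C.z 0 x ≤ 2 * d * C.z * (1 +
    (C.z * (1 + C.l) + C.z * (C.g3 + C.lp)) * C.ν * D.Γ) := by
  have := tsum_pf C.z (rh (d := d) 0) (fun _ => 1)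
  simp only [mul_one] at this
  rw [Pi, this]
  have h2 := tsum_rh C.z 0 (fun _ : List (Lt d) => 1)
  simp only [mul_one] at h2
  rw [h2]
  refine top_le fun a => ?_
  rw [tsum_eq_zero_add' ENNReal.summable]
  refine add_le_add (le_of_eq (Model.q_zero _ _ _ _)) ?_
  refine le_trans (ENNReal.tsum_le_tsum fun j => H.mass (2 * j + 0) a) ?_
  simpa using K.geo _ 0

lemma sq_odd : ∑' x : X d, Pi C.z 1 x * nsq x ≤ 2 * d * C.z * (C.z * C.g3 +
    C.z * (1 + C.l) * D.Mo + C.z * (C.g3 + C.lp) * (D.A1 * C.ν * C.β * D.Γ + D.B1 * D.Mo)) := by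
  rw [Pi, tsum_pf C.z (rh (d := d) 1) (fun x => nsq x), tsum_rh]
  refine top_le fun a => ?_
  simp only [disp_cons]
  rw [tsum_eq_zero_add' ENNReal.summable, add_assoc]
  refine add_le_add ((q_single _ _ _ _).trans (H.sq_one a)) ?_
  refine le_trans (ENNReal.tsum_le_tsum fun j => H.sq_gen K.a1 (2 * j + 1) a) ?_
  have h1 := K.geo C.ν 1
  have h2 := K.mu_odd
  simp only [ENNReal.tsum_add, ENNReal.tsum_mul_left, pow_one] at h1 ⊢
  rw [mul_assoc D.A1, mul_assoc D.A1]
  gcongr

lemma sq_even : ∑' x : X d, Pi C.z 0 x * nsq x ≤ 2 * d * C.z * (1 +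
    (C.z * C.z * C.G0 * C.G0 + C.z * C.l * (C.z * (C.W + C.U)) + C.z * C.z * C.g3 * C.g3 +
        C.z * C.lp * (D.A2 * C.ν + D.B2 * (C.z * (C.W + C.U))) +
    (C.z * (1 + C.l) * D.Me +
      C.z * (C.g3 + C.lp) * (D.A3 * C.ν * C.β ^ 2 * D.Γ + D.B3 * D.Me)))) := by
  rw [Pi, tsum_pf C.z (rh (d := d) 0) (fun x => nsq x), tsum_rh]
  refine top_le fun a => ?_
  simp only [disp_cons]
  rw [tsum_eq_zero_add' ENNReal.summable, tsum_eq_zero_add' ENNReal.summable]
  refine add_le_add (le_of_eq ?_) (add_le_add (H.sq_two K.a2 a) ?_)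
  · simp [Model.q_zero, disp_nil, nsq_step]
  refine le_trans (ENNReal.tsum_le_tsum fun j => H.sq_gen K.a3 (2 * j + 2) a) ?_
  have h1 := K.geo C.ν 2
  have h2 := K.mu_even
  simp only [ENNReal.tsum_add, ENNReal.tsum_mul_left] at h1 ⊢
  rw [mul_assoc D.A3, mul_assoc D.A3]
  gcongr

lemma len_sum : ∑' w : List (Lt d), C.z ^ w.length * (rh 0 w + rh 1 w) * (w.length - 1 : ℕ) ≤
    2 * d * C.z * D.L := by
  simp only [mul_add, add_mul, ENNReal.tsum_add, tsum_rh]
  rw [← mul_add, ← sum_add_distrib]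
  refine top_le fun a => le_trans ?_ K.lam_sum
  simp only [List.length_cons, Nat.add_sub_cancel, add_zero]
  rw [tsum_even_add_odd (f := fun N => (modelT d).q C.z N [a] (fun r => r.length))
    ENNReal.summable ENNReal.summable, tsum_eq_zero_add' ENNReal.summable, Model.q_zero]
  simp only [List.length_nil, Nat.cast_zero, zero_add]
  exact ENNReal.tsum_le_tsum fun N => (q_single _ _ _ _).trans (H.lam_le N _ _)

end Hx

end Pool.Agent.P.MP_2ab770_pr
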