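import Pool.Agent.P.MP_2ab770_pr.Models

set_option autoImplicit false
set_option linter.dupNamespace false
set_option linter.unusedVariables false
set_option linter.unusedSectionVars false

namespace Pool.Agent.P.MP_2ab770_pr

open Finset
open scoped ENNReal NNReal

section general
variable {α : Type} [Fintype α] [DecidableEq α]

lemma tsum_cons (f : List α → ℝ≥0∞) :
    ∑' w, f w = f [] + ∑ a : α, ∑' w, f (a :: w) := by
  rw [ENNReal.tsum_eq_add_tsum_ite []]
  congr 1
  have hinj : Function.Injective (fun p : α × List α => p.1 :: p.2) := by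
    rintro ⟨a, u⟩ ⟨b, v⟩ h
    simpa using h
  rw [← hinj.tsum_eq, ENNReal.tsum_prod', tsum_fintype]
  · simp
  · intro w hw
    cases w with
    | nil => simp at hw
    | cons a w => exact ⟨(a, w), rfl⟩

lemma tsum_words (f : List α → ℝ≥0∞) : ∑' w, f w = ∑' n, ∑ w ∈ words α n, f w := by
  rw [← (Equiv.sigmaFiberEquiv (List.length : List α → ℕ)).tsum_eq, ENNReal.tsum_sigma']
  refine tsum_congr fun n => ?_
  rw [← Finset.tsum_subtype']
  have : (↑(words α n) : Set (List α)) = {w | w.length = n} := by
    ext w; simp [mem_words]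
  rw [this]
  rfl

lemma tsum_ssum (f : List α → List α → ℝ≥0∞) :
    ∑' w, ssum w f = ∑' u, ∑' v, f u v := by
  rw [tsum_words]
  simp_rw [sum_words_ssum]
  rw [tsum_words]
  have h1 : ∀ i, ∑ u ∈ words α i, ∑' v, f u v =
      ∑' j, ∑ u ∈ words α i, ∑ v ∈ words α j, f u v := by
    intro i
    simp_rw [tsum_words (f _)]
    rw [Summable.tsum_finsetSum (fun _ _ => ENNReal.summable)]
  simp_rw [h1]
  rw [← ENNReal.tsum_prod (f := fun i j => ∑ u ∈ words α i, ∑ v ∈ words α j, f u v),
    ← (Finset.HasAntidiagonal.sigmaAntidiagonalEquivProd (A := ℕ)).tsum_eq, ENNReal.tsum_sigma']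
  refine tsum_congr fun n => ?_
  rw [← Finset.Nat.sum_antidiagonal_eq_sum_range_succ
    (fun i j => ∑ u ∈ words α i, ∑ v ∈ words α j, f u v) n, ← Finset.tsum_subtype]
  rfl

lemma tsum_snoc (c : α) (f : List α → ℝ≥0∞) :
    ∑' v, (if v.getLast? = some c then f v else 0) = ∑' v, f (v ++ [c]) := by
  have hinj : Function.Injective (fun v : List α => v ++ [c]) := fun u v h => by simpa using h
  rw [← hinj.tsum_eq]
  · simp
  · intro w hw
    have : w.getLast? = some c := by
      by_contra h
      simp [h] at hw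
    obtain ⟨v, rfl⟩ := List.getLast?_eq_some_iff.1 this
    exact ⟨v, rfl⟩

/-- sum over the letters of a word -/
noncomputable def esum (u : List α) (g : List α → α → List α → ℝ≥0∞) : ℝ≥0∞ :=
  ssum u (fun x r => match r with
    | [] => 0
    | c :: y => g x c y)

lemma esum_nil (g : List α → α → List α → ℝ≥0∞) : esum [] g = 0 := by simp [esum, ssum_nil]

lemma esum_cons (a : α) (u : List α) (g : List α → α → List α → ℝ≥0∞) :
    esum (a :: u) g = g [] a u + esum u (fun x => g (a :: x)) := by
  rw [esum, ssum_cons]; rfl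

lemma esum_le {u : List α} {g g' : List α → α → List α → ℝ≥0∞}
    (h : ∀ x c y, x ++ c :: y = u → g x c y ≤ g' x c y) : esum u g ≤ esum u g' := by
  refine ssum_le fun x r hx => ?_
  cases r with
  | nil => exact le_rfl
  | cons c y => exact h x c y hx

lemma esum_const (u : List α) (B : ℝ≥0∞) : esum u (fun _ _ _ => B) = u.length * B := by
  induction u with
  | nil => simp [esum_nil]
  | cons a u ih => rw [esum_cons, ih]; simp [add_mul, add_comm]

lemma esum_snoc (u : List α) (c : α) (g : List α → α → List α → ℝ≥0∞) :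
    esum (u ++ [c]) g = g u c [] + esum u (fun x a y => g x a (y ++ [c])) := by
  induction u generalizing g with
  | nil => simp [esum_cons, esum_nil]
  | cons a u ih =>
    rw [List.cons_append, esum_cons, ih, esum_cons]
    ring

lemma le_esum (x : List α) (c : α) (y : List α) (g : List α → α → List α → ℝ≥0∞) :
    g x c y ≤ esum (x ++ c :: y) g := by
  induction x generalizing g with
  | nil => rw [List.nil_append, esum_cons]; exact le_self_add
  | cons a x ih =>
    rw [List.cons_append, esum_cons]
    exact (ih (fun x => g (a :: x))).trans le_add_self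

lemma mul_esum (B : ℝ≥0∞) (u : List α) (g : List α → α → List α → ℝ≥0∞) :
    B * esum u g = esum u (fun x c y => B * g x c y) := by
  induction u generalizing g with
  | nil => simp [esum_nil]
  | cons a u ih => rw [esum_cons, esum_cons, mul_add, ih]

lemma tsum_esum_comm {β : Type} (u : List α) (g : β → List α → α → List α → ℝ≥0∞) :
    ∑' b, esum u (g b) = esum u (fun x c y => ∑' b, g b x c y) := by
  induction u generalizing g with
  | nil => simp [esum_nil]
  | cons a u ih => simp_rw [esum_cons]; rw [ENNReal.tsum_add, ih]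

lemma tsum_esum (g : List α → α → List α → ℝ≥0∞) :
    ∑' u, esum u g = ∑' x, ∑ c, ∑' y, g x c y := by
  simp only [esum]
  rw [tsum_ssum]
  refine tsum_congr fun x => ?_
  rw [tsum_cons]; simp

lemma tsum_map (σ : α ≃ α) (f : List α → ℝ≥0∞) : ∑' w, f (List.map σ w) = ∑' w, f w :=
  (Equiv.listEquivOfEquiv σ).tsum_eq f

namespace Model
variable (M : Model α)

open Classical in
/-- number of diagrams with N loops -/
noncomputable def Qn : ℕ → List α → List α → ℕ
  | 0, _, w => if w = [] then 1 else 0
  | N + 1, u, w => ssum w (fun v r => if M.F u v then Qn N v r else 0)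

lemma Qn_zero : ∀ (N : ℕ) (u w : List α), w.length < N → M.Qn N u w = 0
  | 0, _, _, h => by omega
  | N + 1, u, w, h => by
    classical
    rw [Qn, ssum]
    refine sum_eq_zero fun i _ => ?_
    split_ifs with hF
    · refine Qn_zero N _ _ ?_
      have h1 := List.length_pos_iff.2 hF.1
      simp only [List.length_take, List.length_drop] at h1 ⊢
      omega
    · rfl

lemma P_eq_sum : ∀ (L : ℕ) (u w : List α), w.length < L →
    M.P u w = ∑ N ∈ range L, (-1) ^ N * (M.Qn N u w : ℝ)
  | 0, _, _, h => by omega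
  | L + 1, u, w, h => by
    classical
    rw [sum_range_succ', P_eq, sub_eq_add_neg, add_comm]
    congr 1
    · simp only [Qn, ssum, Nat.cast_sum, mul_sum]
      rw [sum_comm, ← sum_neg_distrib]
      refine sum_congr rfl fun i _ => ?_
      split_ifs with hF
      · rw [P_eq_sum L, ← sum_neg_distrib]
        · refine sum_congr rfl fun N _ => ?_
          ring
        · have h1 := List.length_pos_iff.2 hF.1
          simp only [List.length_take, List.length_drop] at h1 ⊢
          omega
      · simp
    · simp [Qn]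

lemma Qn_map (σ : α → α) (hσ : ∀ w, M.good (w.map σ) ↔ M.good w) :
    ∀ (N : ℕ) (u w : List α), M.Qn N (u.map σ) (w.map σ) = M.Qn N u w
  | 0, u, w => by simp [Qn]
  | N + 1, u, w => by
    classical
    have hF : ∀ v, M.F (u.map σ) (v.map σ) ↔ M.F u v := by
      intro v
      simp only [F, ← List.map_dropLast, ← List.map_append, hσ, ne_eq, List.map_eq_nil_iff]
    simp only [Qn, ssum, List.length_map]
    refine sum_congr rfl fun i _ => ?_
    rw [← List.map_take, ← List.map_drop, Qn_map σ hσ N]
    simp only [hF]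

/-- weighted sum of diagrams -/
noncomputable def q (z : ℝ≥0∞) (N : ℕ) (u : List α) (f : List α → ℝ≥0∞) : ℝ≥0∞ :=
  ∑' w, z ^ w.length * M.Qn N u w * f w

lemma q_zero (z : ℝ≥0∞) (u : List α) (f : List α → ℝ≥0∞) : M.q z 0 u f = f [] := by
  rw [q, tsum_cons]; simp [Qn]

open Classical in
lemma q_succ (z : ℝ≥0∞) (N : ℕ) (u : List α) (f : List α → ℝ≥0∞) :
    M.q z (N + 1) u f =
      ∑' v, if M.F u v then z ^ v.length * M.q z N v (fun r => f (v ++ r)) else 0 := by
  have : ∀ w, z ^ w.length * M.Qn (N + 1) u w * f w = ssum w (fun v r =>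
      if M.F u v then z ^ v.length * (z ^ r.length * M.Qn N v r * f (v ++ r)) else 0) := by
    intro w
    rw [ssum_congr (g := fun v r => z ^ w.length * (if M.F u v then M.Qn N v r else 0 : ℕ) * f w)]
    · simp only [Qn, ssum, Nat.cast_sum, mul_sum, sum_mul]
    · intro v r h
      subst h
      split_ifs
      · rw [List.length_append, pow_add]; ring
      · simp
  rw [q, tsum_congr this, tsum_ssum]
  refine tsum_congr fun v => ?_
  split_ifs
  · rw [q, ENNReal.tsum_mul_left]
  · simp

lemma q_mono (z : ℝ≥0∞) (N : ℕ) (u : List α) {f g : List α → ℝ≥0∞} (h : ∀ w, f w ≤ g w) :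
    M.q z N u f ≤ M.q z N u g :=
  ENNReal.tsum_le_tsum fun w => mul_le_mul_right (h w) _

lemma q_lin (z : ℝ≥0∞) (N : ℕ) (u : List α) (A B : ℝ≥0∞) (f : List α → ℝ≥0∞) :
    M.q z N u (fun w => A + B * f w) = A * M.q z N u (fun _ => 1) + B * M.q z N u f := by
  simp only [q, ← ENNReal.tsum_mul_left, ← ENNReal.tsum_add]
  exact tsum_congr fun w => by ring

lemma q_map (σ : α ≃ α) (hσ : ∀ w, M.good (w.map σ) ↔ M.good w) (z : ℝ≥0∞) (N : ℕ)
    (u : List α) (f : List α → ℝ≥0∞) :
    M.q z N (u.map σ) f = M.q z N u (fun w => f (w.map σ)) := by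
  rw [q, ← tsum_map σ]
  simp only [List.length_map, M.Qn_map σ hσ, q]

end Model
end general

lemma geo_sum {u v : ℕ → ℝ≥0∞} {r M : ℝ≥0∞} (h : ∀ n, u (n + 1) ≤ v n + r * u n)
    (hM : u 0 + ∑' n, v n + r * M ≤ M) : ∑' n, u n ≤ M := by
  have : ∀ K, ∑ n ∈ range K, u n ≤ M := by
    intro K
    induction K with
    | zero => simp
    | succ K ih =>
      rw [sum_range_succ']
      refine le_trans ?_ hM
      calc _ ≤ ∑ n ∈ range K, (v n + r * u n) + u 0 := by gcongr with n; exact h n
        _ = u 0 + ∑ n ∈ range K, v n + r * ∑ n ∈ range K, u n := by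
          rw [sum_add_distrib, mul_sum]; ring
        _ ≤ _ := by gcongr; exact ENNReal.sum_le_tsum _
  rw [ENNReal.tsum_eq_iSup_nat]
  exact iSup_le this

lemma geo_pow {r M : ℝ≥0∞} (hM : 1 + r * M ≤ M) : ∑' n, r ^ n ≤ M :=
  geo_sum (v := fun _ => 0) (r := r) (fun n => by simp [pow_succ']) (by simpa using hM)

end Pool.Agent.P.MP_2ab770_pr
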