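import Mathlib

set_option autoImplicit false
set_option linter.dupNamespace false

namespace Pool.Agent.P.MP_2ab770_pr

open Finset Filter Topology MeasureTheory Real

/-- uniform measure on a unit interval -/
noncomputable def nu : Measure ℝ := volume.restrict (Set.Ioc (-1 / 2 : ℝ) (1 / 2))

instance nu_prob : IsProbabilityMeasure nu := ⟨by simp [nu]; norm_num⟩

/-- uniform measure on the unit cube -/
noncomputable def mu (d : ℕ) : Measure (Fin d → ℝ) := Measure.pi fun _ => nu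

instance mu_prob (d : ℕ) : IsProbabilityMeasure (mu d) := by unfold mu; infer_instance

variable {d : ℕ}

/-- phase -/
noncomputable def th (k : Fin d → ℝ) (x : Fin d → ℤ) : ℝ := ∑ j, 2 * π * x j * k j

/-- character -/
noncomputable def chr (k : Fin d → ℝ) (x : Fin d → ℤ) : ℂ := Complex.exp (th k x * Complex.I)

lemma th_add (k : Fin d → ℝ) (x y : Fin d → ℤ) : th k (x + y) = th k x + th k y := by
  simp only [th, ← sum_add_distrib, Pi.add_apply]
  refine sum_congr rfl fun j _ => ?_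
  push_cast; ring

lemma th_zero (k : Fin d → ℝ) : th k 0 = 0 := by simp [th]

lemma th_neg (k : Fin d → ℝ) (x : Fin d → ℤ) : th k (-x) = - th k x := by
  simp [th]

lemma th_zero_left (x : Fin d → ℤ) : th 0 x = 0 := by simp [th]

lemma chr_add (k : Fin d → ℝ) (x y : Fin d → ℤ) : chr k (x + y) = chr k x * chr k y := by
  simp [chr, th_add, add_mul, Complex.exp_add]

lemma chr_zero (k : Fin d → ℝ) : chr k 0 = 1 := by simp [chr, th_zero]

lemma chr_zero_left (x : Fin d → ℤ) : chr 0 x = 1 := by simp [chr, th_zero_left]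

lemma norm_chr (k : Fin d → ℝ) (x : Fin d → ℤ) : ‖chr k x‖ = 1 := by
  simp [chr, Complex.norm_exp_ofReal_mul_I]

lemma re_chr (k : Fin d → ℝ) (x : Fin d → ℤ) : (chr k x).re = cos (th k x) := by
  simp [chr, Complex.exp_ofReal_mul_I_re]

lemma conj_chr (k : Fin d → ℝ) (x : Fin d → ℤ) : (starRingEnd ℂ) (chr k x) = chr k (-x) := by
  rw [chr, chr, ← Complex.exp_conj, th_neg]; simp

lemma continuous_chr (x : Fin d → ℤ) : Continuous fun k : Fin d → ℝ => chr k x := by
  unfold chr th; fun_prop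

lemma integrable_of_bdd {E : Type} [NormedAddCommGroup E] {f : (Fin d → ℝ) → E} (hf : Continuous f)
    (C : ℝ) (h : ∀ k, ‖f k‖ ≤ C) : Integrable f (mu d) :=
  Integrable.of_bound hf.aestronglyMeasurable C (Eventually.of_forall h)

lemma integrable_chr (x : Fin d → ℤ) : Integrable (fun k => chr k x) (mu d) :=
  integrable_of_bdd (continuous_chr x) 1 fun k => (norm_chr k x).le

lemma integral_one_dim (n : ℤ) :
    ∫ t, Complex.exp ((2 * π * n * t : ℝ) * Complex.I) ∂nu = if n = 0 then 1 else 0 := by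
  split_ifs with h
  · subst h; simp
  · rw [nu, ← intervalIntegral.integral_of_le (by norm_num)]
    have hc : (2 * π * n * Complex.I : ℂ) ≠ 0 := by
      have : (π : ℂ) ≠ 0 := by exact_mod_cast pi_ne_zero
      have h2 : (n : ℂ) ≠ 0 := by exact_mod_cast h
      simp [this, h2]
    have := integral_exp_mul_complex (a := (-1 / 2 : ℝ)) (b := (1 / 2 : ℝ)) hc
    have e : (fun t : ℝ => Complex.exp ((2 * π * n * t : ℝ) * Complex.I)) =
        fun t : ℝ => Complex.exp (2 * π * n * Complex.I * t) := by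
      funext t; congr 1; push_cast; ring
    rw [e, this]
    have e2 : Complex.exp (2 * π * n * Complex.I * ((1 / 2 : ℝ) : ℂ)) =
        Complex.exp (2 * π * n * Complex.I * ((-1 / 2 : ℝ) : ℂ)) := by
      rw [Complex.exp_eq_exp_iff_exists_int]
      exact ⟨n, by push_cast; ring⟩
    rw [e2]; simp

lemma integral_chr (x : Fin d → ℤ) : ∫ k, chr k x ∂(mu d) = if x = 0 then 1 else 0 := by
  have e : (fun k : Fin d → ℝ => chr k x) =
      fun k => ∏ j, Complex.exp ((2 * π * x j * k j : ℝ) * Complex.I) := by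
    funext k
    rw [chr, th, ← Complex.exp_sum, ← sum_mul]; push_cast; rfl
  rw [e, mu, integral_fintype_prod_eq_prod
    (fun j (t : ℝ) => Complex.exp ((2 * π * x j * t : ℝ) * Complex.I))]
  simp_rw [integral_one_dim]
  split_ifs with h
  · subst h; simp
  · obtain ⟨j, hj⟩ := Function.ne_iff.1 h
    exact prod_eq_zero (mem_univ j) (if_neg hj)

/-- one dimensional symbol -/
noncomputable def yy (t : ℝ) : ℝ := 1 - cos (2 * π * t)

/-- averaged symbol -/
noncomputable def YY (k : Fin d → ℝ) : ℝ := (∑ j, yy (k j)) / d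

lemma yy_nonneg (t : ℝ) : 0 ≤ yy t := by unfold yy; linarith [cos_le_one (2 * π * t)]

lemma yy_le (t : ℝ) : yy t ≤ 2 := by unfold yy; linarith [neg_one_le_cos (2 * π * t)]

lemma yy_lower {t : ℝ} (h : |t| ≤ 1 / 2) : t ^ 2 ≤ yy t := by
  have h1 : |2 * π * t| ≤ π := by
    rw [abs_mul, abs_of_pos (by positivity : 0 < 2 * π)]; nlinarith [pi_pos]
  have := cos_le_one_sub_mul_cos_sq h1
  have e : 2 / π ^ 2 * (2 * π * t) ^ 2 = 8 * t ^ 2 := by field_simp; ring
  unfold yy; nlinarith [sq_nonneg t]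

lemma ae_nu : ∀ᵐ t ∂nu, |t| ≤ 1 / 2 ∧ t ≠ 0 := by
  have h1 : ∀ᵐ t ∂nu, t ∈ Set.Ioc (-1 / 2 : ℝ) (1 / 2) := ae_restrict_mem measurableSet_Ioc
  have h2 : ∀ᵐ t ∂nu, t ≠ 0 := by
    rw [nu]; refine ae_restrict_of_ae ?_
    simp [ae_iff]
  filter_upwards [h1, h2] with t h1 h2
  exact ⟨abs_le.2 ⟨by linarith [h1.1], h1.2⟩, h2⟩

lemma integrable_abs_rpow : Integrable (fun t : ℝ => |t| ^ (-1 / 2 : ℝ)) nu := by
  have h0 : IntervalIntegrable (fun t : ℝ => t ^ (-1 / 2 : ℝ)) volume 0 (1 / 2) :=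
    intervalIntegral.intervalIntegrable_rpow' (by norm_num)
  have h1 : IntervalIntegrable (fun t : ℝ => |t| ^ (-1 / 2 : ℝ)) volume 0 (1 / 2) := by
    refine h0.congr ?_
    intro t ht
    rw [Set.uIoc_of_le (by norm_num)] at ht
    simp [abs_of_pos ht.1]
  have h2 : IntervalIntegrable (fun t : ℝ => |t| ^ (-1 / 2 : ℝ)) volume (-1 / 2) 0 := by
    have := (IntervalIntegrable.iff_comp_neg (by simp)).1 h1
    simp only [abs_neg, neg_zero] at this
    have e : (-(1 / 2) : ℝ) = -1 / 2 := by norm_num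
    rw [e] at this
    exact this.symm
  have h3 := h2.trans h1
  rw [intervalIntegrable_iff_integrableOn_Ioc_of_le (by norm_num)] at h3
  exact h3

lemma measurable_yy : Measurable yy := by unfold yy; fun_prop

lemma yy_rpow_le {s : ℝ} (hs0 : 0 ≤ s) (hs : s ≤ 1 / 4) :
    ∀ᵐ t ∂nu, yy t ^ (-s) ≤ 1 + 4 * s * |t| ^ (-1 / 2 : ℝ) := by
  filter_upwards [ae_nu] with t ht
  have ha : 0 < |t| := abs_pos.2 ht.2
  have h1 : yy t ^ (-s) ≤ (t ^ 2) ^ (-s) :=
    rpow_le_rpow_of_nonpos (by have := ht.2; positivity) (yy_lower ht.1) (by linarith)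
  have h2 : (t ^ 2) ^ (-s) = (|t| ^ (-1 / 2 : ℝ)) ^ (4 * s) := by
    rw [← sq_abs, ← rpow_natCast, ← rpow_mul ha.le, ← rpow_mul ha.le]
    congr 1; push_cast; ring
  have h3 := rpow_one_add_le_one_add_mul_self (s := |t| ^ (-1 / 2 : ℝ) - 1) (p := 4 * s)
    (by have : 0 ≤ |t| ^ (-1 / 2 : ℝ) := by positivity
        linarith) (by linarith) (by linarith)
  rw [add_sub_cancel] at h3
  rw [h2] at h1
  nlinarith

lemma integrable_yy_rpow {s : ℝ} (hs0 : 0 ≤ s) (hs : s ≤ 1 / 4) :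
    Integrable (fun t => yy t ^ (-s)) nu := by
  refine Integrable.mono' ((integrable_const (1 : ℝ)).add (integrable_abs_rpow.const_mul (4 * s)))
    (measurable_yy.pow_const _).aestronglyMeasurable ?_
  filter_upwards [yy_rpow_le hs0 hs] with t ht
  rw [Real.norm_of_nonneg (rpow_nonneg (yy_nonneg t) _)]
  exact ht

theorem key_integral : ∃ C : ℝ, 0 ≤ C ∧ ∀ d : ℕ, 32 ≤ d → ∀ η : ℝ, 0 < η →
    ∀ S G : (Fin d → ℝ) → ℂ, Integrable (fun k => ‖S k‖ ^ 2) (mu d) →
      (∀ k, ‖G k‖ * YY k ≤ 5) →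
      ∫ k, ‖S k * G k ^ 4‖ ∂(mu d) ≤ (∫ k, ‖S k‖ ^ 2 ∂(mu d)) / (2 * η) + η * C := by
  set C1 := ∫ t, |t| ^ (-1 / 2 : ℝ) ∂nu with hC1
  have hC10 : 0 ≤ C1 := integral_nonneg fun t => by positivity
  refine ⟨5 ^ 8 * exp (32 * C1) / 2, by positivity, fun d hd η hη S G hS hG => ?_⟩
  have hd0 : (0 : ℝ) < d := by exact_mod_cast (by omega : 0 < d)
  have hd32 : (32 : ℝ) ≤ d := by exact_mod_cast hd
  set s : ℝ := 8 / d with hs
  have hs0 : 0 ≤ s := by positivity
  have hs4 : s ≤ 1 / 4 := by rw [hs, div_le_iff₀ hd0]; linarith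
  set B : (Fin d → ℝ) → ℝ := fun k => ∏ j, yy (k j) ^ (-s) with hB
  have hBi : Integrable B (mu d) :=
    Integrable.fintype_prod (f := fun _ t => yy t ^ (-s)) fun _ => integrable_yy_rpow hs0 hs4
  have hBint : ∫ k, B k ∂(mu d) ≤ exp (32 * C1) := by
    rw [hB, mu, integral_fintype_prod_eq_pow (fun t => yy t ^ (-s)), Fintype.card_fin]
    have h1 : ∫ t, yy t ^ (-s) ∂nu ≤ 1 + 4 * s * C1 := by
      have := integral_mono_ae (integrable_yy_rpow hs0 hs4)
        ((integrable_const (1 : ℝ)).add (integrable_abs_rpow.const_mul (4 * s)))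
        (yy_rpow_le hs0 hs4)
      refine this.trans (le_of_eq ?_)
      simp only [Pi.add_apply]
      rw [integral_add (integrable_const _) (integrable_abs_rpow.const_mul _), integral_const_mul]
      simp [hC1]
    have h2 : 1 + 4 * s * C1 ≤ exp (4 * s * C1) := by linarith [add_one_le_exp (4 * s * C1)]
    calc _ ≤ (exp (4 * s * C1)) ^ d :=
          pow_le_pow_left₀ (integral_nonneg fun t => rpow_nonneg (yy_nonneg t) _) (h1.trans h2) d
      _ = _ := by rw [← exp_nat_mul]; congr 1; rw [hs]; field_simp; ring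
  have hae : ∀ᵐ k ∂(mu d), ∀ j, 0 < yy (k j) := by
    rw [ae_all_iff]
    intro j
    have h1 : ∀ᵐ t ∂nu, 0 < yy t := by
      filter_upwards [ae_nu] with t ht
      exact lt_of_lt_of_le (by have := ht.2; positivity) (yy_lower ht.1)
    exact (Measure.tendsto_eval_ae_ae (μ := fun _ : Fin d => nu) (i := j)).eventually h1
  have hpt : ∀ᵐ k ∂(mu d), ‖S k * G k ^ 4‖ ≤ ‖S k‖ ^ 2 / (2 * η) + η * (5 ^ 8 * B k / 2) := by
    filter_upwards [hae] with k hk
    have hgm : ∏ j, yy (k j) ^ (1 / d : ℝ) ≤ YY k := by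
      have := geom_mean_le_arith_mean_weighted univ (fun _ : Fin d => (1 / d : ℝ))
        (fun j => yy (k j)) (fun _ _ => by positivity) (by simp; field_simp)
        (fun j _ => yy_nonneg _)
      refine this.trans (le_of_eq ?_)
      rw [YY, ← mul_sum]; ring
    set Q := ∏ j, yy (k j) ^ (1 / d : ℝ) with hQ
    have hQ0 : 0 < Q := prod_pos fun j _ => rpow_pos_of_pos (hk j) _
    have hBQ : B k * Q ^ 8 = 1 := by
      rw [hB, hQ, ← prod_pow, ← prod_mul_distrib]
      refine prod_eq_one fun j _ => ?_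
      rw [← rpow_natCast, ← rpow_mul (hk j).le, ← rpow_add (hk j)]
      have : -s + 1 / d * ((8 : ℕ) : ℝ) = 0 := by rw [hs]; push_cast; ring
      rw [this, rpow_zero]
    have hB0 : 0 ≤ B k := prod_nonneg fun j _ => rpow_nonneg (yy_nonneg _) _
    have h1 : ‖G k‖ * Q ≤ 5 := (mul_le_mul_of_nonneg_left hgm (norm_nonneg _)).trans (hG k)
    have h2 : ‖G k‖ ^ 8 ≤ 5 ^ 8 * B k := by
      have h3 : (‖G k‖ * Q) ^ 8 ≤ 5 ^ 8 := pow_le_pow_left₀ (by positivity) h1 8
      calc ‖G k‖ ^ 8 = (‖G k‖ * Q) ^ 8 * B k := by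
            rw [mul_pow, mul_assoc, mul_comm (Q ^ 8), hBQ, mul_one]
        _ ≤ _ := by gcongr
    rw [norm_mul, norm_pow]
    have h4 : ‖S k‖ * ‖G k‖ ^ 4 ≤ ‖S k‖ ^ 2 / (2 * η) + η * (‖G k‖ ^ 8 / 2) := by
      have : ‖S k‖ ^ 2 / (2 * η) + η * (‖G k‖ ^ 8 / 2) - ‖S k‖ * ‖G k‖ ^ 4 =
          (‖S k‖ - η * ‖G k‖ ^ 4) ^ 2 / (2 * η) := by field_simp; ring
      have h5 : 0 ≤ (‖S k‖ - η * ‖G k‖ ^ 4) ^ 2 / (2 * η) := by positivity
      linarith
    refine h4.trans ?_
    gcongr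
  have hi2 : Integrable (fun k => η * (5 ^ 8 * B k / 2)) (mu d) :=
    ((hBi.const_mul _).div_const _).const_mul _
  refine (integral_mono_of_nonneg (Eventually.of_forall fun k => norm_nonneg _)
    ((hS.div_const _).add hi2) hpt).trans ?_
  simp only [Pi.add_apply]
  rw [integral_add (hS.div_const _) hi2, integral_div, integral_const_mul, integral_div,
    integral_const_mul]
  gcongr

end Pool.Agent.P.MP_2ab770_pr
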