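import Pool.Agent.P.MP_2ab770_pr.ESum

set_option autoImplicit false
set_option linter.dupNamespace false
set_option linter.unusedVariables false
set_option linter.unusedSectionVars false

namespace Pool.Agent.P.MP_2ab770_pr

open Finset
open scoped ENNReal NNReal

variable {d : ℕ}

/-- lattice points -/
abbrev X (d : ℕ) := Fin d → ℤ

/-- opposite letter -/
def iv (a : Lt d) : Lt d := (a.1, !a.2)

lemma iv_iv (a : Lt d) : iv (iv a) = a := by simp [iv]

lemma step_iv (a : Lt d) : step (iv a) = - step a := by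
  funext j
  by_cases h : j = a.1
  · subst h; cases hb : a.2 <;> simp [step, iv, hb]
  · simp [step, iv, Pi.single_eq_of_ne h]

/-- inversion of letters as a permutation -/
def ivE (d : ℕ) : Lt d ≃ Lt d := ⟨iv, iv, iv_iv, iv_iv⟩

lemma sum_iv {R : Type} [AddCommMonoid R] (f : Lt d → R) : ∑ a, f (iv a) = ∑ a, f a :=
  Equiv.sum_comp (ivE d) f

lemma disp_single (a : Lt d) : disp [a] = step a := by simp [disp]

lemma good_left {u v : List (Lt d)} (h : goodT (u ++ v)) : goodT u := (modelT d).left u v h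

lemma good_right {u v : List (Lt d)} (h : goodT (u ++ v)) : goodT v := (modelT d).right u v h

lemma good_nil : goodT ([] : List (Lt d)) := (modelT d).nil

lemma good_single (a : Lt d) : goodT [a] := (modelT d).single a

lemma not_good_rev (a : Lt d) : ¬ goodT [a, iv a] := by
  intro h
  refine h 0 1 (by norm_num) (by simp) ?_
  simp [pos, disp, step_iv]

/-- a trail with given last letter and endpoint -/
def Hit (h : X d) (c : Lt d) (v : List (Lt d)) : Prop :=
  goodT v ∧ v.getLast? = some c ∧ disp v = h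

lemma F_hit {u v : List (Lt d)} (hF : (modelT d).F u v) :
    ∃ x c y, x ++ c :: y = u ∧ (Hit (-disp y) c v ∨ Hit (-disp y - step c) (iv c) v) := by
  obtain ⟨hv, h1, h2, h3⟩ := hF
  change goodT v at h1
  change goodT _ at h2
  change ¬ goodT _ at h3
  simp only [goodT, not_forall, not_not] at h3
  obtain ⟨i, j, hij, hj, e⟩ := h3
  have hl := List.length_pos_iff.2 hv
  simp only [List.length_append] at hj
  have hjn : j + 1 = u.length + v.length := by
    by_contra hne
    refine h2 i j hij (by simp; omega) ?_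
    rw [pos_dropLast u v (by omega), pos_dropLast u v (by omega), pos_dropLast u v (by omega),
      pos_dropLast u v (by omega), e]
  have hi : i < u.length := by
    by_contra hc
    refine h1 (i - u.length) (j - u.length) (by omega) (by omega) ?_
    rw [show j = u.length + (j - u.length) by omega, show i = u.length + (i - u.length) by omega,
      add_assoc, add_assoc, pos_right, pos_right, pos_right, pos_right, Sym2.eq_iff] at e
    rw [Sym2.eq_iff]
    simpa using e
  obtain ⟨v', l, rfl⟩ : ∃ v' l, v = v' ++ [l] := ⟨_, _, (List.dropLast_append_getLast hv).symm⟩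
  have hu : u.take i ++ u[i] :: u.drop (i + 1) = u := by simp
  have hd : disp u = disp (u.take i) + (step u[i] + disp (u.drop (i + 1))) := by
    rw [← disp_cons, ← disp_append, hu]
  have e1 : pos (u ++ (v' ++ [l])) i = disp (u.take i) := by rw [pos_left u _ hi.le, pos]
  have e2 : pos (u ++ (v' ++ [l])) (i + 1) = disp (u.take i) + step u[i] := by
    rw [pos_left u _ hi, pos_succ u hi, pos]
  have e3 : pos (u ++ (v' ++ [l])) (j + 1) = disp u + (disp v' + step l) := by
    rw [hjn, ← List.length_append, pos_length, disp_append, disp_append, disp_single]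
  have e4 : pos (u ++ (v' ++ [l])) j = disp u + disp v' := by
    simp only [List.length_append, List.length_singleton] at hjn
    rw [show j = (u ++ v').length by simp; omega, ← List.append_assoc, pos_left _ _ le_rfl,
      pos_length, disp_append]
  rw [e1, e2, e3, e4, hd] at e
  refine ⟨_, _, _, hu, ?_⟩
  rcases Sym2.eq_iff.1 e with ⟨a1, a2⟩ | ⟨a1, a2⟩
  · left
    have : l = u[i] := step_injective (by linear_combination a1 - a2)
    refine ⟨h1, by simp [this], ?_⟩
    rw [disp_append, disp_single]; linear_combination - a2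
  · right
    have : l = iv u[i] := step_injective (by rw [step_iv]; linear_combination a2 - a1)
    refine ⟨h1, by simp [this], ?_⟩
    rw [disp_append, disp_single]; linear_combination - a1

lemma F_rev (a : Lt d) : (modelT d).F [a] [iv a] :=
  ⟨by simp, good_single _, good_single _, not_good_rev a⟩

/-- lattice symmetries -/
structure Sym (d : ℕ) where
  σ : Lt d ≃ Lt d
  T : X d ≃+ X d
  hs : ∀ a, step (σ a) = T (step a)

namespace Sym
variable (S : Sym d)

lemma disp_map (w : List (Lt d)) : disp (w.map S.σ) = S.T (disp w) := by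
  induction w with
  | nil => simp [disp_nil]
  | cons a w ih => rw [List.map_cons, disp_cons, disp_cons, ih, S.hs, map_add]

lemma good_map (w : List (Lt d)) : goodT (w.map S.σ) ↔ goodT w := by
  simp only [goodT, pos, ← List.map_take, S.disp_map, List.length_map, ne_eq, Sym2.eq_iff,
    EmbeddingLike.apply_eq_iff_eq]

lemma iv_map (a : Lt d) : S.σ (iv a) = iv (S.σ a) :=
  step_injective (by rw [S.hs, step_iv, step_iv, S.hs, map_neg])

lemma hit_map (h : X d) (c : Lt d) (v : List (Lt d)) :
    Hit (S.T h) (S.σ c) (v.map S.σ) ↔ Hit h c v := by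
  simp only [Hit, S.good_map, S.disp_map, EmbeddingLike.apply_eq_iff_eq, List.getLast?_map]
  cases v.getLast? <;> simp

end Sym

/-- point reflection -/
def negS (d : ℕ) : Sym d := ⟨ivE d, AddEquiv.neg _, fun a => step_iv a⟩

/-- exchange of two coordinates -/
def swapS (i j : Fin d) : Sym d where
  σ := (Equiv.swap i j).prodCongr (Equiv.refl Bool)
  T := ⟨⟨fun x => x ∘ Equiv.swap i j, fun x => x ∘ Equiv.swap i j,
    fun x => by funext k; simp, fun x => by funext k; simp⟩, fun x y => rfl⟩
  hs := fun a => by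
    funext k
    simp only [step, Equiv.prodCongr_apply, Prod.map_fst, Prod.map_snd, Equiv.refl_apply,
      AddEquiv.coe_mk, Equiv.coe_fn_mk, Function.comp, Pi.single_apply, Equiv.swap_apply_eq_iff]

/-- reflection of one coordinate -/
def flipT (j : Fin d) (x : X d) : X d := fun k => if k = j then - x k else x k

lemma flipT_flipT (j : Fin d) (x : X d) : flipT j (flipT j x) = x := by
  funext k; unfold flipT; split_ifs <;> simp

/-- reflection of one coordinate -/
def flipS (j : Fin d) : Sym d where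
  σ := ⟨fun a => if a.1 = j then iv a else a, fun a => if a.1 = j then iv a else a,
    fun ⟨i, s⟩ => by by_cases h : i = j <;> simp [h, iv],
    fun ⟨i, s⟩ => by by_cases h : i = j <;> simp [h, iv]⟩
  T := ⟨⟨flipT j, flipT j, flipT_flipT j, flipT_flipT j⟩, fun x y => by
    funext k; simp only [flipT, Pi.add_apply]; split_ifs <;> ring⟩
  hs := fun a => by
    funext k
    simp only [Equiv.coe_fn_mk, AddEquiv.coe_mk, flipT]
    by_cases h : a.1 = j
    · rw [if_pos h, step_iv]
      split_ifs with hk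
      · rfl
      · have : k ≠ a.1 := h ▸ hk
        simp [step, Pi.single_eq_of_ne this]
    · rw [if_neg h]
      split_ifs with hk
      · have : k ≠ a.1 := fun h' => h (h' ▸ hk)
        simp [step, Pi.single_eq_of_ne this]
      · rfl

lemma sym_const {R : Type} (f : Lt d → R) (h : ∀ (S : Sym d) a, f (S.σ a) = f a) (a b : Lt d) :
    f a = f b := by
  obtain ⟨i, s⟩ := a
  obtain ⟨j, t⟩ := b
  have h1 := h (swapS i j) (i, s)
  have h2 := h (negS d) (j, s)
  simp only [swapS, negS, ivE, iv, Equiv.prodCongr_apply, Prod.map_apply, Equiv.swap_apply_left,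
    Equiv.refl_apply, Equiv.coe_fn_mk] at h1 h2
  cases s <;> cases t <;> simp_all

lemma le_of_sum_le {f : Lt d → ℝ≥0∞} (h : ∀ (S : Sym d) a, f (S.σ a) = f a) {B : ℝ≥0∞}
    (hB : ∑ a, f a ≤ 2 * d * B) (a : Lt d) : f a ≤ B := by
  rw [sum_congr rfl fun b _ => sym_const f h b a] at hB
  simp only [sum_const, card_univ, Fintype.card_prod, Fintype.card_fin, Fintype.card_bool,
    nsmul_eq_mul, Nat.cast_mul, Nat.cast_ofNat] at hB
  rw [mul_comm (d : ℝ≥0∞) 2] at hB
  have hd : d ≠ 0 := a.1.pos.ne'
  exact (ENNReal.mul_le_mul_iff_right (by simp [hd]) (by finiteness)).1 hB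

lemma sum_const_Lt (B : ℝ≥0∞) : ∑ _a : Lt d, B = 2 * d * B := by
  simp [mul_comm]

/-- squared norm -/
def nsq (x : X d) : ℕ := ∑ j, (x j).natAbs ^ 2

lemma nsq_real (x : X d) : (nsq x : ℝ) = ∑ j, (x j : ℝ) ^ 2 := by
  simp only [nsq, Nat.cast_sum, Nat.cast_pow, Nat.cast_natAbs, Int.cast_abs, sq_abs]

lemma nsq_zero : nsq (0 : X d) = 0 := by simp [nsq]

lemma nsq_neg (x : X d) : nsq (-x) = nsq x := by simp [nsq]

lemma nsq_step (a : Lt d) : nsq (step a) = 1 := by
  rw [nsq, sum_eq_single a.1]
  · cases hb : a.2 <;> simp [step, hb]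
  · intro j _ hj; simp [step, Pi.single_eq_of_ne hj]
  · simp

/-- admissible constants for the squared triangle inequality -/
def Adm (A B : ℝ≥0∞) : Prop :=
  ∀ (d : ℕ) (x y : X d), (nsq (x + y) : ℝ≥0∞) ≤ A * nsq x + B * nsq y

lemma adm_of {A B : ℝ≥0} (h1 : (1 : ℝ) < A) (h2 : (A : ℝ) + B ≤ A * B) : Adm A B := by
  intro d x y
  have : (nsq (x + y) : ℝ) ≤ A * nsq x + B * nsq y := by
    simp only [nsq_real, mul_sum, ← sum_add_distrib]
    refine sum_le_sum fun j _ => ?_
    simp only [Pi.add_apply, Int.cast_add]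
    generalize ((x j : ℤ) : ℝ) = s
    generalize ((y j : ℤ) : ℝ) = t
    have h3 : (0 : ℝ) < A - 1 := by linarith
    by_contra hc
    push Not at hc
    nlinarith [sq_nonneg ((A - 1) * s - t), mul_lt_mul_of_pos_left hc h3, sq_nonneg t]
  exact_mod_cast this

lemma adm_two : Adm 2 2 := by
  have := adm_of (A := 2) (B := 2) (by norm_num) (by norm_num)
  exact_mod_cast this

/-- push forward of a weight on words -/
noncomputable def pf (z : ℝ≥0∞) (φ : List (Lt d) → ℝ≥0∞) (x : X d) : ℝ≥0∞ :=
  ∑' w, if disp w = x then z ^ w.length * φ w else 0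

/-- convolution -/
noncomputable def ec (f g : X d → ℝ≥0∞) (y : X d) : ℝ≥0∞ := ∑' x, f x * g (y - x)

lemma tsum_slice (g : List (Lt d) → X d → ℝ≥0∞) :
    ∑' w, g w (disp w) = ∑' x, ∑' w, if disp w = x then g w x else 0 := by
  rw [ENNReal.tsum_comm]
  refine tsum_congr fun w => ?_
  rw [tsum_eq_single (disp w)]
  · simp
  · intro x hx; rw [if_neg hx.symm]

lemma tsum_pf (z : ℝ≥0∞) (φ : List (Lt d) → ℝ≥0∞) (ω : X d → ℝ≥0∞) :
    ∑' x, pf z φ x * ω x = ∑' w, z ^ w.length * φ w * ω (disp w) := by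
  rw [tsum_slice (fun w x => z ^ w.length * φ w * ω x)]
  refine tsum_congr fun x => ?_
  rw [pf, ← ENNReal.tsum_mul_right]
  refine tsum_congr fun w => ?_
  split_ifs <;> simp

lemma pf_cat (z : ℝ≥0∞) (φ ψ : List (Lt d) → ℝ≥0∞) (y : X d) :
    pf z (fun w => ssum w (fun u v => φ u * ψ v)) y = ec (pf z φ) (pf z ψ) y := by
  rw [ec, tsum_pf z φ (fun x => pf z ψ (y - x)), pf]
  have : ∀ w : List (Lt d), (if disp w = y then z ^ w.length * ssum w (fun u v => φ u * ψ v) else 0)
      = ssum w (fun u v => z ^ u.length * φ u *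
        (if disp v = y - disp u then z ^ v.length * ψ v else 0)) := by
    intro w
    symm
    rw [ssum_congr (g := fun u v => if disp w = y then z ^ w.length * (φ u * ψ v) else 0)]
    · split_ifs <;> simp [ssum, mul_sum]
    · intro u v h
      subst h
      rw [disp_append, List.length_append, pow_add]
      by_cases h : disp u + disp v = y
      · rw [if_pos h, if_pos (by rw [← h]; abel)]; ring
      · rw [if_neg h, if_neg (fun h' => h (by rw [h']; abel)), mul_zero]
  rw [tsum_congr this, tsum_ssum]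
  refine tsum_congr fun u => ?_
  rw [ENNReal.tsum_mul_left, pf]

lemma pf_mono (z : ℝ≥0∞) {φ ψ : List (Lt d) → ℝ≥0∞} (h : ∀ w, φ w ≤ ψ w) (x : X d) :
    pf z φ x ≤ pf z ψ x :=
  ENNReal.tsum_le_tsum fun w => by split_ifs; exacts [mul_le_mul_right (h w) _, le_rfl]

lemma pf_add (z : ℝ≥0∞) (φ ψ : List (Lt d) → ℝ≥0∞) (x : X d) :
    pf z (fun w => φ w + ψ w) x = pf z φ x + pf z ψ x := by
  simp only [pf, ← ENNReal.tsum_add]
  exact tsum_congr fun w => by split_ifs <;> simp [mul_add]

lemma pf_mul (z B : ℝ≥0∞) (φ : List (Lt d) → ℝ≥0∞) (x : X d) :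
    pf z (fun w => B * φ w) x = B * pf z φ x := by
  simp only [pf, ← ENNReal.tsum_mul_left]
  exact tsum_congr fun w => by split_ifs <;> simp [mul_left_comm]

lemma pf_sym (S : Sym d) (z : ℝ≥0∞) {φ : List (Lt d) → ℝ≥0∞} (h : ∀ w, φ (w.map S.σ) = φ w)
    (x : X d) : pf z φ (S.T x) = pf z φ x := by
  rw [pf, ← tsum_map S.σ]
  simp only [S.disp_map, EmbeddingLike.apply_eq_iff_eq, List.length_map, h, pf]

lemma pf_one (z : ℝ≥0∞) (u : List (Lt d)) (x : X d) :
    pf z (fun w => if w = u then 1 else 0) x = if disp u = x then z ^ u.length else 0 := by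
  rw [pf, tsum_eq_single u]
  · simp
  · intro w hw; simp [hw]

lemma pf_sum {ι : Type} (s : Finset ι) (z : ℝ≥0∞) (φ : ι → List (Lt d) → ℝ≥0∞) (x : X d) :
    pf z (fun w => ∑ i ∈ s, φ i w) x = ∑ i ∈ s, pf z (φ i) x := by
  simp only [pf]
  rw [← Summable.tsum_finsetSum (fun _ _ => ENNReal.summable)]
  exact tsum_congr fun w => by split_ifs <;> simp [mul_sum]

lemma pf_cons (z : ℝ≥0∞) (φ : List (Lt d) → ℝ≥0∞) (x : X d) :
    pf z φ x = (if x = 0 then φ [] else 0) +
      z * ∑ a, pf z (fun w => φ (a :: w)) (x - step a) := by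
  rw [pf, tsum_cons, mul_sum]
  congr 1
  · simp [disp_nil, eq_comm]
  · refine sum_congr rfl fun a _ => ?_
    rw [pf, ← ENNReal.tsum_mul_left]
    refine tsum_congr fun w => ?_
    rw [disp_cons]
    by_cases h : step a + disp w = x
    · rw [if_pos h, if_pos (by rw [← h]; abel), List.length_cons]; ring
    · rw [if_neg h, if_neg (fun h' => h (by rw [h']; abel)), mul_zero]

lemma ec_comm (f g : X d → ℝ≥0∞) (y : X d) : ec f g y = ec g f y := by
  rw [ec, ec, ← (Equiv.subLeft y).tsum_eq]
  simp [mul_comm]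

lemma ec_sym (S : Sym d) {f g : X d → ℝ≥0∞} (hf : ∀ x, f (S.T x) = f x) (hg : ∀ x, g (S.T x) = g x)
    (y : X d) : ec f g (S.T y) = ec f g y := by
  rw [ec, ec, ← S.T.toEquiv.tsum_eq]
  refine tsum_congr fun x => ?_
  change f (S.T x) * g (S.T y - S.T x) = _
  rw [← map_sub, hf, hg]

lemma tsum_ec (f g : X d → ℝ≥0∞) : ∑' y, ec f g y = (∑' x, f x) * ∑' x, g x := by
  simp only [ec]
  rw [ENNReal.tsum_comm, ← ENNReal.tsum_mul_right]
  refine tsum_congr fun x => ?_
  rw [ENNReal.tsum_mul_left, (Equiv.subRight x).tsum_eq g |>.symm]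
  rfl

open Classical in
/-- indicator of trails -/
noncomputable def I (w : List (Lt d)) : ℝ≥0∞ := if goodT w then 1 else 0

lemma I_le_one (w : List (Lt d)) : I w ≤ 1 := by unfold I; split_ifs <;> simp

lemma I_good {w : List (Lt d)} (h : goodT w) : I w = 1 := if_pos h

lemma I_not {w : List (Lt d)} (h : ¬ goodT w) : I w = 0 := if_neg h

lemma I_cons_le (a : Lt d) (w : List (Lt d)) : I (a :: w) ≤ I w := by
  by_cases h : goodT (a :: w)
  · rw [I_good h, I_good (good_right (u := [a]) h)]
  · rw [I_not h]; exact zero_le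

/-- two point function -/
noncomputable def G (z : ℝ≥0∞) : X d → ℝ≥0∞ := pf z I

/-- open bubble -/
noncomputable def GG (z : ℝ≥0∞) : X d → ℝ≥0∞ := ec (G z) (G z)

lemma G_sym (S : Sym d) (z : ℝ≥0∞) (x : X d) : G z (S.T x) = G z x :=
  pf_sym S z (fun w => by unfold I; rw [propext (S.good_map w)]) x

lemma GG_sym (S : Sym d) (z : ℝ≥0∞) (x : X d) : GG z (S.T x) = GG z x :=
  ec_sym S (G_sym S z) (G_sym S z) x

lemma G_neg (z : ℝ≥0∞) (x : X d) : G z (-x) = G z x := G_sym (negS d) z x

lemma GG_neg (z : ℝ≥0∞) (x : X d) : GG z (-x) = GG z x := GG_sym (negS d) z x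

lemma tsum_GG (z : ℝ≥0∞) (a b : X d) : ∑' h, G z (h + a) * G z (h - b) = GG z (a + b) := by
  rw [GG, ec, ← (Equiv.addRight a).tsum_eq (fun x => G z x * G z (a + b - x))]
  refine tsum_congr fun h => ?_
  rw [← G_neg z (h - b)]
  simp only [Equiv.coe_addRight]
  congr 2; abel

lemma one_le_G (z : ℝ≥0∞) : 1 ≤ G z (0 : X d) := by
  rw [G, pf_cons, if_pos rfl, I_good good_nil]; exact le_self_add

lemma ssum_I (w : List (Lt d)) : (w.length + 1) * I w ≤ ssum w (fun u v => I u * I v) := by
  by_cases h : goodT w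
  · rw [ssum_congr (g := fun _ _ => 1), I_good h]
    · simp [ssum]
    · intro u v e
      subst e
      rw [I_good (good_left h), I_good (good_right h), mul_one]
  · rw [I_not h]; simp

lemma B_le_GG (z : ℝ≥0∞) (y : X d) : pf z (fun w => (w.length + 1) * I w) y ≤ GG z y := by
  rw [GG, G, ← pf_cat]; exact pf_mono z ssum_I y

end Pool.Agent.P.MP_2ab770_pr
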