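import Pool.Agent.P.MP_2ab770_pr.Ints

set_option autoImplicit false
set_option linter.dupNamespace false
set_option linter.unusedVariables false
set_option linter.unusedSectionVars false

namespace Pool.Agent.P.MP_2ab770_pr

open Finset Filter Topology MeasureTheory Real

variable {d : ℕ}

/-- nonnegative symmetric functions with two moments -/
structure Nc (f : X d → ℝ) : Prop where
  n0 : ∀ x, 0 ≤ f x
  s : Summable f
  q : Summable fun x => (nsq x : ℝ) * f x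
  y : Sy f

lemma FT_Dj {f : X d → ℝ} (q : Summable fun x => (nsq x : ℝ) * f x) (y : ∀ x, f (-x) = f x)
    (j : Fin d) (k : Fin d → ℝ) : FT (Dj j f) k = ST (Dj j f) k * Complex.I :=
  FT_odd (summ_Dj q j) (fun x => by simp [Dj, y]) k

lemma CT_zero (f : X d → ℝ) : CT f 0 = ∑' x, f x := by simp [CT, th]

lemma YY_zero : YY (0 : Fin d → ℝ) = 0 := by simp [YY, yy]

lemma engel {ι : Type} (s : Finset ι) {A B : ι → ℝ} {a b p q : ℝ} (ha : 0 ≤ a) (hb : 0 ≤ b)
    (hp : 0 ≤ p) (hq : 0 ≤ q) (hA : ∑ i ∈ s, A i ^ 2 ≤ a * p) (hB : ∑ i ∈ s, B i ^ 2 ≤ b * q) :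
    ∑ i ∈ s, (A i + B i) ^ 2 ≤ (a + b) * (p + q) := by
  have h1 := sum_mul_sq_le_sq_mul_sq s A B
  have h2 : (∑ i ∈ s, A i ^ 2) * ∑ i ∈ s, B i ^ 2 ≤ (a * p) * (b * q) :=
    mul_le_mul hA hB (sum_nonneg fun _ _ => sq_nonneg _) (by positivity)
  have h3 : ∑ i ∈ s, A i * B i ≤ (a * q + b * p) / 2 :=
    le_trans (le_abs_self _) (abs_le_of_sq_le_sq (by nlinarith [sq_nonneg (a * q - b * p)])
      (by positivity))
  have h4 : ∑ i ∈ s, (A i + B i) ^ 2 =
      ∑ i ∈ s, A i ^ 2 + 2 * ∑ i ∈ s, A i * B i + ∑ i ∈ s, B i ^ 2 := by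
    rw [mul_sum, ← sum_add_distrib, ← sum_add_distrib]; exact sum_congr rfl fun i _ => by ring
  nlinarith

/-- certificate for nonnegativity of a quadratic on the interval from zero to two -/
def quad {R : Type} [Field R] [LinearOrder R] (a b c : R) : Prop :=
  0 ≤ c ∧ 0 ≤ 4 * a + 2 * b + c ∧ (a ≤ 0 ∨ 0 ≤ b ∨ b + 4 * a ≤ 0 ∨ b ^ 2 ≤ 4 * a * c)

lemma quad.le {a b c y : ℝ} (h : quad a b c) (h0 : 0 ≤ y) (h2 : y ≤ 2) :
    0 ≤ a * y ^ 2 + b * y + c := by
  obtain ⟨h3, h4, h5⟩ := h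
  have e := mul_nonneg h0 (sub_nonneg.2 h2)
  rcases le_or_gt a 0 with ha | ha
  · nlinarith [mul_nonneg h0 h4, mul_nonneg (sub_nonneg.2 h2) h3]
  rcases h5 with h | h | h | h
  · linarith
  · positivity
  · nlinarith [mul_nonneg (sub_nonneg.2 h2) (sub_nonneg.2 h2)]
  · nlinarith [sq_nonneg (2 * a * y + b)]

/-- pointwise majorant certificate -/
def Maj {R : Type} [Field R] [LinearOrder R] (K lam e c io al g h h0 : R) : Prop :=
  quad al (-K * c) (K * (c - e) + h0) ∧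
    quad (al - g * io) (2 * g * io - h * io + 2 * K * lam * io - K * c)
      (2 * h * io - 4 * K * lam * io + K * (c - e) + h0)

lemma Maj.le {K lam e cl ch c io al g h h0 y t : ℝ} (h1 : Maj K lam e cl io al g h h0)
    (h2 : Maj K lam e ch io al g h h0) (hl : cl ≤ c) (hh : c ≤ ch) (y0 : 0 ≤ y) (y2 : y ≤ 2)
    (t0 : 0 ≤ t) (t1 : t ≤ (2 - y) * io) :
    K * (2 * lam * t + e - c * (1 - y)) ≤ al * y ^ 2 + g * y * t + h * t + h0 := by
  have a1 := h1.1.le y0 y2
  have a2 := h1.2.le y0 y2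
  have a3 := h2.1.le y0 y2
  have a4 := h2.2.le y0 y2
  rcases le_total 0 (g * y + h - 2 * K * lam) with u | u <;>
    rcases le_total 0 (K * (1 - y)) with v | v
  · nlinarith [mul_nonneg u t0, mul_nonneg v (sub_nonneg.2 hl)]
  · nlinarith [mul_nonneg u t0, mul_nonneg (neg_nonneg.2 v) (sub_nonneg.2 hh)]
  · nlinarith [mul_nonneg (neg_nonneg.2 u) (sub_nonneg.2 t1), mul_nonneg v (sub_nonneg.2 hl)]
  · nlinarith [mul_nonneg (neg_nonneg.2 u) (sub_nonneg.2 t1),
      mul_nonneg (neg_nonneg.2 v) (sub_nonneg.2 hh)]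

lemma Ints.poly {J1 J2 J : ℝ} (H : Ints d J1 J2 J) (hd : 0 < d) {a b c e : ℝ} (hc : 0 ≤ c)
    (he : 0 ≤ e) {m : (Fin d → ℝ) → ℝ}
    (hm : ∀ k, YY k ≠ 0 → m k = a + b * DD k + c * (DD k ^ 2 / YY k) + e * (DD k ^ 2 / YY k ^ 2)) :
    Integrable m (mu d) ∧ ∫ k, m k ∂(mu d) ≤ a + c * J1 + e * J := by
  have h1 : m =ᵐ[mu d] _ := (ae_DD hd).mono fun k hk => hm k hk.1.ne'
  have i0 := (integrable_mu (continuous_DD (d := d))).const_mul b
  have i1 := (integrable_const a).fun_add i0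
  have i2 := i1.fun_add (H.i1.1.const_mul c)
  refine ⟨(i2.fun_add (H.i3.1.const_mul e)).congr h1.symm, ?_⟩
  have h2 : ∫ k : Fin d → ℝ, DD k ∂(mu d) = 0 := by simpa [pm] using pm_odd hd odd_one
  rw [integral_congr_ae h1, integral_add i2 (H.i3.1.const_mul e),
    integral_add i1 (H.i1.1.const_mul c), integral_add (integrable_const a) i0]
  simp only [integral_const_mul, h2, integral_const, probReal_univ, smul_eq_mul]
  nlinarith [mul_le_mul_of_nonneg_left H.i1.2 hc, mul_le_mul_of_nonneg_left H.i3.2 he]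

lemma Ints.w2 {J1 J2 J : ℝ} (H : Ints d J1 J2 J) (hd : 0 < d) :
    Integrable (fun k : Fin d → ℝ => 1 / YY k ^ 2) (mu d) ∧
      ∫ k : Fin d → ℝ, 1 / YY k ^ 2 ∂(mu d) ≤ 1 + 2 * J1 + 1 * J :=
  H.poly hd (b := 2) (by norm_num) (by norm_num) fun k hk => by
    rw [DD]; field_simp; ring

/-- the renewal equation with a dominant nearest neighbour part -/
structure RP (ζ : ℝ) (G Pp Pm : X d → ℝ) : Prop where
  hd : 0 < d
  z0 : 0 ≤ ζ
  g : Nc G
  p : Nc Pp
  m : Nc Pm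
  id : G = fun x => dl 0 x + rc (fun y => ζ * nn y + Pp y - Pm y) G x

namespace RP
variable {ζ : ℝ} {G Pp Pm : X d → ℝ} (R : RP ζ G Pp Pm)
include R

lemma fourier (k : Fin d → ℝ) :
    CT G k * (1 - 2 * d * ζ * DD k - CT Pp k + CT Pm k) = 1 ∧
    FT (fun x => nsq x * G x - rc (fun x => nsq x * Pp x) (rc G G) x +
      rc (fun x => nsq x * Pm x) (rc G G) x) k = ((2 * d * ζ * DD k * CT G k ^ 2 -
        2 * (∑ j, (2 * ζ * sin (2 * π * k j) - ST (Dj j Pm) k + ST (Dj j Pp) k) ^ 2) *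
          CT G k ^ 3 : ℝ) : ℂ) := by
  have lin : ∀ {a b c : X d → ℝ}, Summable a → Summable b → Summable c →
      Summable (fun y => ζ * a y + b y - c y) ∧
      FT (fun y => ζ * a y + b y - c y) k = ζ * FT a k + FT b k - FT c k := fun ha hb hc =>
    ⟨((ha.mul_left ζ).add hb).sub hc, by
      rw [FT_sub ((ha.mul_left ζ).add hb) hc, FT_add (ha.mul_left ζ) hb, FT_mul]⟩
  have qn : Summable fun x : X d => (nsq x : ℝ) * nn x := by rw [nsq_nn]; exact summ_nn
  have e2 : (fun y => (nsq y : ℝ) * (ζ * nn y + Pp y - Pm y)) =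
      fun y => ζ * nn y + nsq y * Pp y - nsq y * Pm y := funext fun y => by
    have := congrFun (nsq_nn (d := d)) y
    linear_combination ζ * this
  have e1 : ∀ j, Dj j (fun y => ζ * nn y + Pp y - Pm y) =
      fun y => ζ * Dj j nn y + Dj j Pp y - Dj j Pm y := fun j => funext fun y => by
    simp only [Dj]; ring
  obtain ⟨h1, h2⟩ := FT_second R.g.s (lin summ_nn R.p.s R.m.s).1 R.g.q
    (e2 ▸ (lin summ_nn R.p.q R.m.q).1) R.id k
  rw [(lin summ_nn R.p.s R.m.s).2, FT_nn R.hd, FT_even R.g.s R.g.y.neg, FT_even R.p.s R.p.y.neg,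
    FT_even R.m.s R.m.y.neg] at h1
  have sG := rc_summ R.g.s R.g.s
  constructor
  · have : ((CT G k * (1 - 2 * d * ζ * DD k - CT Pp k + CT Pm k) : ℝ) : ℂ) = (1 : ℝ) := by
      push_cast at h1 ⊢; linear_combination h1
    exact_mod_cast this
  · rw [FT_add (R.g.q.sub (rc_summ R.p.q sG)) (rc_summ R.m.q sG), FT_sub R.g.q (rc_summ R.p.q sG),
      h2, e2, (lin summ_nn R.p.q R.m.q).2, FT_rc R.p.q sG, FT_rc R.m.q sG, FT_rc R.g.s R.g.s,
      FT_nn R.hd, FT_even R.g.s R.g.y.neg]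
    have e3 : ∀ j, FT (Dj j fun y => ζ * nn y + Pp y - Pm y) k ^ 2 =
        -((2 * ζ * sin (2 * π * k j) - ST (Dj j Pm) k + ST (Dj j Pp) k : ℝ) : ℂ) ^ 2 := fun j => by
      rw [e1, (lin (summ_Dj qn j) (summ_Dj R.p.q j) (summ_Dj R.m.q j)).2, FT_Dj qn nn_neg,
        FT_Dj R.p.q R.p.y.neg, FT_Dj R.m.q R.m.y.neg, ST_nn]
      simp only [Complex.ofReal_add, Complex.ofReal_sub, Complex.ofReal_mul, Complex.ofReal_ofNat]
      linear_combination (2 * ζ * (sin (2 * π * k j) : ℝ) - ST (Dj j Pm) k + ST (Dj j Pp) k : ℂ) ^ 2 *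
        Complex.I_sq
    simp only [e3, sum_neg_distrib]
    simp only [Complex.ofReal_sub, Complex.ofReal_mul, Complex.ofReal_ofNat, Complex.ofReal_pow,
      Complex.ofReal_sum, Complex.ofReal_natCast]
    ring

lemma F0 : 0 < 1 - 2 * d * ζ - ∑' x, Pp x + ∑' x, Pm x := by
  have h := (R.fourier 0).1
  rw [CT_zero, CT_zero, CT_zero, DD, YY_zero, sub_zero, mul_one] at h
  exact pos_of_mul_pos_left (by rw [mul_comm, h]; exact one_pos) (tsum_nonneg R.g.n0)

variable {sm pq r κ : ℝ} (hsm : ∑' x, (nsq x : ℝ) * Pm x ≤ sm) (hpq : ∑' x, Pp x ≤ pq)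
  (hr : r ≤ ∑' x, Pm x) (hκ : κ + sm ≤ 2 * d * ζ ∨ 2 * (κ + sm) + pq ≤ 1 + 2 * d * ζ + r)
include hsm hpq hr hκ

lemma lower (k : Fin d → ℝ) : κ * YY k + (∑' x, Pp x - CT Pp k) ≤
    1 - 2 * d * ζ * DD k - CT Pp k + CT Pm k := by
  have h1 := R.F0
  have h2 := (R_le R.m.s R.m.q R.m.n0 R.m.y k).trans
    (mul_le_mul_of_nonneg_right hsm (YY_nonneg k))
  have h3 := YY_nonneg k
  have h4 := YY_le R.hd k
  rw [DD]
  rcases le_total (κ + sm) (2 * d * ζ) with h | h
  · nlinarith [mul_nonneg h3 (sub_nonneg.2 h)]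
  · rcases hκ with h' | h'
    · nlinarith [mul_nonneg h3 (sub_nonneg.2 h')]
    · nlinarith [mul_nonneg (sub_nonneg.2 h4) (sub_nonneg.2 h)]

variable {K : ℝ} (hK : 1 ≤ κ * K) (hK0 : 0 ≤ K)
include hK hK0

lemma infrared (k : Fin d → ℝ) : 0 < CT G k ∧ YY k * CT G k ≤ K := by
  have h1 := R.lower hsm hpq hr hκ k
  have h2 := (R.fourier k).1
  have h3 := R_nonneg R.p.s R.p.n0 k
  have h4 : 0 < κ := pos_of_mul_pos_left (one_pos.trans_le hK) hK0
  have h5 := mul_nonneg h4.le (YY_nonneg k)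
  have h6 : 0 < CT G k := pos_of_mul_pos_left (h2 ▸ one_pos) (by linarith)
  refine ⟨h6, le_of_mul_le_mul_left (le_trans ?_ hK) h4⟩
  nlinarith

theorem W_le {J1 J2 J sp GG0 GG1 lam cl ch io al g h h0 : ℝ} (H : Ints d J1 J2 J)
    (hsp : ∑' x, (nsq x : ℝ) * Pp x ≤ sp) (b0 : ∀ y, rc G G y ≤ GG0)
    (b1 : ∀ y, y ≠ 0 → rc G G y ≤ GG1) (g0 : 0 ≤ GG0) (g1 : 0 ≤ GG1)
    (hlam : K * (2 * d * ζ + sm) ^ 2 ≤ lam)
    (hl : cl ≤ 2 * d * ζ) (hh : 2 * d * ζ ≤ ch) (hio : 1 / (d : ℝ) ≤ io)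
    (m1 : Maj (K * K) lam (4 * sp * io) cl io al g h h0)
    (m2 : Maj (K * K) lam (4 * sp * io) ch io al g h h0)
    (c1 : 0 ≤ al) (c2 : 0 ≤ g) (c3 : 0 ≤ h) (c4 : 0 ≤ h0) (x : X d) (hx : x ≠ 0) :
    nsq x * G x ≤ sp * GG0 + sm * GG1 + al + 2 * g * J1 + h * (J1 + J) +
      2 * h0 * (1 + 2 * J1 + J) := by
  have hd0 : (0 : ℝ) < d := by exact_mod_cast R.hd
  have sG := rc_summ R.g.s R.g.s
  have nG : ∀ y, 0 ≤ rc G G y := fun y => tsum_nonneg fun v => mul_nonneg (R.g.n0 _) (R.g.n0 _)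
  have np : ∀ y, 0 ≤ (nsq y : ℝ) * Pp y := fun y => mul_nonneg (Nat.cast_nonneg _) (R.p.n0 y)
  have nm : ∀ y, 0 ≤ (nsq y : ℝ) * Pm y := fun y => mul_nonneg (Nat.cast_nonneg _) (R.m.n0 y)
  have sp0 : 0 ≤ ∑' y, (nsq y : ℝ) * Pp y := tsum_nonneg np
  have sm0 : 0 ≤ ∑' y, (nsq y : ℝ) * Pm y := tsum_nonneg nm
  obtain ⟨hi, hu⟩ := real_inv ((R.g.q.sub (rc_summ R.p.q sG)).add (rc_summ R.m.q sG))
    fun k => (R.fourier k).2
  obtain ⟨-, h1⟩ := real_inv (summ_dl (0 : X d)) (ψ := fun _ => 1) fun k => by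
    rw [FT_dl, chr_zero]; simp
  replace h1 := h1 x
  have h2 := hu 0
  replace hu := hu x
  simp only [th_zero, cos_zero, mul_one, nsq_zero, Nat.cast_zero, zero_mul, one_mul, dl,
    if_neg hx] at h1 h2
  have a1 : rc (fun x => nsq x * Pp x) (rc G G) x ≤ sp * GG0 := by
    refine le_trans ((rc_pt R.p.q sG x).tsum_le_tsum
      (fun y => mul_le_mul_of_nonneg_left (b0 _) (np y)) (R.p.q.mul_right GG0)) ?_
    rw [tsum_mul_right]; gcongr
  have a2 : rc (fun x => nsq x * Pm x) (rc G G) 0 ≤ sm * GG1 := by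
    refine le_trans ((rc_pt R.m.q sG 0).tsum_le_tsum (fun y => ?_) (R.m.q.mul_right GG1)) ?_
    · by_cases hy : y = 0
      · simp [hy, nsq_zero]
      · exact mul_le_mul_of_nonneg_left (b1 _ (by simpa using hy)) (nm y)
    · rw [tsum_mul_right]; gcongr
  have a3 : 0 ≤ rc (fun x => nsq x * Pm x) (rc G G) x :=
    tsum_nonneg fun y => mul_nonneg (nm y) (nG _)
  have a4 : 0 ≤ rc (fun x => nsq x * Pp x) (rc G G) 0 :=
    tsum_nonneg fun y => mul_nonneg (np y) (nG _)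
  set ψ : (Fin d → ℝ) → ℝ := fun k => 2 * d * ζ * DD k * CT G k ^ 2 -
    2 * (∑ j, (2 * ζ * sin (2 * π * k j) - ST (Dj j Pm) k + ST (Dj j Pp) k) ^ 2) * CT G k ^ 3
  have key : ∀ k, 0 < YY k →
      -(ψ k + al) ≤ g * (VV k / YY k ^ 2) + h * (VV k / YY k ^ 3) + h0 * (1 / YY k ^ 2) := by
    intro k hY
    obtain ⟨p1, p2⟩ := R.infrared hsm hpq hr hκ hK hK0 k
    have p3 := R.lower hsm hpq hr hκ k
    have p4 := (R.fourier k).1
    have p5 := R_nonneg R.p.s R.p.n0 k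
    have hκ0 : 0 < κ := pos_of_mul_pos_left (one_pos.trans_le hK) hK0
    have hV := VV_nonneg k
    set t := VV k / YY k with ht
    have ht0 : 0 ≤ t := by positivity
    have htV : VV k = t * YY k := by rw [ht]; field_simp
    have ht1 : t ≤ (2 - YY k) * io := by
      have := YY_le R.hd k
      rw [ht, div_le_iff₀ hY]
      refine (VV_le R.hd k).trans ?_
      calc _ = (2 - YY k) * (1 / d) * YY k := by ring
        _ ≤ _ := by gcongr
    have z0 := R.z0
    have q1 : ∑ j, (2 * ζ * sin (2 * π * k j) - ST (Dj j Pm) k) ^ 2 ≤ lam * t * (κ * YY k) := by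
      calc _ ≤ ∑ j, (sin (2 * π * k j) * ((2 * d * ζ + sm) / d)) ^ 2 := by
            refine sum_le_sum fun j _ => sq_le_sq.2 ((abs_sub _ _).trans ?_)
            have := (S_le R.m.q R.m.n0 R.m.y k j).trans (mul_le_mul_of_nonneg_left
              (div_le_div_of_nonneg_right hsm hd0.le) (abs_nonneg _))
            have s0 : 0 ≤ sm := sm0.trans hsm
            rw [abs_mul, abs_mul (sin _), abs_of_nonneg (by positivity : 0 ≤ 2 * ζ),
              abs_of_nonneg (by positivity : 0 ≤ (2 * d * ζ + sm) / d), add_div,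
              show 2 * d * ζ / d = 2 * ζ by field_simp]
            linarith
        _ = (2 * d * ζ + sm) ^ 2 * 1 * VV k := by
            simp only [mul_pow, ← sum_mul, VV]; ring
        _ ≤ (2 * d * ζ + sm) ^ 2 * (κ * K) * VV k := by gcongr
        _ = K * (2 * d * ζ + sm) ^ 2 * (κ * VV k) := by ring
        _ ≤ lam * (κ * VV k) := by gcongr
        _ = _ := by rw [htV]; ring
    have io0 : 0 ≤ io := le_trans (by positivity) hio
    have s0 : 0 ≤ sp := sp0.trans hsp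
    have q2 : ∑ j, ST (Dj j Pp) k ^ 2 ≤ 2 * (sp * io) * (∑' x, Pp x - CT Pp k) := by
      refine (S_sq_le R.p.s R.p.q R.p.n0 R.p.y k).trans (mul_le_mul_of_nonneg_right ?_ (by linarith))
      rw [div_eq_mul_one_div]; gcongr
    have l0 : 0 ≤ lam := le_trans (by positivity) hlam
    have q3 := (engel univ (by positivity) (by positivity) (by positivity) (by linarith) q1 q2).trans
      (mul_le_mul_of_nonneg_left p3 (by positivity))
    have q4 := m1.le m2 hl hh hY.le (YY_le R.hd k) ht0 ht1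
    simp only [ψ]
    rw [htV, DD] at *
    generalize ∑ j, (2 * ζ * sin (2 * π * k j) - ST (Dj j Pm) k + ST (Dj j Pp) k) ^ 2 = b at *
    generalize CT G k = u at *
    generalize YY k = Y at *
    have q5 : b * u ≤ lam * t + 2 * (sp * io) := by
      have := mul_le_mul_of_nonneg_right q3 p1.le
      rwa [mul_assoc, (mul_comm _ u).trans p4, mul_one] at this
    have q6 : (Y * u) ^ 2 * (2 * lam * t + 4 * sp * io - 2 * d * ζ * (1 - Y)) ≤
        al * Y ^ 2 + g * Y * t + h * t + h0 := by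
      rcases le_total 0 (2 * lam * t + 4 * sp * io - 2 * d * ζ * (1 - Y)) with v | v
      · refine le_trans (mul_le_mul_of_nonneg_right ?_ v) q4
        rw [← sq]; gcongr
      · exact (mul_nonpos_of_nonneg_of_nonpos (sq_nonneg _) v).trans (by positivity)
    refine le_of_mul_le_mul_right ?_ (by positivity : 0 < Y ^ 2)
    have q7 : (g * (t * Y / Y ^ 2) + h * (t * Y / Y ^ 3) + h0 * (1 / Y ^ 2)) * Y ^ 2 =
        g * Y * t + h * t + h0 := by field_simp
    rw [q7]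
    nlinarith [mul_le_mul_of_nonneg_left q5 (sq_nonneg (Y * u))]
  have ic : Integrable (fun k : Fin d → ℝ => cos (th k x)) (mu d) :=
    integrable_mu (continuous_cos.comp (continuous_th x))
  have ip : Integrable (fun k : Fin d → ℝ => ψ k * cos (th k x)) (mu d) :=
    hi.mul_bdd (c := 1) ic.1 (Eventually.of_forall fun k => abs_cos_le_one _)
  have im1 := (H.i4.1.const_mul g).add (H.i5.1.const_mul h)
  have im := im1.add ((H.w2 R.hd).1.const_mul h0)
  have i1 := hi.add (integrable_const al)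
  have fin := integral_mono_ae (ip.add (ic.const_mul al)) (i1.add (im.const_mul 2))
    ((ae_DD R.hd).mono fun k hk => by
      have := key k hk.1
      have hV := VV_nonneg k
      have hY := hk.1
      have m0 : 0 ≤ g * (VV k / YY k ^ 2) + h * (VV k / YY k ^ 3) + h0 * (1 / YY k ^ 2) := by
        positivity
      have c5 := cos_le_one (th k x)
      have c6 := neg_one_le_cos (th k x)
      simp only [Pi.add_apply]
      rcases le_total 0 (ψ k + al) with v | v <;> nlinarith)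
  rw [integral_add' ip (ic.const_mul al), integral_add' i1 (im.const_mul 2),
    integral_add' hi (integrable_const al), integral_const_mul, integral_const_mul,
    integral_add' im1 ((H.w2 R.hd).1.const_mul h0),
    integral_add' (H.i4.1.const_mul g) (H.i5.1.const_mul h), integral_const_mul, integral_const_mul,
    integral_const_mul, ← h1, ← hu, ← h2, integral_const, probReal_univ, smul_eq_mul] at fin
  nlinarith [mul_le_mul_of_nonneg_left H.i4.2 c2, mul_le_mul_of_nonneg_left H.i5.2 c3,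
    mul_le_mul_of_nonneg_left (H.w2 R.hd).2 c4]

end RP

end Pool.Agent.P.MP_2ab770_pr
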