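import Pool.Agent.P.MP_2ab770_pr.Transform

set_option autoImplicit false
set_option linter.dupNamespace false
set_option linter.unusedVariables false

namespace Pool.Agent.P.MP_2ab770_pr

open Finset Filter Topology MeasureTheory Real

variable {d : ℕ}

/-- geometric hypotheses on a model of lattice walks -/
structure Nice (M : Model (Lt d)) : Prop where
  revisit : ∀ u v, M.F u v → ∃ i ≤ u.length, disp (u ++ v) = disp (u.take i)
  perm : ∀ (σ : Equiv.Perm (Fin d)) (w : List (Lt d)), M.good (w.map (Prod.map σ id)) ↔ M.good w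
  pos : ∀ w : List (Lt d), (∀ a ∈ w, a.2 = true) → M.good w

/-- bootstrap quantity -/
def Bd (M : Model (Lt d)) (z t : ℝ) : Prop :=
  ∀ (x : Fin d → ℤ) (K : ℕ),
    ∑ n ∈ range K, ((n : ℝ) + 2) ^ 3 * loc M.ind (n + 1) x * z ^ (n + 1) ≤ t

variable {M : Model (Lt d)}

lemma loc_nonneg {φ : List (Lt d) → ℝ} (h0 : ∀ w, 0 ≤ φ w) (n : ℕ) (x : Fin d → ℤ) :
    0 ≤ loc φ n x := sum_nonneg fun w _ => by split_ifs; exacts [h0 w, le_rfl]

open Classical in
lemma Bd.hyp (hM : Nice M) {z t : ℝ} (hz : 0 ≤ z) (h : Bd M z t) (u : List (Lt d)) (K : ℕ) :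
    ∑ n ∈ range K, ∑ v ∈ words (Lt d) n,
      (if M.F u v then ((n : ℝ) + 1) ^ 3 * z ^ n else 0) ≤ (u.length + 1) * t := by
  have ht : 0 ≤ t := by simpa using h 0 0
  cases K with
  | zero => simp; positivity
  | succ K =>
    rw [sum_range_succ', sum_words_zero, if_neg (fun h => h.1 rfl), add_zero]
    have h1 : ∀ n, ∑ v ∈ words (Lt d) (n + 1),
        (if M.F u v then (((n + 1 : ℕ) : ℝ) + 1) ^ 3 * z ^ (n + 1) else 0) ≤
        ∑ i ∈ range (u.length + 1),
          ((n : ℝ) + 2) ^ 3 * loc M.ind (n + 1) (disp (u.take i) - disp u) * z ^ (n + 1) := by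
      intro n
      simp only [loc, mul_sum, sum_mul]
      rw [sum_comm]
      refine sum_le_sum fun v _ => ?_
      have hnn : ∀ i ∈ range (u.length + 1), 0 ≤ ((n : ℝ) + 2) ^ 3 *
          (if disp v = disp (u.take i) - disp u then M.ind v else 0) * z ^ (n + 1) := by
        intro i _
        have := M.ind_nonneg v
        split_ifs <;> positivity
      split_ifs with hF
      · obtain ⟨i, hi, hd⟩ := hM.revisit u v hF
        refine le_trans (le_of_eq ?_) (single_le_sum hnn (mem_range.2 (Nat.lt_succ_of_le hi)))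
        rw [if_pos (by rw [← hd, disp_append]; abel), M.ind_good hF.2.1]
        push_cast; ring
      · exact sum_nonneg hnn
    calc _ ≤ _ := sum_le_sum fun n _ => h1 n
      _ = ∑ i ∈ range (u.length + 1), ∑ n ∈ range K,
          ((n : ℝ) + 2) ^ 3 * loc M.ind (n + 1) (disp (u.take i) - disp u) * z ^ (n + 1) :=
        sum_comm
      _ ≤ ∑ i ∈ range (u.length + 1), t := sum_le_sum fun i _ => h _ K
      _ = _ := by simp

lemma Bd.rho (hM : Nice M) {z t : ℝ} (hz : 0 ≤ z) (hdz : d * z ≤ 1) (ht : t ≤ 1 / 2)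
    (h : Bd M z t) (K : ℕ) :
    ∑ n ∈ range K, ((n : ℝ) + 2) ^ 2 * nrm M.rho (n + 2) * z ^ (n + 2) ≤ 8 * t := by
  have ht0 : 0 ≤ t := by simpa using h 0 0
  have h1 : ∀ a : Lt d, ∑ n ∈ range K, ∑ w ∈ words (Lt d) (n + 1),
      ((n : ℝ) + 2) ^ 2 * z ^ (n + 1) * |M.P [a] w| ≤ 4 * t := by
    intro a
    have := M.P_bound z t hz ht0 ht (h.hyp hM hz) (K + 1) [a]
    rw [sum_range_succ', sum_words_zero, M.P_nil] at this
    simp only [List.length_singleton] at this
    push_cast at this
    have e : ∀ n : ℕ, ((n : ℝ) + 1 + 1) = n + 2 := fun n => by ring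
    simp_rw [e] at this
    norm_num at this
    linarith
  have h2 : ∑ n ∈ range K, ((n : ℝ) + 2) ^ 2 * nrm M.rho (n + 2) * z ^ (n + 2) =
      z * ∑ a : Lt d, ∑ n ∈ range K, ∑ w ∈ words (Lt d) (n + 1),
        ((n : ℝ) + 2) ^ 2 * z ^ (n + 1) * |M.P [a] w| := by
    rw [sum_comm, mul_sum]
    refine sum_congr rfl fun n _ => ?_
    rw [nrm, sum_words_succ]
    simp only [Model.rho, mul_sum, sum_mul]
    refine sum_congr rfl fun a _ => sum_congr rfl fun w _ => by ring
  rw [h2]
  calc _ ≤ z * ∑ a : Lt d, 4 * t := by gcongr with a; exact h1 a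
    _ = 8 * t * (d * z) := by simp; ring
    _ ≤ 8 * t * 1 := by gcongr
    _ = _ := by ring

lemma nrm_rho_zero : nrm M.rho 0 = 0 := by simp [nrm, sum_words_zero, Model.rho]

lemma nrm_rho_one : nrm M.rho 1 = 2 * d := by
  rw [nrm, sum_words_succ]
  simp [sum_words_zero, M.rho_single, mul_comm]

lemma tot_rho_zero : tot M.rho 0 = 0 := by simp [tot, sum_words_zero, Model.rho]

lemma summ_rho {z ε : ℝ} (hz : 0 ≤ z)
    (h : ∀ K, ∑ n ∈ range K, ((n : ℝ) + 2) ^ 2 * nrm M.rho (n + 2) * z ^ (n + 2) ≤ ε) :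
    Summable (fun n : ℕ => ((n : ℝ) + 2) ^ 2 * nrm M.rho (n + 2) * z ^ (n + 2)) ∧
      Summ M.rho z ∧ ∑' n, nrm M.rho n * z ^ n ≤ 2 * d * z + ε := by
  have hnn : ∀ n : ℕ, 0 ≤ ((n : ℝ) + 2) ^ 2 * nrm M.rho (n + 2) * z ^ (n + 2) := fun n => by
    have := nrm_nonneg M.rho (n + 2); positivity
  have h1 := summable_of_sum_range_le hnn h
  have hle : ∀ n : ℕ, nrm M.rho (n + 2) * z ^ (n + 2) ≤
      ((n : ℝ) + 2) ^ 2 * nrm M.rho (n + 2) * z ^ (n + 2) := by
    intro n
    have h0 : 0 ≤ nrm M.rho (n + 2) * z ^ (n + 2) := mul_nonneg (nrm_nonneg _ _) (by positivity)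
    have : (1 : ℝ) ≤ ((n : ℝ) + 2) ^ 2 := by nlinarith [(Nat.cast_nonneg n : (0 : ℝ) ≤ n)]
    nlinarith
  have h2 : Summable fun n : ℕ => nrm M.rho (n + 2) * z ^ (n + 2) :=
    Summable.of_nonneg_of_le (fun n => mul_nonneg (nrm_nonneg _ _) (by positivity)) hle h1
  have h3 : Summ M.rho z := (summable_nat_add_iff 2).1 h2
  refine ⟨h1, h3, ?_⟩
  rw [← Summable.sum_add_tsum_nat_add 2 h3]
  have h4 := (h2.tsum_le_tsum hle h1).trans (Real.tsum_le_of_sum_range_le hnn h)
  simp only [sum_range_succ, sum_range_zero, nrm_rho_zero, nrm_rho_one]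
  linarith

lemma nrm_ind (n : ℕ) : nrm M.ind n = tot M.ind n :=
  sum_congr rfl fun w _ => abs_of_nonneg (M.ind_nonneg w)

lemma Tr_identity {z : ℝ} (hz : 0 ≤ z) (h1 : Summ M.rho z) (h2 : Summ M.ind z) (k : Fin d → ℝ) :
    Tr M.ind z k * (1 - Tr M.rho z k) = 1 := by
  have hc := h1.cat hz h2
  have e : ∀ n, hat M.ind n k * (z : ℂ) ^ n =
      (if n = 0 then 1 else 0) + hat (cat M.rho M.ind) n k * (z : ℂ) ^ n := by
    intro n
    have : hat M.ind n k = (if n = 0 then 1 else 0) + hat (cat M.rho M.ind) n k := by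
      have : hat M.ind n k = ∑ w ∈ words (Lt d) n, ((if n = 0 then chr k (disp w) else 0) +
          (cat M.rho M.ind w : ℂ) * chr k (disp w)) := by
        refine sum_congr rfl fun w hw => ?_
        rw [M.ind_eq w]
        have hl := mem_words.1 hw
        by_cases h : w = []
        · subst h
          simp only [List.length_nil] at hl
          subst hl
          simp [cat, add_mul]
        · have : n ≠ 0 := by rintro rfl; exact h (List.length_eq_zero_iff.1 hl)
          simp [h, this, cat]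
      rw [this, sum_add_distrib]
      congr 1
      split_ifs with h
      · subst h; simp [sum_words_zero, disp_nil, chr_zero]
      · simp
    rw [this, add_mul]
    split_ifs with h
    · subst h; simp
    · simp
  have h3 : Tr M.ind z k = 1 + Tr (cat M.rho M.ind) z k := by
    rw [Tr, Tr, tsum_congr e, Summable.tsum_add _ (hc.norm hz k).of_norm]
    · simp
    · exact summable_of_ne_finset_zero (s := {0}) fun n hn => by simpa using hn
  rw [Tr_cat hz h1 h2] at h3
  linear_combination h3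

lemma tot_ind_zero : tot M.ind 0 = 1 := by simp [tot, sum_words_zero, M.ind_good M.nil]

lemma tot_ind_nonneg (n : ℕ) : 0 ≤ tot M.ind n := sum_nonneg fun w _ => M.ind_nonneg w

lemma real_identity {z : ℝ} (hz : 0 ≤ z) (h1 : Summ M.rho z) (h2 : Summ M.ind z) :
    (∑' n, tot M.ind n * z ^ n) * (1 - ∑' n, tot M.rho n * z ^ n) = 1 := by
  have := Tr_identity hz h1 h2 0
  rw [Tr_zero_k, Tr_zero_k] at this
  exact_mod_cast this

lemma YY_nonneg (k : Fin d → ℝ) : 0 ≤ YY k :=
  div_nonneg (sum_nonneg fun _ _ => yy_nonneg _) (Nat.cast_nonneg _)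

lemma YY_le (hd : 0 < d) (k : Fin d → ℝ) : YY k ≤ 2 := by
  have hd0 : (0 : ℝ) < d := by exact_mod_cast hd
  rw [YY, div_le_iff₀ hd0]
  calc _ ≤ ∑ _j : Fin d, (2 : ℝ) := sum_le_sum fun j _ => yy_le _
    _ = _ := by simp; ring

lemma infrared (hd : 0 < d) (hM : Nice M) {z : ℝ} (hz : 0 ≤ z) (h2 : Summ M.ind z)
    (h : ∀ K, ∑ n ∈ range K, ((n : ℝ) + 2) ^ 2 * nrm M.rho (n + 2) * z ^ (n + 2) ≤ 1 / 10)
    (k : Fin d → ℝ) : ‖Tr M.ind z k‖ * YY k ≤ 5 := by
  obtain ⟨hs2, h1, hb⟩ := summ_rho hz h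
  have hY0 := YY_nonneg k
  have hY2 := YY_le hd k
  have hre : YY k / 5 ≤ (1 - Tr M.rho z k).re := by
    by_cases hc : 2 * d * z ≤ 1 / 2
    · have : ‖Tr M.rho z k‖ ≤ 2 * d * z + 1 / 10 :=
        (tsum_of_norm_bounded h1.hasSum fun n => norm_term_le hz n k).trans hb
      have h3 := Complex.re_le_norm (Tr M.rho z k)
      simp only [Complex.sub_re, Complex.one_re]
      linarith
    · push Not at hc
      have hχ : 0 ≤ ∑' n, tot M.ind n * z ^ n :=
        tsum_nonneg fun n => mul_nonneg (tot_ind_nonneg n) (by positivity)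
      have hid := real_identity hz h1 h2
      have hF0 : 0 ≤ 1 - ∑' n, tot M.rho n * z ^ n := by
        by_contra hneg
        push Not at hneg
        nlinarith
      set u : ℕ → ℝ := fun n =>
        (∑ w ∈ words (Lt d) n, M.rho w * (1 - cos (th k (disp w)))) * z ^ n with hu
      have hs0 : Summable fun n => tot M.rho n * z ^ n :=
        Summable.of_norm_bounded h1 fun n => by
          rw [norm_mul, norm_pow, Real.norm_of_nonneg hz]
          exact mul_le_mul_of_nonneg_right (abs_tot_le _ _) (by positivity)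
      have hsk := Complex.hasSum_re (h1.norm hz k).of_norm.hasSum
      have hue : ∀ n, u n = tot M.rho n * z ^ n - (hat M.rho n k * (z : ℂ) ^ n).re := by
        intro n
        rw [← Complex.ofReal_pow, Complex.re_mul_ofReal, hat, Complex.re_sum, ← sub_mul, tot,
          ← sum_sub_distrib]
        simp only [hu]
        congr 1
        refine sum_congr rfl fun w _ => ?_
        rw [Complex.re_ofReal_mul, re_chr]; ring
      have hsu : HasSum u (∑' n, tot M.rho n * z ^ n - (Tr M.rho z k).re) := by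
        have := hs0.hasSum.sub hsk
        exact (funext hue : u = _) ▸ this
      have hu0 : u 0 = 0 := by simp [hu, sum_words_zero, Model.rho]
      have hu1 : u 1 = 2 * d * z * YY k := by
        have hd0 : (0 : ℝ) < d := by exact_mod_cast hd
        simp only [hu]
        rw [sum_words_succ]
        simp only [sum_words_zero, M.rho_single, disp_cons, disp_nil, add_zero, cos_step, one_mul,
          Fintype.sum_prod_type, sum_const, card_univ, Fintype.card_bool, nsmul_eq_mul, YY,
          ← mul_sum]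
        field_simp
        push_cast; ring
      have hu2 : ∀ n : ℕ, ‖u (n + 2)‖ ≤
          ((n : ℝ) + 2) ^ 2 * nrm M.rho (n + 2) * z ^ (n + 2) * YY k := by
        intro n
        have := sym_bound hd M.rho (fun σ w => M.rho_map _ (hM.perm σ) w) (n + 2) k
        simp only [hu]
        rw [norm_mul, norm_pow, Real.norm_of_nonneg hz]
        have h5 : ‖∑ w ∈ words (Lt d) (n + 2), M.rho w * (1 - cos (th k (disp w)))‖ ≤
            ∑ w ∈ words (Lt d) (n + 2), |M.rho w| * (1 - cos (th k (disp w))) := by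
          refine (norm_sum_le _ _).trans (le_of_eq ?_)
          refine sum_congr rfl fun w _ => ?_
          rw [norm_mul, Real.norm_eq_abs, Real.norm_of_nonneg (sub_nonneg.2 (cos_le_one _))]
        push_cast at this
        calc _ ≤ (((n : ℝ) + 2) ^ 2 * nrm M.rho (n + 2) * YY k) * z ^ (n + 2) := by
              gcongr; exact h5.trans this
          _ = _ := by ring
      have h6 := tsum_of_norm_bounded (hs2.hasSum.mul_right (YY k)) hu2
      have hnn : ∀ n : ℕ, 0 ≤ ((n : ℝ) + 2) ^ 2 * nrm M.rho (n + 2) * z ^ (n + 2) := fun n => by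
        have := nrm_nonneg M.rho (n + 2); positivity
      have h7 := Real.tsum_le_of_sum_range_le hnn h
      have h8 := Summable.sum_add_tsum_nat_add 2 hsu.summable
      rw [hsu.tsum_eq] at h8
      simp only [sum_range_succ, sum_range_zero, hu0, hu1] at h8
      have h9 := (abs_le.1 (h6.trans (mul_le_mul_of_nonneg_right h7 hY0))).1
      simp only [Complex.sub_re, Complex.one_re]
      nlinarith
  have hid := congrArg norm (Tr_identity hz h1 h2 k)
  rw [norm_mul, norm_one] at hid
  have h3 := hre.trans (Complex.re_le_norm _)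
  nlinarith [norm_nonneg (Tr M.ind z k)]

lemma cat_good {ψ : List (Lt d) → ℝ} {f : ℕ → ℝ} (hψ : ∀ v, M.good v → ψ v = f v.length)
    (w : List (Lt d)) (hw : M.good w) : cat M.ind ψ w = ∑ i ∈ range (w.length + 1), f i := by
  rw [← sum_range_reflect, cat, ssum]
  refine sum_congr rfl fun i hi => ?_
  have h := List.take_append_drop i w
  rw [M.ind_good (M.left _ _ (h.symm ▸ hw)), hψ _ (M.right _ _ (h.symm ▸ hw))]
  simp

lemma cat4_good (w : List (Lt d)) (hw : M.good w) :
    cat M.ind (cat M.ind (cat M.ind M.ind)) w =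
      ((w.length : ℝ) + 1) * (w.length + 2) * (w.length + 3) / 6 := by
  have h2 : ∀ v, M.good v → cat M.ind M.ind v = (fun n : ℕ => (n : ℝ) + 1) v.length := by
    intro v hv
    rw [cat_good (f := fun _ => 1) (fun v hv => M.ind_good hv) v hv]; simp
  have h3 : ∀ v, M.good v → cat M.ind (cat M.ind M.ind) v =
      (fun n : ℕ => ((n : ℝ) + 1) * (n + 2) / 2) v.length := by
    intro v hv
    rw [cat_good (f := fun n : ℕ => (n : ℝ) + 1) h2 v hv]
    generalize v.length = n
    induction n with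
    | zero => simp
    | succ n ih => rw [sum_range_succ, ih]; push_cast; ring
  rw [cat_good (f := fun n : ℕ => ((n : ℝ) + 1) * (n + 2) / 2) h3 w hw]
  generalize w.length = n
  induction n with
  | zero => simp; norm_num
  | succ n ih => rw [sum_range_succ, ih]; push_cast; ring

lemma Bd_of_integral {z : ℝ} (hz : 0 ≤ z) (h2 : Summ M.ind z) :
    Bd M z (8 * ∫ k, ‖Tr one1 z k * Tr M.ind z k ^ 4‖ ∂(mu d)) := by
  intro x K
  set g4 := cat M.ind (cat M.ind (cat M.ind M.ind)) with hg4
  have hg0 : ∀ w, 0 ≤ g4 w :=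
    cat_nonneg M.ind_nonneg (cat_nonneg M.ind_nonneg (cat_nonneg M.ind_nonneg M.ind_nonneg))
  have hs4 : Summ g4 z := h2.cat hz (h2.cat hz (h2.cat hz h2))
  have hφ0 : ∀ w, 0 ≤ cat one1 g4 w := cat_nonneg one1_nonneg hg0
  have h1 := loc_sum_le hz hφ0 ((summ_one1 z).cat hz hs4) x (K + 1)
  have e : ∀ k, Tr (cat one1 g4) z k = Tr one1 z k * Tr M.ind z k ^ 4 := by
    intro k
    rw [Tr_cat hz (summ_one1 z) hs4, hg4, Tr_cat hz h2 (h2.cat hz (h2.cat hz h2)),
      Tr_cat hz h2 (h2.cat hz h2), Tr_cat hz h2 h2]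
    ring
  simp_rw [e] at h1
  rw [sum_range_succ'] at h1
  have h0 : 0 ≤ loc (cat one1 g4) 0 x * z ^ 0 := mul_nonneg (loc_nonneg hφ0 _ _) (by positivity)
  have h3 : ∀ n : ℕ, ((n : ℝ) + 2) ^ 3 * loc M.ind (n + 1) x ≤ 8 * loc (cat one1 g4) (n + 1) x := by
    intro n
    simp only [loc, mul_sum]
    refine sum_le_sum fun w hw => ?_
    split_ifs
    · have hl := mem_words.1 hw
      obtain ⟨a, w, rfl⟩ := List.exists_cons_of_length_eq_add_one hl
      have hl' : w.length = n := by simpa using hl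
      have e2 : cat one1 g4 (a :: w) = g4 w := by
        rw [cat, ssum_cons]
        cases w with
        | nil => simp [ssum_nil, one1]
        | cons b w => rw [ssum_cons]; simp [one1, ssum]
      rw [e2]
      by_cases hg : M.good (a :: w)
      · rw [M.ind_good hg, hg4, cat4_good w (M.right [a] w hg), hl']
        have : (0 : ℝ) ≤ n := Nat.cast_nonneg n
        nlinarith [mul_nonneg this this, mul_nonneg this (mul_nonneg this this)]
      · rw [M.ind_not hg]; have := hg0 w; linarith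
    · simp
  calc _ ≤ ∑ n ∈ range K, 8 * (loc (cat one1 g4) (n + 1) x * z ^ (n + 1)) := by
        refine sum_le_sum fun n _ => ?_
        rw [← mul_assoc]
        exact mul_le_mul_of_nonneg_right (h3 n) (by positivity)
    _ ≤ _ := by rw [← mul_sum]; linarith

theorem improve : ∃ d0 : ℕ, 1 ≤ d0 ∧ ∀ d : ℕ, d0 ≤ d → ∀ M : Model (Lt d), Nice M → ∀ z : ℝ,
    0 ≤ z → d * z ≤ 1 → Summ M.ind z → Bd M z (1 / 80) → Bd M z (1 / 160) := by
  obtain ⟨C, hC0, hC⟩ := key_integral
  set η : ℝ := 1 / (2560 * (C + 1)) with hη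
  have hη0 : 0 < η := by positivity
  obtain ⟨N, hN⟩ := exists_nat_ge (2560 / η)
  refine ⟨max 32 N, le_max_of_le_left (by norm_num), fun d hd M hM z hz hdz h2 hB => ?_⟩
  have hd32 : 32 ≤ d := le_of_max_le_left hd
  have hdN : (2560 / η) ≤ d := hN.trans (by exact_mod_cast le_of_max_le_right hd)
  have hd0 : (0 : ℝ) < d := by exact_mod_cast (by omega : 0 < d)
  have hr := hB.rho hM hz hdz (by norm_num)
  have hi := infrared (by omega) hM hz h2 (fun K => (hr K).trans (by norm_num))
  have h3 := hC d hd32 η hη0 _ _ (integrable_sq_one1 z) hi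
  rw [integral_sq_one1] at h3
  have h4 : 2 * d * z ^ 2 / (2 * η) ≤ 1 / 2560 := by
    rw [div_le_iff₀ hη0] at hdN
    rw [div_le_div_iff₀ (by positivity) (by norm_num)]
    have h5 : (d * z) ^ 2 ≤ 1 := pow_le_one₀ (by positivity) hdz
    have h6 : d * z ^ 2 * 2560 * d ≤ η * d := by
      calc d * z ^ 2 * 2560 * d = (d * z) ^ 2 * 2560 := by ring
        _ ≤ 1 * 2560 := by gcongr
        _ ≤ _ := by linarith
    have := le_of_mul_le_mul_right h6 hd0
    linarith
  have h5 : η * C ≤ 1 / 2560 := by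
    rw [hη, div_mul_eq_mul_div, div_le_div_iff₀ (by positivity) (by norm_num)]
    linarith
  intro x K
  have := Bd_of_integral hz h2 x K
  linarith

end Pool.Agent.P.MP_2ab770_pr
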