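import Pool.Agent.P.MP_2ab770_pr.Symm

set_option autoImplicit false
set_option linter.dupNamespace false
set_option linter.unusedVariables false
set_option linter.unusedSectionVars false

namespace Pool.Agent.P.MP_2ab770_pr

open Finset Filter Topology MeasureTheory Real

variable {d : ℕ}

lemma integrable_mu {f : (Fin d → ℝ) → ℝ} (hf : Continuous f) : Integrable f (mu d) := by
  have hK : IsCompact (Set.pi Set.univ fun _ : Fin d => Set.Icc (-1 / 2 : ℝ) (1 / 2)) :=
    isCompact_univ_pi fun _ => isCompact_Icc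
  obtain ⟨C, hC⟩ := hK.exists_bound_of_continuousOn hf.continuousOn
  refine Integrable.of_bound hf.aestronglyMeasurable C ?_
  have : ∀ᵐ k ∂(mu d), ∀ j, |k j| ≤ 1 / 2 ∧ k j ≠ 0 := by
    rw [ae_all_iff]
    exact fun j => (Measure.tendsto_eval_ae_ae (μ := fun _ : Fin d => nu) (i := j)).eventually ae_nu
  filter_upwards [this] with k hk
  refine hC k fun j _ => ?_
  have := abs_le.1 (hk j).1
  exact ⟨by linarith [this.1], this.2⟩

lemma integral_split {m : ℕ} (j : Fin (m + 1)) {f : (Fin (m + 1) → ℝ) → ℝ} (hf : Continuous f) :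
    ∫ k, f k ∂(mu (m + 1)) = ∫ y, (∫ t, f (Fin.insertNth j t y) ∂nu) ∂(mu m) := by
  have h := (measurePreserving_piFinSuccAbove (fun _ : Fin (m + 1) => nu) j).symm
  have hi := (h.integrable_comp_emb (MeasurableEquiv.measurableEmbedding _)).2 (integrable_mu hf)
  rw [mu, ← h.integral_comp']
  exact integral_prod_symm _ hi

/-- sum of cosines -/
noncomputable def cs (k : Fin d → ℝ) : ℝ := ∑ j, cos (2 * π * k j)

lemma continuous_cs : Continuous (cs (d := d)) := by unfold cs; fun_prop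

lemma cs_insert {m : ℕ} (j : Fin (m + 1)) (t : ℝ) (y : Fin m → ℝ) :
    cs (Fin.insertNth j t y : Fin (m + 1) → ℝ) = cos (2 * π * t) + cs y := by
  rw [cs, Fin.sum_univ_succAbove _ j]; simp [cs]

lemma DD_eq (hd : 0 < d) (k : Fin d → ℝ) : DD k = cs k / d := by
  have hd0 : (0 : ℝ) < d := by exact_mod_cast hd
  simp only [DD, YY, yy, cs, sum_sub_distrib, sum_const, card_univ, Fintype.card_fin, nsmul_eq_mul]
  field_simp; ring

lemma integral_nu (f : ℝ → ℝ) : ∫ t, f t ∂nu = ∫ t in (-1 / 2 : ℝ)..(1 / 2), f t := by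
  rw [nu, intervalIntegral.integral_of_le (by norm_num)]

lemma integrable_nu {f : ℝ → ℝ} (hf : Continuous f) : Integrable f nu :=
  (hf.integrableOn_Icc).mono_set Set.Ioc_subset_Icc_self

lemma ibp (S : ℝ) (n : ℕ) : ∫ t, cos (2 * π * t) * (cos (2 * π * t) + S) ^ n ∂nu =
    n * ∫ t, sin (2 * π * t) ^ 2 * (cos (2 * π * t) + S) ^ (n - 1) ∂nu := by
  have hd : ∀ t, HasDerivAt (fun t => sin (2 * π * t) * (cos (2 * π * t) + S) ^ n)
      (2 * π * (cos (2 * π * t) * (cos (2 * π * t) + S) ^ n -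
        n * (sin (2 * π * t) ^ 2 * (cos (2 * π * t) + S) ^ (n - 1)))) t := by
    intro t
    have h0 : HasDerivAt (fun t => 2 * π * t) (2 * π) t := by
      simpa using (hasDerivAt_id t).const_mul (2 * π)
    exact (h0.sin.fun_mul ((h0.cos.add_const S).fun_pow n)).congr_deriv (by ring)
  have h1 := intervalIntegral.integral_eq_sub_of_hasDerivAt (a := -1 / 2) (b := 1 / 2)
    (fun t _ => hd t) (Continuous.intervalIntegrable (by fun_prop) _ _)
  rw [show 2 * π * (1 / 2) = π by ring, show 2 * π * (-1 / 2) = -π by ring, sin_neg, sin_pi,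
    ← integral_nu, integral_const_mul, integral_sub (integrable_nu (by fun_prop))
      (integrable_nu (by fun_prop)), integral_const_mul] at h1
  have := pi_pos
  have h2 := (mul_eq_zero.1 (h1.trans (by ring))).resolve_left (by positivity)
  linarith

/-- one dimensional moments -/
noncomputable def c1 (n : ℕ) : ℝ := ∫ t, cos (2 * π * t) ^ n ∂nu

lemma c1_zero : c1 0 = 1 := by simp [c1]

lemma c1_one : c1 1 = 0 := by simpa [c1] using ibp 0 0

lemma c1_succ (n : ℕ) : (n + 2) * c1 (n + 2) = (n + 1) * c1 n := by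
  have h := ibp 0 (n + 1)
  simp only [add_zero, Nat.add_sub_cancel, sin_sq, sub_mul, one_mul, ← pow_succ', ← pow_add] at h
  rw [integral_sub (integrable_nu (by fun_prop)) (integrable_nu (by fun_prop)), add_comm 2] at h
  push_cast at h
  simp only [c1]
  linarith

lemma c1_odd (m : ℕ) : c1 (2 * m + 1) = 0 := by
  induction m with
  | zero => exact c1_one
  | succ m ih =>
    have := c1_succ (2 * m + 1)
    rw [ih, mul_zero] at this
    exact (mul_eq_zero.1 this).resolve_left (by positivity)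

/-- moments of the sum of cosines -/
noncomputable def mom (d n : ℕ) : ℝ := ∫ k, cs k ^ n ∂(mu d)

lemma mom_succ (m n : ℕ) :
    mom (m + 1) n = ∑ i ∈ range (n + 1), c1 i * mom m (n - i) * n.choose i := by
  rw [mom, integral_split 0 (f := fun k => cs k ^ n) (continuous_cs.pow n)]
  simp only [cs_insert, add_pow]
  have : ∀ y : Fin m → ℝ, ∫ t, ∑ i ∈ range (n + 1), cos (2 * π * t) ^ i * cs y ^ (n - i) *
      n.choose i ∂nu = ∑ i ∈ range (n + 1), c1 i * cs y ^ (n - i) * n.choose i := by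
    intro y
    rw [integral_finsetSum _ fun i _ => integrable_nu (by fun_prop)]
    simp only [integral_mul_const, c1]
  simp only [this]
  rw [integral_finsetSum _ fun i _ => integrable_mu (by have := continuous_cs (d := m); fun_prop)]
  simp only [integral_mul_const, integral_const_mul, mom]

lemma mom_odd : ∀ (d n : ℕ), Odd n → mom d n = 0
  | 0, n, h => by simp [mom, cs, h.pos.ne']
  | d + 1, n, h => by
    rw [mom_succ]
    refine sum_eq_zero fun i hi => ?_
    rcases Nat.even_or_odd i with h1 | ⟨m, rfl⟩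
    · rw [mom_odd d _ (Nat.Odd.sub_even (Nat.lt_succ_iff.1 (mem_range.1 hi)) h h1)]; simp
    · rw [c1_odd]; simp

/-- return probabilities -/
noncomputable def pm (d n : ℕ) : ℝ := ∫ k : Fin d → ℝ, DD k ^ n ∂(mu d)

lemma pm_eq (hd : 0 < d) (n : ℕ) : pm d n = mom d n / d ^ n := by
  simp only [pm, DD_eq hd, div_pow, integral_div, mom]

lemma pm_odd (hd : 0 < d) {n : ℕ} (h : Odd n) : pm d n = 0 := by rw [pm_eq hd, mom_odd d n h]; simp

lemma pm_even (m : ℕ) : 0 ≤ pm d (2 * m) :=
  integral_nonneg fun k => by simp only [pow_mul]; positivity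

lemma continuous_DD : Continuous (DD (d := d)) := by unfold DD YY yy; fun_prop

/-- squared gradient of the symbol -/
noncomputable def VV (k : Fin d → ℝ) : ℝ := (∑ j, sin (2 * π * k j) ^ 2) / d ^ 2

lemma continuous_VV : Continuous (VV (d := d)) := by unfold VV; fun_prop

lemma VV_nonneg (k : Fin d → ℝ) : 0 ≤ VV k := by unfold VV; positivity

lemma VV_le (hd : 0 < d) (k : Fin d → ℝ) : VV k ≤ YY k * (2 - YY k) / d := by
  have hd0 : (0 : ℝ) < d := by exact_mod_cast hd
  have h1 : YY k = 1 - cs k / d := by rw [← DD_eq hd, DD]; ring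
  have h2 := sq_sum_le_card_mul_sum_sq (s := univ) (f := fun j => cos (2 * π * k j))
  simp only [card_univ, Fintype.card_fin] at h2
  rw [h1, VV]
  simp only [sin_sq, sum_sub_distrib, sum_const, card_univ, Fintype.card_fin, nsmul_eq_mul]
  rw [div_le_div_iff₀ (by positivity) hd0]
  have : (1 - cs k / d) * (2 - (1 - cs k / d)) * d ^ 2 = d ^ 2 - cs k ^ 2 := by field_simp; ring
  rw [this, cs]
  nlinarith

lemma integral_VD (hd : 0 < d) (n : ℕ) :
    ∫ k : Fin d → ℝ, VV k * DD k ^ n ∂(mu d) = pm d (n + 2) / (n + 1) := by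
  obtain ⟨m, rfl⟩ : ∃ m, d = m + 1 := ⟨d - 1, by omega⟩
  have hc := continuous_cs (d := m + 1)
  have h1 : ∀ j : Fin (m + 1), ∫ k, cos (2 * π * k j) * cs k ^ (n + 1) ∂(mu (m + 1)) =
      (n + 1) * ∫ k, sin (2 * π * k j) ^ 2 * cs k ^ n ∂(mu (m + 1)) := by
    intro j
    rw [integral_split j (by fun_prop), integral_split j (by fun_prop), ← integral_const_mul]
    congr 1; funext y
    simp only [cs_insert, Fin.insertNth_apply_same]
    rw [ibp]; simp
  have h2 := sum_congr (rfl : univ = univ) fun j _ => h1 j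
  rw [← mul_sum, ← integral_finsetSum _ fun j _ => integrable_mu (by fun_prop),
    ← integral_finsetSum _ fun j _ => integrable_mu (by fun_prop)] at h2
  simp only [← sum_mul] at h2
  have h3 : mom (m + 1) (n + 2) = _ := Eq.trans (by
    rw [mom]; congr 1; funext k; rw [pow_succ' _ (n + 1)]; rfl) h2
  rw [pm_eq hd, h3]
  simp only [VV, DD_eq hd, div_pow, div_mul_div_comm, integral_div]
  field_simp
  ring

lemma pm_succ_le {m : ℕ} (hm : 0 < m) (n : ℕ) : pm (m + 1) (2 * n) ≤ pm m (2 * n) := by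
  have hm0 : (0 : ℝ) < m := by exact_mod_cast hm
  have hc := continuous_DD (d := m)
  have h1 : ∀ j : Fin (m + 1), ∫ k, DD (Fin.removeNth j k) ^ (2 * n) ∂(mu (m + 1)) =
      pm m (2 * n) := by
    intro j
    rw [integral_split j (by unfold Fin.removeNth; fun_prop)]
    simp [pm]
  have h2 : ∀ k : Fin (m + 1) → ℝ, DD k ^ (2 * n) ≤
      ∑ j : Fin (m + 1), (1 / (m + 1) : ℝ) * DD (Fin.removeNth j k) ^ (2 * n) := by
    intro k
    have := (Even.convexOn_pow (𝕜 := ℝ) (even_two_mul n)).map_sum_le (t := univ)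
      (w := fun _ : Fin (m + 1) => (1 / (m + 1) : ℝ)) (p := fun j => DD (Fin.removeNth j k))
      (fun _ _ => by positivity) (by simp; field_simp) (fun _ _ => Set.mem_univ _)
    simp only [smul_eq_mul] at this
    refine le_trans (le_of_eq ?_) this
    congr 1
    have e : ∀ j : Fin (m + 1), cs (Fin.removeNth j k) = cs k - cos (2 * π * k j) := by
      intro j
      have := cs_insert j (k j) (Fin.removeNth j k)
      rw [Fin.insertNth_self_removeNth] at this
      linarith
    simp only [DD_eq hm, DD_eq m.succ_pos, e, ← mul_sum, ← sum_div, sum_sub_distrib, sum_const,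
      card_univ, Fintype.card_fin, nsmul_eq_mul]
    change _ = _ * ((_ - cs k) / _)
    push_cast
    field_simp
    ring
  have hi : ∀ j : Fin (m + 1), Integrable
      (fun k => (1 / (m + 1) : ℝ) * DD (Fin.removeNth j k) ^ (2 * n)) (mu (m + 1)) :=
    fun j => integrable_mu (by unfold Fin.removeNth; fun_prop)
  refine (integral_mono (integrable_mu (continuous_DD.pow _)) (integrable_finsetSum _
    fun j _ => hi j) h2).trans (le_of_eq ?_)
  rw [integral_finsetSum _ fun j _ => hi j]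
  simp only [integral_const_mul, h1, sum_const, card_univ, Fintype.card_fin, nsmul_eq_mul]
  push_cast
  field_simp

lemma pm_le_five (hd : 5 ≤ d) (n : ℕ) : pm d (2 * n) ≤ pm 5 (2 * n) := by
  induction d, hd using Nat.le_induction with
  | base => exact le_rfl
  | succ m hm ih => exact (pm_succ_le (by omega) n).trans ih

lemma ae_DD (hd : 0 < d) : ∀ᵐ k : Fin d → ℝ ∂(mu d), 0 < YY k ∧ YY k < 2 := by
  have hd0 : (0 : ℝ) < d := by exact_mod_cast hd
  have h2 : ∀ᵐ t ∂nu, t ≠ 1 / 2 ∧ t ≠ -1 / 2 := by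
    rw [nu]; refine ae_restrict_of_ae (Eventually.and ?_ ?_) <;> simp [ae_iff]
  have := (Measure.tendsto_eval_ae_ae (μ := fun _ : Fin d => nu) (i := ⟨0, hd⟩)).eventually
    (ae_nu.and h2)
  filter_upwards [this] with k hk
  obtain ⟨⟨h1, h0⟩, h3, h4⟩ := hk
  set t := k ⟨0, hd⟩
  constructor
  · refine div_pos (sum_pos' (fun j _ => yy_nonneg _) ⟨⟨0, hd⟩, mem_univ _, ?_⟩) hd0
    exact lt_of_lt_of_le (by positivity) (yy_lower h1)
  · rw [YY, div_lt_iff₀ hd0]
    have h5 : yy t < 2 := by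
      have a1 := abs_le.1 h1
      have a2 : t < 1 / 2 := lt_of_le_of_ne a1.2 h3
      have a3 : -1 / 2 < t := lt_of_le_of_ne (by linarith [a1.1]) h4.symm
      have a4 : 0 < cos (π * t) := cos_pos_of_mem_Ioo ⟨by nlinarith [pi_pos], by nlinarith [pi_pos]⟩
      have a5 := cos_two_mul (π * t)
      rw [yy, mul_assoc, a5]
      nlinarith
    calc _ < ∑ _j : Fin d, (2 : ℝ) :=
          sum_lt_sum (f := fun j => yy (k j)) (fun j _ => yy_le _) ⟨⟨0, hd⟩, mem_univ _, h5⟩
      _ = _ := by simp; ring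

lemma series_int {F : (Fin d → ℝ) → ℝ} {T : ℕ → (Fin d → ℝ) → ℝ} {B : ℝ}
    (hT : ∀ n, Continuous (T n)) (h0 : ∀ n k, 0 ≤ T n k)
    (hs : ∀ K, ∑ n ∈ range K, ∫ k, T n k ∂(mu d) ≤ B)
    (h : ∀ᵐ k ∂(mu d), HasSum (fun n => T n k) (F k)) :
    Integrable F (mu d) ∧ ∫ k, F k ∂(mu d) ≤ B := by
  have hi : ∀ n, Integrable (T n) (mu d) := fun n => integrable_mu (hT n)
  have hn : ∀ n, 0 ≤ ∫ k, T n k ∂(mu d) := fun n => integral_nonneg (h0 n)
  have hsum := summable_of_sum_range_le hn hs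
  have e : ∀ n, (fun k => ‖T n k‖) = T n := fun n => funext fun k => Real.norm_of_nonneg (h0 n k)
  constructor
  · refine ⟨aestronglyMeasurable_of_tendsto_ae atTop (f := fun K k => ∑ n ∈ range K, T n k)
      (fun K => (continuous_finsetSum _ fun n _ => hT n).aestronglyMeasurable)
      (h.mono fun k hk => hk.tendsto_sum_nat), ?_⟩
    have h1 : ∫⁻ k, ‖F k‖ₑ ∂(mu d) = ∫⁻ k, ∑' n, ENNReal.ofReal (T n k) ∂(mu d) := by
      refine lintegral_congr_ae (h.mono fun k hk => ?_)
      beta_reduce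
      rw [← ENNReal.ofReal_tsum_of_nonneg (fun n => h0 n k) hk.summable, hk.tsum_eq,
        Real.enorm_eq_ofReal (hk.nonneg fun n => h0 n k)]
    rw [HasFiniteIntegral, h1, lintegral_tsum fun n => (hT n).measurable.ennreal_ofReal.aemeasurable]
    simp_rw [← ofReal_integral_eq_lintegral_ofReal (hi _) (Eventually.of_forall (h0 _))]
    rw [← ENNReal.ofReal_tsum_of_nonneg hn hsum]
    exact ENNReal.ofReal_lt_top
  · have h1 := hasSum_integral_of_summable_integral_norm hi (by simp only [e]; exact hsum)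
    rw [integral_congr_ae (h.mono fun k hk => hk.tsum_eq)] at h1
    rw [← h1.tsum_eq]
    exact Real.tsum_le_of_sum_range_le hn hs

lemma tele {u v w P : ℕ → ℝ} {B : ℝ} (hu : ∀ m, 0 ≤ u m * P m) (h0 : w 0 = u 0)
    (h1 : ∀ m, w (m + 1) = u (m + 1) + v m) (hB : ∀ K, ∑ m ∈ range K, w m * P m ≤ B) (K : ℕ) :
    ∑ m ∈ range K, (u m * P m + v m * P (m + 1)) ≤ B := by
  have : ∑ m ∈ range K, (u m * P m + v m * P (m + 1)) + u K * P K =
      ∑ m ∈ range (K + 1), w m * P m := by
    induction K with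
    | zero => simp [h0]
    | succ K ih => rw [sum_range_succ, sum_range_succ _ (K + 1), ← ih, h1]; ring
  linarith [hu K, hB (K + 1)]

/-- bounds on random walk integrals -/
structure Ints (d : ℕ) (J1 J2 J : ℝ) : Prop where
  i1 : Integrable (fun k : Fin d → ℝ => DD k ^ 2 / YY k) (mu d) ∧
    ∫ k : Fin d → ℝ, DD k ^ 2 / YY k ∂(mu d) ≤ J1
  i2 : Integrable (fun k : Fin d → ℝ => DD k ^ 4 / YY k) (mu d) ∧
    ∫ k : Fin d → ℝ, DD k ^ 4 / YY k ∂(mu d) ≤ J2
  i3 : Integrable (fun k : Fin d → ℝ => DD k ^ 2 / YY k ^ 2) (mu d) ∧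
    ∫ k : Fin d → ℝ, DD k ^ 2 / YY k ^ 2 ∂(mu d) ≤ J
  i4 : Integrable (fun k : Fin d → ℝ => VV k / YY k ^ 2) (mu d) ∧
    ∫ k : Fin d → ℝ, VV k / YY k ^ 2 ∂(mu d) ≤ J1
  i5 : Integrable (fun k : Fin d → ℝ => VV k / YY k ^ 3) (mu d) ∧
    ∫ k : Fin d → ℝ, VV k / YY k ^ 3 ∂(mu d) ≤ (J1 + J) / 2

lemma integral_poly {w : (Fin d → ℝ) → ℝ} (hw : Continuous w) (a b c e : ℝ) (n : ℕ) :
    ∫ k : Fin d → ℝ, w k * DD k ^ n * (a + b * DD k + c * DD k ^ 2 + e * DD k ^ 3) ∂(mu d) =
      a * ∫ k, w k * DD k ^ n ∂(mu d) + b * ∫ k, w k * DD k ^ (n + 1) ∂(mu d) +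
      c * ∫ k, w k * DD k ^ (n + 2) ∂(mu d) + e * ∫ k, w k * DD k ^ (n + 3) ∂(mu d) := by
  have := continuous_DD (d := d)
  simp only [← integral_const_mul]
  rw [← integral_add (integrable_mu (by fun_prop)) (integrable_mu (by fun_prop)),
    ← integral_add (integrable_mu (by fun_prop)) (integrable_mu (by fun_prop)),
    ← integral_add (integrable_mu (by fun_prop)) (integrable_mu (by fun_prop))]
  congr 1; funext k; ring

theorem ints_of (hd : 0 < d) {J1 J2 J : ℝ} (h1 : ∀ K, ∑ m ∈ range K, pm d (2 * (m + 1)) ≤ J1)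
    (h2 : ∀ K, ∑ m ∈ range K, pm d (2 * (m + 2)) ≤ J2)
    (h3 : ∀ K, ∑ m ∈ range K, (2 * m + 1) * pm d (2 * (m + 1)) ≤ J) : Ints d J1 J2 J := by
  have hD := continuous_DD (d := d)
  have hV := continuous_VV (d := d)
  have hp : ∀ k : Fin d → ℝ, 0 ≤ 1 + DD k := fun k => by linarith [YY_le hd k, DD.eq_1 k]
  have geo : ∀ r : ℕ, ∀ᵐ k : Fin d → ℝ ∂(mu d), YY k ≠ 0 ∧ ∀ w : ℝ,
      HasSum (fun m : ℕ => ((m + r).choose r : ℝ) * (w * DD k ^ (2 * m) * (1 + DD k) ^ (r + 1)))
        (w / YY k ^ (r + 1)) := by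
    intro r
    filter_upwards [ae_DD hd] with k hk
    refine ⟨hk.1.ne', fun w => ?_⟩
    have a1 : ‖DD k ^ 2‖ < 1 := by
      rw [Real.norm_of_nonneg (sq_nonneg _), DD]; nlinarith [hk.1, hk.2]
    have a2 := (hasSum_choose_mul_geometric_of_norm_lt_one r a1).mul_left (w * (1 + DD k) ^ (r + 1))
    have a3 : 1 + DD k ≠ 0 := by rw [DD]; linarith [hk.2]
    have a4 : 1 - DD k ^ 2 = YY k * (1 + DD k) := by rw [DD]; ring
    rw [a4, mul_pow] at a2
    have a5 := hk.1.ne'
    have a6 : w / YY k ^ (r + 1) =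
        w * (1 + DD k) ^ (r + 1) * (1 / (YY k ^ (r + 1) * (1 + DD k) ^ (r + 1))) := by field_simp
    rw [a6]
    exact hasSum_cg a2 fun m => by rw [pow_mul]; ring
  have odd : ∀ m, pm d (2 * m + 1) = 0 := fun m => pm_odd hd ⟨m, rfl⟩
  have E : ∀ (e m : ℕ), ∫ k : Fin d → ℝ, DD k ^ e * DD k ^ m ∂(mu d) = pm d (m + e) := by
    intro e m; simp only [← pow_add, pm, add_comm]
  have hP : ∀ m, 0 ≤ pm d (2 * (m + 1)) := fun m => pm_even _
  refine ⟨?_, ?_, ?_, ?_, ?_⟩
  · refine series_int (T := fun m k => DD k ^ 2 * DD k ^ (2 * m) *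
      (1 + 1 * DD k + 0 * DD k ^ 2 + 0 * DD k ^ 3)) (fun n => by fun_prop)
      (fun n k => by have := hp k; simp only [pow_mul]; simp; positivity) (fun K => ?_)
      ((geo 0).mono fun k hk => by simpa using hk.2 (DD k ^ 2))
    refine le_trans (le_of_eq (sum_congr rfl fun m _ => ?_)) (h1 K)
    rw [integral_poly (by fun_prop), E, E, show 2 * m + 1 + 2 = 2 * (m + 1) + 1 by ring, odd]
    simp; rfl
  · refine series_int (T := fun m k => DD k ^ 4 * DD k ^ (2 * m) *
      (1 + 1 * DD k + 0 * DD k ^ 2 + 0 * DD k ^ 3)) (fun n => by fun_prop)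
      (fun n k => by have := hp k; simp only [pow_mul]; simp; positivity) (fun K => ?_)
      ((geo 0).mono fun k hk => by simpa using hk.2 (DD k ^ 4))
    refine le_trans (le_of_eq (sum_congr rfl fun m _ => ?_)) (h2 K)
    rw [integral_poly (by fun_prop), E, E, show 2 * m + 1 + 4 = 2 * (m + 2) + 1 by ring, odd]
    simp; rfl
  · refine series_int (T := fun m k => ((m : ℝ) + 1) * (DD k ^ 2 * DD k ^ (2 * m) *
      (1 + 2 * DD k + 1 * DD k ^ 2 + 0 * DD k ^ 3))) (fun n => by fun_prop)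
      (fun n k => ?_) (fun K => ?_)
      ((geo 1).mono fun k hk => hasSum_cg (hk.2 (DD k ^ 2)) fun m => by simp; left; left; ring)
    · rw [show 1 + 2 * DD k + 1 * DD k ^ 2 + 0 * DD k ^ 3 = (1 + DD k) ^ 2 by ring, pow_mul]
      positivity
    refine le_trans (le_of_eq (sum_congr rfl fun m _ => ?_))
      (tele (u := fun m => m + 1) (v := fun m => m + 1) (P := fun m => pm d (2 * (m + 1)))
        (fun m => mul_nonneg (by positivity) (hP m)) (by simp) (fun m => by push_cast; ring) h3 K)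
    rw [integral_const_mul, integral_poly (by fun_prop), E, E, E,
      show 2 * m + 1 + 2 = 2 * (m + 1) + 1 by ring, odd]
    ring_nf
  · refine series_int (T := fun m k => ((m : ℝ) + 1) * (VV k * DD k ^ (2 * m) *
      (1 + 2 * DD k + 1 * DD k ^ 2 + 0 * DD k ^ 3))) (fun n => by fun_prop)
      (fun n k => ?_) (fun K => ?_)
      ((geo 1).mono fun k hk => hasSum_cg (hk.2 (VV k)) fun m => by simp; left; left; ring)
    · rw [show 1 + 2 * DD k + 1 * DD k ^ 2 + 0 * DD k ^ 3 = (1 + DD k) ^ 2 by ring, pow_mul]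
      have := VV_nonneg k
      positivity
    refine le_trans (le_of_eq (sum_congr rfl fun m _ => ?_))
      (tele (u := fun m => (m + 1) / (2 * m + 1)) (v := fun m => (m + 1) / (2 * m + 3))
        (w := fun _ => 1) (P := fun m => pm d (2 * (m + 1)))
        (fun m => mul_nonneg (by positivity) (hP m)) (by simp)
        (fun m => by push_cast; field_simp; ring) (by simpa using h1) K)
    rw [integral_const_mul, integral_poly (by fun_prop), integral_VD hd, integral_VD hd,
      integral_VD hd, show 2 * m + 1 + 2 = 2 * (m + 1) + 1 by ring, odd]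
    push_cast
    ring_nf
  · refine series_int (T := fun m k => (((m : ℝ) + 2) * (m + 1) / 2) * (VV k * DD k ^ (2 * m) *
      (1 + 3 * DD k + 3 * DD k ^ 2 + 1 * DD k ^ 3))) (fun n => by fun_prop)
      (fun n k => ?_) (fun K => ?_)
      ((geo 2).mono fun k hk => hasSum_cg (hk.2 (VV k)) fun m => ?_)
    · rw [show 1 + 3 * DD k + 3 * DD k ^ 2 + 1 * DD k ^ 3 = (1 + DD k) ^ 3 by ring, pow_mul]
      have := VV_nonneg k
      have := hp k
      positivity
    · refine le_trans (le_of_eq (sum_congr rfl fun m _ => ?_))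
        (tele (u := fun m => ((m : ℝ) + 2) * (m + 1) / 2 / (2 * m + 1))
          (v := fun m => 3 * (((m : ℝ) + 2) * (m + 1) / 2) / (2 * m + 3))
          (w := fun m => m + 1) (P := fun m => pm d (2 * (m + 1)))
          (fun m => mul_nonneg (by positivity) (hP m)) (by simp)
          (fun m => by push_cast; field_simp; ring) (fun K => ?_) K)
      · rw [integral_const_mul, integral_poly (by fun_prop), integral_VD hd, integral_VD hd,
          integral_VD hd, integral_VD hd, show 2 * m + 1 + 2 = 2 * (m + 1) + 1 by ring, odd,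
          show 2 * (m + 1) + 1 + 2 = 2 * (m + 2) + 1 by ring, odd]
        push_cast
        ring_nf
      · have := add_le_add (h1 K) (h3 K)
        rw [← sum_add_distrib] at this
        rw [le_div_iff₀ (by norm_num), sum_mul]
        exact le_trans (le_of_eq (sum_congr rfl fun m _ => by ring)) this
    · rw [Nat.cast_choose_two]; push_cast; ring

end Pool.Agent.P.MP_2ab770_pr
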