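import Pool.Agent.P.MP_2ab770_pr.Geo

set_option autoImplicit false
set_option linter.dupNamespace false
set_option linter.unusedVariables false
set_option linter.unusedSectionVars false

namespace Pool.Agent.P.MP_2ab770_pr

open Finset Filter Topology MeasureTheory Real

variable {d : ℕ}

/-- shear -/
def shear (d : ℕ) : X d × X d ≃ X d × X d where
  toFun p := (p.2, p.1 - p.2)
  invFun p := (p.1 + p.2, p.1)
  left_inv p := by simp
  right_inv p := by simp

lemma conv_gen {R : Type} [NormedRing R] [CompleteSpace R] {a b : X d → R}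
    (ha : Summable fun x => ‖a x‖) (hb : Summable fun x => ‖b x‖) :
    (∀ y, Summable fun x => a x * b (y - x)) ∧
      HasSum (fun y => ∑' x, a x * b (y - x)) ((∑' x, a x) * ∑' x, b x) := by
  have h1 := summable_mul_of_summable_norm ha hb
  have h2 : Summable fun p : X d × X d => a p.2 * b (p.1 - p.2) :=
    ((shear d).summable_iff (f := fun p : X d × X d => a p.1 * b p.2)).2 h1
  refine ⟨fun y => h2.prod_factor y, ?_⟩
  rw [tsum_mul_tsum_of_summable_norm ha hb, ← (shear d).tsum_eq]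
  exact h2.hasSum.prod_fiberwise fun y => (h2.prod_factor y).hasSum

/-- real convolution -/
noncomputable def rc (f g : X d → ℝ) (y : X d) : ℝ := ∑' x, f x * g (y - x)

/-- Fourier series -/
noncomputable def FT (f : X d → ℝ) (k : Fin d → ℝ) : ℂ := ∑' x, (f x : ℂ) * chr k x

variable {f g : X d → ℝ}

lemma rc_pt (hf : Summable f) (hg : Summable g) (y : X d) : Summable fun x => f x * g (y - x) :=
  (conv_gen hf.norm hg.norm).1 y

lemma rc_summ (hf : Summable f) (hg : Summable g) : Summable (rc f g) :=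
  (conv_gen hf.norm hg.norm).2.summable

lemma norm_FT_term (f : X d → ℝ) (k : Fin d → ℝ) (x : X d) : ‖(f x : ℂ) * chr k x‖ = ‖f x‖ := by
  rw [norm_mul, norm_chr, mul_one, Complex.norm_real]

lemma FT_summ (hf : Summable f) (k : Fin d → ℝ) : Summable fun x => ‖(f x : ℂ) * chr k x‖ := by
  simp_rw [norm_FT_term]; exact hf.norm

lemma FT_rc (hf : Summable f) (hg : Summable g) (k : Fin d → ℝ) :
    FT (rc f g) k = FT f k * FT g k := by
  rw [FT, FT, FT, ← (conv_gen (FT_summ hf k) (FT_summ hg k)).2.tsum_eq]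
  refine tsum_congr fun y => ?_
  rw [rc, Complex.ofReal_tsum, ← tsum_mul_right]
  refine tsum_congr fun x => ?_
  have : chr k y = chr k x * chr k (y - x) := by rw [← chr_add]; congr 1; abel
  rw [this]; push_cast; ring

lemma FT_add (hf : Summable f) (hg : Summable g) (k : Fin d → ℝ) :
    FT (fun x => f x + g x) k = FT f k + FT g k := by
  rw [FT, FT, FT, ← (FT_summ hf k).of_norm.tsum_add (FT_summ hg k).of_norm]
  exact tsum_congr fun x => by push_cast; ring

lemma FT_sub (hf : Summable f) (hg : Summable g) (k : Fin d → ℝ) :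
    FT (fun x => f x - g x) k = FT f k - FT g k := by
  rw [FT, FT, FT, ← (FT_summ hf k).of_norm.tsum_sub (FT_summ hg k).of_norm]
  exact tsum_congr fun x => by push_cast; ring

lemma FT_mul (c : ℝ) (f : X d → ℝ) (k : Fin d → ℝ) : FT (fun x => c * f x) k = c * FT f k := by
  rw [FT, FT, ← tsum_mul_left]
  exact tsum_congr fun x => by push_cast; ring

lemma FT_sum {ι : Type} (s : Finset ι) {F : ι → X d → ℝ} (h : ∀ i, Summable (F i))
    (k : Fin d → ℝ) : FT (fun x => ∑ i ∈ s, F i x) k = ∑ i ∈ s, FT (F i) k := by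
  simp only [FT]
  rw [← Summable.tsum_finsetSum fun i _ => (FT_summ (h i) k).of_norm]
  exact tsum_congr fun x => by push_cast; rw [sum_mul]

/-- point mass -/
def dl (y x : X d) : ℝ := if x = y then 1 else 0

lemma summ_dl (y : X d) : Summable (dl y) :=
  summable_of_ne_finset_zero (s := {y}) fun x hx => if_neg (by simpa using hx)

lemma FT_dl (y : X d) (k : Fin d → ℝ) : FT (dl y) k = chr k y := by
  rw [FT, tsum_eq_single y (fun x hx => by simp [dl, hx])]; simp [dl]

lemma continuous_FT (hf : Summable f) : Continuous (FT f) :=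
  continuous_tsum (fun x => continuous_const.mul (continuous_chr x)) hf.norm
    fun x k => (norm_FT_term f k x).le

lemma norm_FT_le (hf : Summable f) (k : Fin d → ℝ) : ‖FT f k‖ ≤ ∑' x, ‖f x‖ :=
  tsum_of_norm_bounded hf.norm.hasSum fun x => (norm_FT_term f k x).le

lemma FT_inv (hf : Summable f) (y : X d) : (f y : ℂ) = ∫ k, FT f k * chr k (-y) ∂(mu d) := by
  have hi : ∀ x, Integrable (fun k => (f x : ℂ) * chr k (x + -y)) (mu d) := fun x =>
    (integrable_chr _).const_mul _
  have hs : Summable fun x => ∫ k, ‖(f x : ℂ) * chr k (x + -y)‖ ∂(mu d) := by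
    simp only [norm_mul, norm_chr, mul_one, Complex.norm_real]
    simpa using hf.norm
  have hh := (hasSum_integral_of_summable_integral_norm hi hs).tsum_eq
  simp only [integral_const_mul, integral_chr] at hh
  rw [tsum_eq_single y (fun x hx => by rw [if_neg (by rwa [add_neg_eq_zero]), mul_zero])] at hh
  simp only [add_neg_cancel, if_true, mul_one] at hh
  rw [hh]
  congr 1; funext k
  rw [FT, ← tsum_mul_right]
  exact tsum_congr fun x => by rw [chr_add, mul_assoc]

lemma continuous_th (x : X d) : Continuous fun k : Fin d → ℝ => th k x := by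
  unfold th; fun_prop

lemma real_inv (hf : Summable f) {ψ : (Fin d → ℝ) → ℝ} (h : ∀ k, FT f k = ψ k) :
    Integrable ψ (mu d) ∧ ∀ y, f y = ∫ k, ψ k * cos (th k y) ∂(mu d) := by
  have e : ψ = fun k => (FT f k).re := funext fun k => by rw [h]; simp
  have hc : Continuous ψ := e ▸ Complex.continuous_re.comp (continuous_FT hf)
  have hb : ∀ k, ‖ψ k‖ ≤ ∑' x, ‖f x‖ := fun k => by
    have := norm_FT_le hf k
    rwa [h, Complex.norm_real] at this
  refine ⟨integrable_of_bdd hc _ hb, fun y => ?_⟩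
  have h1 := congrArg Complex.re (FT_inv hf y)
  have hi : Integrable (fun k => FT f k * chr k (-y)) (mu d) :=
    integrable_of_bdd ((continuous_FT hf).mul (continuous_chr _)) _ fun k => by
      rw [norm_mul, norm_chr, mul_one]; exact norm_FT_le hf k
  have h2 := integral_re hi
  simp only [RCLike.re_to_complex] at h2
  rw [Complex.ofReal_re, ← h2] at h1
  rw [h1]
  congr 1; funext k
  rw [h, Complex.re_ofReal_mul, re_chr, th_neg, cos_neg]

lemma le_integral_of (hf : Summable f) {ψ m : (Fin d → ℝ) → ℝ} (h : ∀ k, FT f k = ψ k)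
    (hm : Integrable m (mu d)) (hle : ∀ᵐ k ∂(mu d), |ψ k| ≤ m k) (y : X d) :
    f y ≤ ∫ k, m k ∂(mu d) := by
  obtain ⟨hi, h2⟩ := real_inv hf h
  rw [h2 y]
  refine (Real.le_norm_self _).trans (norm_integral_le_of_norm_le hm ?_)
  filter_upwards [hle] with k hk
  rw [Real.norm_eq_abs, abs_mul]
  exact (mul_le_of_le_one_right (abs_nonneg _) (abs_cos_le_one _)).trans hk

lemma zero_le_integral_of (hf : Summable f) {ψ m : (Fin d → ℝ) → ℝ} (h : ∀ k, FT f k = ψ k)
    (hm : Integrable m (mu d)) (hle : ∀ᵐ k ∂(mu d), ψ k ≤ m k) :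
    f 0 ≤ ∫ k, m k ∂(mu d) := by
  obtain ⟨hi, h2⟩ := real_inv hf h
  rw [h2 0]
  simp only [th_zero, cos_zero, mul_one]
  exact integral_mono_ae hi hm hle

/-- cosine transform -/
noncomputable def CT (f : X d → ℝ) (k : Fin d → ℝ) : ℝ := ∑' x, f x * cos (th k x)

/-- sine transform -/
noncomputable def ST (f : X d → ℝ) (k : Fin d → ℝ) : ℝ := ∑' x, f x * sin (th k x)

lemma summ_bdd (hf : Summable f) {u : X d → ℝ} (hu : ∀ x, |u x| ≤ 1) :
    Summable fun x => f x * u x :=
  Summable.of_norm_bounded hf.norm fun x => by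
    rw [norm_mul]; exact mul_le_of_le_one_right (norm_nonneg _) (hu x)

lemma FT_eq (hf : Summable f) (k : Fin d → ℝ) : FT f k = CT f k + ST f k * Complex.I := by
  rw [FT, CT, ST, Complex.ofReal_tsum, Complex.ofReal_tsum, ← tsum_mul_right,
    ← Summable.tsum_add]
  · refine tsum_congr fun x => ?_
    rw [chr, Complex.exp_mul_I]; push_cast; ring
  · exact Complex.summable_ofReal.2 (summ_bdd hf fun x => abs_cos_le_one _)
  · exact (Complex.summable_ofReal.2 (summ_bdd hf fun x => abs_sin_le_one _)).mul_right _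

lemma tsum_odd {u : X d → ℝ} (e : X d ≃ X d) (hu : ∀ x, u (e x) = - u x) : ∑' x, u x = 0 := by
  have := e.tsum_eq u
  simp only [hu, tsum_neg] at this
  linarith

lemma FT_even (hf : Summable f) (he : ∀ x, f (-x) = f x) (k : Fin d → ℝ) : FT f k = CT f k := by
  rw [FT_eq hf, ST, tsum_odd (Equiv.neg _) fun x => by simp [he, th_neg]]; simp

lemma FT_odd (hf : Summable f) (he : ∀ x, f (-x) = - f x) (k : Fin d → ℝ) :
    FT f k = ST f k * Complex.I := by
  rw [FT_eq hf, CT, tsum_odd (Equiv.neg _) fun x => by simp [he, th_neg]]; simp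

/-- multiplication by a coordinate -/
def Dj (j : Fin d) (f : X d → ℝ) (x : X d) : ℝ := x j * f x

lemma Dj_rc (j : Fin d) (hf : Summable f) (hg : Summable g) (hf' : Summable (Dj j f))
    (hg' : Summable (Dj j g)) : Dj j (rc f g) = fun y => rc (Dj j f) g y + rc f (Dj j g) y := by
  funext y
  rw [Dj, rc, rc, rc, ← tsum_mul_left, ← (rc_pt hf' hg y).tsum_add (rc_pt hf hg' y)]
  refine tsum_congr fun x => ?_
  simp only [Dj, Pi.sub_apply]; push_cast; ring

lemma sq_le_nsq (x : X d) (j : Fin d) : (x j : ℝ) ^ 2 ≤ nsq x := by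
  rw [nsq_real]
  exact single_le_sum (f := fun j => (x j : ℝ) ^ 2) (fun _ _ => sq_nonneg _) (mem_univ j)

lemma abs_le_sq_int (n : ℤ) : |(n : ℝ)| ≤ (n : ℝ) ^ 2 := by
  have : |n| ≤ n ^ 2 := by
    rcases eq_or_ne n 0 with h | h
    · simp [h]
    · have := Int.one_le_abs h
      nlinarith [sq_abs n]
  exact_mod_cast this

lemma summ_Dj (h2 : Summable fun x => (nsq x : ℝ) * f x) (j : Fin d) : Summable (Dj j f) :=
  Summable.of_norm_bounded h2.norm fun x => by
    rw [Dj, norm_mul, norm_mul]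
    refine mul_le_mul_of_nonneg_right ?_ (norm_nonneg _)
    rw [Real.norm_eq_abs, Real.norm_of_nonneg (by positivity)]
    exact (abs_le_sq_int _).trans (sq_le_nsq x j)

lemma summ_DDj (h2 : Summable fun x => (nsq x : ℝ) * f x) (j : Fin d) :
    Summable (Dj j (Dj j f)) :=
  Summable.of_norm_bounded h2.norm fun x => by
    rw [Dj, Dj, ← mul_assoc, norm_mul, norm_mul (nsq x : ℝ)]
    refine mul_le_mul_of_nonneg_right ?_ (norm_nonneg _)
    rw [Real.norm_of_nonneg (mul_self_nonneg _), Real.norm_of_nonneg (by positivity), ← sq]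
    exact sq_le_nsq x j

lemma sum_DDj (f : X d → ℝ) : (fun x => (nsq x : ℝ) * f x) = fun x => ∑ j, Dj j (Dj j f) x := by
  funext x
  rw [nsq_real, sum_mul]
  exact sum_congr rfl fun j _ => by simp only [Dj]; ring

/-- second derivative of the solution of a renewal equation -/
lemma FT_second {G ρ : X d → ℝ} (hG : Summable G) (hρ : Summable ρ)
    (hG2 : Summable fun x => (nsq x : ℝ) * G x) (hρ2 : Summable fun x => (nsq x : ℝ) * ρ x)
    (h : G = fun x => dl 0 x + rc ρ G x) (k : Fin d → ℝ) :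
    FT G k * (1 - FT ρ k) = 1 ∧ FT (fun x => (nsq x : ℝ) * G x) k =
      FT (fun x => (nsq x : ℝ) * ρ x) k * FT G k ^ 2 + 2 * (∑ j, FT (Dj j ρ) k ^ 2) * FT G k ^ 3 := by
  have h0 : FT G k = 1 + FT ρ k * FT G k := by
    conv_lhs => rw [h]
    rw [FT_add (summ_dl 0) (rc_summ hρ hG), FT_dl, chr_zero, FT_rc hρ hG]
  have h0' : FT G k * (1 - FT ρ k) = 1 := by linear_combination h0
  refine ⟨h0', ?_⟩
  rw [sum_DDj, sum_DDj, FT_sum _ (summ_DDj hG2), FT_sum _ (summ_DDj hρ2), mul_sum, sum_mul,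
    sum_mul, ← sum_add_distrib]
  refine sum_congr rfl fun j _ => ?_
  have g1 := summ_Dj hG2 j
  have g2 := summ_DDj hG2 j
  have r1 := summ_Dj hρ2 j
  have r2 := summ_DDj hρ2 j
  have e1 : Dj j G = fun y => rc (Dj j ρ) G y + rc ρ (Dj j G) y := by
    rw [← Dj_rc j hρ hG r1 g1]
    funext y
    rw [Dj, Dj, congrFun h y, dl]
    split_ifs with hy
    · simp [hy]
    · simp
  have e2 : Dj j (Dj j G) = fun y => (rc (Dj j (Dj j ρ)) G y + rc (Dj j ρ) (Dj j G) y) +
      (rc (Dj j ρ) (Dj j G) y + rc ρ (Dj j (Dj j G)) y) := by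
    funext y
    rw [← congrFun (Dj_rc j r1 hG r2 g1) y, ← congrFun (Dj_rc j hρ g1 r1 g2) y, Dj, congrFun e1 y,
      Dj, Dj, mul_add]
  have f1 := congrArg (fun f => FT f k) e1
  have f2 := congrArg (fun f => FT f k) e2
  beta_reduce at f1 f2
  rw [FT_add (rc_summ r1 hG) (rc_summ hρ g1), FT_rc r1 hG, FT_rc hρ g1] at f1
  rw [FT_add ((rc_summ r2 hG).add (rc_summ r1 g1)) ((rc_summ r1 g1).add (rc_summ hρ g2)), FT_add (rc_summ r2 hG) (rc_summ r1 g1),
    FT_add (rc_summ r1 g1) (rc_summ hρ g2), FT_rc r2 hG, FT_rc r1 g1, FT_rc hρ g2] at f2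
  have f3 : FT (Dj j G) k = FT (Dj j ρ) k * FT G k ^ 2 := by
    linear_combination FT G k * f1 - FT (Dj j G) k * h0'
  linear_combination FT G k * f2 - FT (Dj j (Dj j G)) k * h0' + 2 * FT G k * FT (Dj j ρ) k * f3

end Pool.Agent.P.MP_2ab770_pr
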