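import Pool.Agent.P.MP_2ab770_pr.Ints

set_option autoImplicit false
set_option linter.dupNamespace false
set_option linter.unusedVariables false
set_option linter.unusedSectionVars false

namespace Pool.Agent.P.MP_2ab770_pr

open Finset Filter Topology MeasureTheory Real
open scoped Nat

variable {d : ℕ}

lemma c1_even (j : ℕ) : c1 (2 * j) * 4 ^ j * (j ! : ℝ) ^ 2 = (2 * j)! := by
  induction j with
  | zero => simp [c1_zero]
  | succ j ih =>
    have h := c1_succ (2 * j)
    rw [show 2 * (j + 1) = 2 * j + 1 + 1 by ring, Nat.factorial_succ (2 * j + 1),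
      Nat.factorial_succ (2 * j), Nat.factorial_succ j]
    push_cast at h ⊢
    rw [← ih]
    linear_combination (4 ^ j * (j ! : ℝ) ^ 2 * (2 * j + 2)) * h

lemma sum_even {f : ℕ → ℝ} (h : ∀ j, f (2 * j + 1) = 0) (m : ℕ) :
    ∑ i ∈ range (2 * m + 1), f i = ∑ j ∈ range (m + 1), f (2 * j) := by
  induction m with
  | zero => simp
  | succ m ih =>
    rw [show 2 * (m + 1) + 1 = 2 * m + 1 + 1 + 1 by ring, sum_range_succ, sum_range_succ, ih, h,
      sum_range_succ _ (m + 1)]
    simp [mul_add]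

/-- rounded weights -/
def wt (i : ℕ) : ℕ := 2 ^ 470 * 1400 ^ i / (i !) ^ 2 + 1

/-- generating polynomial of the weights -/
noncomputable def qq : Polynomial ℕ := ∑ i ∈ range 501, Polynomial.monomial i (wt i)

lemma qq_coeff {i : ℕ} (h : i ≤ 500) : qq.coeff i = wt i := by
  simp only [qq, Polynomial.finsetSum_coeff, Polynomial.coeff_monomial]
  rw [sum_ite_eq' (range 501) i wt, if_pos (mem_range.2 (by omega))]

lemma c1_le (j : ℕ) : c1 (2 * j) * 5600 ^ j * 2 ^ 470 ≤ (2 * j)! * wt j := by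
  have h0 : 0 < (j !) ^ 2 := by positivity
  have h1 : 2 ^ 470 * 1400 ^ j ≤ wt j * (j !) ^ 2 := by
    rw [wt, add_mul, one_mul]; exact (Nat.lt_div_mul_add h0).le
  have h2 : (2 : ℝ) ^ 470 * 1400 ^ j ≤ wt j * (j ! : ℝ) ^ 2 := by exact_mod_cast h1
  have h3 : (0 : ℝ) < (j ! : ℝ) ^ 2 := by positivity
  refine le_of_mul_le_mul_right ?_ h3
  calc _ = (c1 (2 * j) * 4 ^ j * (j ! : ℝ) ^ 2) * (2 ^ 470 * 1400 ^ j) := by
        rw [show (5600 : ℝ) = 4 * 1400 by norm_num, mul_pow]; ring
    _ ≤ _ := by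
        rw [c1_even, mul_assoc]; exact mul_le_mul_of_nonneg_left h2 (by positivity)

lemma mom_le (d : ℕ) : ∀ m ≤ 500,
    mom d (2 * m) * 5600 ^ m * (2 ^ 470) ^ d ≤ (2 * m)! * (qq ^ d).coeff m := by
  induction d with
  | zero =>
    intro m hm
    rcases m with _ | m
    · simp [mom]
    · simp [mom, cs, Polynomial.coeff_one]
  | succ d ih =>
    intro m hm
    rw [mom_succ, sum_even fun j => by rw [c1_odd]; simp, pow_succ' qq, Polynomial.coeff_mul,
      Nat.sum_antidiagonal_eq_sum_range_succ_mk, Nat.cast_sum, mul_sum, sum_mul, sum_mul]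
    refine sum_le_sum fun j hj => ?_
    have hj := Nat.lt_succ_iff.1 (mem_range.1 hj)
    obtain ⟨i, rfl⟩ := Nat.exists_eq_add_of_le hj
    have a1 := ih i (by omega)
    have a2 := c1_le j
    have a3 : 0 ≤ mom d (2 * i) := integral_nonneg fun k => by simp only [pow_mul]; positivity
    have a4 : ((2 * (j + i)).choose (2 * j) : ℝ) * (2 * j)! * (2 * i)! = (2 * (j + i))! := by
      have := Nat.choose_mul_factorial_mul_factorial (show 2 * j ≤ 2 * (j + i) by omega)
      rw [show 2 * (j + i) - 2 * j = 2 * i by omega] at this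
      exact_mod_cast this
    rw [show 2 * (j + i) - 2 * j = 2 * i by omega, Nat.add_sub_cancel_left, qq_coeff (by omega),
      ← a4]
    have a5 := mul_le_mul_of_nonneg_left (mul_le_mul a2 a1 (by positivity) (by positivity))
      (Nat.cast_nonneg (α := ℝ) ((2 * (j + i)).choose (2 * j)))
    push_cast
    refine le_trans (le_of_eq ?_) (a5.trans (le_of_eq (by ring)))
    rw [pow_add, pow_succ]
    generalize (2 : ℝ) ^ 470 = S
    ring

lemma digit {x : ℕ} (m : ℕ) : ∀ r : Polynomial ℕ, (∀ i, r.coeff i < x) →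
    r.eval x / x ^ m % x = r.coeff m := by
  have key : ∀ r : Polynomial ℕ, r.eval x = r.coeff 0 + x * r.divX.eval x := fun r => by
    conv_lhs => rw [← r.divX_mul_X_add]
    simp; ring
  induction m with
  | zero =>
    intro r hr
    rw [key, pow_zero, Nat.div_one, Nat.add_mul_mod_self_left, Nat.mod_eq_of_lt (hr 0)]
  | succ m ih =>
    intro r hr
    have hx : 0 < x := (Nat.zero_le _).trans_lt (hr 0)
    rw [pow_succ', ← Nat.div_div_eq_div_mul, key, Nat.add_mul_div_left _ _ hx,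
      Nat.div_eq_of_lt (hr 0), zero_add, ih _ fun i => by rw [Polynomial.coeff_divX]; exact hr _,
      Polynomial.coeff_divX]

lemma coeff_le_eval (r : Polynomial ℕ) (i : ℕ) : r.coeff i ≤ r.eval 1 := by
  rw [Polynomial.eval_eq_sum, Polynomial.sum_def]
  by_cases h : i ∈ r.support
  · simp only [one_pow, mul_one]
    exact single_le_sum (f := fun i => r.coeff i) (fun _ _ => Nat.zero_le _) h
  · rw [Polynomial.notMem_support_iff.1 h]; exact Nat.zero_le _

/-- packed weights -/
def PP : ℕ := ∑ i ∈ range 501, wt i * (2 ^ 3000) ^ i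

/-- unpacked fifth convolution power -/
def dg (m : ℕ) : ℕ := (PP ^ 5 >>> (3000 * m)) % 2 ^ 3000

/-- rounded return probabilities -/
def uu (m : ℕ) : ℕ := (2 * m)! * dg m * 10 ^ 12 / (140000 ^ m * (2 ^ 470) ^ 5) + 1

lemma chk : (∑ i ∈ range 501, wt i * 1 ^ i) ^ 5 < 2 ^ 3000 ∧
    ∑ m ∈ range 500, uu (m + 1) ≤ 156297000000 ∧
    ∑ m ∈ range 500, uu (m + 2) ≤ 56297000000 ∧
    ∑ m ∈ range 500, (2 * m + 1) * uu (m + 1) ≤ 586700000000 := by decide +kernel

lemma dg_eq (m : ℕ) : dg m = (qq ^ 5).coeff m := by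
  have e : ∀ x : ℕ, (qq ^ 5).eval x = (∑ i ∈ range 501, wt i * x ^ i) ^ 5 := fun x => by
    simp only [qq, Polynomial.eval_pow, Polynomial.eval_finsetSum, Polynomial.eval_monomial]
  have h : ∀ i, (qq ^ 5).coeff i < 2 ^ 3000 := fun i => by
    refine (coeff_le_eval _ i).trans_lt ?_
    rw [e]; exact chk.1
  rw [← digit m _ h, e, dg, Nat.shiftRight_eq_div_pow, pow_mul, PP]

lemma pm_le_uu {m : ℕ} (hm : m ≤ 500) : pm 5 (2 * m) ≤ uu m / 10 ^ 12 := by
  have h := mom_le 5 m hm
  rw [← dg_eq] at h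
  have h0 : 0 < 140000 ^ m * (2 ^ 470) ^ 5 := by positivity
  have h1 : (2 * m)! * dg m * 10 ^ 12 ≤ uu m * (140000 ^ m * (2 ^ 470) ^ 5) := by
    rw [uu, add_mul, one_mul]; exact (Nat.lt_div_mul_add h0).le
  have h2 : ((2 * m)! : ℝ) * dg m * 10 ^ 12 ≤ uu m * (140000 ^ m * (2 ^ 470) ^ 5) := by
    exact_mod_cast h1
  have h3 : (0 : ℝ) < 2 ^ 470 := by positivity
  generalize (2 : ℝ) ^ 470 = S at *
  rw [pm_eq (by norm_num), div_le_div_iff₀ (by positivity) (by positivity)]
  refine le_of_mul_le_mul_right ?_ (by positivity : (0 : ℝ) < 5600 ^ m * S ^ 5)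
  have h4 : (140000 : ℝ) ^ m = ((5 : ℕ) : ℝ) ^ (2 * m) * 5600 ^ m := by
    rw [pow_mul, ← mul_pow]; norm_num
  rw [h4] at h2
  calc _ = mom 5 (2 * m) * 5600 ^ m * S ^ 5 * 10 ^ 12 := by ring
    _ ≤ _ := (mul_le_mul_of_nonneg_right h (by positivity)).trans (h2.trans (le_of_eq (by ring)))

lemma yy_ge {t : ℝ} (h : |t| ≤ 1 / 2) : 2 * π ^ 2 * 0.9894 * t ^ 2 ≤ yy t ∨ 1 / 20 ≤ yy t := by
  have h1 : |2 * π * t| ≤ π := by
    rw [abs_mul, abs_of_pos (by positivity : 0 < 2 * π)]; nlinarith [pi_pos]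
  rw [yy, show 2 * π ^ 2 * 0.9894 * t ^ 2 = 0.4947 * (2 * π * t) ^ 2 by ring]
  generalize 2 * π * t = x at *
  rcases le_total |x| 0.318 with h2 | h2
  · left
    have a1 := (abs_le.1 (cos_bound (h2.trans (by norm_num)))).2
    have a2 : x ^ 2 ≤ 0.318 ^ 2 := by rw [← sq_abs]; gcongr
    rw [show |x| ^ 4 = x ^ 2 * x ^ 2 by rw [← sq_abs]; ring] at a1
    nlinarith [sq_nonneg x]
  · right
    have a0 : |(0.318 : ℝ)| = 0.318 := abs_of_pos (by norm_num)
    have a1 := (abs_le.1 (cos_bound (x := 0.318) (by rw [a0]; norm_num))).2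
    have a2 := cos_le_cos_of_nonneg_of_le_pi (by norm_num) h1 h2
    rw [cos_abs] at a2
    rw [a0] at a1
    norm_num at a1 a2 ⊢
    linarith

lemma phi_le {m : ℝ} (hm : 500 ≤ m) :
    ∫ t, exp (-(2 * m / 5 * yy t)) ∂nu ≤ 0.63518 / √m := by
  set b := 2 * m / 5 * (2 * π ^ 2 * 0.9894)
  have hb : 0 < b := by have := pi_pos; positivity
  have hg := integrable_exp_neg_mul_sq hb
  have hr : 0 < √m := sqrt_pos.2 (by linarith)
  have h1 : ∫ t, exp (-(2 * m / 5 * yy t)) ∂nu ≤ ∫ t, (exp (-b * t ^ 2) + exp (-(m / 50))) ∂nu := by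
    refine integral_mono_ae (integrable_nu (by unfold yy; fun_prop)) (integrable_nu (by fun_prop))
      (ae_nu.mono fun t ht => ?_)
    rcases yy_ge ht.1 with h | h
    · refine le_add_of_le_of_nonneg (exp_le_exp.2 ?_) (exp_pos _).le
      have := mul_le_mul_of_nonneg_left h (show 0 ≤ 2 * m / 5 by positivity)
      simp only [b]; linarith
    · refine le_add_of_nonneg_of_le (exp_pos _).le (exp_le_exp.2 ?_)
      nlinarith
  rw [integral_add (integrable_nu (by fun_prop)) (integrable_const _), integral_const] at h1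
  have h2 : ∫ t, exp (-b * t ^ 2) ∂nu ≤ 0.63416 / √m := by
    refine (setIntegral_le_integral hg (Eventually.of_forall fun t => (exp_pos _).le)).trans ?_
    rw [integral_gaussian, sqrt_le_left (by positivity), div_pow, sq_sqrt (by linarith),
      div_le_div_iff₀ hb (by linarith)]
    have := pi_gt_d6
    have a1 : 0 ≤ π * m := by positivity
    simp only [b]
    nlinarith
  have h3 : exp (-(m / 50)) ≤ 0.00102 / √m := by
    have a1 : 22000 ≤ exp 10 := by
      have := exp_one_gt_d9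
      calc (22000 : ℝ) ≤ 2.7182818283 ^ 10 := by norm_num
        _ ≤ exp 1 ^ 10 := by gcongr
        _ = _ := by rw [← exp_nat_mul]; norm_num
    have a2 := add_one_le_exp (m / 50 - 10)
    have a3 : exp (m / 50) = exp 10 * exp (m / 50 - 10) := by rw [← exp_add]; ring_nf
    have a4 : 22000 * (m / 50 - 10 + 1) ≤ exp (m / 50) := by
      rw [a3]; exact mul_le_mul a1 a2 (by linarith) (by linarith)
    have a5 := sq_sqrt (show 0 ≤ m by linarith)
    rw [exp_neg, inv_eq_one_div, div_le_div_iff₀ (exp_pos _) hr]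
    nlinarith [sq_nonneg (√m - 22)]
  simp only [probReal_univ, smul_eq_mul, one_mul] at h1
  calc _ ≤ 0.63416 / √m + 0.00102 / √m := by linarith
    _ = _ := by rw [← add_div]; norm_num

lemma shift (s : ℝ) : ∫ t, exp (-(s * (2 - yy t))) ∂nu = ∫ t, exp (-(s * yy t)) ∂nu := by
  have hp : Function.Periodic (fun t => exp (-(s * yy t))) 1 := fun t => by
    simp only [yy, mul_add, mul_one, cos_add_two_pi]
  have e : ∀ t, 2 - yy t = yy (t + 1 / 2) := fun t => by
    rw [yy, yy, show 2 * π * (t + 1 / 2) = 2 * π * t + π by ring, cos_add_pi]; ring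
  simp only [e]
  rw [integral_nu, integral_nu, intervalIntegral.integral_comp_add_right
    (fun t => exp (-(s * yy t)))]
  have := hp.intervalIntegral_add_eq (-1 / 2 + 1 / 2) (-1 / 2)
  norm_num at this ⊢
  exact this

lemma pm_tail {m : ℕ} (hm : 500 ≤ m) : pm 5 (2 * m) ≤ 0.2068 / √m ^ 5 := by
  have hm' : (500 : ℝ) ≤ m := by exact_mod_cast hm
  have h1 : ∀ k : Fin 5 → ℝ, DD k ^ (2 * m) ≤ ∏ j, exp (-(2 * m / 5 * yy (k j))) +
      ∏ j, exp (-(2 * m / 5 * (2 - yy (k j)))) := by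
    intro k
    have e1 : ∏ j, exp (-(2 * m / 5 * yy (k j))) = exp (DD k - 1) ^ (2 * m) := by
      rw [← exp_sum, ← exp_nat_mul, DD, YY, sum_neg_distrib, ← mul_sum]; push_cast; ring_nf
    have e2 : ∏ j, exp (-(2 * m / 5 * (2 - yy (k j)))) = exp (-DD k - 1) ^ (2 * m) := by
      rw [← exp_sum, ← exp_nat_mul, DD, YY, sum_neg_distrib, ← mul_sum, sum_sub_distrib]
      simp; ring
    rw [e1, e2]
    rcases le_total 0 (DD k) with h | h
    · refine le_add_of_le_of_nonneg (pow_le_pow_left₀ h ?_ _) (by positivity)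
      linarith [add_one_le_exp (DD k - 1)]
    · rw [← (even_two_mul m).neg_pow]
      refine le_add_of_nonneg_of_le (by positivity) (pow_le_pow_left₀ (by linarith) ?_ _)
      linarith [add_one_le_exp (-DD k - 1)]
  have h2 := integral_mono (integrable_mu (continuous_DD.pow _))
    (integrable_mu (by unfold yy; fun_prop)) h1
  rw [integral_add (integrable_mu (by unfold yy; fun_prop)) (integrable_mu (by unfold yy; fun_prop)),
    mu, integral_fintype_prod_eq_pow (fun t => exp (-(2 * m / 5 * yy t))),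
    integral_fintype_prod_eq_pow (fun t => exp (-(2 * m / 5 * (2 - yy t)))), shift] at h2
  have h3 := pow_le_pow_left₀ (integral_nonneg fun t => (exp_pos _).le) (phi_le hm') 5
  have hr : 0 < √(m : ℝ) := sqrt_pos.2 (by linarith)
  simp only [Fintype.card_fin] at h2
  calc _ ≤ 2 * (0.63518 / √(m : ℝ)) ^ 5 := by
        refine le_trans h2 ?_; linarith
    _ = 2 * 0.63518 ^ 5 / √(m : ℝ) ^ 5 := by ring
    _ ≤ _ := by gcongr; norm_num

lemma tail_sum (K : ℕ) :
    ∑ m ∈ range K, (2 * (500 + m : ℕ) + 1 : ℝ) * pm 5 (2 * (500 + m + 1)) ≤ 0.037 := by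
  have : ∑ m ∈ range K, (2 * (500 + m : ℕ) + 1 : ℝ) * pm 5 (2 * (500 + m + 1)) ≤
      0.8272 / √((500 + 0 : ℕ) : ℝ) - 0.8272 / √((500 + K : ℕ) : ℝ) := by
    induction K with
    | zero => simp
    | succ K ih =>
      rw [sum_range_succ, ← add_assoc]
      have a1 := pm_tail (m := 500 + K + 1) (by omega)
      have a2 := sq_sqrt (Nat.cast_nonneg (α := ℝ) (500 + K))
      have a3 := sq_sqrt (Nat.cast_nonneg (α := ℝ) (500 + K + 1))
      have a4 : 0 < √((500 + K : ℕ) : ℝ) := sqrt_pos.2 (by positivity)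
      have a5 : √((500 + K : ℕ) : ℝ) ≤ √((500 + K + 1 : ℕ) : ℝ) := sqrt_le_sqrt (by push_cast; linarith)
      replace a3 := a3.trans (Nat.cast_succ (500 + K))
      have a6 : (0 : ℝ) ≤ (500 + K : ℕ) := Nat.cast_nonneg _
      generalize √((500 + K : ℕ) : ℝ) = q at *
      generalize √((500 + K + 1 : ℕ) : ℝ) = r at *
      generalize ((500 + K : ℕ) : ℝ) = n at *
      have hr : 0 < r := by linarith
      have a7 : (2 * n + 1) * (0.2068 / r ^ 5) ≤ 0.8272 / q - 0.8272 / r := by
        have b1 : (2 * n + 1) * (0.2068 / r ^ 5) ≤ 2 * r ^ 2 * (0.2068 / r ^ 5) := by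
          gcongr; linarith
        have b2 : 0.8272 / q - 0.8272 / r = 0.8272 / (q * r * (q + r)) := by
          field_simp; nlinarith
        have b3 : 0.8272 / (r * r * (r + r)) ≤ 0.8272 / (q * r * (q + r)) := by gcongr
        refine b1.trans (le_trans (le_of_eq ?_) (b3.trans b2.ge))
        field_simp; ring
      have := mul_le_mul_of_nonneg_left a1 (show 0 ≤ 2 * n + 1 by linarith)
      linarith
  have a1 : 22.36 ≤ √((500 + 0 : ℕ) : ℝ) := le_sqrt_of_sq_le (by norm_num)
  have a2 : 0.8272 / √((500 + 0 : ℕ) : ℝ) ≤ 0.8272 / 22.36 := by gcongr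
  have a3 : 0 ≤ 0.8272 / √((500 + K : ℕ) : ℝ) := by positivity
  have a4 : (0.8272 : ℝ) / 22.36 ≤ 0.037 := by norm_num
  linarith

theorem ints_five (hd : 5 ≤ d) : Ints d 0.1564 0.0564 0.624 := by
  have hP : ∀ m, 0 ≤ pm 5 (2 * m) := pm_even
  have sp : ∀ (f : ℕ → ℝ) (K n : ℕ), (∀ m, 0 ≤ f m) →
      ∑ m ∈ range K, f m ≤ ∑ m ∈ range n, f m + ∑ m ∈ range K, f (n + m) := fun f K n h => by
    rw [← sum_range_add]
    exact sum_le_sum_of_subset_of_nonneg (range_mono (by omega)) fun i _ _ => h i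
  have t1 : ∀ K, ∑ m ∈ range K, pm 5 (2 * (500 + m + 1)) ≤ 0.000037 := fun K => by
    have : 1000 * ∑ m ∈ range K, pm 5 (2 * (500 + m + 1)) ≤ 0.037 := by
      rw [mul_sum]
      refine le_trans (sum_le_sum fun m _ => mul_le_mul_of_nonneg_right ?_ (hP _)) (tail_sum K)
      push_cast; linarith [Nat.cast_nonneg (α := ℝ) m]
    linarith
  obtain ⟨-, c1, c2, c3⟩ := chk
  have c1 : ∑ m ∈ range 500, (uu (m + 1) : ℝ) ≤ 156297000000 := by exact_mod_cast c1
  have c2 : ∑ m ∈ range 499, (uu (m + 2) : ℝ) ≤ 56297000000 := by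
    exact_mod_cast (sum_le_sum_of_subset (range_mono (by omega))).trans c2
  have c3 : ∑ m ∈ range 500, (2 * m + 1) * (uu (m + 1) : ℝ) ≤ 586700000000 := by exact_mod_cast c3
  refine ints_of (by omega) (fun K => ?_) (fun K => ?_) fun K => ?_
  · refine (sum_le_sum fun m _ => pm_le_five hd _).trans ((sp _ K 500 fun m => hP _).trans ?_)
    have := sum_le_sum fun m (hm : m ∈ range 500) => pm_le_uu (m := m + 1) (mem_range.1 hm)
    rw [← sum_div] at this
    have := (div_le_div_iff_of_pos_right (by positivity : (0 : ℝ) < 10 ^ 12)).2 c1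
    linarith [t1 K]
  · refine (sum_le_sum fun m _ => pm_le_five hd _).trans ((sp _ K 499 fun m => hP _).trans ?_)
    have := sum_le_sum fun m (hm : m ∈ range 499) =>
      pm_le_uu (m := m + 2) (by have := mem_range.1 hm; omega)
    rw [← sum_div] at this
    have := (div_le_div_iff_of_pos_right (by positivity : (0 : ℝ) < 10 ^ 12)).2 c2
    have e : ∀ m, 499 + m + 2 = 500 + m + 1 := fun m => by ring
    simp only [e]
    linarith [t1 K]
  · refine (sum_le_sum fun m _ => mul_le_mul_of_nonneg_left (pm_le_five hd _) (by positivity)).trans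
      ((sp _ K 500 fun m => mul_nonneg (by positivity) (hP _)).trans ?_)
    have := sum_le_sum fun m (hm : m ∈ range 500) => mul_le_mul_of_nonneg_left
      (pm_le_uu (m := m + 1) (mem_range.1 hm)) (show (0 : ℝ) ≤ 2 * m + 1 by positivity)
    simp only [← mul_div_assoc] at this
    rw [← sum_div] at this
    have := (div_le_div_iff_of_pos_right (by positivity : (0 : ℝ) < 10 ^ 12)).2 c3
    linarith [tail_sum K]

end Pool.Agent.P.MP_2ab770_pr
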