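import Pool.Agent.P.MP_2ab770_pr.Table
import Pool.Agent.P.MP_2ab770_pr.Num

set_option autoImplicit false
set_option linter.dupNamespace false
set_option linter.unusedVariables false
set_option linter.unusedSectionVars false

namespace Pool.Agent.P.MP_2ab770_pr

open Finset Filter Topology MeasureTheory
open scoped ENNReal NNReal

variable {d : ℕ}

/-- bootstrap hypothesis -/
def Hyp (d : ℕ) (z : ℝ≥0) (K W : ℝ) : Prop :=
  (∀ k : Fin d → ℝ, YY k * |CT (Gr z) k| ≤ K) ∧ ∀ x : X d, nsq x * Gr z x ≤ W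

lemma Hyp.mono {z : ℝ≥0} {K W K' W' : ℝ} (h : Hyp d z K W) (h1 : K ≤ K') (h2 : W ≤ W') :
    Hyp d z K' W' := ⟨fun k => (h.1 k).trans h1, fun x => (h.2 x).trans h2⟩

/-- weighted susceptibility -/
noncomputable def Ph (d : ℕ) (z : ℝ≥0) : ℝ≥0∞ := ∑' x : X d, G z x * (2 + nsq x)

lemma Ph_eq (z : ℝ≥0) :
    Ph d z = ∑' w : List (Lt d), (z : ℝ≥0∞) ^ w.length * I w * (2 + nsq (disp w)) :=
  tsum_pf z I fun x => 2 + nsq x

lemma nsq_disp (w : List (Lt d)) : nsq (disp w) ≤ d * w.length ^ 2 := by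
  have : ∀ j, (disp w j).natAbs ≤ w.length := fun j => by
    induction w with
    | nil => simp [disp_nil]
    | cons a w ih =>
      have : (step a j).natAbs ≤ 1 := by
        simp only [step, Pi.single_apply]; split_ifs <;> simp
      rw [disp_cons, Pi.add_apply, List.length_cons]
      omega
  refine (sum_le_sum fun j _ => Nat.pow_le_pow_left (this j) 2).trans (by simp)

lemma Ph_fin {z : ℝ≥0}
    (h : Summable fun n : ℕ => ((n : ℝ) + 1) ^ 3 * (tot (modelT d).ind n * (z : ℝ) ^ n)) :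
    Ph d z ≠ ⊤ := by
  rw [Ph_eq, tsum_words]
  refine ne_top_of_le_ne_top (h.mul_left (2 + d : ℝ)).tsum_ofReal_ne_top
    (ENNReal.tsum_le_tsum fun n => ?_)
  rw [tot, sum_mul, mul_sum, mul_sum, ENNReal.ofReal_sum_of_nonneg fun w _ => by
    have := (modelT d).ind_nonneg w; positivity]
  refine sum_le_sum fun w hw => ?_
  have h1 : (nsq (disp w) : ℝ) ≤ d * n ^ 2 := by
    rw [← mem_words.1 hw]; exact_mod_cast nsq_disp w
  have h0 := (modelT d).ind_nonneg w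
  rw [ENNReal.le_ofReal_iff_toReal_le (by have := I_ne_top w; finiteness) (by positivity),
    ENNReal.toReal_mul, ENNReal.toReal_mul, ENNReal.toReal_add (by simp) (by simp), I_toReal,
    mem_words.1 hw]
  simp only [ENNReal.toReal_pow, ENNReal.coe_toReal, ENNReal.toReal_ofNat, ENNReal.toReal_natCast]
  have h2 : 2 + (nsq (disp w) : ℝ) ≤ (2 + d) * (n + 1) ^ 3 := by
    have : (0 : ℝ) ≤ n := n.cast_nonneg
    have : (0 : ℝ) ≤ d := d.cast_nonneg
    nlinarith [mul_nonneg this (pow_nonneg ‹(0 : ℝ) ≤ n› 3), pow_nonneg ‹(0 : ℝ) ≤ n› 3,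
      mul_nonneg this (sq_nonneg (n : ℝ)), mul_nonneg this ‹(0 : ℝ) ≤ n›]
  calc _ ≤ (z : ℝ) ^ n * (modelT d).ind w * ((2 + d) * (n + 1) ^ 3) := by gcongr
    _ = _ := by ring

lemma Ph_parts {z : ℝ≥0} (h : Ph d z ≠ ⊤) :
    ∑' x : X d, G z x ≠ ⊤ ∧ ∑' x : X d, G z x * nsq x ≠ ⊤ :=
  ⟨ne_top_of_le_ne_top h (ENNReal.tsum_le_tsum fun x =>
      le_mul_of_one_le_right' (one_le_two.trans le_self_add)),
    ne_top_of_le_ne_top h (ENNReal.tsum_le_tsum fun x => mul_le_mul_right le_add_self _)⟩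

lemma G_mono {s t : ℝ≥0} (h : s ≤ t) (x : X d) : G s x ≤ G t x :=
  ENNReal.tsum_le_tsum fun w => by split_ifs; gcongr; exact le_rfl

lemma Ph_mono {s t : ℝ≥0} (h : s ≤ t) : Ph d s ≤ Ph d t :=
  ENNReal.tsum_le_tsum fun x => mul_le_mul_left (G_mono h x) _

lemma Ph_cont {a b : ℝ≥0} (h : Ph d b ≠ ⊤) :
    ContinuousOn (fun z => (Ph d z).toReal) (Set.Icc a b) := by
  have fin : ∀ (z : ℝ≥0) (w : List (Lt d)),
      (z : ℝ≥0∞) ^ w.length * I w * (2 + nsq (disp w)) ≠ ⊤ := fun z w => by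
    have := I_ne_top w; finiteness
  simp only [Ph_eq, ENNReal.tsum_toReal_eq (fin _)] at h ⊢
  refine continuousOn_tsum (fun w => ?_) (ENNReal.summable_toReal h) fun w s hs => ?_
  · simp only [ENNReal.toReal_mul, ENNReal.toReal_pow, ENNReal.coe_toReal]; fun_prop
  · rw [Real.norm_of_nonneg ENNReal.toReal_nonneg]
    exact ENNReal.toReal_mono (fin _ _) (by gcongr; exact hs.2)

lemma Ph_sum {z : ℝ≥0} (h : Ph d z ≠ ⊤) :
    HasSum (fun x : X d => Gr z x * (2 + nsq x)) (Ph d z).toReal := by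
  rw [Ph, ENNReal.tsum_toReal_eq (ENNReal.ne_top_of_tsum_ne_top h)]
  exact hasSum_cg (ENNReal.hasSum_toReal h) fun x => by
    rw [ENNReal.toReal_mul, ENNReal.toReal_add (by simp) (by simp)]; simp [Gr]

lemma close (hd : 0 < d) {s t : ℝ≥0} (h : s ≤ t) (ht : Ph d t ≠ ⊤) :
    (∀ k : Fin d → ℝ, abs (YY k * |CT (Gr t) k| - YY k * |CT (Gr s) k|) ≤
      (Ph d t).toReal - (Ph d s).toReal) ∧
    ∀ x : X d, |nsq x * Gr t x - nsq x * Gr s x| ≤ (Ph d t).toReal - (Ph d s).toReal := by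
  have hs := ne_top_of_le_ne_top ht (Ph_mono h)
  have st : Summable (Gr (d := d) t) := ENNReal.summable_toReal (Ph_parts ht).1
  have ss : Summable (Gr (d := d) s) := ENNReal.summable_toReal (Ph_parts hs).1
  have D : ∀ x : X d, 0 ≤ Gr t x - Gr s x := fun x => sub_nonneg.2
    (ENNReal.toReal_mono (ENNReal.ne_top_of_tsum_ne_top (Ph_parts ht).1 x) (G_mono h x))
  have S := (Ph_sum ht).sub (Ph_sum hs)
  simp only [← sub_mul] at S
  refine ⟨fun k => ?_, fun x => ?_⟩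
  · have a1 := abs_CT_le (st.sub ss) D k
    have a2 : CT (fun x => Gr t x - Gr s x) k = CT (Gr t) k - CT (Gr s) k := by
      simp only [CT, sub_mul]
      exact (summ_bdd st fun x => Real.abs_cos_le_one _).tsum_sub
        (summ_bdd ss fun x => Real.abs_cos_le_one _)
    have a3 := hasSum_le (fun x => mul_le_mul_of_nonneg_left
      (le_add_of_nonneg_right (Nat.cast_nonneg _)) (D x)) ((st.sub ss).hasSum.mul_right 2) S
    rw [← mul_sub, abs_mul, abs_of_nonneg (YY_nonneg k)]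
    rw [a2] at a1
    have a4 := mul_le_mul (YY_le hd k) ((abs_abs_sub_abs_le_abs_sub _ _).trans a1) (abs_nonneg _)
      zero_le_two
    linarith
  · rw [← mul_sub, abs_of_nonneg (mul_nonneg (Nat.cast_nonneg _) (D x))]
    refine le_trans ?_ (le_hasSum S x fun y _ => mul_nonneg (D y) (by positivity))
    nlinarith [D x]

lemma Hyp.move (hd : 0 < d) {s t : ℝ≥0} (hs : Ph d s ≠ ⊤) (ht : Ph d t ≠ ⊤) {K W ε : ℝ}
    (he : |(Ph d t).toReal - (Ph d s).toReal| ≤ ε) (h : Hyp d s K W) :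
    Hyp d t (K + ε) (W + ε) := by
  have := abs_le.1 he
  rcases le_total s t with u | u
  · obtain ⟨a, b⟩ := close hd u ht
    exact ⟨fun k => by linarith [h.1 k, abs_le.1 (a k)], fun x => by linarith [h.2 x, abs_le.1 (b x)]⟩
  · obtain ⟨a, b⟩ := close hd u hs
    exact ⟨fun k => by linarith [h.1 k, abs_le.1 (a k)], fun x => by linarith [h.2 x, abs_le.1 (b x)]⟩

lemma interval (hd : 0 < d) {a b : ℝ≥0} (hab : a ≤ b) (hb : Ph d b ≠ ⊤) {K W K' W' : ℝ}
    (hK : K' < K) (hW : W' < W) (h0 : Hyp d a K' W')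
    (hs : ∀ s ∈ Set.Icc a b, Hyp d s K W → Hyp d s K' W') : Hyp d b K' W' := by
  have fin : ∀ s ∈ Set.Icc a b, Ph d s ≠ ⊤ := fun s hs => ne_top_of_le_ne_top hb (Ph_mono hs.2)
  refine (isPreconnected_Icc (a := a) (b := b)).induction₂'
    (fun x y => Hyp d x K' W' → Hyp d y K' W') (fun x hx => ?_) (fun x y z _ _ _ h1 h2 h => h2 (h1 h))
    ⟨le_rfl, hab⟩ ⟨hab, le_rfl⟩ h0
  have e : 0 < min (K - K') (W - W') := lt_min (sub_pos.2 hK) (sub_pos.2 hW)
  filter_upwards [Metric.tendsto_nhds.1 (Ph_cont hb x hx) _ e, self_mem_nhdsWithin] with y h1 hy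
  rw [Real.dist_eq] at h1
  have m1 := min_le_left (K - K') (W - W')
  have m2 := min_le_right (K - K') (W - W')
  exact ⟨fun h => hs y hy ((h.move hd (fin x hx) (fin y hy) h1.le).mono (by linarith) (by linarith)),
    fun h => hs x hx ((h.move hd (fin y hy) (fin x hx) ((abs_sub_comm _ _).trans_le h1.le)).mono
      (by linarith) (by linarith))⟩

lemma transfer (C : Ct ℕ) (xl xh : ℕ)
    (h : (C.map (val ℚ)).ok (val ℚ xl) (val ℚ xh) ∧ (C.map (val ℚ)).okM (val ℚ xl) (val ℚ xh)) :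
    (C.map (val ℝ≥0)).ok (val ℝ≥0 xl) (val ℝ≥0 xh) ∧
      ((C.map (val ℝ≥0)).map NNReal.toReal).okM (val ℝ≥0 xl : ℝ≥0) (val ℝ≥0 xh : ℝ≥0) := by
  have e1 : ∀ n, ((val ℝ≥0 n : ℝ≥0) : ℝ) = (val ℚ n : ℚ) := fun n => by simp [val]
  have e2 : (C.map (val ℝ≥0)).map NNReal.toReal = (C.map (val ℚ)).map (Rat.castHom ℝ) := by
    simp only [Ct.map, e1, eq_ratCast]
  constructor
  · rw [Ct.ok_map NNReal.toRealHom fun a b => NNReal.coe_le_coe.symm]
    have := (Ct.ok_map (Rat.castHom ℝ) (fun a b => by simp) _ _ _).1 h.1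
    rw [← e2] at this
    simpa only [NNReal.coe_toRealHom, e1, eq_ratCast] using this
  · rw [e2, e1, e1]; exact Ct.okM_map _ _ _ h.2

lemma val_lt {a b : ℕ} (h : a < b) : val ℝ≥0 a < val ℝ≥0 b := by unfold val; gcongr

lemma val_le {a b : ℕ} (h : a ≤ b) : val ℝ≥0 a ≤ val ℝ≥0 b := by unfold val; gcongr

theorem run (hd : 5 ≤ d) {zc : ℝ} (fin : ∀ z : ℝ≥0, z < zc → Ph d z ≠ ⊤) {xl xh : ℕ}
    (hxl : val ℝ≥0 xl * (2 * d) ≤ 1) (hxh : 1 ≤ val ℝ≥0 xh * (2 * d)) (L : List (Ct ℕ)) :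
    ∀ t K W, chain xl xh t K W L = true →
      (∀ a : ℝ≥0, 2 * d * a = val ℝ≥0 t → a < zc → Hyp d a (val ℝ≥0 K) (val ℝ≥0 W)) →
      ∀ z : ℝ≥0, val ℝ≥0 t ≤ 2 * d * z → z < zc →
      100 * ∑' w : List (Lt d), (z : ℝ≥0∞) ^ w.length * (rh 0 w + rh 1 w) * (w.length - 1 : ℕ) ≤
        99 := by
  have hd0 : 0 < d := by omega
  have hd1 : (0 : ℝ≥0) < 2 * d := by positivity
  induction L with
  | nil => intro t K W h; simp [chain] at h
  | cons C L ih =>
    intro t K W h h0 z hz hzc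
    simp only [chain, Bool.and_eq_true, Bool.or_eq_true, decide_eq_true_eq] at h
    obtain ⟨⟨⟨rfl, c0, c1, c2⟩, c3⟩, c4⟩ := h
    obtain ⟨o1, o2⟩ := transfer C xl xh c3
    have st := fun (s : ℝ≥0) h1 h2 (h3 : s < zc) (h4 : Hyp d s _ _) =>
      Ct.step hd0 (ints_five hd) _ o1 o2 hxl hxh h1 h2 (Ph_parts (fin s h3)).1
        (Ph_parts (fin s h3)).2 h4.1 h4.2
    have e : ∀ u : ℝ≥0, 2 * d * (u / (2 * d)) = u := fun u => mul_div_cancel₀ u hd1.ne'
    have key : ∀ s : ℝ≥0, val ℝ≥0 C.lo ≤ 2 * d * s → 2 * d * s ≤ val ℝ≥0 C.hi → s < zc →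
        Hyp d s (val ℝ≥0 C.K) (val ℝ≥0 C.W) := by
      intro s h1 h2 h3
      have a1 : val ℝ≥0 C.lo / (2 * d) ≤ s := by rw [div_le_iff₀' hd1]; exact h1
      have k1 : max (val ℝ≥0 K : ℝ) (val ℝ≥0 C.Kn) < val ℝ≥0 C.K :=
        max_lt (val_lt c1) (not_le.1 o1.2.2.2.2.2.2.2.2.2.2.2.1)
      have k2 : max (val ℝ≥0 W : ℝ) (val ℝ≥0 C.Wn) < val ℝ≥0 C.W :=
        max_lt (val_lt c2) (not_le.1 o1.2.2.2.2.2.2.2.2.2.2.2.2)
      refine (interval hd0 a1 (fin s h3) k1 k2 ((h0 _ (e _) (lt_of_le_of_lt a1 h3)).mono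
        (le_max_left _ _) (le_max_left _ _)) fun r hr h4 => ?_).mono k1.le k2.le
      have := st r ((div_le_iff₀' hd1).1 hr.1) (le_trans (by gcongr; exact hr.2) h2)
        (lt_of_le_of_lt hr.2 h3) h4
      exact Hyp.mono ⟨this.1, this.2.1⟩ (le_max_right _ _) (le_max_right _ _)
    rcases le_total (2 * d * z) (val ℝ≥0 C.hi) with u | u
    · exact (st z hz u hzc (key z hz u hzc)).2.2.2.2
    have fin2 : ∀ a : ℝ≥0, 2 * d * a = val ℝ≥0 C.hi → a < zc →
        Hyp d a (val ℝ≥0 C.Ke) (val ℝ≥0 C.Wn) ∧ val ℝ≥0 C.hi < 1 + val ℝ≥0 C.pm := by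
      intro a h1 h2
      have := st a (h1 ▸ val_le c0) h1.le h2 (key a (h1 ▸ val_le c0) h1.le h2)
      exact ⟨⟨this.2.2.1 h1, this.2.1⟩, h1 ▸ this.2.2.2.1⟩
    rcases c4 with c4 | c4
    · have a1 : val ℝ≥0 C.hi / (2 * d) ≤ z := by rw [div_le_iff₀' hd1]; exact u
      have a2 := (fin2 _ (e _) (lt_of_le_of_lt a1 hzc)).2
      have a3 := val_le c4
      rw [show val ℝ≥0 (1000000 + C.pm) = 1 + val ℝ≥0 C.pm by simp [val, add_div]] at a3
      exact absurd a2 (not_lt.2 a3)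
    · exact ih _ _ _ c4 (fun a h1 h2 => (fin2 a h1 h2).1) z u hzc

lemma Hyp_zero (hd : 0 < d) : Hyp d 0 2 0 := by
  have e : Gr (d := d) 0 = dl 0 := funext fun x => by
    rw [Gr, G, pf_cons, I_good good_nil, dl]
    split_ifs <;> simp
  have e2 : ∀ k : Fin d → ℝ, CT (dl 0) k = 1 := fun k => by
    rw [CT, tsum_eq_single 0 fun x hx => by simp [dl, hx]]; simp [dl, th_zero]
  refine ⟨fun k => by simpa [e, e2] using YY_le hd k, fun x => ?_⟩
  rw [e, dl]
  split_ifs with h <;> simp [h, nsq_zero]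

theorem trails (hd : 5 ≤ d) :
    ∃ μ A : ℝ, 0 < μ ∧ 1 ≤ A ∧ Tendsto (fun n => tot (modelT d).ind n / μ ^ n) atTop (𝓝 A) := by
  have hd0 : 0 < d := by omega
  obtain ⟨zc, hzc0, -, hsub, hsum, hge⟩ := crit hd0 (niceT d)
  have fin : ∀ z : ℝ≥0, z < zc → Ph d z ≠ ⊤ := fun z hz => Ph_fin (hsub z z.2 hz)
  have h0 : ∀ a : ℝ≥0, 2 * d * a = val ℝ≥0 0 → a < zc →
      Hyp d a (val ℝ≥0 2000000) (val ℝ≥0 0) := fun a ha _ => by
    have : a = 0 := by simpa [val, hd0.ne'] using ha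
    subst this
    convert Hyp_zero hd0 <;> norm_num [val]
  have h1 : ∀ z : ℝ≥0, z < zc →
      100 * ∑' w : List (Lt d), (z : ℝ≥0∞) ^ w.length * (rh 0 w + rh 1 w) * (w.length - 1 : ℕ) ≤
        99 := fun z hz => by
    rcases hd.eq_or_lt with rfl | h
    · exact run hd fin (by norm_num [val]) (by norm_num [val]) _ _ _ _ chain5 h0 z (by simp [val]) hz
    · refine run hd fin (by simp [val]) ?_ _ _ _ _ chain6 h0 z (by simp [val]) hz
      have : (6 : ℝ≥0) ≤ d := by exact_mod_cast h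
      exact le_trans (by rw [← NNReal.coe_le_coe]; norm_num [val]) (mul_le_mul_right
        (mul_le_mul_right this 2) _)
  refine finish (ε := 99 / 100) hzc0 (by norm_num) hsum hge fun K => ?_
  have hc : Continuous fun z : ℝ =>
      ∑ n ∈ range K, ((n : ℝ) + 1) * (nrm (modelT d).rho (n + 2) * z ^ (n + 2)) := by fun_prop
  refine le_of_tendsto ((hc.tendsto zc).mono_left (nhdsWithin_le_nhds (s := Set.Iio zc))) ?_
  filter_upwards [Ico_mem_nhdsLT hzc0] with z hz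
  lift z to ℝ≥0 using hz.1
  have h2 := h1 z hz.2
  rw [tsum_words] at h2
  have h3 := (mul_le_mul_right (ENNReal.sum_le_tsum (range (K + 2))) 100).trans h2
  rw [sum_range_succ', sum_range_succ'] at h3
  replace h3 := (mul_le_mul_right (le_self_add.trans le_self_add) 100).trans h3
  have fin : ∀ w : List (Lt d),
      (z : ℝ≥0∞) ^ w.length * (rh 0 w + rh 1 w) * (w.length - 1 : ℕ) ≠ ⊤ := fun w => by
    have := rh_ne_top 0 w
    have := rh_ne_top 1 w
    finiteness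
  have h4 := ENNReal.toReal_mono (by simp) h3
  rw [ENNReal.toReal_mul, ENNReal.toReal_sum fun n _ => ENNReal.sum_ne_top.2 fun w _ => fin w] at h4
  rw [le_div_iff₀' (by norm_num)]
  refine le_trans (mul_le_mul (by simp) (sum_le_sum fun n _ => ?_) (sum_nonneg fun n _ => by
    have := nrm_nonneg (modelT d).rho (n + 2); positivity) ENNReal.toReal_nonneg)
    (h4.trans (by simp))
  rw [ENNReal.toReal_sum fun w _ => fin w, nrm, sum_mul, mul_sum]
  refine sum_le_sum fun w hw => ?_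
  rw [ENNReal.toReal_mul, ENNReal.toReal_mul, ENNReal.toReal_add (rh_ne_top _ _) (rh_ne_top _ _),
    mem_words.1 hw, rho_eq]
  have a1 : |(rh 0 w).toReal - (rh 1 w).toReal| ≤ (rh 0 w).toReal + (rh 1 w).toReal :=
    abs_sub_le_iff.2 ⟨by linarith [@ENNReal.toReal_nonneg (rh 1 w)],
      by linarith [@ENNReal.toReal_nonneg (rh 0 w)]⟩
  simp only [ENNReal.toReal_pow, ENNReal.coe_toReal, ENNReal.toReal_natCast]
  push_cast
  calc _ ≤ ((n : ℝ) + 1) * (((rh 0 w).toReal + (rh 1 w).toReal) * (z : ℝ) ^ (n + 2)) := by gcongr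
    _ = _ := by ring

theorem main5 (d : ℕ) (hd : 5 ≤ d) : ∃ lam G : ℝ, 0 < lam ∧ 0 < G ∧
    Tendsto (fun n : ℕ =>
      ((Set.ncard {ω : Fin (n + 1) → (Fin d → ℤ) |
          ω 0 = 0 ∧
          (∀ i : Fin n, ∑ k : Fin d, |ω i.succ k - ω i.castSucc k| = 1) ∧
          Function.Injective (fun i : Fin n => s(ω i.castSucc, ω i.succ))} : ℕ) : ℝ) /
        lam ^ n) atTop (𝓝 G) := by
  obtain ⟨lam, G, hl, hG, h2⟩ := trails hd
  refine ⟨lam, G, hl, by linarith, h2.congr fun n => ?_⟩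
  rw [count_eq (modelT d) n _ (goodT_iff n)]

end Pool.Agent.P.MP_2ab770_pr
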