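import Pool.Agent.P.MP_2ab770_pr.Boot

set_option autoImplicit false
set_option linter.dupNamespace false
set_option linter.unusedVariables false

namespace Pool.Agent.P.MP_2ab770_pr

open Finset Filter Topology

variable {d : ℕ}

/-- position after i steps -/
def pos (w : List (Lt d)) (i : ℕ) : Fin d → ℤ := disp (w.take i)

lemma pos_left (u v : List (Lt d)) {i : ℕ} (h : i ≤ u.length) : pos (u ++ v) i = pos u i := by
  rw [pos, pos, List.take_append_of_le_length h]

lemma pos_right (u v : List (Lt d)) (i : ℕ) : pos (u ++ v) (u.length + i) = disp u + pos v i := by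
  rw [pos, pos, List.take_length_add_append, disp_append]

lemma pos_length (w : List (Lt d)) : pos w w.length = disp w := by simp [pos]

lemma pos_zero (w : List (Lt d)) : pos w 0 = 0 := by simp [pos, disp_nil]

lemma pos_succ (w : List (Lt d)) {i : ℕ} (h : i < w.length) :
    pos w (i + 1) = pos w i + step w[i] := by
  rw [pos, pos, List.take_succ_eq_append_getElem h, disp_append, disp_cons, disp_nil, add_zero]

lemma pos_dropLast (u v : List (Lt d)) {i : ℕ} (h : i < u.length + v.length) :
    pos (u ++ v.dropLast) i = pos (u ++ v) i := by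
  by_cases hv : v = []
  · subst hv; simp
  · conv_rhs => rw [← List.dropLast_append_getLast hv, ← List.append_assoc]
    have := List.length_pos_iff.2 hv
    refine (pos_left _ _ ?_).symm
    simp only [List.length_append, List.length_dropLast]
    omega

lemma disp_map (σ : Equiv.Perm (Fin d)) (w : List (Lt d)) :
    disp (w.map (Prod.map σ id)) = disp w ∘ σ.symm := by
  induction w with
  | nil => funext j; simp [disp_nil]
  | cons a w ih =>
    rw [List.map_cons, disp_cons, disp_cons, ih]
    funext j
    simp only [Pi.add_apply, Function.comp, step, Prod.map_fst, Prod.map_snd, id, Pi.single_apply]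
    simp only [Equiv.symm_apply_eq]

lemma pos_map (σ : Equiv.Perm (Fin d)) (w : List (Lt d)) (i : ℕ) :
    pos (w.map (Prod.map σ id)) i = pos w i ∘ σ.symm := by
  rw [pos, pos, ← List.map_take, disp_map]

lemma comp_inj (σ : Equiv.Perm (Fin d)) {x y : Fin d → ℤ} : x ∘ σ.symm = y ∘ σ.symm ↔ x = y :=
  ⟨fun h => funext fun j => by simpa using congrFun h (σ j), fun h => h ▸ rfl⟩

lemma sum_disp_pos (w : List (Lt d)) (h : ∀ a ∈ w, a.2 = true) : ∑ j, disp w j = w.length := by
  induction w with
  | nil => simp [disp_nil]
  | cons a w ih =>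
    rw [disp_cons]
    simp only [Pi.add_apply, sum_add_distrib, ih fun b hb => h b (List.mem_cons_of_mem _ hb)]
    simp [step, h a List.mem_cons_self, add_comm]

/-- no repeated vertex -/
def goodS (w : List (Lt d)) : Prop := ∀ i j, i < j → j ≤ w.length → pos w i ≠ pos w j

/-- no repeated edge -/
def goodT (w : List (Lt d)) : Prop :=
  ∀ i j, i < j → j < w.length → s(pos w i, pos w (i + 1)) ≠ s(pos w j, pos w (j + 1))

lemma step_ne_zero (a : Lt d) : step a ≠ 0 := by
  intro h
  have := congrFun h a.1
  cases hb : a.2 <;> simp [step, hb] at this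

/-- self avoiding walks -/
def modelS (d : ℕ) : Model (Lt d) where
  good := goodS
  nil := fun i j h1 h2 => by simp at h2; omega
  single := fun a i j h1 h2 => by
    simp only [List.length_singleton] at h2
    obtain rfl : j = 1 := by omega
    obtain rfl : i = 0 := by omega
    rw [pos_succ _ (by simp), pos_zero, zero_add]
    exact (step_ne_zero _).symm
  left := fun u v h i j h1 h2 => by
    rw [← pos_left u v h2, ← pos_left u v (by omega : i ≤ u.length)]
    exact h i j h1 (by simp; omega)
  right := fun u v h i j h1 h2 e => by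
    refine h (u.length + i) (u.length + j) (by omega) (by simp; omega) ?_
    rw [pos_right, pos_right, e]

/-- self avoiding trails -/
def modelT (d : ℕ) : Model (Lt d) where
  good := goodT
  nil := fun i j h1 h2 => by simp at h2
  single := fun a i j h1 h2 => by
    simp only [List.length_singleton] at h2
    omega
  left := fun u v h i j h1 h2 => by
    rw [← pos_left u v h2.le, ← pos_left u v (by omega : i ≤ u.length),
      ← pos_left u v (by omega : i + 1 ≤ u.length), ← pos_left u v (by omega : j + 1 ≤ u.length)]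
    exact h i j h1 (by simp; omega)
  right := fun u v h i j h1 h2 e => by
    refine h (u.length + i) (u.length + j) (by omega) (by simp; omega) ?_
    rw [add_assoc, add_assoc, pos_right, pos_right, pos_right, pos_right]
    rw [Sym2.eq_iff] at e ⊢
    simpa using e

lemma goodS_pos (w : List (Lt d)) (h : ∀ a ∈ w, a.2 = true) : goodS w := by
  intro i j h1 h2 e
  have a1 := sum_disp_pos (w.take i) fun a ha => h a (List.mem_of_mem_take ha)
  have a2 := sum_disp_pos (w.take j) fun a ha => h a (List.mem_of_mem_take ha)
  rw [pos, pos] at e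
  rw [e, a2] at a1
  simp only [List.length_take, Nat.cast_inj] at a1
  omega

lemma goodT_of_goodS (w : List (Lt d)) (h : goodS w) : goodT w := by
  intro i j h1 h2 e
  rcases Sym2.eq_iff.1 e with ⟨e1, -⟩ | ⟨e1, -⟩
  · exact h i j h1 h2.le e1
  · exact h i (j + 1) (by omega) h2 e1

lemma niceS (d : ℕ) : Nice (modelS d) where
  revisit := fun u v ⟨hv, h1, h2, h3⟩ => by
    change goodS v at h1
    change goodS _ at h2
    change ¬ goodS _ at h3
    simp only [goodS, not_forall, not_not] at h3
    obtain ⟨i, j, hij, hj, e⟩ := h3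
    have hl := List.length_pos_iff.2 hv
    simp only [List.length_append] at hj
    have hjn : j = u.length + v.length := by
      by_contra hne
      refine h2 i j hij (by simp; omega) ?_
      rw [pos_dropLast u v (by omega), pos_dropLast u v (by omega), e]
    have hi : i < u.length := by
      by_contra hc
      refine h1 (i - u.length) v.length (by omega) le_rfl ?_
      rw [hjn, show i = u.length + (i - u.length) by omega, pos_right, pos_right] at e
      exact add_left_cancel e
    refine ⟨i, hi.le, ?_⟩
    rw [← pos_length, List.length_append, ← hjn, ← e, pos_left u v hi.le, pos]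
  perm := fun σ w => by
    change goodS _ ↔ goodS _
    simp only [goodS, pos_map, List.length_map, ne_eq, comp_inj]
  pos := goodS_pos

lemma niceT (d : ℕ) : Nice (modelT d) where
  revisit := fun u v ⟨hv, h1, h2, h3⟩ => by
    change goodT v at h1
    change goodT _ at h2
    change ¬ goodT _ at h3
    simp only [goodT, not_forall, not_not] at h3
    obtain ⟨i, j, hij, hj, e⟩ := h3
    have hl := List.length_pos_iff.2 hv
    simp only [List.length_append] at hj
    have hjn : j + 1 = u.length + v.length := by
      by_contra hne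
      refine h2 i j hij (by simp; omega) ?_
      rw [pos_dropLast u v (by omega), pos_dropLast u v (by omega), pos_dropLast u v (by omega),
        pos_dropLast u v (by omega), e]
    have hi : i < u.length := by
      by_contra hc
      refine h1 (i - u.length) (j - u.length) (by omega) (by omega) ?_
      rw [show j = u.length + (j - u.length) by omega, show i = u.length + (i - u.length) by omega,
        add_assoc, add_assoc, pos_right, pos_right, pos_right, pos_right, Sym2.eq_iff] at e
      rw [Sym2.eq_iff]
      simpa using e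
    rw [← pos_length, List.length_append, ← hjn]
    rcases Sym2.eq_iff.1 e with ⟨-, e1⟩ | ⟨e1, -⟩
    · exact ⟨i + 1, hi, by rw [← e1, pos_left u v hi, pos]⟩
    · exact ⟨i, hi.le, by rw [← e1, pos_left u v hi.le, pos]⟩
  perm := fun σ w => by
    change goodT _ ↔ goodT _
    simp only [goodT, pos_map, List.length_map, ne_eq, Sym2.eq_iff, comp_inj]
  pos := fun w h => goodT_of_goodS w (goodS_pos w h)

lemma sum_abs_step (a : Lt d) : ∑ k, |step a k| = 1 := by
  rw [sum_eq_single a.1]
  · cases hb : a.2 <;> simp [step, hb]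
  · intro j _ hj; simp [step, Pi.single_eq_of_ne hj]
  · simp

lemma exists_step {x : Fin d → ℤ} (h : ∑ k, |x k| = 1) : ∃ a : Lt d, step a = x := by
  obtain ⟨j, -, hj⟩ := exists_ne_zero_of_sum_ne_zero (h ▸ one_ne_zero : ∑ k, |x k| ≠ 0)
  rw [← add_sum_erase _ _ (mem_univ j)] at h
  have h0 : 0 ≤ ∑ k ∈ univ.erase j, |x k| := sum_nonneg fun _ _ => abs_nonneg _
  have h1 : 1 ≤ |x j| := Int.one_le_abs (abs_ne_zero.1 hj)
  have h2 : ∑ k ∈ univ.erase j, |x k| = 0 := by omega
  have h3 : |x j| = 1 := by omega
  rw [sum_eq_zero_iff_of_nonneg fun _ _ => abs_nonneg _] at h2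
  refine ⟨(j, decide (x j = 1)), funext fun k => ?_⟩
  by_cases hk : k = j
  · subst hk
    rcases abs_eq (by norm_num : (0 : ℤ) ≤ 1) |>.1 h3 with h | h <;> simp [step, h]
  · have := h2 k (mem_erase.2 ⟨hk, mem_univ _⟩)
    simp only [step, Pi.single_eq_of_ne hk]
    exact (abs_eq_zero.1 this).symm

open Classical in
lemma count_eq (M : Model (Lt d)) (n : ℕ) (C : (Fin (n + 1) → Fin d → ℤ) → Prop)
    (hC : ∀ w : List (Lt d), w.length = n → (M.good w ↔ C fun i => pos w i)) :
    ((Set.ncard {ω : Fin (n + 1) → (Fin d → ℤ) | ω 0 = 0 ∧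
      (∀ i : Fin n, ∑ k : Fin d, |ω i.succ k - ω i.castSucc k| = 1) ∧ C ω} : ℕ) : ℝ) =
      tot M.ind n := by
  have h1 : {ω : Fin (n + 1) → (Fin d → ℤ) | ω 0 = 0 ∧
      (∀ i : Fin n, ∑ k : Fin d, |ω i.succ k - ω i.castSucc k| = 1) ∧ C ω} =
      (fun (w : List (Lt d)) (i : Fin (n + 1)) => pos w i) ''
        ↑((words (Lt d) n).filter M.good) := by
    ext ω
    simp only [Set.mem_ofPred_eq, Set.mem_image, coe_filter, mem_words]
    constructor
    · rintro ⟨h0, hs, hc⟩
      choose a ha using fun i : Fin n => exists_step (x := ω i.succ - ω i.castSucc) (hs i)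
      have key : ∀ i : Fin (n + 1), pos (List.ofFn a) i = ω i := by
        intro i
        induction i using Fin.induction with
        | zero => simp [pos_zero, h0]
        | succ i ih =>
          rw [Fin.val_succ, pos_succ _ (by simp)]
          rw [Fin.val_castSucc] at ih
          rw [ih, List.getElem_ofFn]
          simp [ha]
      have e : (fun i : Fin (n + 1) => pos (List.ofFn a) i) = ω := funext key
      exact ⟨List.ofFn a, ⟨by simp, (hC _ (by simp)).2 (e ▸ hc)⟩, e⟩
    · rintro ⟨w, ⟨hl, hg⟩, rfl⟩
      refine ⟨by simp [pos_zero], fun i => ?_, (hC w hl).1 hg⟩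
      simp only [Fin.val_succ, Fin.val_castSucc]
      rw [pos_succ w (by rw [hl]; exact i.2)]
      simpa using sum_abs_step _
  rw [h1, Set.InjOn.ncard_image, Set.ncard_coe_finset, card_filter, tot]
  · push_cast; rfl
  · intro u hu v hv e
    simp only [coe_filter, mem_words, Set.mem_ofPred_eq] at hu hv
    have e' : ∀ i, i ≤ n → pos u i = pos v i := fun i hi =>
      congrFun e ⟨i, Nat.lt_succ_of_le hi⟩
    refine List.ext_getElem (hu.1.trans hv.1.symm) fun i h1 h2 => ?_
    have a1 := pos_succ u h1
    have a2 := pos_succ v h2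
    rw [e' i (by omega), e' (i + 1) (by omega), a2] at a1
    exact step_injective (add_left_cancel a1).symm

lemma goodS_iff (n : ℕ) (w : List (Lt d)) (hl : w.length = n) :
    (modelS d).good w ↔ Function.Injective fun i : Fin (n + 1) => pos w i := by
  change goodS w ↔ _
  constructor
  · intro h i j e
    by_contra hne
    rcases lt_or_gt_of_ne (Fin.val_ne_of_ne hne) with h1 | h1
    · exact h i j h1 (by have := j.2; omega) e
    · exact h j i h1 (by have := i.2; omega) e.symm
  · intro h i j h1 h2 e
    have := @h ⟨i, by omega⟩ ⟨j, by omega⟩ e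
    simp only [Fin.mk.injEq] at this
    omega

lemma goodT_iff (n : ℕ) (w : List (Lt d)) (hl : w.length = n) :
    (modelT d).good w ↔ (fun ω : Fin (n + 1) → Fin d → ℤ =>
      Function.Injective fun i : Fin n => s(ω i.castSucc, ω i.succ)) fun i => pos w i := by
  change goodT w ↔ Function.Injective fun i : Fin n => s(pos w i, pos w (i + 1))
  constructor
  · intro h i j e
    by_contra hne
    rcases lt_or_gt_of_ne (Fin.val_ne_of_ne hne) with h1 | h1
    · exact h i j h1 (by have := j.2; omega) e
    · exact h j i h1 (by have := i.2; omega) e.symm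
  · intro h i j h1 h2 e
    have := @h ⟨i, by omega⟩ ⟨j, by omega⟩ e
    simp only [Fin.mk.injEq] at this
    omega

theorem main : ∃ d₀ : ℕ, ∀ d : ℕ, d₀ ≤ d →
    ∃ μ lam A G : ℝ, 0 < μ ∧ 0 < lam ∧ 0 < A ∧ 0 < G ∧
      Tendsto (fun n : ℕ =>
        ((Set.ncard {ω : Fin (n + 1) → (Fin d → ℤ) |
            ω 0 = 0 ∧
            (∀ i : Fin n, ∑ k : Fin d, |ω i.succ k - ω i.castSucc k| = 1) ∧
            Function.Injective ω} : ℕ) : ℝ) / μ ^ n) atTop (𝓝 A) ∧
      Tendsto (fun n : ℕ =>
        ((Set.ncard {ω : Fin (n + 1) → (Fin d → ℤ) |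
            ω 0 = 0 ∧
            (∀ i : Fin n, ∑ k : Fin d, |ω i.succ k - ω i.castSucc k| = 1) ∧
            Function.Injective (fun i : Fin n => s(ω i.castSucc, ω i.succ))} : ℕ) : ℝ) /
          lam ^ n) atTop (𝓝 G) := by
  obtain ⟨d0, h⟩ := general
  refine ⟨d0, fun d hd => ?_⟩
  obtain ⟨μ, A, hμ, hA, h1⟩ := h d hd _ (niceS d)
  obtain ⟨lam, G, hl, hG, h2⟩ := h d hd _ (niceT d)
  refine ⟨μ, lam, A, G, hμ, hl, by linarith, by linarith, h1.congr fun n => ?_,
    h2.congr fun n => ?_⟩
  · rw [count_eq (modelS d) n Function.Injective (goodS_iff n)]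
  · rw [count_eq (modelT d) n _ (goodT_iff n)]

end Pool.Agent.P.MP_2ab770_pr
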