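import Pool.Agent.P.MP_2ab770_pr.L1

set_option autoImplicit false
set_option linter.dupNamespace false
set_option linter.unusedVariables false
set_option linter.unusedSectionVars false

namespace Pool.Agent.P.MP_2ab770_pr

open Finset Filter Topology MeasureTheory Real

variable {d : ℕ} {f h : X d → ℝ}

/-- invariance under lattice symmetries -/
def Sy (h : X d → ℝ) : Prop := ∀ (S : Sym d) x, h (S.T x) = h x

lemma Sy.neg (hs : Sy h) (x : X d) : h (-x) = h x := hs (negS d) x

lemma hasSum_cg {ι R : Type} [AddCommMonoid R] [TopologicalSpace R] {u v : ι → R}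
    {a : R} (h : HasSum u a) (e : ∀ i, v i = u i) : HasSum v a := (funext e : v = u) ▸ h

lemma abs_sin_nat (n : ℕ) (t : ℝ) : |sin (n * t)| ≤ n * |sin t| := by
  induction n with
  | zero => simp
  | succ n ih =>
    push_cast
    rw [add_mul, one_mul, sin_add]
    refine (abs_add_le _ _).trans ?_
    rw [abs_mul, abs_mul, add_mul, one_mul]
    exact add_le_add ((mul_le_of_le_one_right (abs_nonneg _) (abs_cos_le_one _)).trans ih)
      (mul_le_of_le_one_left (abs_nonneg _) (abs_cos_le_one _))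

lemma abs_sin_int (n : ℤ) (t : ℝ) : |sin (n * t)| ≤ |(n : ℝ)| * |sin t| := by
  obtain ⟨m, rfl | rfl⟩ := n.eq_nat_or_neg
  · simpa using abs_sin_nat m t
  · simpa using abs_sin_nat m t

lemma one_sub_cos_int (n : ℤ) (t : ℝ) : 1 - cos (n * t) ≤ (n : ℝ) ^ 2 * (1 - cos t) := by
  have h1 := abs_sin_int n (t / 2)
  have h2 : sin (n * (t / 2)) ^ 2 ≤ (n : ℝ) ^ 2 * sin (t / 2) ^ 2 := by
    rw [← mul_pow, sq_le_sq, abs_mul]; exact h1
  have h3 := cos_two_mul (n * (t / 2))
  have h4 := cos_two_mul (t / 2)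
  rw [show 2 * (n * (t / 2)) = n * t by ring] at h3
  rw [show 2 * (t / 2) = t by ring] at h4
  rw [h3, h4]
  nlinarith [sin_sq_add_cos_sq (n * (t / 2)), sin_sq_add_cos_sq (t / 2)]

/-- phase in one coordinate -/
noncomputable def ph (k : Fin d → ℝ) (x : X d) (j : Fin d) : ℝ := x j * (2 * π * k j)

lemma prod_formula (hf : Summable f) (k : Fin d → ℝ) (s : Finset (Fin d))
    (hs : ∀ j ∈ s, ∀ x, f (flipT j x) = f x) :
    HasSum (fun x => (f x : ℂ) * ∏ j, if j ∈ s then (cos (ph k x j) : ℂ) else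
      Complex.exp (ph k x j * Complex.I)) (FT f k) := by
  induction s using Finset.induction_on with
  | empty =>
    refine hasSum_cg (FT_summ hf k).of_norm.hasSum fun x => ?_
    congr 1
    simp only [notMem_empty, if_false, chr, th, ph]
    rw [← Complex.exp_sum, ← sum_mul]
    push_cast
    congr 2
    exact sum_congr rfl fun j _ => by ring
  | insert m s hm ih =>
    have h1 := ih fun j hj => hs j (mem_insert_of_mem hj)
    have h2 := (flipS m).T.toEquiv.hasSum_iff.2 h1
    have h3 := (h1.add h2).div_const 2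
    rw [add_self_div_two] at h3
    refine hasSum_cg h3 fun x => ?_
    change _ = (_ + (f (flipT m x) : ℂ) * ∏ j, if j ∈ s then (cos (ph k (flipT m x) j) : ℂ) else
      Complex.exp (ph k (flipT m x) j * Complex.I)) / 2
    rw [hs m (mem_insert_self _ _), ← mul_prod_erase _ _ (mem_univ m),
      ← mul_prod_erase _ _ (mem_univ m), ← mul_prod_erase _ _ (mem_univ m)]
    have e1 : ∏ j ∈ univ.erase m, (if j ∈ insert m s then (cos (ph k x j) : ℂ) else
        Complex.exp (ph k x j * Complex.I)) = ∏ j ∈ univ.erase m,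
        (if j ∈ s then (cos (ph k x j) : ℂ) else Complex.exp (ph k x j * Complex.I)) :=
      prod_congr rfl fun j hj => by simp [ne_of_mem_erase hj]
    have e2 : ∏ j ∈ univ.erase m, (if j ∈ s then (cos (ph k (flipT m x) j) : ℂ) else
        Complex.exp (ph k (flipT m x) j * Complex.I)) = ∏ j ∈ univ.erase m,
        (if j ∈ s then (cos (ph k x j) : ℂ) else Complex.exp (ph k x j * Complex.I)) :=
      prod_congr rfl fun j hj => by simp [ph, flipT, ne_of_mem_erase hj]
    have e3 : ph k (flipT m x) m = - ph k x m := by simp [ph, flipT]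
    rw [e1, e2, e3, if_pos (mem_insert_self _ _), if_neg hm, if_neg hm, Complex.exp_mul_I,
      Complex.exp_mul_I]
    push_cast
    rw [Complex.cos_neg, Complex.sin_neg]
    ring

lemma CT_prod (hh : Summable h) (hs : Sy h) (k : Fin d → ℝ) :
    HasSum (fun x => h x * ∏ j, cos (ph k x j)) (CT h k) := by
  have := prod_formula hh k univ fun j _ x => hs (flipS j) x
  rw [FT_even hh hs.neg] at this
  simp only [mem_univ, if_true] at this
  exact_mod_cast this

lemma ST_prod (j : Fin d) (hh : Summable (Dj j h)) (hs : Sy h) (k : Fin d → ℝ) :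
    HasSum (fun x => h x * (x j * (sin (ph k x j) * ∏ i ∈ univ.erase j, cos (ph k x i))))
      (ST (Dj j h) k) := by
  have h1 := prod_formula hh k (univ.erase j) fun i hi x => by
    have := hs (flipS i) x
    change h (flipT i x) = _ at this
    simp [Dj, this, flipT, (ne_of_mem_erase hi).symm]
  have h2 := Complex.hasSum_im h1
  rw [FT_eq hh] at h2
  simp only [Complex.add_im, Complex.ofReal_im, Complex.mul_im, Complex.ofReal_re, Complex.I_im,
    Complex.I_re, mul_one, mul_zero, add_zero, zero_add, zero_mul] at h2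
  refine hasSum_cg h2 fun x => ?_
  rw [← mul_prod_erase _ _ (mem_univ j), if_neg (notMem_erase j _),
    prod_congr rfl fun i hi => if_pos hi, ← Complex.ofReal_prod, Complex.im_mul_ofReal,
    Complex.exp_ofReal_mul_I_im, Dj]
  ring

lemma moment_eq (h2 : Summable fun x => (nsq x : ℝ) * h x) (hs : Sy h) (j : Fin d) :
    HasSum (fun x => h x * (x j : ℝ) ^ 2) ((∑' x, (nsq x : ℝ) * h x) / d) := by
  have e : ∀ i, (fun x => h x * (x i : ℝ) ^ 2) = Dj i (Dj i h) := fun i => by
    funext x; simp only [Dj]; ring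
  have h1 : ∀ i, ∑' x, Dj i (Dj i h) x = ∑' x, Dj j (Dj j h) x := by
    intro i
    rw [← (swapS i j).T.toEquiv.tsum_eq]
    refine tsum_congr fun x => ?_
    have := hs (swapS i j) x
    simp only [Dj, AddEquiv.toEquiv_eq_coe, EquivLike.coe_coe, this]
    simp [swapS]
  have hd : (0 : ℝ) < d := by exact_mod_cast j.pos
  rw [sum_DDj, Summable.tsum_finsetSum fun i _ => summ_DDj h2 i, sum_congr rfl fun i _ => h1 i, e]
  simp only [sum_const, card_univ, Fintype.card_fin, nsmul_eq_mul]
  rw [mul_div_cancel_left₀ _ hd.ne']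
  exact (summ_DDj h2 j).hasSum

lemma one_sub_prod_le {ι : Type} [DecidableEq ι] (s : Finset ι) (c : ι → ℝ) (hc : ∀ i, |c i| ≤ 1) :
    1 - ∏ i ∈ s, c i ≤ ∑ i ∈ s, (1 - c i) := by
  induction s using Finset.induction_on with
  | empty => simp
  | insert m s hm ih =>
    rw [prod_insert hm, sum_insert hm]
    have h1 : ∏ i ∈ s, c i ≤ 1 := (le_abs_self _).trans (by
      rw [abs_prod]; exact prod_le_one (fun _ _ => abs_nonneg _) fun i _ => hc i)
    have h2 := (abs_le.1 (hc m)).2
    nlinarith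

lemma abs_prod_le_one {ι : Type} (s : Finset ι) (c : ι → ℝ) (hc : ∀ i, |c i| ≤ 1) :
    |∏ i ∈ s, c i| ≤ 1 := by
  rw [abs_prod]; exact prod_le_one (fun _ _ => abs_nonneg _) fun i _ => hc i

lemma sum_sin_sq_le {ι : Type} [DecidableEq ι] (s : Finset ι) (a : ι → ℝ) (h0 : ∀ i, 0 ≤ a i)
    (h1 : ∀ i, a i ≤ 1) : ∑ j ∈ s, (1 - a j) * ∏ i ∈ s.erase j, a i ≤ 1 - ∏ i ∈ s, a i := by
  induction s using Finset.induction_on with
  | empty => simp
  | insert m s hm ih =>
    rw [prod_insert hm, sum_insert hm, erase_insert hm]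
    have : ∑ j ∈ s, (1 - a j) * ∏ i ∈ (insert m s).erase j, a i ≤
        ∑ j ∈ s, (1 - a j) * ∏ i ∈ s.erase j, a i := by
      refine sum_le_sum fun j hj => mul_le_mul_of_nonneg_left ?_ (sub_nonneg.2 (h1 j))
      rw [erase_insert_of_ne (fun e : m = j => hm (e ▸ hj)), prod_insert fun e => hm (mem_of_mem_erase e)]
      exact mul_le_of_le_one_left (prod_nonneg fun _ _ => h0 _) (h1 m)
    linarith

lemma R_nonneg (hh : Summable h) (h0 : ∀ x, 0 ≤ h x) (k : Fin d → ℝ) : CT h k ≤ ∑' x, h x :=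
  (summ_bdd hh fun x => abs_cos_le_one _).tsum_le_tsum
    (fun x => mul_le_of_le_one_right (h0 x) (cos_le_one _)) hh

lemma abs_CT_le (hh : Summable h) (h0 : ∀ x, 0 ≤ h x) (k : Fin d → ℝ) : |CT h k| ≤ ∑' x, h x := by
  rw [← Real.norm_eq_abs, CT]
  refine tsum_of_norm_bounded hh.hasSum fun x => ?_
  rw [norm_mul, Real.norm_of_nonneg (h0 x)]
  exact mul_le_of_le_one_right (h0 x) (abs_cos_le_one _)

lemma R_le (hh : Summable h) (h2 : Summable fun x => (nsq x : ℝ) * h x) (h0 : ∀ x, 0 ≤ h x)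
    (hs : Sy h) (k : Fin d → ℝ) : ∑' x, h x - CT h k ≤ (∑' x, (nsq x : ℝ) * h x) * YY k := by
  have a1 := hh.hasSum.sub (CT_prod hh hs k)
  have a2 := hasSum_sum (s := univ) fun j _ => (moment_eq h2 hs j).mul_left (yy (k j))
  refine (hasSum_le (fun x => ?_) a1 a2).trans (le_of_eq ?_)
  · calc _ = h x * (1 - ∏ j, cos (ph k x j)) := by ring
      _ ≤ h x * ∑ j, (x j : ℝ) ^ 2 * yy (k j) :=
        mul_le_mul_of_nonneg_left ((one_sub_prod_le _ _ fun j => abs_cos_le_one _).trans
          (sum_le_sum fun j _ => one_sub_cos_int _ _)) (h0 x)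
      _ = _ := by rw [mul_sum]; exact sum_congr rfl fun j _ => by ring
  · rw [← sum_mul, YY]; ring

lemma S_le (h2 : Summable fun x => (nsq x : ℝ) * h x) (h0 : ∀ x, 0 ≤ h x)
    (hs : Sy h) (k : Fin d → ℝ) (j : Fin d) :
    |ST (Dj j h) k| ≤ |sin (2 * π * k j)| * ((∑' x, (nsq x : ℝ) * h x) / d) := by
  rw [← (ST_prod j (summ_Dj h2 j) hs k).tsum_eq, ← Real.norm_eq_abs]
  refine tsum_of_norm_bounded ((moment_eq h2 hs j).mul_left _) fun x => ?_
  rw [norm_mul, norm_mul, norm_mul, Real.norm_of_nonneg (h0 x)]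
  simp only [Real.norm_eq_abs]
  have a1 := abs_prod_le_one (univ.erase j) (fun i => cos (ph k x i)) fun i => abs_cos_le_one _
  have a2 := abs_sin_int (x j) (2 * π * k j)
  calc _ ≤ h x * (|(x j : ℝ)| * ((|(x j : ℝ)| * |sin (2 * π * k j)|) * 1)) := by
        have := h0 x
        gcongr
        exact a2
    _ = _ := by rw [← sq_abs (x j : ℝ)]; ring

lemma cs_tsum {ι : Type} {w a b : ι → ℝ} {A B C : ℝ} (h0 : ∀ i, 0 ≤ w i)
    (hA : HasSum (fun i => w i * a i ^ 2) A) (hB : HasSum (fun i => w i * b i ^ 2) B)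
    (hC : HasSum (fun i => w i * (a i * b i)) C) : C ^ 2 ≤ A * B := by
  have : ∀ t : ℝ, 0 ≤ A * (t * t) + (2 * C) * t + B := by
    intro t
    have h1 := ((hA.mul_right (t * t)).add (hC.mul_left (2 * t))).add hB
    have h2 := h1.nonneg fun i => by
      have := mul_nonneg (h0 i) (sq_nonneg (a i * t + b i))
      nlinarith
    linarith
  have := discrim_le_zero this
  rw [discrim] at this
  nlinarith

lemma S_sq_le (hh : Summable h) (h2 : Summable fun x => (nsq x : ℝ) * h x) (h0 : ∀ x, 0 ≤ h x)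
    (hs : Sy h) (k : Fin d → ℝ) : ∑ j, ST (Dj j h) k ^ 2 ≤
      2 * ((∑' x, (nsq x : ℝ) * h x) / d) * (∑' x, h x - CT h k) := by
  set s := (∑' x, (nsq x : ℝ) * h x) / d
  have hs0 : 0 ≤ s := div_nonneg (tsum_nonneg fun x => mul_nonneg (Nat.cast_nonneg _) (h0 x))
    (Nat.cast_nonneg _)
  set b : Fin d → X d → ℝ := fun j x => sin (ph k x j) * ∏ i ∈ univ.erase j, cos (ph k x i)
  have hb : ∀ j, Summable fun x => h x * b j x ^ 2 := fun j => summ_bdd hh fun x => by
    rw [abs_pow]
    refine pow_le_one₀ (abs_nonneg _) ?_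
    rw [abs_mul]
    exact mul_le_one₀ (abs_sin_le_one _) (abs_nonneg _)
      (abs_prod_le_one _ _ fun i => abs_cos_le_one _)
  have a1 : ∀ j, ST (Dj j h) k ^ 2 ≤ s * ∑' x, h x * b j x ^ 2 := fun j =>
    cs_tsum h0 (moment_eq h2 hs j) (hb j).hasSum (ST_prod j (summ_Dj h2 j) hs k)
  have a2 := hasSum_sum (s := univ) fun j _ => (hb j).hasSum
  have a3 := (hh.hasSum.sub (CT_prod hh hs k)).mul_left 2
  have a4 := hasSum_le (fun x => ?_) a2 a3
  · refine (sum_le_sum fun j _ => a1 j).trans ?_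
    rw [← mul_sum]
    nlinarith
  · have c1 := sum_sin_sq_le univ (fun i => cos (ph k x i) ^ 2) (fun _ => sq_nonneg _)
      fun _ => cos_sq_le_one _
    rw [prod_pow] at c1
    have c2 : ∑ j, b j x ^ 2 ≤ 2 * (1 - ∏ j, cos (ph k x j)) := by
      refine le_trans (le_of_eq (sum_congr rfl fun j _ => ?_)) (c1.trans ?_)
      · simp only [b]; rw [mul_pow, prod_pow, sin_sq]
      · nlinarith [sq_nonneg (1 - ∏ j, cos (ph k x j))]
    rw [← mul_sum]
    nlinarith [mul_le_mul_of_nonneg_left c2 (h0 x)]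

/-- nearest neighbour kernel -/
def nn (x : X d) : ℝ := ∑ a : Lt d, dl (step a) x

lemma summ_nn_mul (u : X d → ℝ) : HasSum (fun x => nn x * u x) (∑ a : Lt d, u (step a)) := by
  simp only [nn, sum_mul]
  refine hasSum_sum fun a _ => ?_
  convert hasSum_single (f := fun x => dl (step a) x * u x) (step a) (fun x hx => by simp [dl, hx])
  simp [dl]

lemma summ_nn : Summable (nn (d := d)) := by simpa using (summ_nn_mul (d := d) fun _ => 1).summable

lemma nsq_nn : (fun x : X d => (nsq x : ℝ) * nn x) = nn := by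
  funext x
  simp only [nn, mul_sum]
  refine sum_congr rfl fun a _ => ?_
  unfold dl
  split_ifs with h
  · simp [h, nsq_step]
  · simp

/-- Fourier transform of the step distribution -/
noncomputable def DD (k : Fin d → ℝ) : ℝ := 1 - YY k

lemma sum_cos_step (hd : 0 < d) (k : Fin d → ℝ) :
    ∑ a : Lt d, cos (th k (step a)) = 2 * d * DD k := by
  have hd0 : (0 : ℝ) < d := by exact_mod_cast hd
  have : ∀ a : Lt d, cos (th k (step a)) = 1 - yy (k a.1) := fun a => by
    linarith [cos_step k a]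
  simp only [this, Fintype.sum_prod_type, sum_const, card_univ, Fintype.card_bool, nsmul_eq_mul,
    DD, YY, ← mul_sum, sum_sub_distrib, Fintype.card_fin, Fintype.card_prod]
  field_simp
  push_cast; ring

lemma CT_nn (hd : 0 < d) (k : Fin d → ℝ) : CT nn k = 2 * d * DD k := by
  rw [CT, (summ_nn_mul _).tsum_eq, sum_cos_step hd]

lemma nn_neg (x : X d) : nn (-x) = nn x := by
  rw [nn, nn, ← sum_iv]
  refine sum_congr rfl fun a _ => ?_
  simp [dl, step_iv]

lemma FT_nn (hd : 0 < d) (k : Fin d → ℝ) : FT nn k = (2 * d * DD k : ℝ) := by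
  rw [FT_even summ_nn nn_neg, CT_nn hd]

lemma ST_nn (k : Fin d → ℝ) (j : Fin d) : ST (Dj j nn) k = 2 * sin (2 * π * k j) := by
  have := (summ_nn_mul fun x : X d => x j * sin (th k x)).tsum_eq
  rw [ST]
  simp only [Dj, mul_assoc, mul_left_comm _ (nn _)]
  rw [this, Fintype.sum_prod_type, sum_eq_single j]
  · have e : ∀ b : Bool, th k (step (j, b)) = (if b then 1 else -1 : ℤ) * (2 * π * k j) := by
      intro b
      rw [th, sum_eq_single j]
      · cases b <;> simp [step]
      · intro i _ hi; simp [step, Pi.single_eq_of_ne hi]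
      · simp
    simp only [e]
    simp [step]
    ring_nf
  · intro i _ hi; simp [step, Pi.single_eq_of_ne hi.symm]
  · simp

lemma rc_nn (u : X d → ℝ) (y : X d) : rc nn u y = ∑ a : Lt d, u (y - step a) :=
  (summ_nn_mul fun x => u (y - x)).tsum_eq

end Pool.Agent.P.MP_2ab770_pr
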