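import Pool.Agent.P.MP_2ab770_pr.Words
import Pool.Agent.P.MP_2ab770_pr.Fourier

set_option autoImplicit false
set_option linter.dupNamespace false
set_option linter.unusedVariables false

namespace Pool.Agent.P.MP_2ab770_pr

open Finset Filter Topology MeasureTheory Real

variable {d : ℕ}

/-- letters -/
abbrev Lt (d : ℕ) := Fin d × Bool

/-- unit step of a letter -/
def step (a : Lt d) : Fin d → ℤ := Pi.single a.1 (if a.2 then 1 else -1)

/-- displacement of a word -/
def disp (w : List (Lt d)) : Fin d → ℤ := (w.map step).sum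

lemma disp_nil : disp ([] : List (Lt d)) = 0 := by simp [disp]

lemma disp_cons (a : Lt d) (w : List (Lt d)) : disp (a :: w) = step a + disp w := by simp [disp]

lemma disp_append (u v : List (Lt d)) : disp (u ++ v) = disp u + disp v := by simp [disp]

lemma step_injective : Function.Injective (step : Lt d → Fin d → ℤ) := by
  rintro ⟨i, b⟩ ⟨j, c⟩ h
  have h1 := congrFun h i
  simp only [step, Pi.single_eq_same] at h1
  by_cases hij : i = j
  · subst hij
    simp only [Pi.single_eq_same] at h1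
    cases b <;> cases c <;> simp_all
  · rw [Pi.single_eq_of_ne hij] at h1
    cases b <;> simp at h1

lemma cos_step (k : Fin d → ℝ) (a : Lt d) : 1 - cos (th k (step a)) = yy (k a.1) := by
  have : th k (step a) = 2 * π * ((if a.2 then 1 else -1 : ℤ) : ℝ) * k a.1 := by
    rw [th, sum_eq_single a.1]
    · simp [step]
    · intro j _ hj; simp [step, Pi.single_eq_of_ne hj]
    · simp
  rw [this, yy]
  cases a.2 <;> simp

/-- Fourier coefficient -/
noncomputable def hat (φ : List (Lt d) → ℝ) (n : ℕ) (k : Fin d → ℝ) : ℂ :=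
  ∑ w ∈ words (Lt d) n, (φ w : ℂ) * chr k (disp w)

/-- total variation -/
noncomputable def nrm (φ : List (Lt d) → ℝ) (n : ℕ) : ℝ := ∑ w ∈ words (Lt d) n, |φ w|

/-- total mass -/
noncomputable def tot (φ : List (Lt d) → ℝ) (n : ℕ) : ℝ := ∑ w ∈ words (Lt d) n, φ w

/-- concatenation product -/
noncomputable def cat (φ ψ : List (Lt d) → ℝ) (w : List (Lt d)) : ℝ :=
  ssum w (fun u v => φ u * ψ v)

/-- generating function -/
noncomputable def Tr (φ : List (Lt d) → ℝ) (z : ℝ) (k : Fin d → ℝ) : ℂ :=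
  ∑' n, hat φ n k * (z : ℂ) ^ n

/-- absolute summability -/
def Summ (φ : List (Lt d) → ℝ) (z : ℝ) : Prop := Summable fun n => nrm φ n * z ^ n

lemma nrm_nonneg (φ : List (Lt d) → ℝ) (n : ℕ) : 0 ≤ nrm φ n :=
  sum_nonneg fun _ _ => abs_nonneg _

lemma abs_tot_le (φ : List (Lt d) → ℝ) (n : ℕ) : |tot φ n| ≤ nrm φ n := abs_sum_le_sum_abs _ _

lemma norm_hat_le (φ : List (Lt d) → ℝ) (n : ℕ) (k : Fin d → ℝ) : ‖hat φ n k‖ ≤ nrm φ n := by
  refine (norm_sum_le _ _).trans (le_of_eq ?_)
  refine sum_congr rfl fun w _ => ?_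
  rw [norm_mul, norm_chr]; simp

lemma hat_zero_k (φ : List (Lt d) → ℝ) (n : ℕ) : hat φ n 0 = (tot φ n : ℂ) := by
  simp [hat, tot, chr_zero_left]

lemma continuous_hat (φ : List (Lt d) → ℝ) (n : ℕ) : Continuous (hat φ n) :=
  continuous_finsetSum _ fun w _ => continuous_const.mul (continuous_chr _)

lemma cat_nonneg {φ ψ : List (Lt d) → ℝ} (h1 : ∀ w, 0 ≤ φ w) (h2 : ∀ w, 0 ≤ ψ w) (w : List (Lt d)) :
    0 ≤ cat φ ψ w := by
  unfold cat ssum
  exact sum_nonneg fun _ _ => mul_nonneg (h1 _) (h2 _)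

lemma hat_cat (φ ψ : List (Lt d) → ℝ) (n : ℕ) (k : Fin d → ℝ) :
    hat (cat φ ψ) n k = ∑ i ∈ range (n + 1), hat φ i k * hat ψ (n - i) k := by
  have : hat (cat φ ψ) n k = ∑ w ∈ words (Lt d) n,
      ssum w (fun u v => ((φ u : ℂ) * chr k (disp u)) * ((ψ v : ℂ) * chr k (disp v))) := by
    refine sum_congr rfl fun w _ => ?_
    rw [ssum_congr (g := fun u v => ((φ u * ψ v : ℝ) : ℂ) * chr k (disp w))]
    · simp [cat, ssum, sum_mul]
    · intro u v h
      rw [← h, disp_append, chr_add]; push_cast; ring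
  rw [this, sum_words_ssum]
  refine sum_congr rfl fun i _ => ?_
  rw [hat, hat, sum_mul_sum]

lemma tot_cat (φ ψ : List (Lt d) → ℝ) (n : ℕ) :
    tot (cat φ ψ) n = ∑ i ∈ range (n + 1), tot φ i * tot ψ (n - i) := by
  have := hat_cat φ ψ n 0
  simp only [hat_zero_k] at this
  exact_mod_cast this

lemma nrm_cat_le (φ ψ : List (Lt d) → ℝ) (n : ℕ) :
    nrm (cat φ ψ) n ≤ ∑ i ∈ range (n + 1), nrm φ i * nrm ψ (n - i) := by
  have := tot_cat (fun w => |φ w|) (fun w => |ψ w|) n
  refine le_trans ?_ (le_of_eq this)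
  refine sum_le_sum fun w _ => ?_
  unfold cat ssum
  refine (abs_sum_le_sum_abs _ _).trans (le_of_eq ?_)
  exact sum_congr rfl fun i _ => abs_mul _ _

lemma norm_term_le {φ : List (Lt d) → ℝ} {z : ℝ} (hz : 0 ≤ z) (n : ℕ) (k : Fin d → ℝ) :
    ‖hat φ n k * (z : ℂ) ^ n‖ ≤ nrm φ n * z ^ n := by
  rw [norm_mul, norm_pow, Complex.norm_real, Real.norm_of_nonneg hz]
  exact mul_le_mul_of_nonneg_right (norm_hat_le _ _ _) (by positivity)

lemma Summ.norm {φ : List (Lt d) → ℝ} {z : ℝ} (hz : 0 ≤ z) (h : Summ φ z) (k : Fin d → ℝ) :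
    Summable fun n => ‖hat φ n k * (z : ℂ) ^ n‖ :=
  Summable.of_nonneg_of_le (fun _ => norm_nonneg _) (fun n => norm_term_le hz n k) h

lemma Summ.cat {φ ψ : List (Lt d) → ℝ} {z : ℝ} (hz : 0 ≤ z) (h1 : Summ φ z) (h2 : Summ ψ z) :
    Summ (cat φ ψ) z := by
  have a1 : Summable fun n => ‖nrm φ n * z ^ n‖ := Summable.norm h1
  have a2 : Summable fun n => ‖nrm ψ n * z ^ n‖ := Summable.norm h2
  have := (summable_norm_sum_mul_range_of_summable_norm a1 a2).of_norm
  refine Summable.of_nonneg_of_le (fun n => mul_nonneg (nrm_nonneg _ _) (by positivity))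
    (fun n => ?_) this
  refine (mul_le_mul_of_nonneg_right (nrm_cat_le φ ψ n) (by positivity)).trans (le_of_eq ?_)
  rw [sum_mul]
  refine sum_congr rfl fun i hi => ?_
  have := mem_range.1 hi
  conv_lhs => rw [show n = i + (n - i) by omega, pow_add]
  rw [show i + (n - i) - i = n - i by omega]; ring

lemma Tr_cat {φ ψ : List (Lt d) → ℝ} {z : ℝ} (hz : 0 ≤ z) (h1 : Summ φ z) (h2 : Summ ψ z)
    (k : Fin d → ℝ) : Tr (cat φ ψ) z k = Tr φ z k * Tr ψ z k := by
  rw [Tr, Tr, Tr, tsum_mul_tsum_eq_tsum_sum_range_of_summable_norm (h1.norm hz k) (h2.norm hz k)]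
  refine tsum_congr fun n => ?_
  rw [hat_cat, sum_mul]
  refine sum_congr rfl fun i hi => ?_
  have := mem_range.1 hi
  conv_lhs => rw [show n = i + (n - i) by omega, pow_add]
  rw [show i + (n - i) - i = n - i by omega]; ring

lemma Tr_zero_k (φ : List (Lt d) → ℝ) (z : ℝ) :
    Tr φ z 0 = ((∑' n, tot φ n * z ^ n : ℝ) : ℂ) := by
  rw [Complex.ofReal_tsum, Tr]
  refine tsum_congr fun n => ?_
  rw [hat_zero_k]; push_cast; rfl

/-- mass at a given endpoint -/
noncomputable def loc (φ : List (Lt d) → ℝ) (n : ℕ) (x : Fin d → ℤ) : ℝ :=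
  ∑ w ∈ words (Lt d) n, if disp w = x then φ w else 0

lemma loc_eq (φ : List (Lt d) → ℝ) (n : ℕ) (x : Fin d → ℤ) :
    (loc φ n x : ℂ) = ∫ k, hat φ n k * chr k (-x) ∂(mu d) := by
  have : ∀ k, hat φ n k * chr k (-x) =
      ∑ w ∈ words (Lt d) n, (φ w : ℂ) * chr k (disp w + -x) := by
    intro k; rw [hat, sum_mul]
    exact sum_congr rfl fun w _ => by rw [chr_add, mul_assoc]
  simp_rw [this]
  rw [integral_finsetSum _ (fun w _ => (integrable_chr _).const_mul _), loc]
  push_cast
  refine sum_congr rfl fun w _ => ?_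
  rw [integral_const_mul, integral_chr]
  by_cases h : disp w = x
  · simp [h]
  · have : disp w + -x ≠ 0 := fun h' => h (by rwa [add_neg_eq_zero] at h')
    simp [h, this]

lemma loc_sum_le {φ : List (Lt d) → ℝ} {z : ℝ} (hz : 0 ≤ z) (h0 : ∀ w, 0 ≤ φ w) (h : Summ φ z)
    (x : Fin d → ℤ) (K : ℕ) :
    ∑ n ∈ range K, loc φ n x * z ^ n ≤ ∫ k, ‖Tr φ z k‖ ∂(mu d) := by
  have hb : ∀ n k, ‖hat φ n k * (z : ℂ) ^ n * chr k (-x)‖ ≤ nrm φ n * z ^ n := by
    intro n k; rw [norm_mul, norm_chr, mul_one]; exact norm_term_le hz n k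
  have hi : ∀ n, Integrable (fun k => hat φ n k * (z : ℂ) ^ n * chr k (-x)) (mu d) := fun n =>
    integrable_of_bdd (((continuous_hat φ n).mul continuous_const).mul (continuous_chr _)) _ (hb n)
  have hs : Summable fun n => ∫ k, ‖hat φ n k * (z : ℂ) ^ n * chr k (-x)‖ ∂(mu d) := by
    refine Summable.of_nonneg_of_le (fun n => integral_nonneg fun _ => norm_nonneg _)
      (fun n => ?_) h
    have := integral_mono (hi n).norm (integrable_const (nrm φ n * z ^ n)) (hb n)
    simpa using this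
  have hh := hasSum_integral_of_summable_integral_norm hi hs
  have e1 : ∀ n, ∫ k, hat φ n k * (z : ℂ) ^ n * chr k (-x) ∂(mu d) =
      ((loc φ n x * z ^ n : ℝ) : ℂ) := by
    intro n
    push_cast
    rw [loc_eq, ← integral_mul_const]
    congr 1; funext k; ring
  simp_rw [e1, tsum_mul_right] at hh
  have h2 := Complex.hasSum_re hh
  simp only [Complex.ofReal_re] at h2
  have h3 : ∑ n ∈ range K, loc φ n x * z ^ n ≤ _ :=
    sum_le_hasSum _ (fun n _ => mul_nonneg (sum_nonneg fun w _ => by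
      split_ifs; exacts [h0 w, le_rfl]) (by positivity)) h2
  refine h3.trans ((Complex.re_le_norm _).trans ((norm_integral_le_integral_norm _).trans
    (le_of_eq ?_)))
  congr 1; funext k
  rw [norm_mul, norm_chr, mul_one, Tr]

/-- indicator of one letter words -/
def one1 (w : List (Lt d)) : ℝ := if w.length = 1 then 1 else 0

lemma one1_nonneg (w : List (Lt d)) : 0 ≤ one1 w := by unfold one1; split_ifs <;> norm_num

lemma hat_one1_ne {n : ℕ} (hn : n ≠ 1) (k : Fin d → ℝ) : hat one1 n k = 0 :=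
  sum_eq_zero fun w hw => by simp [one1, mem_words.1 hw, hn]

lemma summ_one1 (z : ℝ) : Summ (one1 : List (Lt d) → ℝ) z := by
  refine summable_of_ne_finset_zero (s := {1}) fun n hn => ?_
  have hn' : n ≠ 1 := by simpa using hn
  have : nrm (one1 : List (Lt d) → ℝ) n = 0 :=
    sum_eq_zero fun w hw => by simp [one1, mem_words.1 hw, hn']
  simp [this]

lemma Tr_one1 (z : ℝ) (k : Fin d → ℝ) : Tr one1 z k = (∑ a : Lt d, chr k (step a)) * z := by
  rw [Tr, tsum_eq_single 1 (fun n hn => by rw [hat_one1_ne hn, zero_mul]), pow_one, hat,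
    sum_words_succ]
  simp [sum_words_zero, one1, disp_cons, disp_nil]

lemma integrable_sq_one1 (z : ℝ) : Integrable (fun k => ‖Tr one1 z k‖ ^ 2) (mu d) := by
  simp_rw [Tr_one1]
  refine integrable_of_bdd ?_ ((Fintype.card (Lt d) * |z|) ^ 2) fun k => ?_
  · exact (((continuous_finsetSum _ fun a _ => continuous_chr _).mul continuous_const).norm).pow 2
  · rw [Real.norm_of_nonneg (by positivity), norm_mul, Complex.norm_real, Real.norm_eq_abs]
    gcongr
    refine (norm_sum_le _ _).trans (le_of_eq ?_)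
    simp [norm_chr]

lemma integral_sq_one1 (z : ℝ) : ∫ k, ‖Tr one1 z k‖ ^ 2 ∂(mu d) = 2 * d * z ^ 2 := by
  have e : ∀ k : Fin d → ℝ, ((‖Tr one1 z k‖ ^ 2 : ℝ) : ℂ) =
      ∑ a : Lt d, ∑ b : Lt d, chr k (step a + -step b) * (z : ℂ) ^ 2 := by
    intro k
    push_cast
    rw [← Complex.mul_conj', Tr_one1, map_mul, map_sum, Complex.conj_ofReal]
    simp_rw [conj_chr, chr_add, ← sum_mul]
    rw [← sum_mul_sum]; ring
  have : ((∫ k, ‖Tr one1 z k‖ ^ 2 ∂(mu d) : ℝ) : ℂ) = ((2 * d * z ^ 2 : ℝ) : ℂ) := by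
    rw [← integral_complex_ofReal]
    simp_rw [e]
    rw [integral_finsetSum _ (fun a _ => integrable_finsetSum _
      fun b _ => (integrable_chr _).mul_const _)]
    have h2 : ∀ a : Lt d, ∫ k, ∑ b : Lt d, chr k (step a + -step b) * (z : ℂ) ^ 2 ∂(mu d) =
        (z : ℂ) ^ 2 := by
      intro a
      rw [integral_finsetSum _ (fun b _ => (integrable_chr _).mul_const _), sum_eq_single a]
      · rw [integral_mul_const, integral_chr]; simp
      · intro b _ hb
        rw [integral_mul_const, integral_chr, if_neg, zero_mul]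
        intro h
        rw [add_neg_eq_zero] at h
        exact hb (step_injective h).symm
      · simp
    simp_rw [h2]
    simp only [sum_const, card_univ, Fintype.card_prod, Fintype.card_fin, Fintype.card_bool,
      nsmul_eq_mul]
    push_cast; ring
  exact_mod_cast this

lemma norm_one_sub_chr_sq (k : Fin d → ℝ) (x : Fin d → ℤ) :
    ‖1 - chr k x‖ ^ 2 = 2 * (1 - cos (th k x)) := by
  rw [Complex.sq_norm, Complex.normSq_apply]
  have h1 : (chr k x).im = sin (th k x) := by simp [chr, Complex.exp_ofReal_mul_I_im]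
  simp only [Complex.sub_re, Complex.sub_im, re_chr, h1, Complex.one_re, Complex.one_im]
  nlinarith [sin_sq_add_cos_sq (th k x)]

lemma one_sub_cos_le (k : Fin d → ℝ) (w : List (Lt d)) :
    1 - cos (th k (disp w)) ≤ w.length * (w.map fun a => yy (k a.1)).sum := by
  induction w with
  | nil => simp [disp_nil, th_zero]
  | cons a w ih =>
    have h1 := norm_one_sub_chr_sq k (disp (a :: w))
    have h2 := norm_one_sub_chr_sq k (disp w)
    have h3 := norm_one_sub_chr_sq k (step a)
    rw [cos_step] at h3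
    have h4 : ‖1 - chr k (disp (a :: w))‖ ≤ ‖1 - chr k (step a)‖ + ‖1 - chr k (disp w)‖ := by
      rw [disp_cons, chr_add]
      calc _ = ‖(1 - chr k (step a)) + chr k (step a) * (1 - chr k (disp w))‖ := by
            congr 1; ring
        _ ≤ _ := by
            refine (norm_add_le _ _).trans (le_of_eq ?_)
            rw [norm_mul, norm_chr, one_mul]
    simp only [List.length_cons, List.map_cons, List.sum_cons]
    set S := (w.map fun a => yy (k a.1)).sum
    set x := ‖1 - chr k (disp w)‖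
    set b := ‖1 - chr k (step a)‖
    have hx : 0 ≤ x := norm_nonneg _
    have hb : 0 ≤ b := norm_nonneg _
    have h5 : ‖1 - chr k (disp (a :: w))‖ ^ 2 ≤ (b + x) ^ 2 :=
      pow_le_pow_left₀ (norm_nonneg _) h4 2
    have hS : 0 ≤ S := List.sum_nonneg fun y hy => by
      obtain ⟨a, _, rfl⟩ := List.mem_map.1 hy; exact yy_nonneg _
    have hx2 : x ^ 2 ≤ 2 * (w.length * S) := by linarith
    have key : 2 * x * b ≤ 2 * S + w.length * b ^ 2 := by
      rcases Nat.eq_zero_or_pos w.length with h | h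
      · rw [h] at hx2
        have hx3 : x ^ 2 = 0 := le_antisymm (by simpa using hx2) (sq_nonneg x)
        have : x = 0 := by simpa using hx3
        rw [this, h]; simpa using hS
      · have hn : (0 : ℝ) < w.length := by exact_mod_cast h
        by_contra hc
        push Not at hc
        nlinarith [sq_nonneg (x - w.length * b), mul_lt_mul_of_pos_left hc hn]
    push_cast
    nlinarith

lemma sum_words_map {α : Type} [Fintype α] [DecidableEq α] (σ : α ≃ α) (n : ℕ) (g : List α → ℝ) :
    ∑ w ∈ words α n, g (w.map σ) = ∑ w ∈ words α n, g w := by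
  induction n generalizing g with
  | zero => simp [sum_words_zero]
  | succ n ih =>
    rw [sum_words_succ, sum_words_succ, ← Equiv.sum_comp σ (fun a => ∑ w ∈ words α n, g (a :: w))]
    refine sum_congr rfl fun a _ => ?_
    simp only [List.map_cons]
    exact ih (fun w => g (σ a :: w))

/-- number of letters along an axis -/
def cnt (j : Fin d) (w : List (Lt d)) : ℝ := (w.map fun a => if a.1 = j then (1 : ℝ) else 0).sum

lemma map_sum_eq (f : Fin d → ℝ) (w : List (Lt d)) :
    (w.map fun a => f a.1).sum = ∑ j, f j * cnt j w := by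
  induction w with
  | nil => simp [cnt]
  | cons a w ih =>
    simp only [List.map_cons, List.sum_cons, ih, cnt, mul_add, sum_add_distrib]
    simp

lemma sym_bound (hd : 0 < d) (φ : List (Lt d) → ℝ)
    (hφ : ∀ (σ : Equiv.Perm (Fin d)) (w : List (Lt d)), φ (w.map (Prod.map σ id)) = φ w)
    (m : ℕ) (k : Fin d → ℝ) :
    ∑ w ∈ words (Lt d) m, |φ w| * (1 - cos (th k (disp w))) ≤ m ^ 2 * nrm φ m * YY k := by
  set N : Fin d → ℝ := fun j => ∑ w ∈ words (Lt d) m, |φ w| * cnt j w with hN
  have hNeq : ∀ i j, N i = N j := by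
    intro i j
    simp only [hN]
    rw [← sum_words_map ((Equiv.swap i j).prodCongr (Equiv.refl Bool)) m]
    refine sum_congr rfl fun w _ => ?_
    have e : (((Equiv.swap i j).prodCongr (Equiv.refl Bool)) : Lt d → Lt d) =
        Prod.map (Equiv.swap i j) id := by
      funext a; simp
    rw [e, hφ]
    congr 1
    simp only [cnt, List.map_map]
    congr 1
    refine List.map_congr_left fun a _ => ?_
    simp only [Function.comp, Prod.map_fst]
    simp only [Equiv.swap_apply_eq_iff, Equiv.swap_apply_left]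
  have hsum : ∑ j, N j = m * nrm φ m := by
    simp only [hN]
    rw [sum_comm, nrm, mul_sum]
    refine sum_congr rfl fun w hw => ?_
    have := map_sum_eq (fun _ => 1) w
    simp only [one_mul] at this
    rw [← mul_sum, ← this]
    simp [mem_words.1 hw, mul_comm]
  have hd0 : (0 : ℝ) < d := by exact_mod_cast hd
  have hNj : ∀ j, N j = m * nrm φ m / d := by
    intro j
    rw [← hsum, sum_congr rfl (fun i _ => hNeq i j)]
    simp; field_simp
  calc _ ≤ ∑ w ∈ words (Lt d) m, |φ w| * (m * ∑ j, yy (k j) * cnt j w) := by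
        refine sum_le_sum fun w hw => mul_le_mul_of_nonneg_left ?_ (abs_nonneg _)
        have := one_sub_cos_le k w
        rwa [mem_words.1 hw, map_sum_eq (fun j => yy (k j))] at this
    _ = m * ∑ j, yy (k j) * N j := by
        simp only [hN, mul_sum]
        rw [sum_comm]
        refine sum_congr rfl fun j _ => sum_congr rfl fun w _ => by ring
    _ = _ := by
        simp_rw [hNj]
        rw [← sum_mul, YY]; ring

end Pool.Agent.P.MP_2ab770_pr
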