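import Mathlib

set_option autoImplicit false
set_option linter.dupNamespace false
set_option linter.unusedVariables false

namespace Pool.Agent.P.MP_2ab770_pr

open Finset

section words
variable {α : Type} [Fintype α] [DecidableEq α]

/-- all words of length n -/
def words (α : Type) [Fintype α] [DecidableEq α] : ℕ → Finset (List α)
  | 0 => {[]}
  | n + 1 => ((univ : Finset α) ×ˢ words α n).image (fun p => p.1 :: p.2)

lemma mem_words {n : ℕ} {w : List α} : w ∈ words α n ↔ w.length = n := by
  induction n generalizing w with
  | zero => simp [words]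
  | succ n ih =>
    cases w with
    | nil => simp [words]
    | cons a w => simp [words, ih]

lemma sum_words_zero {R : Type} [AddCommMonoid R] (f : List α → R) :
    ∑ w ∈ words α 0, f w = f [] := by simp [words]

lemma sum_words_succ {R : Type} [AddCommMonoid R] (n : ℕ) (f : List α → R) :
    ∑ w ∈ words α (n + 1), f w = ∑ a : α, ∑ w ∈ words α n, f (a :: w) := by
  rw [words, sum_image, sum_product]
  rintro ⟨a, u⟩ _ ⟨b, v⟩ _ h
  simpa using h

lemma sum_words_add {R : Type} [AddCommMonoid R] (m n : ℕ) (f : List α → R) :
    ∑ w ∈ words α (m + n), f w = ∑ u ∈ words α m, ∑ v ∈ words α n, f (u ++ v) := by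
  induction m generalizing f with
  | zero => simp [sum_words_zero]
  | succ m ih =>
    rw [show m + 1 + n = (m + n) + 1 by ring, sum_words_succ, sum_words_succ]
    refine sum_congr rfl fun a _ => ?_
    rw [ih]; simp

lemma card_words (n : ℕ) : (words α n).card = Fintype.card α ^ n := by
  induction n with
  | zero => simp [words]
  | succ n ih =>
    rw [card_eq_sum_ones, sum_words_succ]
    simp [ih, pow_succ, mul_comm]

end words

section ssum
variable {α : Type} {R : Type} [AddCommMonoid R]

/-- sum over all splittings of a word in two -/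
def ssum (w : List α) (f : List α → List α → R) : R :=
  ∑ i ∈ range (w.length + 1), f (w.take i) (w.drop i)

lemma ssum_nil (f : List α → List α → R) : ssum [] f = f [] [] := by simp [ssum]

lemma ssum_cons (a : α) (w : List α) (f : List α → List α → R) :
    ssum (a :: w) f = f [] (a :: w) + ssum w (fun u v => f (a :: u) v) := by
  simp only [ssum, List.length_cons]
  rw [sum_range_succ' _ (w.length + 1)]
  simp [add_comm]

lemma ssum_congr {w : List α} {f g : List α → List α → R}
    (h : ∀ u v, u ++ v = w → f u v = g u v) : ssum w f = ssum w g :=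
  sum_congr rfl fun i _ => h _ _ (List.take_append_drop i w)

lemma ssum_add (w : List α) (f g : List α → List α → R) :
    ssum w (fun u v => f u v + g u v) = ssum w f + ssum w g := by
  simp [ssum, sum_add_distrib]

lemma ssum_assoc (w : List α) (f : List α → List α → List α → R) :
    ssum w (fun u v => ssum u (fun x y => f x y v)) =
      ssum w (fun u v => ssum v (fun x y => f u x y)) := by
  induction w generalizing f with
  | nil => simp [ssum_nil]
  | cons a w ih =>
    rw [ssum_cons, ssum_cons, ssum_nil, ssum_cons]
    simp_rw [ssum_cons]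
    rw [ssum_add, ih (fun x y v => f (a :: x) y v), add_assoc]

lemma ssum_le [PartialOrder R] [IsOrderedAddMonoid R] {w : List α} {f g : List α → List α → R}
    (h : ∀ u v, u ++ v = w → f u v ≤ g u v) : ssum w f ≤ ssum w g :=
  sum_le_sum fun i _ => h _ _ (List.take_append_drop i w)

lemma sum_words_ssum [Fintype α] [DecidableEq α] (n : ℕ) (f : List α → List α → R) :
    ∑ w ∈ words α n, ssum w f =
      ∑ i ∈ range (n + 1), ∑ u ∈ words α i, ∑ v ∈ words α (n - i), f u v := by
  have h1 : ∑ w ∈ words α n, ssum w f =
      ∑ w ∈ words α n, ∑ i ∈ range (n + 1), f (w.take i) (w.drop i) :=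
    sum_congr rfl fun w hw => by rw [ssum, mem_words.1 hw]
  rw [h1, sum_comm]
  refine sum_congr rfl fun i hi => ?_
  have hi' : i ≤ n := Nat.lt_succ_iff.1 (mem_range.1 hi)
  conv_lhs => rw [show n = i + (n - i) by omega]
  rw [sum_words_add]
  refine sum_congr rfl fun u hu => sum_congr rfl fun v _ => ?_
  have := mem_words.1 hu
  rw [List.take_left' this, List.drop_left' this]

end ssum

/-- a factor closed set of words containing all letters -/
structure Model (α : Type) where
  good : List α → Prop
  nil : good []
  single : ∀ a, good [a]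
  left : ∀ u v, good (u ++ v) → good u
  right : ∀ u v, good (u ++ v) → good v

namespace Model
variable {α : Type} (M : Model α)

/-- v is a good word which first breaks goodness after u at its last letter -/
def F (u v : List α) : Prop := v ≠ [] ∧ M.good v ∧ M.good (u ++ v.dropLast) ∧ ¬ M.good (u ++ v)

open Classical in
/-- indicator of good words -/
noncomputable def ind (w : List α) : ℝ := if M.good w then 1 else 0

open Classical in
/-- expansion coefficients -/
noncomputable def P : List α → List α → ℝ
  | u, w => (if w = [] then 1 else 0) -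
      ∑ i : Fin (w.length + 1),
        if _h : M.F u (w.take i) then P (w.take i) (w.drop i) else 0
termination_by _ w => w.length
decreasing_by
  have h1 := _h.1
  have h2 : (i : ℕ) ≠ 0 := by
    intro h; apply h1; simp [h]
  have h3 : w ≠ [] := by
    intro h; apply h1; simp [h]
  have h4 := List.length_pos_iff.2 h3
  simp only [List.length_drop]
  omega

open Classical in
lemma P_eq (u w : List α) : M.P u w = (if w = [] then 1 else 0) -
    ssum w (fun v r => if M.F u v then M.P v r else 0) := by
  rw [P, ssum, ← Fin.sum_univ_eq_sum_range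
    (fun i => if M.F u (w.take i) then M.P (w.take i) (w.drop i) else 0)]
  simp only [dite_eq_ite]

lemma ind_nonneg (w : List α) : 0 ≤ M.ind w := by
  unfold ind; split_ifs <;> norm_num

lemma ind_le_one (w : List α) : M.ind w ≤ 1 := by
  unfold ind; split_ifs <;> norm_num

lemma ind_good {w : List α} (h : M.good w) : M.ind w = 1 := by simp [ind, h]

lemma ind_not {w : List α} (h : ¬ M.good w) : M.ind w = 0 := by simp [ind, h]

lemma ind_append_le (u v : List α) : M.ind (u ++ v) ≤ M.ind u * M.ind v := by
  by_cases h : M.good (u ++ v)
  · rw [M.ind_good h, M.ind_good (M.left _ _ h), M.ind_good (M.right _ _ h)]; norm_num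
  · rw [M.ind_not h]; exact mul_nonneg (M.ind_nonneg _) (M.ind_nonneg _)

open Classical in
lemma first_break (u w : List α) (hw : M.good w) (k : ℕ) (hk : k ≤ w.length) :
    ∑ i ∈ range (k + 1), (if M.F u (w.take i) then (1 : ℝ) else 0) =
      M.ind u - M.ind (u ++ w.take k) := by
  induction k with
  | zero => simp [F]
  | succ k ih =>
    rw [sum_range_succ, ih (by omega)]
    have hd : (w.take (k + 1)).dropLast = w.take k := by
      rw [List.dropLast_eq_take, List.take_take]
      congr 1
      simp only [List.length_take]
      omega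
    have hne : w.take (k + 1) ≠ [] := by
      intro h
      have := congrArg List.length h
      simp only [List.length_take, List.length_nil] at this
      omega
    have hg : M.good (w.take (k + 1)) := by
      apply M.left _ (w.drop (k + 1)); rwa [List.take_append_drop]
    have hsplit : u ++ w.take (k + 1) = (u ++ w.take k) ++ (w.take (k + 1)).drop k := by
      rw [List.append_assoc]
      congr 1
      conv_lhs => rw [← List.take_append_drop k (w.take (k + 1))]
      rw [List.take_take]; congr 2; omega
    by_cases h1 : M.good (u ++ w.take (k + 1))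
    · have h2 : M.good (u ++ w.take k) := M.left _ _ (hsplit ▸ h1)
      rw [M.ind_good h1, M.ind_good h2, if_neg (fun h => h.2.2.2 h1)]; ring
    · by_cases h2 : M.good (u ++ w.take k)
      · rw [M.ind_not h1, M.ind_good h2, if_pos ⟨hne, hg, hd ▸ h2, h1⟩]; ring
      · rw [M.ind_not h1, M.ind_not h2, if_neg (fun h => h2 (hd ▸ h.2.2.1))]; ring

open Classical in
lemma ind_append_eq (n : ℕ) : ∀ w : List α, w.length ≤ n → ∀ u, M.good u →
    M.ind (u ++ w) = ssum w (fun x y => M.P u x * M.ind y) := by
  induction n using Nat.strong_induction_on with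
  | _ n ih =>
  intro w hw u hu
  have e1 : ssum w (fun x y => M.P u x * M.ind y) =
      ssum w (fun x y => (if x = [] then M.ind y else 0) +
        ssum x (fun v r => - ((if M.F u v then M.P v r else 0) * M.ind y))) := by
    refine ssum_congr fun x y _ => ?_
    rw [P_eq, sub_mul, sub_eq_add_neg]
    congr 1
    · split_ifs <;> simp
    · simp [ssum, sum_mul]
  have e2 : ssum w (fun x y => (if x = [] then M.ind y else 0)) = M.ind w := by
    cases w with
    | nil => simp [ssum_nil]
    | cons a w => rw [ssum_cons]; simp [ssum]
  have e3 : ssum w (fun v y => ssum y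
      (fun r t => - ((if M.F u v then M.P v r else 0) * M.ind t))) =
      ssum w (fun v _ => - ((if M.F u v then (1 : ℝ) else 0) * M.ind w)) := by
    refine ssum_congr fun v y hvy => ?_
    by_cases hF : M.F u v
    · simp only [if_pos hF, one_mul]
      have hl : y.length < n := by
        have := congrArg List.length hvy
        have h2 := List.length_pos_iff.2 hF.1
        simp only [List.length_append] at this
        omega
      rw [← hvy, ih y.length hl y le_rfl v hF.2.1]
      simp [ssum]
    · simp [if_neg hF, ssum]
  rw [e1, ssum_add, e2, ssum_assoc w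
    (fun v r t => - ((if M.F u v then M.P v r else 0) * M.ind t)), e3]
  by_cases hg : M.good w
  · have := M.first_break u w hg w.length le_rfl
    simp only [ssum, sum_neg_distrib, ← sum_mul]
    rw [this, M.ind_good hg, M.ind_good hu]; simp
  · rw [M.ind_not hg, M.ind_not (fun h => hg (M.right _ _ h))]
    simp [ssum]

/-- the irreducible coefficient of a word -/
noncomputable def rho : List α → ℝ
  | [] => 0
  | a :: w => M.P [a] w

open Classical in
lemma ind_eq (w : List α) :
    M.ind w = (if w = [] then 1 else 0) + ssum w (fun x y => M.rho x * M.ind y) := by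
  cases w with
  | nil => simp [ssum_nil, rho, M.ind_good M.nil]
  | cons a w =>
    rw [ssum_cons]
    have := M.ind_append_eq w.length w le_rfl [a] (M.single a)
    simp only [List.singleton_append] at this
    simp [rho, this]

lemma P_nil (u : List α) : M.P u [] = 1 := by
  rw [P_eq]; simp [ssum_nil, F]

lemma rho_single (a : α) : M.rho [a] = 1 := by simp [rho, P_nil]

/-- symmetry -/
lemma P_map (σ : α → α) (hσ : ∀ w, M.good (w.map σ) ↔ M.good w) (n : ℕ) :
    ∀ w : List α, w.length ≤ n → ∀ u, M.P (u.map σ) (w.map σ) = M.P u w := by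
  induction n using Nat.strong_induction_on with
  | _ n ih =>
  intro w hw u
  have hF : ∀ v, M.F (u.map σ) (v.map σ) ↔ M.F u v := by
    intro v
    simp only [F, ← List.map_dropLast, ← List.map_append, hσ, ne_eq, List.map_eq_nil_iff]
  rw [P_eq, P_eq M u w]
  congr 1
  · simp
  · simp only [ssum, List.length_map]
    refine sum_congr rfl fun i _ => ?_
    rw [← List.map_take, ← List.map_drop]
    by_cases h : M.F u (w.take i)
    · rw [if_pos h, if_pos ((hF _).2 h)]
      have h1 := h.1
      have h2 : i ≠ 0 := by intro h; apply h1; simp [h]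
      have h3 : w ≠ [] := by intro h; apply h1; simp [h]
      have h4 := List.length_pos_iff.2 h3
      refine ih (w.drop i).length ?_ _ le_rfl _
      simp only [List.length_drop]; omega
    · rw [if_neg h, if_neg (fun h' => h ((hF _).1 h'))]

lemma rho_map (σ : α → α) (hσ : ∀ w, M.good (w.map σ) ↔ M.good w) (w : List α) :
    M.rho (w.map σ) = M.rho w := by
  cases w with
  | nil => simp [rho]
  | cons a w =>
    have := M.P_map σ hσ w.length w le_rfl [a]
    simpa [rho] using this

variable [Fintype α] [DecidableEq α]

open Classical in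
lemma P_bound (z T : ℝ) (hz : 0 ≤ z) (hT0 : 0 ≤ T) (hT : T ≤ 1 / 2)
    (H : ∀ (u : List α) (K : ℕ), ∑ n ∈ range K, ∑ v ∈ words α n,
      (if M.F u v then ((n : ℝ) + 1) ^ 3 * z ^ n else 0) ≤ (u.length + 1) * T) (K : ℕ) :
    ∀ u : List α, ∑ n ∈ range K, ∑ w ∈ words α n, ((n : ℝ) + 1) ^ 2 * z ^ n * |M.P u w| ≤
      1 + (u.length + 1) * (2 * T) := by
  induction K with
  | zero => intro u; simp; positivity
  | succ K ih =>
    intro u
    set g : List α → List α → ℝ := fun v r =>
      if M.F u v then ((v.length : ℝ) + 1) ^ 2 * z ^ v.length *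
        (((r.length : ℝ) + 1) ^ 2 * z ^ r.length * |M.P v r|) else 0 with hg
    have hg0 : ∀ v r, 0 ≤ g v r := by
      intro v r; simp only [hg]; split_ifs <;> positivity
    have h1 : ∀ n, ∀ w ∈ words α n, ((n : ℝ) + 1) ^ 2 * z ^ n * |M.P u w| ≤
        (if n = 0 then 1 else 0) + ssum w g := by
      intro n w hw
      have hl := mem_words.1 hw
      rw [P_eq]
      have ha : |(if w = [] then (1 : ℝ) else 0) -
          ssum w (fun v r => if M.F u v then M.P v r else 0)| ≤
          (if w = [] then (1 : ℝ) else 0) +
          ssum w (fun v r => if M.F u v then |M.P v r| else 0) := by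
        refine (abs_sub _ _).trans (add_le_add (by split_ifs <;> simp) ?_)
        refine (abs_sum_le_sum_abs _ _).trans (le_of_eq ?_)
        refine sum_congr rfl fun i _ => ?_
        beta_reduce
        split_ifs <;> simp
      refine (mul_le_mul_of_nonneg_left ha (by positivity)).trans ?_
      rw [mul_add]
      refine add_le_add ?_ ?_
      · by_cases h : w = []
        · subst h; simp at hl; subst hl; simp
        · have : n ≠ 0 := by rintro rfl; exact h (List.length_eq_zero_iff.1 hl)
          simp [h, this]
      · rw [ssum, mul_sum, ssum]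
        refine sum_le_sum fun i hi => ?_
        simp only [hg]
        split_ifs with hF
        · have hlen : (w.take i).length + (w.drop i).length = n := by
            rw [← List.length_append, List.take_append_drop, hl]
          set a := (w.take i).length
          set b := (w.drop i).length
          have hn : (n : ℝ) = a + b := by rw [← hlen]; push_cast; ring
          rw [hn, ← hlen, pow_add]
          have ha0 : (0 : ℝ) ≤ a := by positivity
          have hb0 : (0 : ℝ) ≤ b := by positivity
          have : ((a : ℝ) + b + 1) ^ 2 ≤ (a + 1) ^ 2 * (b + 1) ^ 2 := by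
            rw [← mul_pow]; gcongr; nlinarith [mul_nonneg ha0 hb0]
          calc ((a : ℝ) + b + 1) ^ 2 * (z ^ a * z ^ b) * |M.P (w.take i) (w.drop i)|
              ≤ ((a + 1) ^ 2 * (b + 1) ^ 2) * (z ^ a * z ^ b) * |M.P (w.take i) (w.drop i)| := by
                gcongr
            _ = _ := by ring
        · simp
    have h2 : ∑ n ∈ range (K + 1), ∑ w ∈ words α n, ((if n = 0 then (1 : ℝ) else 0) + ssum w g) =
        1 + ∑ i ∈ range (K + 1), ∑ j ∈ range (K + 1 - i),
          ∑ v ∈ words α i, ∑ r ∈ words α j, g v r := by
      simp_rw [sum_add_distrib, sum_words_ssum]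
      rw [sum_range_diag_flip (K + 1) (fun i j => ∑ v ∈ words α i, ∑ r ∈ words α j, g v r)]
      congr 1
      rw [sum_range_succ']
      simp [card_words]
    have h3 : ∀ i, ∑ j ∈ range (K + 1 - i), ∑ v ∈ words α i, ∑ r ∈ words α j, g v r ≤
        (1 + 2 * T) * ∑ v ∈ words α i, (if M.F u v then ((i : ℝ) + 1) ^ 3 * z ^ i else 0) := by
      intro i
      rw [sum_comm, mul_sum]
      refine sum_le_sum fun v hv => ?_
      have hl := mem_words.1 hv
      by_cases hF : M.F u v
      · have hi : i ≠ 0 := by rintro rfl; exact hF.1 (List.length_eq_zero_iff.1 hl)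
        have e : ∀ j, ∑ r ∈ words α j, g v r = ((i : ℝ) + 1) ^ 2 * z ^ i *
            ∑ r ∈ words α j, ((j : ℝ) + 1) ^ 2 * z ^ j * |M.P v r| := by
          intro j
          rw [mul_sum]
          refine sum_congr rfl fun r hr => ?_
          simp only [hg, if_pos hF, hl, mem_words.1 hr]
        simp_rw [e]
        rw [← mul_sum, if_pos hF]
        have hsub : ∑ j ∈ range (K + 1 - i), ∑ r ∈ words α j, ((j : ℝ) + 1) ^ 2 * z ^ j * |M.P v r|
            ≤ ∑ j ∈ range K, ∑ r ∈ words α j, ((j : ℝ) + 1) ^ 2 * z ^ j * |M.P v r| :=
          sum_le_sum_of_subset_of_nonneg (range_subset_range.2 (by omega))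
            (fun j _ _ => sum_nonneg fun r _ => by positivity)
        have hb := hsub.trans (ih v)
        rw [hl] at hb
        have hi0 : (0 : ℝ) ≤ i := by positivity
        have : 1 + ((i : ℝ) + 1) * (2 * T) ≤ (i + 1) * (1 + 2 * T) := by nlinarith
        calc _ ≤ ((i : ℝ) + 1) ^ 2 * z ^ i * ((i + 1) * (1 + 2 * T)) := by
              gcongr; exact hb.trans this
          _ = _ := by ring
      · simp [hg, if_neg hF]
    calc _ ≤ ∑ n ∈ range (K + 1), ∑ w ∈ words α n, ((if n = 0 then (1 : ℝ) else 0) + ssum w g) :=
          sum_le_sum fun n _ => sum_le_sum fun w hw => h1 n w hw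
      _ ≤ 1 + ∑ i ∈ range (K + 1), (1 + 2 * T) *
            ∑ v ∈ words α i, (if M.F u v then ((i : ℝ) + 1) ^ 3 * z ^ i else 0) := by
          rw [h2]; gcongr with i _; exact h3 i
      _ ≤ 1 + (1 + 2 * T) * ((u.length + 1) * T) := by
          rw [← mul_sum]; gcongr; exact H u (K + 1)
      _ ≤ _ := by
          have : (0 : ℝ) ≤ (u.length + 1) * T := by positivity
          nlinarith

end Model

end Pool.Agent.P.MP_2ab770_pr
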