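import Pool.Agent.P.MP_2ab770_pr.IR
import Pool.Agent.P.MP_2ab770_pr.Diag3

set_option autoImplicit false
set_option linter.dupNamespace false
set_option linter.unusedVariables false
set_option linter.unusedSectionVars false

namespace Pool.Agent.P.MP_2ab770_pr

open Finset Filter Topology MeasureTheory
open scoped ENNReal NNReal

variable {d : ℕ}

lemma step_ne (a : Lt d) : step a ≠ 0 := fun h => by
  have := nsq_step a
  rw [h, nsq_zero] at this
  exact zero_ne_one this

lemma parity (e a b : Lt d) : step e - step a - step b ≠ 0 := fun h => by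
  have h1 : ∀ c : Lt d, ∑ j, step c j = if c.2 then 1 else -1 := fun c => by simp [step]
  have := congrArg (fun x : X d => ∑ j, x j) h
  simp only [Pi.sub_apply, sum_sub_distrib, h1, Pi.zero_apply, sum_const_zero] at this
  split_ifs at this <;> omega

lemma G_le (z : ℝ≥0∞) (x : X d) :
    G z x ≤ (if x = 0 then 1 else 0) + z * ∑ a, G z (x - step a) := by
  rw [G, pf_cons, I_good good_nil]
  gcongr with a
  exact pf_mono z (I_cons_le a) _

lemma G_two (z : ℝ≥0∞) (x : X d) : G z x + 2 * d * z * z * G z x ≤ (if x = 0 then 1 else 0) +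
    z * ∑ a, (if x - step a = 0 then 1 else 0) + z * z * ∑ a, ∑ b, G z (x - step a - step b) := by
  have h : ∀ a : Lt d, pf z (fun w => I (a :: w)) (x - step a) + z * G z x ≤
      (if x - step a = 0 then 1 else 0) + z * ∑ b, G z (x - step a - step b) := by
    intro a
    rw [pf_cons, I_good (good_single a), add_assoc, ← mul_add]
    gcongr
    have e : G z x = ∑ b, if b = iv a then G z x else 0 := by simp
    rw [e, ← sum_add_distrib]
    refine sum_le_sum fun b _ => ?_
    split_ifs with hb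
    · have : ∀ w, I (a :: iv a :: w) = 0 := fun w =>
        I_not fun hw => not_good_rev a (good_left (u := [a, iv a]) hw)
      simp [hb, this, pf, step_iv]
    · rw [add_zero]
      exact pf_mono z (fun w => (I_cons_le _ _).trans (I_cons_le _ _)) _
  calc _ = (if x = 0 then 1 else 0) +
        z * ∑ a, (pf z (fun w => I (a :: w)) (x - step a) + z * G z x) := by
        have e : G z x = _ := pf_cons z I x
        rw [I_good good_nil] at e
        rw [sum_add_distrib, sum_const_Lt, mul_add, ← add_assoc, ← e]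
        ring
    _ ≤ (if x = 0 then 1 else 0) + z * ∑ a, ((if x - step a = 0 then 1 else 0) +
        z * ∑ b, G z (x - step a - step b)) := add_le_add_right (mul_le_mul_right (sum_le_sum fun a _ => h a) _) _
    _ = _ := by rw [sum_add_distrib, ← mul_sum]; ring

lemma pf_end (z : ℝ≥0∞) (φ : List (Lt d) → ℝ≥0∞) (a : Lt d) (h : φ [iv a] = 1) :
    pf z (fun w => φ w * I (w ++ [a])) (-step a) + z ≤ pf z (fun w => φ w * I w) (-step a) := by
  classical
  have := pf_one z [iv a] (-step a)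
  rw [if_pos (by rw [disp_single, step_iv]), List.length_singleton, pow_one] at this
  refine le_trans (le_of_eq ?_) (pf_mono z (φ := fun w => φ w * I (w ++ [a]) +
    if w = [iv a] then 1 else 0) (fun w => ?_) _)
  · rw [pf_add, this]
  · split_ifs with hw
    · have := not_good_rev (iv a)
      rw [iv_iv] at this
      simp [hw, h, I_not this, I_good (good_single _)]
    · rw [add_zero]; exact mul_le_mul_right (I_append_le _ _) _

lemma B_two (z : ℝ≥0∞) :
    pf z (fun w => (w.length + 1) * I w) (0 : X d) + 2 * d * z * z ≤ GG z (0 : X d) := by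
  classical
  have e : pf z (fun w => ∑ a : Lt d, if w = [a, iv a] then 1 else 0) (0 : X d) = 2 * d * z * z := by
    rw [pf_sum, mul_assoc, ← sum_const_Lt]
    refine sum_congr rfl fun a _ => ?_
    rw [pf_one, if_pos (by simp [disp, step_iv])]; simp [pow_two]
  rw [← e, ← pf_add, GG, G, ← pf_cat]
  refine pf_mono z (fun w => ?_) _
  by_cases h : ∃ a, w = [a, iv a]
  · obtain ⟨a, rfl⟩ := h
    rw [sum_eq_single a (fun b _ hb => if_neg (by simp [hb.symm])) (by simp), if_pos rfl,
      I_not (not_good_rev a)]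
    simp [ssum_cons, ssum_nil, I_good (good_single _), I_not (not_good_rev a)]
  · rw [sum_eq_zero fun a _ => if_neg fun h' => h ⟨a, h'⟩, add_zero]; exact ssum_I w

lemma GG_le (z : ℝ≥0∞) (y : X d) : GG z y ≤ G z y + z * ∑ a, GG z (y - step a) := by
  rw [GG, ec]
  refine (ENNReal.tsum_le_tsum fun x => mul_le_mul_right (G_le z (y - x)) _).trans (le_of_eq ?_)
  simp only [mul_add, ENNReal.tsum_add, mul_left_comm _ z, mul_sum]
  rw [tsum_eq_single y fun x hx => by simp [sub_eq_zero, hx.symm],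
    Summable.tsum_finsetSum fun _ _ => ENNReal.summable]
  simp only [sub_self, if_true, mul_one, ENNReal.tsum_mul_left, ec, sub_right_comm y _ (step _)]

lemma len_le (z : ℝ≥0∞) (x : X d) :
    pf z (fun w => w.length * I w) x ≤ z * ∑ a, GG z (x - step a) := by
  rw [pf_cons]
  simp only [List.length_nil, Nat.cast_zero, zero_mul, ite_self, zero_add]
  gcongr with a
  refine le_trans (pf_mono z (fun w => ?_) _) (B_le_GG z _)
  simpa using mul_le_mul_right (I_cons_le a w) _

lemma Sy.nb {u : X d → ℝ} (h : Sy u) : Sy (rc nn u) := fun S x => by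
  rw [rc_nn, rc_nn, ← S.σ.sum_comp]
  exact sum_congr rfl fun a _ => by rw [S.hs, ← map_sub, h]

lemma Sy.avg {u : X d → ℝ} (h : Sy u) (a : Lt d) : rc nn u 0 = 2 * d * u (step a) := by
  have : ∀ b, u (0 - step b) = u (step a) := fun b => by
    rw [zero_sub, h.neg]
    exact sym_const (fun c => u (step c)) (fun S c => by rw [S.hs, h]) b a
  simp [rc_nn, this, mul_comm, -zero_sub]

lemma Sy.cv {u : X d → ℝ} (h : Sy u) : Sy (rc u u) := fun S x => by
  unfold rc
  rw [← S.T.toEquiv.tsum_eq]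
  refine tsum_congr fun y => ?_
  change u (S.T y) * u (S.T x - S.T y) = _
  rw [← map_sub, h, h]

lemma FT_N (hd : 0 < d) {u : X d → ℝ} {ψ : (Fin d → ℝ) → ℝ} (h : Summable u ∧ ∀ k, FT u k = ψ k) :
    Summable (rc nn u) ∧ ∀ k, FT (rc nn u) k = ((2 * d * DD k * ψ k : ℝ) : ℂ) :=
  ⟨rc_summ summ_nn h.1, fun k => by rw [FT_rc summ_nn h.1, FT_nn hd, h.2, ← Complex.ofReal_mul]⟩

lemma fbounds (hd : 0 < d) {J1 J2 J K : ℝ} (H : Ints d J1 J2 J) {g : X d → ℝ} (hg : Nc g)
    (hK : ∀ k, YY k * |CT g k| ≤ K) :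
    (∀ x, ∑ a, ∑ b, g (x - step a - step b) ≤ (2 * d) ^ 2 * (K * J1)) ∧
    (∀ e, ∑ a, ∑ b, ∑ c, g (step e - step a - step b - step c) ≤ (2 * d) ^ 3 * (K * J2)) ∧
    (∀ y, rc g g y ≤ K ^ 2 * (1 + 2 * J1 + J)) ∧
    (∀ e, ∑ a, rc g g (step e - step a) ≤ 2 * d * (K ^ 2 * J)) ∧
    (∀ e, rc g g 0 + rc g g (step e) ≤ K ^ 2 * (1 + 3 * J1 + 2 * J)) ∧
    (∀ y, y ≠ 0 → rc g g y + 2 * g 0 ≤ 2 * g y + rc g g 0 + 1) := by
  have hd0 : (0 : ℝ) < 2 * d := by have : (0 : ℝ) < d := by exact_mod_cast hd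
                                   linarith
  have h0 : Summable g ∧ ∀ k, FT g k = CT g k := ⟨hg.s, FT_even hg.s hg.y.neg⟩
  have h2 : Summable (rc g g) ∧ ∀ k, FT (rc g g) k = (CT g k ^ 2 : ℝ) :=
    ⟨rc_summ hg.s hg.s, fun k => by rw [FT_rc hg.s hg.s, h0.2]; push_cast; ring⟩
  have b1 : ∀ᵐ k ∂(mu d), |CT g k| ≤ K / YY k ∧ CT g k ^ 2 ≤ K ^ 2 / YY k ^ 2 ∧
      0 < YY k ∧ YY k < 2 :=
    (ae_DD hd).mono fun k hk => by
      have : |CT g k| ≤ K / YY k := by rw [le_div_iff₀ hk.1, mul_comm]; exact hK k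
      exact ⟨this, by rw [← sq_abs, ← div_pow]; gcongr, hk⟩
  refine ⟨fun x => ?_, fun e => ?_, fun y => ?_, fun e => ?_, fun e => ?_, fun y hy => ?_⟩
  · have h := FT_N hd (FT_N hd h0)
    have := le_integral_of h.1 h.2 (H.i1.1.const_mul ((2 * d) ^ 2 * K)) (b1.mono fun k hk => by
      rw [← mul_assoc, abs_mul, abs_mul_self]
      exact (mul_le_mul_of_nonneg_left hk.1 (mul_self_nonneg _)).trans (le_of_eq (by ring))) x
    have K0 : 0 ≤ K := le_trans (mul_nonneg (YY_nonneg 0) (abs_nonneg _)) (hK 0)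
    simp only [rc_nn, integral_const_mul] at this
    rw [← mul_assoc]
    exact this.trans (mul_le_mul_of_nonneg_left H.i1.2 (by positivity))
  · have h := FT_N hd (FT_N hd (FT_N hd (FT_N hd h0)))
    have := le_integral_of h.1 h.2 (H.i2.1.const_mul ((2 * d) ^ 4 * K)) (b1.mono fun k hk => by
      rw [show ∀ a b : ℝ, a * (a * (a * (a * b))) = (a ^ 2) ^ 2 * b from fun a b => by ring,
        abs_mul, abs_sq]
      exact (mul_le_mul_of_nonneg_left hk.1 (sq_nonneg _)).trans (le_of_eq (by ring))) 0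
    have K0 : 0 ≤ K := le_trans (mul_nonneg (YY_nonneg 0) (abs_nonneg _)) (hK 0)
    rw [hg.y.nb.nb.nb.avg e, integral_const_mul] at this
    simp only [rc_nn] at this
    refine le_of_mul_le_mul_left (this.trans ?_) hd0
    exact (mul_le_mul_of_nonneg_left H.i2.2 (by positivity)).trans (le_of_eq (by ring))
  · have := le_integral_of h2.1 h2.2 ((H.w2 hd).1.const_mul (K ^ 2)) (b1.mono fun k hk => by
      rw [abs_sq, mul_one_div]; exact hk.2.1) y
    rw [integral_const_mul] at this
    exact this.trans ((mul_le_mul_of_nonneg_left (H.w2 hd).2 (by positivity)).trans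
      (le_of_eq (by ring)))
  · have h := FT_N hd (FT_N hd h2)
    have := zero_le_integral_of h.1 h.2 (H.i3.1.const_mul ((2 * d) ^ 2 * K ^ 2))
      (b1.mono fun k hk => by
        rw [← mul_assoc]
        exact (mul_le_mul_of_nonneg_left hk.2.1 (mul_self_nonneg _)).trans (le_of_eq (by ring)))
    rw [hg.y.cv.nb.avg e, integral_const_mul, rc_nn] at this
    refine le_of_mul_le_mul_left (this.trans ?_) hd0
    exact (mul_le_mul_of_nonneg_left H.i3.2 (by positivity)).trans (le_of_eq (by ring))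
  · have h := FT_N hd h2
    obtain ⟨i1, i2⟩ := H.poly hd (a := 1) (b := 3) (c := 3) (e := 2) (by norm_num) (by norm_num)
      (m := fun k => (1 + DD k) / YY k ^ 2) fun k hk => by rw [DD]; field_simp; ring
    have := zero_le_integral_of ((h2.1.mul_left (2 * d : ℝ)).add h.1)
      (ψ := fun k => 2 * d * (1 + DD k) * CT g k ^ 2) (fun k => by
        rw [FT_add (h2.1.mul_left _) h.1, FT_mul, h.2, h2.2]; push_cast; ring)
      (i1.const_mul (2 * d * K ^ 2)) (b1.mono fun k hk => by
        have : 0 ≤ 1 + DD k := by rw [DD]; linarith [hk.2.2.2]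
        exact (mul_le_mul_of_nonneg_left hk.2.1 (by positivity)).trans (le_of_eq (by ring)))
    rw [hg.y.cv.avg e, integral_const_mul, ← mul_add] at this
    refine le_of_mul_le_mul_left (this.trans ?_) hd0
    exact (mul_le_mul_of_nonneg_left i2 (by positivity)).trans (le_of_eq (by ring))
  · have s1 := h2.1.sub (hg.s.mul_left 2)
    have hF : ∀ k, FT (fun x => rc g g x - 2 * g x + dl 0 x) k = (((CT g k - 1) ^ 2 : ℝ) : ℂ) :=
      fun k => by
        rw [FT_add s1 (summ_dl 0), FT_sub h2.1 (hg.s.mul_left 2), FT_mul, h2.2, h0.2, FT_dl,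
          chr_zero]
        push_cast; ring
    obtain ⟨i1, i2⟩ := real_inv (s1.add (summ_dl 0)) hF
    have := le_integral_of (s1.add (summ_dl 0)) hF i1
      (Eventually.of_forall fun k => (abs_sq _).le) y
    have i3 := i2 0
    simp only [th_zero, Real.cos_zero, mul_one] at i3
    rw [← i3] at this
    simp only [dl, if_neg hy, if_true] at this
    linarith

lemma nc_of {F : X d → ℝ≥0∞} (f1 : ∑' x, F x ≠ ⊤) (f2 : ∑' x, F x * nsq x ≠ ⊤)
    (sy : ∀ (S : Sym d) x, F (S.T x) = F x) : Nc fun x => (F x).toReal :=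
  ⟨fun x => ENNReal.toReal_nonneg, ENNReal.summable_toReal f1,
    (ENNReal.summable_toReal f2).congr fun x => by simp [mul_comm],
    fun S x => by simp only [sy]⟩

lemma ec_real {F H : X d → ℝ≥0∞} (f1 : ∑' x, F x ≠ ⊤) (f2 : ∑' x, H x ≠ ⊤) (y : X d) :
    ec F H y ≠ ⊤ ∧ (ec F H y).toReal = rc (fun x => (F x).toReal) (fun x => (H x).toReal) y := by
  refine ⟨ENNReal.ne_top_of_tsum_ne_top (by rw [tsum_ec]; finiteness) y, ?_⟩
  rw [ec, ENNReal.tsum_toReal_eq fun x => ENNReal.mul_ne_top (ENNReal.ne_top_of_tsum_ne_top f1 _)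
    (ENNReal.ne_top_of_tsum_ne_top f2 _)]
  simp only [ENNReal.toReal_mul, rc]

/-- real valued two point function -/
noncomputable def Gr (z : ℝ≥0) (x : X d) : ℝ := (G z x).toReal

theorem hx_of (hd : 0 < d) {J1 J2 J z c K W G0 g3 G1 GG0 GGe GG1 b nu U AU BU l lp : ℝ≥0}
    (H : Ints d J1 J2 J) (hc : c = 2 * d * z) (f1 : ∑' x : X d, G z x ≠ ⊤)
    (f2 : ∑' x : X d, G z x * nsq x ≠ ⊤) (hK : ∀ k : Fin d → ℝ, YY k * |CT (Gr z) k| ≤ K)
    (hW : ∀ x : X d, nsq x * Gr z x ≤ W)
    (c1 : 1 + c ^ 2 * (K * J1) ≤ G0 + c * z) (c2 : c ^ 3 * (K * J2) ≤ g3 + c * z * z)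
    (c3 : z + g3 ≤ G1) (c4 : c ^ 2 * (K * J1) ≤ G1) (c5 : K ^ 2 * (1 + 2 * J1 + J) ≤ GG0)
    (c6 : z + g3 + c * (K ^ 2 * J) ≤ GGe) (c7 : 2 * G1 + GG0 ≤ GG1 + 1)
    (c8 : z * (K ^ 2 * (1 + 3 * J1 + 2 * J)) ≤ b) (c9 : z * (GG1 + GG1) ≤ b)
    (c10 : z * (G0 + g3) ≤ nu) (c11 : z * (G1 + G1) ≤ nu) (c12 : G0 ≤ U)
    (c13 : AU * W + BU * G1 ≤ U) (c14 : Adm AU BU) (c15 : W ≤ U) (c16 : GG0 ≤ 1 + l + c * z)
    (c17 : c * (K ^ 2 * J) ≤ lp + z) :
    Hx d ⟨z, G0, g3, G1, GG0, GGe, b, nu, U, W, l, lp⟩ ∧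
      (∀ y : X d, rc (Gr z) (Gr z) y ≤ GG0) ∧ ∀ y : X d, y ≠ 0 → rc (Gr z) (Gr z) y ≤ GG1 := by
  obtain ⟨b1, b2, b3, b4, b5, b6⟩ := fbounds hd H (nc_of f1 f2 fun S => G_sym S z) hK
  obtain ⟨g, hg⟩ : ∃ g : X d → ℝ≥0, ∀ x, G z x = g x :=
    ⟨fun x => (G z x).toNNReal, fun x =>
      (ENNReal.coe_toNNReal (ENNReal.ne_top_of_tsum_ne_top f1 x)).symm⟩
  obtain ⟨gg, hgg⟩ : ∃ gg : X d → ℝ≥0, ∀ x, GG z x = gg x :=
    ⟨fun x => (GG z x).toNNReal, fun x => (ENNReal.coe_toNNReal (ec_real f1 f1 x).1).symm⟩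
  have e2 : ∀ y, rc (fun x => (G z x).toReal) (fun x => (G z x).toReal) y = gg y := fun y => by
    rw [← (ec_real f1 f1 y).2, ← GG, hgg]; rfl
  unfold Gr at hW ⊢
  simp only [e2] at b3 b4 b5 b6 ⊢
  simp only [hg, ENNReal.coe_toReal] at b1 b2 b6 hW
  norm_cast at b1 b2 b3 b4 b5 b6 hW
  push_cast at b1 b2 b4
  have a0 : 1 ≤ g 0 := by have := one_le_G (d := d) z; rw [hg] at this; exact_mod_cast this
  have a1 : ∀ x, g x + c * z * g x ≤ (if x = 0 then 1 else 0) +
      z * ∑ a, (if x - step a = 0 then 1 else 0) + z * z * ∑ a, ∑ b, g (x - step a - step b) := by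
    intro x
    have := G_two z x
    simp only [hg] at this
    rw [hc, ← ENNReal.coe_le_coe]
    push_cast [apply_ite]
    exact this
  have a2 : ∀ x, g x ≤ (if x = 0 then 1 else 0) + z * ∑ a, g (x - step a) := by
    intro x
    have := G_le z x
    simp only [hg] at this
    rw [← ENNReal.coe_le_coe]
    push_cast [apply_ite]
    exact this
  have a3 : ∀ x, z * z * ∑ a, ∑ b, g (x - step a - step b) ≤ c ^ 2 * (K * J1) := fun x =>
    (mul_le_mul_right (b1 x) _).trans (le_of_eq (by rw [hc]; ring))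
  have a4 : g 0 ≤ G0 := by
    have := (a1 0).trans (add_le_add_right (a3 0) _)
    simp only [if_true, zero_sub, neg_eq_zero, step_ne, if_false, sum_const_zero, mul_zero,
      add_zero] at this
    exact le_of_add_le_add_right ((add_le_add_right (le_mul_of_one_le_right' a0) _).trans
      (this.trans c1))
  have a5 : ∀ e, z ≤ g (step e) := fun e => by
    have := le_add_self.trans (pf_end z (fun _ => 1) (iv e) rfl)
    simp only [one_mul, step_iv, neg_neg] at this
    have h2 := this.trans_eq (hg _)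
    exact_mod_cast h2
  have a6 : ∀ e, g (step e) ≤ z + g3 := fun e => by
    have h1 := a1 (step e)
    simp only [step_ne, if_false, sub_eq_zero, step_injective.eq_iff, sum_ite_eq, mem_univ, if_true,
      zero_add, mul_one] at h1
    have h2 : ∑ a, ∑ b, g (step e - step a - step b) ≤
        z * ∑ a, ∑ b, ∑ c, g (step e - step a - step b - step c) := by
      rw [mul_sum]
      refine sum_le_sum fun a _ => ?_
      rw [mul_sum]
      exact sum_le_sum fun b _ => by simpa [parity] using a2 (step e - step a - step b)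
    refine le_of_add_le_add_right ((add_le_add_right (mul_le_mul_right (a5 e) (c * z)) _).trans
      (h1.trans ?_))
    rw [add_assoc]
    refine add_le_add_right (le_trans ?_ c2) _
    exact (mul_le_mul_right (h2.trans (mul_le_mul_right (b2 e) _)) _).trans
      (le_of_eq (by rw [hc]; ring))
  have a7 : ∀ y, y ≠ 0 → g y ≤ G1 := fun y hy => by
    by_cases h : ∃ e, y = step e
    · obtain ⟨e, rfl⟩ := h
      exact (a6 e).trans c3
    · have := (a1 y).trans (add_le_add_right (a3 y) _)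
      rw [if_neg hy, sum_eq_zero fun a _ => if_neg fun h' => h ⟨a, sub_eq_zero.1 h'⟩] at this
      exact le_self_add.trans (this.trans (by simpa using c4))
  have a8 : ∀ y, gg y ≤ GG0 := fun y => (b3 y).trans c5
  have a9 : ∀ y, y ≠ 0 → gg y ≤ GG1 := fun y hy => by
    have h1 := b6 y hy
    have h2 := a7 y hy
    have h3 := a8 0
    rw [← NNReal.coe_le_coe] at *
    push_cast at *
    linarith
  have a10 : ∀ e, z * ∑ a, gg (step e - step a) ≤ c * (K ^ 2 * J) := fun e =>
    (mul_le_mul_right (b4 e) _).trans (le_of_eq (by rw [hc]; ring))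
  have a11 : pf z (fun w => (w.length + 1) * I w) (0 : X d) ≤ 1 + l := by
    have := (B_two (d := d) z).trans_eq (hgg 0)
    refine ENNReal.le_of_add_le_add_right (by finiteness) (this.trans ?_)
    have := (a8 0).trans c16
    rw [hc] at this
    exact_mod_cast this
  have gn : ∀ y, gg (-y) = gg y := fun y => by
    have := GG_neg z y
    rw [hgg, hgg] at this
    exact_mod_cast this
  refine ⟨⟨?_, fun a => ?_, fun y hy => ?_, fun y => ?_, fun a => ?_, fun y a => ?_, ?_, ?_,
    fun y => ?_, fun y a => ?_, ?_, ?_, a11, fun a => ?_⟩, fun y => by exact_mod_cast a8 y,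
    fun y hy => by exact_mod_cast a9 y hy⟩ <;> dsimp only
  · rw [hg]; exact_mod_cast a4
  · have := pf_end z (fun _ => 1) a rfl
    simp only [one_mul] at this
    refine ENNReal.le_of_add_le_add_right ENNReal.coe_ne_top ((this.trans_eq (hg _)).trans ?_)
    rw [← step_iv, add_comm]
    exact_mod_cast a6 _
  · rw [hg]; exact_mod_cast a7 y hy
  · rw [hgg]; exact_mod_cast a8 y
  · refine (GG_le z _).trans ?_
    simp only [hg, hgg]
    exact_mod_cast (add_le_add (a6 a) (a10 a)).trans c6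
  · rw [hgg, hgg]
    norm_cast
    by_cases h1 : y = 0
    · rw [h1, zero_add]; exact (mul_le_mul_right (b5 a) _).trans c8
    by_cases h2 : y + step a = 0
    · rw [h2, eq_neg_of_add_eq_zero_left h2, gn, add_comm]
      exact (mul_le_mul_right (b5 a) _).trans c8
    · exact (mul_le_mul_right (add_le_add (a9 _ h1) (a9 _ h2)) _).trans c9
  · exact_mod_cast c10
  · exact_mod_cast c11
  · rw [hg]; exact_mod_cast hW y
  · by_cases h1 : y = 0
    · rw [h1, zero_add, nsq_step, hg, Nat.cast_one, one_mul]; exact_mod_cast a4.trans c12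
    · refine (mul_le_mul_left (c14 d y _) _).trans ?_
      rw [nsq_step, hg, Nat.cast_one, mul_one, add_mul, mul_assoc]
      exact_mod_cast (add_le_add (mul_le_mul_right (hW y) _) (mul_le_mul_right (a7 y h1) _)).trans c13
  · exact_mod_cast c15
  · refine ENNReal.le_of_add_le_add_left ENNReal.one_ne_top (le_trans ?_ a11)
    simp only [add_mul, one_mul, pf_add]
    rw [add_comm]
    exact add_le_add_right (one_le_G z) _
  · refine ENNReal.le_of_add_le_add_right ENNReal.coe_ne_top
      ((pf_end z (fun w => w.length) a (by simp)).trans ((len_le z _).trans ?_))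
    simp only [hgg, ← step_iv]
    exact_mod_cast (a10 _).trans c17

end Pool.Agent.P.MP_2ab770_pr
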